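import Mathlib

/-!
The kernel of an automatic sequence; its subshift.
-/

set_option autoImplicit false

namespace Pool.Agent.Lib.MP_3e612f_nt.LV

open Finset

/-- the `b`-kernel of a sequence -/
def kern {A : Type} (b : ℕ) (a : ℕ → A) : Set (ℕ → A) :=
  {s | ∃ l v : ℕ, v < b ^ l ∧ ∀ n, s n = a (b ^ l * n + v)}

/-- the sequence of the blocks of length `m` -/
def blk {A : Type} (m : ℕ) (a : ℕ → A) : ℕ → Fin m → A := fun n j => a (n + j)

/-- the sequences all of whose initial blocks occur in `a` -/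
def XA {A : Type} (a : ℕ → A) : Set (ℕ → A) := {x | ∀ l : ℕ, ∃ s : ℕ, ∀ j < l, x j = a (j + s)}

/-- PROOF. `l = v = 0`. -/
theorem kern_self {A : Type} (b : ℕ) (a : ℕ → A) : a ∈ kern b a := by
  exact ⟨0, 0, by simp, by simp⟩

/-- PROOF. `a (b ^ l * (b * n + d) + v) = a (b ^ (l + 1) * n + (b ^ l * d + v))`. -/
theorem kern_step {A : Type} {b : ℕ} {a s : ℕ → A} (hs : s ∈ kern b a) {d : ℕ} (hd : d < b) :
    (fun n => s (b * n + d)) ∈ kern b a := by
  obtain ⟨l, v, hv, h⟩ := hs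
  refine ⟨l + 1, b ^ l * d + v, ?_, fun n => ?_⟩
  · calc b ^ l * d + v < b ^ l * d + b ^ l := by omega
      _ = b ^ l * (d + 1) := by ring
      _ ≤ b ^ l * b := Nat.mul_le_mul_left _ hd
      _ = b ^ (l + 1) := by ring
  · change s (b * n + d) = _
    rw [h]
    congr 1
    ring

/-- the sequence of blocks is automatic. PROOF. For `l, v`, `v < b ^ l`: `blk m a (b ^ l * n + v) j = a (b ^ l * n + (v + j))`,
`v + j = b ^ l * e + v'` with `v' < b ^ l` and `e ≤ m` (as `v + j < b ^ l + m ≤ b ^ l * (m + 1)`); so it is `s j (n + e j)` with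
`s j ∈ kern b a`, `e j ≤ m`. Hence `kern b (blk m a)` is contained in the image of the finite set of all
`(s, e)`, `s : Fin m → kern b a`, `e : Fin m → Fin (m + 1)`, under `(s, e) ↦ fun n j => s j (n + e j)`. -/
theorem kern_blk {A : Type} {b : ℕ} (hb : 2 ≤ b) {a : ℕ → A} (ha : (kern b a).Finite) (m : ℕ) :
    (kern b (blk m a)).Finite := by
  have hfin : Finite (kern b a) := ha.to_subtype
  let Φ : (Fin m → kern b a) × (Fin m → Fin (m + 1)) → (ℕ → Fin m → A) :=
    fun p n j => (p.1 j : ℕ → A) (n + (p.2 j : ℕ))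
  refine (Set.finite_range Φ).subset ?_
  rintro t ⟨l, v, hv, ht⟩
  have hbl : 0 < b ^ l := Nat.pow_pos (by omega)
  have he : ∀ j : Fin m, (v + j) / b ^ l < m + 1 := by
    intro j
    rw [Nat.div_lt_iff_lt_mul hbl]
    have h1 : m ≤ m * b ^ l := Nat.le_mul_of_pos_right m hbl
    have h2 := j.2
    calc v + (j : ℕ) < b ^ l + m := by omega
      _ ≤ (m + 1) * b ^ l := by rw [Nat.add_mul, one_mul]; omega
  refine ⟨(fun j => ⟨fun n => a (b ^ l * n + (v + j) % b ^ l),
    l, (v + j) % b ^ l, Nat.mod_lt _ hbl, fun n => rfl⟩,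
    fun j => ⟨(v + j) / b ^ l, he j⟩), ?_⟩
  funext n j
  rw [ht]
  change a (b ^ l * (n + (v + j) / b ^ l) + (v + j) % b ^ l) = a (b ^ l * n + v + j)
  congr 1
  have h3 := Nat.div_add_mod (v + (j : ℕ)) (b ^ l)
  rw [Nat.mul_add]
  omega

theorem XA_nonempty {A : Type} (a : ℕ → A) : a ∈ XA a := fun _ => ⟨0, fun _ _ => rfl⟩

/-- PROOF. As `LU.XQ_closed` (file LU/Sub): the complement of the condition for one `l` is open, it depends on finitely
many coordinates. -/
theorem XA_closed {A : Type} [TopologicalSpace A] [DiscreteTopology A] (a : ℕ → A) :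
    IsClosed (XA a) := by
  have h : XA a = ⋂ l : ℕ, (fun (x : ℕ → A) (j : Fin l) => x j) ⁻¹'
      {y : Fin l → A | ∃ s : ℕ, ∀ j : Fin l, y j = a (j + s)} := by
    ext x
    rw [Set.mem_iInter]
    refine forall_congr' fun l => exists_congr fun s => ?_
    exact ⟨fun hx j => hx j j.2, fun hx j hj => hx ⟨j, hj⟩⟩
  rw [h]
  refine isClosed_iInter fun l => IsClosed.preimage ?_ (isClosed_discrete _)
  exact continuous_pi fun j => continuous_apply _

theorem XA_shift {A : Type} {a x : ℕ → A} (hx : x ∈ XA a) (n : ℕ) : (fun j => x (j + n)) ∈ XA a := by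
  intro l
  obtain ⟨s, hs⟩ := hx (l + n)
  exact ⟨n + s, fun j hj => (hs (j + n) (by omega)).trans (by rw [Nat.add_assoc])⟩

end Pool.Agent.Lib.MP_3e612f_nt.LV
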