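import Pool.Agent.Lib.MP_3e612f_nt.LV.EntW
import Pool.Agent.Lib.MP_3e612f_nt.LV.AuKern

/-!
The subshift of an automatic sequence has small complexity.
-/

set_option autoImplicit false

namespace Pool.Agent.Lib.MP_3e612f_nt.LV

open Finset

/-- **complexity of automatic sequences**. PROOF. Let `K = kern b a` (finite, nonempty), `N = card (K → A)` (`A` is
nonempty: `a 0`). For `k` let `l = k`, so `2 ^ k ≤ b ^ k`. The block of length `b ^ k` of `a` at the place `s`,
`s = b ^ k * n + v`, `v < b ^ k`, is determined by `v` and the two functions `σ ↦ σ n`, `σ ↦ σ (n + 1)` from `K` to `A`: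
`a (b ^ k * n + v') = σ n` with `σ = fun n => a (b ^ k * n + v') ∈ K` for `v' < b ^ k`. So a point `x ∈ XA a` has a
code `(v, f₁, f₂)` with `v < b ^ k`, i.e. at most `b ^ k * N ^ 2 ≤ (b * N ^ 2) ^ (k + 1)` codes (choose one `s` for
`l = b ^ k` by `hx`; the code of `x ∉ XA a` is arbitrary). Two points of `XA a` with equal codes agree on the first
`b ^ k ≥ 2 ^ k` coordinates. Use an injection into `Fin ((b * N ^ 2) ^ (k + 1))` (`Fintype.card_le`, `Fin.castLE`). -/
theorem words_auto {A : Type} [Finite A] {b : ℕ} (hb : 2 ≤ b) {a : ℕ → A}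
    (ha : (kern b a).Finite) : Words (XA a) := by
  classical
  have hK : Finite (kern b a) := ha.to_subtype
  have hF : Fintype (kern b a → A) := Fintype.ofFinite _
  have hNe : Nonempty (kern b a → A) := ⟨fun _ => a 0⟩
  set N : ℕ := Fintype.card (kern b a → A) with hN
  have hN1 : 1 ≤ N := Fintype.card_pos
  have hA1 : 1 ≤ b * N ^ 2 := Nat.mul_pos (by omega) (Nat.pow_pos hN1)
  refine ⟨b * N ^ 2, hA1, fun k => ?_⟩
  have hbk : 0 < b ^ k := Nat.pow_pos (by omega)
  have h2k : 2 ^ k ≤ b ^ k := Nat.pow_le_pow_left hb k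
  -- the code of a place
  let code : ℕ → Fin (b ^ k) × (kern b a → A) × (kern b a → A) := fun s =>
    (⟨s % b ^ k, Nat.mod_lt _ hbk⟩, fun σ => (σ : ℕ → A) (s / b ^ k),
      fun σ => (σ : ℕ → A) (s / b ^ k + 1))
  have hcode : ∀ s t : ℕ, code s = code t → ∀ i < 2 ^ k, a (i + s) = a (i + t) := by
    intro s t hst i hi
    have e1 : s % b ^ k = t % b ^ k := congrArg (fun p => (p.1 : ℕ)) hst
    have e2 : ∀ σ : kern b a, (σ : ℕ → A) (s / b ^ k) = (σ : ℕ → A) (t / b ^ k) := fun σ =>
      congrFun (congrArg (fun p => p.2.1) hst) σ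
    have e3 : ∀ σ : kern b a, (σ : ℕ → A) (s / b ^ k + 1) = (σ : ℕ → A) (t / b ^ k + 1) := fun σ =>
      congrFun (congrArg (fun p => p.2.2) hst) σ
    have hs := Nat.div_add_mod s (b ^ k)
    have ht := Nat.div_add_mod t (b ^ k)
    have hm := Nat.mod_lt s hbk
    rw [← e1] at ht
    by_cases hlt : s % b ^ k + i < b ^ k
    · have h1 := e2 ⟨fun n => a (b ^ k * n + (s % b ^ k + i)), k, s % b ^ k + i, hlt, fun _ => rfl⟩
      change a (b ^ k * (s / b ^ k) + (s % b ^ k + i)) =
        a (b ^ k * (t / b ^ k) + (s % b ^ k + i)) at h1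
      have g1 : i + s = b ^ k * (s / b ^ k) + (s % b ^ k + i) := by omega
      have g2 : i + t = b ^ k * (t / b ^ k) + (s % b ^ k + i) := by omega
      rw [g1, g2]
      exact h1
    · have h1 := e3 ⟨fun n => a (b ^ k * n + (s % b ^ k + i - b ^ k)), k,
        s % b ^ k + i - b ^ k, by omega, fun _ => rfl⟩
      change a (b ^ k * (s / b ^ k + 1) + (s % b ^ k + i - b ^ k)) =
        a (b ^ k * (t / b ^ k + 1) + (s % b ^ k + i - b ^ k)) at h1
      rw [Nat.mul_add, Nat.mul_add, mul_one] at h1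
      have g1 : i + s = b ^ k * (s / b ^ k) + b ^ k + (s % b ^ k + i - b ^ k) := by omega
      have g2 : i + t = b ^ k * (t / b ^ k) + b ^ k + (s % b ^ k + i - b ^ k) := by omega
      rw [g1, g2]
      exact h1
  -- the number of codes
  have hcard : Fintype.card (Fin (b ^ k) × (kern b a → A) × (kern b a → A)) ≤
      (b * N ^ 2) ^ (k + 1) := by
    rw [Fintype.card_prod, Fintype.card_prod, Fintype.card_fin, ← hN, ← sq, mul_pow]
    refine Nat.mul_le_mul (Nat.pow_le_pow_right (by omega) (Nat.le_succ k)) ?_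
    exact Nat.le_self_pow (by omega) _
  let emb : Fin (b ^ k) × (kern b a → A) × (kern b a → A) → Fin ((b * N ^ 2) ^ (k + 1)) :=
    fun p => Fin.castLE hcard (Fintype.equivFin _ p)
  have hemb : Function.Injective emb := fun p q hpq =>
    (Fintype.equivFin _).injective (Fin.castLE_injective hcard hpq)
  refine ⟨fun x => if h : x ∈ XA a then emb (code (h (2 ^ k)).choose) else emb (code 0), ?_⟩
  intro x hx y hy hxy i hi
  simp only [dif_pos hx, dif_pos hy] at hxy
  have h1 := hcode _ _ (hemb hxy) i hi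
  rw [(hx (2 ^ k)).choose_spec i hi, (hy (2 ^ k)).choose_spec i hi]
  exact h1

end Pool.Agent.Lib.MP_3e612f_nt.LV
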