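import Pool.Agent.Lib.MP_3e612f_nt.LV.AuTw

/-!
Change of the base: every automaton gives automaton data in the sense of `AD` in a power of the base.
-/

set_option autoImplicit false

namespace Pool.Agent.Lib.MP_3e612f_nt.LV

open Finset

/-- in a finite monoid every element has an idempotent power. PROOF. Pigeonhole (`Finite`, `ℕ` infinite):
`x ^ a = x ^ (a + k)` with `k ≥ 1` for some `a`; then `x ^ m = x ^ (m + k * j)` for `m ≥ a`, and `n = k * (a + 1)` works:
`x ^ (n + n) = x ^ n`. -/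
theorem idem_pow {M : Type} [Monoid M] [Finite M] (x : M) : ∃ n, 1 ≤ n ∧ x ^ n * x ^ n = x ^ n := by
  obtain ⟨a, c, hac, h⟩ : ∃ a c : ℕ, a < c ∧ x ^ a = x ^ c := by
    obtain ⟨a, c, hne, h⟩ := Finite.exists_ne_map_eq_of_infinite (fun n : ℕ => x ^ n)
    rcases lt_or_gt_of_ne hne with h1 | h1
    · exact ⟨a, c, h1, h⟩
    · exact ⟨c, a, h1, h.symm⟩
  obtain ⟨k, rfl⟩ : ∃ k, c = a + k := ⟨c - a, by omega⟩
  have h0 : ∀ m, a ≤ m → x ^ (m + k) = x ^ m := by
    intro m hm
    obtain ⟨l, rfl⟩ : ∃ l, m = a + l := ⟨m - a, by omega⟩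
    rw [show a + l + k = (a + k) + l by ring, pow_add x (a + k), ← h, ← pow_add]
  have h1 : ∀ j m, a ≤ m → x ^ (m + k * j) = x ^ m := by
    intro j
    induction j with
    | zero => intro m _; simp
    | succ j ih =>
      intro m hm
      rw [show m + k * (j + 1) = (m + k * j) + k by ring, h0 _ (by omega), ih m hm]
  have hk : 1 ≤ k := by omega
  have h2 : a + 1 ≤ k * (a + 1) := Nat.le_mul_of_pos_left _ (by omega)
  refine ⟨k * (a + 1), by omega, ?_⟩
  rw [← pow_add]
  exact h1 (a + 1) _ (by omega)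

/-- the pairs (transformation, number modulo `D`) of the strings of length `w` -/
def PS2 {S : Type} (b D : ℕ) (τ : ℕ → S → S) (w : ℕ) :
    Set ((Function.End S)ᵐᵒᵖ × Multiplicative (ZMod D)) :=
  {x | ∃ v < b ^ w, x = (MulOpposite.op (tw b τ w v), Multiplicative.ofAdd (v : ZMod D))}

/-- an element of the monoid -/
private abbrev elAB {S : Type} (D : ℕ) (f : S → S) (v : ℕ) : (Function.End S)ᵐᵒᵖ × Multiplicative (ZMod D) :=
  (MulOpposite.op f, Multiplicative.ofAdd (v : ZMod D))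

private theorem elAB_mul {S : Type} (D : ℕ) (f g : S → S) (v v' : ℕ) :
    elAB D f v * elAB D g v' = elAB D (fun s => g (f s)) (v + v') := by
  refine Prod.ext rfl ?_
  show Multiplicative.ofAdd (v : ZMod D) * Multiplicative.ofAdd (v' : ZMod D) =
    Multiplicative.ofAdd ((v + v' : ℕ) : ZMod D)
  rw [← ofAdd_add, Nat.cast_add]

open Pointwise in
/-- PROOF. If `b ^ w ≡ 1` then the strings of length `w * j` are concatenations of `j` strings of length `w`
(`tw_cat`, `tw_add`), and the number of `v + b ^ w * v'` is congruent to `v + v'`. Induction over `j ≥ 1`: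
`PS2 (w * (j + 1)) = PS2 (w * j) * PS2 w` (in `(Function.End S)ᵐᵒᵖ` the product of `op f` and `op g` is
`op (g ∘ f)`: first `f`, then `g`). -/
theorem PS2_pow {S : Type} {b D : ℕ} (hb : 1 ≤ b) (τ : ℕ → S → S) {w : ℕ} (hw : b ^ w ≡ 1 [MOD D]) (j : ℕ)
    (hj : 1 ≤ j) : PS2 b D τ (w * j) = PS2 b D τ w ^ j := by
  induction j, hj using Nat.le_induction with
  | base => rw [mul_one, pow_one]
  | succ j hj ih =>
    rw [pow_succ, ← ih]
    have hbw : ((b ^ (w * j) : ℕ) : ZMod D) = 1 := by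
      have h1 : b ^ (w * j) ≡ 1 [MOD D] := by
        rw [pow_mul]
        simpa using hw.pow j
      have h2 := (ZMod.natCast_eq_natCast_iff _ _ _).2 h1
      simpa using h2
    have hpos : 0 < b ^ (w * j) := pow_pos (by omega) _
    have key : ∀ u v' : ℕ, u < b ^ (w * j) →
        elAB D (tw b τ (w * (j + 1)) (u + b ^ (w * j) * v')) (u + b ^ (w * j) * v') =
        elAB D (tw b τ (w * j) u) u * elAB D (tw b τ w v') v' := by
      intro u v' hu
      rw [elAB_mul]
      refine Prod.ext ?_ ?_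
      · show MulOpposite.op (tw b τ (w * (j + 1)) (u + b ^ (w * j) * v')) =
          MulOpposite.op (fun s => tw b τ w v' (tw b τ (w * j) u s))
        congr 1
        funext s
        rw [show w * (j + 1) = w * j + w by ring, tw_cat τ w hu]
      · show Multiplicative.ofAdd ((u + b ^ (w * j) * v' : ℕ) : ZMod D) =
          Multiplicative.ofAdd ((u + v' : ℕ) : ZMod D)
        congr 1
        rw [Nat.cast_add, Nat.cast_mul, hbw, one_mul, Nat.cast_add]
    ext x
    rw [Set.mem_mul]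
    constructor
    · rintro ⟨v, hv, rfl⟩
      have hv' : v / b ^ (w * j) < b ^ w := by
        rw [Nat.div_lt_iff_lt_mul hpos, ← pow_add]
        rwa [show w + w * j = w * (j + 1) by ring]
      refine ⟨_, ⟨v % b ^ (w * j), Nat.mod_lt _ hpos, rfl⟩, _, ⟨v / b ^ (w * j), hv', rfl⟩, ?_⟩
      have h1 := key (v % b ^ (w * j)) (v / b ^ (w * j)) (Nat.mod_lt _ hpos)
      rw [Nat.mod_add_div] at h1
      exact h1.symm
    · rintro ⟨_, ⟨u, hu, rfl⟩, _, ⟨v', hv', rfl⟩, rfl⟩
      refine ⟨u + b ^ (w * j) * v', ?_, ?_⟩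
      · calc u + b ^ (w * j) * v' < b ^ (w * j) + b ^ (w * j) * v' := by omega
          _ = b ^ (w * j) * (v' + 1) := by ring
          _ ≤ b ^ (w * j) * b ^ w := Nat.mul_le_mul le_rfl hv'
          _ = b ^ (w * (j + 1)) := by rw [← pow_add]; congr 1
      · exact (key u v' hu).symm

open Pointwise in
/-- **change of the base.** PROOF. `D₀` = least common multiple of all divisors of `(card S)!` which are coprime to `b`
(`Finset.lcm` over `(Nat.divisors _).filter`); it is coprime to `b`. `w₀ = φ(D₀)`, `b ^ w₀ ≡ 1 [MOD D₀]`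
(`Nat.ModEq.pow_totient`; `w₀ ≥ 1`). The pointwise monoid `Set ((Function.End S)ᵐᵒᵖ × Multiplicative (ZMod D₀))` is
finite, `idem_pow` for `PS2 b D₀ τ w₀` gives `n ≥ 1`; `w = w₀ * n`, so `PS2 b D₀ τ w * PS2 b D₀ τ w = PS2 b D₀ τ w` by
`PS2_pow`. This is `hmul` (cast `ZMod` equality to `≡` by `ZMod.natCast_eq_natCast_iff`). `hmod`:
`b ^ (w₀ n) ≡ 1`. `hdiv`: a divisor coprime to `b ^ w` (`w ≥ 1`) is coprime to `b`. Choose `d` with minimal
`(univ.image (tw b τ w d)).card` among `d < b ^ w`; apply `idem_pow` to the element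
`(op (tw b τ w d), d)` of the finite monoid `(Function.End S)ᵐᵒᵖ × Multiplicative (ZMod D₀)`: the power lies in
`PS2 b D₀ τ w` (closed under products), so it is given by some `de < b ^ w`; `τ de` is idempotent and the image of
`(tw b τ w d)^[n]` (`n ≥ 1`) is at most as large as that of `tw b τ w d`; the second component `x` satisfies
`x * x = x` in a group, so it is `1`, that is `D₀ ∣ de` (`ZMod.natCast_eq_zero_iff`). -/
theorem exists_AD {S : Type} [Fintype S] [DecidableEq S] {b : ℕ} (hb : 2 ≤ b) (τ : ℕ → S → S) :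
    ∃ w D₀ de : ℕ, 1 ≤ w ∧ AD S (b ^ w) D₀ de (tw b τ w) := by
  classical
  set F : Finset ℕ := (Nat.divisors (Fintype.card S).factorial).filter (fun m => Nat.Coprime m b) with hF
  obtain ⟨D₀, hD₀⟩ : ∃ D₀, D₀ = ∏ m ∈ F, m := ⟨_, rfl⟩
  have hDpos : 1 ≤ D₀ := by
    rw [hD₀]
    refine Nat.succ_le_of_lt (Finset.prod_pos fun m hm => ?_)
    rw [hF, Finset.mem_filter, Nat.mem_divisors] at hm
    exact Nat.pos_of_dvd_of_pos hm.1.1 (Nat.factorial_pos _)
  have hcop : Nat.Coprime b D₀ := by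
    rw [hD₀]
    refine Nat.Coprime.prod_right fun m hm => ?_
    have hm2 := (Finset.mem_filter.1 hm).2
    exact Nat.Coprime.symm hm2
  have hdiv : ∀ m, m ∣ (Fintype.card S).factorial → Nat.Coprime m b → m ∣ D₀ := by
    intro m h1 h2
    rw [hD₀]
    refine Finset.dvd_prod_of_mem (fun m => m) ?_
    rw [hF, Finset.mem_filter, Nat.mem_divisors]
    exact ⟨⟨h1, (Nat.factorial_pos _).ne'⟩, h2⟩
  have : NeZero D₀ := ⟨by omega⟩
  have : Finite (Function.End S) := inferInstanceAs (Finite (S → S))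
  have : Finite ((Function.End S)ᵐᵒᵖ) := Finite.of_equiv _ MulOpposite.opEquiv
  have : Finite (Multiplicative (ZMod D₀)) := inferInstanceAs (Finite (ZMod D₀))
  set w₀ := Nat.totient D₀ with hw₀
  have hw₀1 : 1 ≤ w₀ := Nat.totient_pos.2 (by omega)
  have hmod : b ^ w₀ ≡ 1 [MOD D₀] := Nat.ModEq.pow_totient hcop
  obtain ⟨n, hn, hidem⟩ := idem_pow (PS2 b D₀ τ w₀)
  have hw1 : 1 ≤ w₀ * n := Nat.mul_pos hw₀1 hn
  obtain ⟨w, hw⟩ : ∃ w, w = w₀ * n := ⟨_, rfl⟩
  have hP : PS2 b D₀ τ w * PS2 b D₀ τ w = PS2 b D₀ τ w := by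
    rw [hw, PS2_pow (by omega) τ hmod n hn]
    exact hidem
  have hmodw : b ^ w ≡ 1 [MOD D₀] := by
    rw [hw, pow_mul]
    simpa using hmod.pow n
  have hbw : 2 ≤ b ^ w := by
    calc 2 ≤ b := hb
      _ = b ^ 1 := (pow_one b).symm
      _ ≤ b ^ w := Nat.pow_le_pow_right (by omega) (by rw [hw]; exact hw1)
  have hmem : ∀ d < b ^ w, elAB D₀ (tw b τ w d) d ∈ PS2 b D₀ τ w := fun d hd => ⟨d, hd, rfl⟩
  have hmul : ∀ d < b ^ w, ∀ d' < b ^ w, ∃ d'' < b ^ w,
      (∀ s, tw b τ w d'' s = tw b τ w d' (tw b τ w d s)) ∧ d'' ≡ d + d' [MOD D₀] := by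
    intro d hd d' hd'
    have h1 := Set.mul_mem_mul (hmem d hd) (hmem d' hd')
    rw [hP] at h1
    obtain ⟨d'', hd'', h2⟩ := h1
    have h3 := congrArg (fun x => MulOpposite.unop (Prod.fst x)) h2
    have h4 := congrArg (fun x => Multiplicative.toAdd (Prod.snd x)) h2
    refine ⟨d'', hd'', fun s => ?_, ?_⟩
    · exact (congrFun h3 s).symm
    · have h5 : ((d : ZMod D₀) + (d' : ZMod D₀)) = (d'' : ZMod D₀) := h4
      rw [← ZMod.natCast_eq_natCast_iff]
      push_cast
      exact h5.symm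
  -- a map of minimal rank
  obtain ⟨d, hd, hdmin⟩ : ∃ d < b ^ w, ∀ d' < b ^ w,
      (univ.image (tw b τ w d)).card ≤ (univ.image (tw b τ w d')).card := by
    obtain ⟨d, hd, h⟩ := Finset.exists_min_image (Finset.range (b ^ w))
      (fun d => (univ.image (tw b τ w d)).card) ⟨0, by simp; omega⟩
    exact ⟨d, Finset.mem_range.1 hd, fun d' hd' => h d' (Finset.mem_range.2 hd')⟩
  obtain ⟨m, hm, hm2⟩ := idem_pow (elAB D₀ (tw b τ w d) d)
  have hpow : ∀ m, 1 ≤ m → elAB D₀ (tw b τ w d) d ^ m ∈ PS2 b D₀ τ w ∧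
      (univ.image ((elAB D₀ (tw b τ w d) d ^ m).1.unop)).card ≤
        (univ.image (tw b τ w d)).card := by
    intro m hm
    induction m, hm using Nat.le_induction with
    | base => rw [pow_one]; exact ⟨hmem d hd, le_rfl⟩
    | succ m hm ih =>
      refine ⟨?_, ?_⟩
      · rw [pow_succ, ← hP]
        exact Set.mul_mem_mul ih.1 (hmem d hd)
      · rw [pow_succ]
        have h1 : ∀ x : (Function.End S)ᵐᵒᵖ × Multiplicative (ZMod D₀), (x *
          elAB D₀ (tw b τ w d) d).1.unop = fun s => tw b τ w d (x.1.unop s) := fun x => rfl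
        rw [h1]
        refine Finset.card_le_card ?_
        intro y hy
        rw [Finset.mem_image] at hy ⊢
        obtain ⟨s, -, hs⟩ := hy
        exact ⟨_, Finset.mem_univ _, hs⟩
  obtain ⟨⟨de, hde, he⟩, hcard⟩ := hpow m hm
  rw [he] at hm2 hcard
  have hi1 := congrArg (fun x => MulOpposite.unop (Prod.fst x)) hm2
  have hi2 := congrArg (fun x => Multiplicative.toAdd (Prod.snd x)) hm2
  refine ⟨w, D₀, de, by omega, ?_⟩
  exact {
    hq := hbw
    hD := hDpos
    hmod := hmodw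
    hmul := hmul
    hdiv := fun m h1 h2 => hdiv m h1 (Nat.Coprime.coprime_dvd_right (dvd_pow_self b (by omega)) h2)
    hde := hde
    hde0 := by
      have h1 : ((de : ZMod D₀) + (de : ZMod D₀)) = (de : ZMod D₀) := hi2
      have h2 : (de : ZMod D₀) = 0 := by
        have h3 : (de : ZMod D₀) + (de : ZMod D₀) = (de : ZMod D₀) + 0 := by rw [h1, add_zero]
        exact add_left_cancel h3
      exact (ZMod.natCast_eq_zero_iff _ _).1 h2
    hidem := fun s => congrFun hi1 s
    hmin := fun d' hd' => hcard.trans (hdmin d' hd') }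

end Pool.Agent.Lib.MP_3e612f_nt.LV
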