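import Pool.Agent.Lib.MP_3e612f_nt.LV.SubM

/-!
Products of subshifts whose block functions are good for other radices (for instance powers of the given radices).
-/

set_option autoImplicit false

namespace Pool.Agent.Lib.MP_3e612f_nt.LV

open Finset
open Pool.Agent.Lib.MP_3e612f_nt.PB (Rad Qr)
open Pool.Agent.Lib.MP_3e612f_nt.LOD
open Pool.Agent.Lib.MP_3e612f_nt.LORT (ev norm_ev)
open Pool.Agent.Lib.MP_3e612f_nt.PI (mc)

/-- the functions of blocks of length `m` of the points of `X q` agree, up to a small proportion of places, with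
functions of a good class for the radices `ρ q` -/
def SubGoodR {A : Type} (B : ℕ) (X : (ℕ → ℕ) → Set (ℕ → A)) : Prop :=
  ∀ (m : ℕ) (η : ℝ), 0 < η → ∃ (B' : ℕ) (𝓕 : (ℕ → ℕ) → Set (ℕ → ℝ)) (ρ : (ℕ → ℕ) → ℕ → ℕ),
    Good B' 𝓕 ∧ (∀ q, Rad B q → Rad B' (ρ q)) ∧
    (∀ q n, (∀ j, Nat.Coprime (q j) n) → ∀ j, Nat.Coprime (ρ q j) n) ∧
    (∀ q, ∀ F ∈ 𝓕 q, ∀ n, |F n| ≤ 1) ∧
    ∃ h1 : ℕ, ∀ q : ℕ → ℕ, Rad B q → ∀ x ∈ X q, ∀ h ≥ h1, ∀ f : (Fin m → A) → ℝ,
      (∀ e, |f e| ≤ 1) → ∃ F ∈ 𝓕 (ρ q), ∃ s : ℕ,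
        (((range h).filter fun n => f (fun j => x (n + j)) ≠ F (n + s)).card : ℝ) ≤ η * h

/-- PROOF. `ρ = id`. -/
theorem SubGood.toR {A : Type} {B : ℕ} {X : (ℕ → ℕ) → Set (ℕ → A)} (h : SubGood B X) :
    SubGoodR B X := by
  intro m η hη
  obtain ⟨𝓕, hG, hb, h1, hs⟩ := h m η hη
  exact ⟨B, 𝓕, id, hG, fun _ hq => hq, fun _ _ hq => hq, hb, h1, hs⟩

private theorem SubR_prod_sub {r : ℕ} (a b : Fin r → ℝ) (ha : ∀ i, |a i| ≤ 1)
    (hb : ∀ i, |b i| ≤ 1) :
    |(∏ i, a i) - ∏ i, b i| ≤ ∑ i, 2 * (if a i ≠ b i then (1 : ℝ) else 0) := by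
  have h0 : ∀ i, 0 ≤ 2 * (if a i ≠ b i then (1 : ℝ) else 0) := fun i => by
    split_ifs <;> norm_num
  by_cases h : ∀ i, a i = b i
  · rw [prod_congr rfl fun i _ => h i, sub_self, abs_zero]
    exact sum_nonneg fun i _ => h0 i
  · push Not at h
    obtain ⟨i, hi⟩ := h
    have h1 : (2 : ℝ) ≤ ∑ i, 2 * (if a i ≠ b i then (1 : ℝ) else 0) := by
      have h2 := single_le_sum (f := fun i => 2 * (if a i ≠ b i then (1 : ℝ) else 0))
        (fun i _ => h0 i) (mem_univ i)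
      refine le_trans (le_of_eq ?_) h2
      simp only [if_pos hi, mul_one]
    have h2 : |∏ i, a i| ≤ 1 := by
      rw [abs_prod]
      exact prod_le_one (fun _ _ => abs_nonneg _) fun i _ => ha i
    have h3 : |∏ i, b i| ≤ 1 := by
      rw [abs_prod]
      exact prod_le_one (fun _ _ => abs_nonneg _) fun i _ => hb i
    have h4 := abs_sub (∏ i, a i) (∏ i, b i)
    linarith

/-- PROOF. Copy the proof of `sub_prod` (file SubM): `multi` is applied to the radices `ρ i (q i)`; their coprimality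
follows by using the third condition twice. -/
theorem sub_prodR (hMR : MRp) {r : ℕ} (A : Fin r → Type) (B : Fin r → ℕ)
    (X : ∀ i, (ℕ → ℕ) → Set (ℕ → A i)) (hX : ∀ i, SubGoodR (B i) (X i)) (m : ℕ)
    {ε : ℝ} (hε : 0 < ε) :
    ∃ h0 : ℕ, ∀ h ≥ h0, ∃ N0 : ℕ, ∀ N ≥ N0, ∀ q : Fin r → ℕ → ℕ, (∀ i, Rad (B i) (q i)) →
      (∀ i i', i ≠ i' → ∀ j j', Nat.Coprime (q i j) (q i' j')) →
      ∀ (α : ℝ) (x : ℕ → ∀ i, ℕ → A i), (∀ n i, x n i ∈ X i (q i)) →
      ∀ f : ∀ i, (Fin m → A i) → ℝ, (∀ i e, |f i e| ≤ 1) →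
        ∑ n ∈ range N, ‖∑ k ∈ range h, mc (n + k) *
          (((∏ i, f i (fun j => x n i (k + j)) : ℝ) : ℂ) * ev (α * k))‖ ≤ ε * h * N := by
  obtain ⟨η, hη⟩ : ∃ η : ℝ, η = ε / (8 * (r + 1)) := ⟨_, rfl⟩
  have hη0 : 0 < η := by rw [hη]; positivity
  choose B' 𝓕 ρ hG hρ1 hρ2 hb h1 hsub using fun i => hX i m η hη0
  obtain ⟨h0, hh0⟩ := multi hMR B' 𝓕 hG (half_pos hε)
  refine ⟨h0 + ∑ i, h1 i, fun h hh => ?_⟩
  obtain ⟨N0, hN0⟩ := hh0 h ((Nat.le_add_right _ _).trans hh)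
  refine ⟨N0, fun N hN q hq hcop α x hx f hf => ?_⟩
  have hhi : ∀ i, h1 i ≤ h := fun i =>
    (Finset.single_le_sum (f := h1) (fun _ _ => Nat.zero_le _) (mem_univ i)).trans
      ((Nat.le_add_left _ _).trans hh)
  choose F hF s hs using fun (n : ℕ) (i : Fin r) =>
    hsub i (q i) (hq i) (x n i) (hx n i) h (hhi i) (f i) (hf i)
  have hcop' : ∀ i i', i ≠ i' → ∀ j j', Nat.Coprime (ρ i (q i) j) (ρ i' (q i') j') := by
    intro i i' hii j j'
    refine (hρ2 i' (q i') _ (fun l => ?_) j').symm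
    exact (hρ2 i (q i) _ (fun l' => hcop i i' hii l' l) j).symm
  have hm := hN0 N hN (fun i => ρ i (q i)) (fun i => hρ1 i (q i) (hq i)) hcop' α s F hF
    (fun n i m => hb i _ _ (hF n i) m)
  have key : ∀ n, ‖∑ k ∈ range h, mc (n + k) *
      (((∏ i, f i (fun j => x n i (k + j)) : ℝ) : ℂ) * ev (α * k))‖ ≤
      ‖∑ k ∈ range h, mc (n + k) *
        (((∏ i, F n i (k + s n i) : ℝ) : ℂ) * ev (α * k))‖ + ε / 4 * h := by
    intro n
    have e1 : ∑ k ∈ range h, mc (n + k) *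
        (((∏ i, f i (fun j => x n i (k + j)) : ℝ) : ℂ) * ev (α * k)) =
        ∑ k ∈ range h, mc (n + k) * (((∏ i, F n i (k + s n i) : ℝ) : ℂ) * ev (α * k)) +
        ∑ k ∈ range h, mc (n + k) * ((((∏ i, f i (fun j => x n i (k + j))) -
          ∏ i, F n i (k + s n i) : ℝ) : ℂ) * ev (α * k)) := by
      rw [← sum_add_distrib]
      refine sum_congr rfl fun k _ => ?_
      rw [Complex.ofReal_sub]
      ring
    rw [e1]
    refine (norm_add_le _ _).trans (add_le_add le_rfl ?_)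
    refine (norm_sum_le _ _).trans ?_
    have e2 : ∀ k ∈ range h, ‖mc (n + k) * ((((∏ i, f i (fun j => x n i (k + j))) -
        ∏ i, F n i (k + s n i) : ℝ) : ℂ) * ev (α * k))‖ ≤
        ∑ i, 2 * (if f i (fun j => x n i (k + j)) ≠ F n i (k + s n i) then (1 : ℝ) else 0) := by
      intro k _
      rw [norm_mul, norm_mul, norm_ev, mul_one, Complex.norm_real, Real.norm_eq_abs]
      refine (mul_le_of_le_one_left (abs_nonneg _) (base_norm_mc _)).trans ?_
      exact SubR_prod_sub (fun i => f i (fun j => x n i (k + j))) (fun i => F n i (k + s n i))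
        (fun i => hf i _) (fun i => hb i _ _ (hF n i) _)
    refine (sum_le_sum e2).trans ?_
    rw [sum_comm]
    have e3 : ∀ i, ∑ k ∈ range h, 2 * (if f i (fun j => x n i (k + j)) ≠ F n i (k + s n i) then
        (1 : ℝ) else 0) ≤ 2 * (η * h) := by
      intro i
      rw [← mul_sum, sum_boole]
      exact mul_le_mul_of_nonneg_left (hs n i) (by norm_num)
    refine (sum_le_sum fun i _ => e3 i).trans ?_
    rw [sum_const, card_univ, Fintype.card_fin, nsmul_eq_mul, hη]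
    have e4 : (r : ℝ) * (2 * (ε / (8 * (r + 1)) * h)) = (r / (r + 1)) * (ε / 4 * h) := by
      field_simp
      ring
    rw [e4]
    refine mul_le_of_le_one_left (by positivity) ?_
    rw [div_le_one (by positivity)]
    linarith
  refine (sum_le_sum fun n _ => key n).trans ?_
  rw [sum_add_distrib, sum_const, card_range, nsmul_eq_mul]
  have h2 : 0 ≤ ε * h * N := by positivity
  linarith

/-- PROOF. Copy the proof of `sub_multi` (file SubM) with `sub_prodR`. -/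
theorem sub_multiR (hMR : MRp) {r : ℕ} (A : Fin r → Type) [∀ i, Finite (A i)]
    [∀ i, TopologicalSpace (A i)] [∀ i, DiscreteTopology (A i)] (B : Fin r → ℕ)
    (X : ∀ i, (ℕ → ℕ) → Set (ℕ → A i)) (hX : ∀ i, SubGoodR (B i) (X i))
    (f : (∀ i, ℕ → A i) → ℂ) (hf : Continuous f) {ε : ℝ} (hε : 0 < ε) :
    ∃ h0 : ℕ, ∀ h ≥ h0, ∃ N0 : ℕ, ∀ N ≥ N0, ∀ q : Fin r → ℕ → ℕ, (∀ i, Rad (B i) (q i)) →
      (∀ i i', i ≠ i' → ∀ j j', Nat.Coprime (q i j) (q i' j')) →
      ∀ (α : ℝ) (x : ℕ → ∀ i, ℕ → A i), (∀ n i, x n i ∈ X i (q i)) →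
        ∑ n ∈ range N, ‖∑ k ∈ range h, mc (n + k) *
          (f (fun i j => x n i (j + k)) * ev (α * k))‖ ≤ ε * h * N := by
  classical
  by_cases hne : Nonempty (∀ i, A i)
  swap
  · exact ⟨0, fun h _ => ⟨0, fun N _ q _ _ α x _ => absurd ⟨fun i => x 0 i 0⟩ hne⟩⟩
  have : Fintype (∀ i, A i) := Fintype.ofFinite _
  obtain ⟨l, hl⟩ : ∃ l : ℕ, Fintype.card (∀ i, A i) = l + 1 :=
    ⟨Fintype.card (∀ i, A i) - 1, by have := Fintype.card_pos (α := ∀ i, A i); omega⟩
  let _ : Group (∀ i, A i) :=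
    ((Fintype.equivFinOfCardEq hl).trans Multiplicative.ofAdd).group
  -- the encoding
  obtain ⟨E, hE⟩ : ∃ E : (ℕ → ∀ i, A i) → (∀ i, ℕ → A i), E = fun y i j => y j i := ⟨_, rfl⟩
  have hEc : Continuous E := by
    rw [hE]
    fun_prop
  have hfE : ContinuousOn (fun y => f (E y)) Set.univ := (hf.comp hEc).continuousOn
  obtain ⟨C, hC0, hC⟩ := PS.bdd_on (isClosed_univ (X := ℕ → ∀ i, A i)) hfE
  obtain ⟨m, hm⟩ := PS.unif_coord (isClosed_univ (X := ℕ → ∀ i, A i)) hfE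
    (show 0 < ε / 4 by positivity)
  have hfC : ∀ y : ∀ i, ℕ → A i, ‖f y‖ ≤ C := by
    intro y
    have h1 := hC (fun j i => y i j) (Set.mem_univ _)
    rw [hE] at h1
    exact h1
  have hfm : ∀ y z : ∀ i, ℕ → A i, (∀ i, ∀ j < m, y i j = z i j) → ‖f y - f z‖ ≤ ε / 4 := by
    intro y z hyz
    have h1 := hm (fun j i => y i j) (Set.mem_univ _) (fun j i => z i j) (Set.mem_univ _)
      (fun j hj => funext fun i => hyz i j hj)
    rw [hE] at h1
    exact h1
  have : ∀ i, Fintype (A i) := fun i => Fintype.ofFinite _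
  obtain ⟨P, hP⟩ : ∃ P : ℕ, P = Fintype.card (∀ i, Fin m → A i) := ⟨_, rfl⟩
  obtain ⟨κ, hκ⟩ : ∃ κ : ℝ, κ = ε / (2 * (C + 1) * (P + 1)) := ⟨_, rfl⟩
  have hκ0 : 0 < κ := by rw [hκ]; positivity
  obtain ⟨h0, hh0⟩ := sub_prodR hMR A B X hX m hκ0
  refine ⟨h0, fun h hh => ?_⟩
  obtain ⟨N0, hN0⟩ := hh0 h hh
  refine ⟨N0, fun N hN q hq hcop α x hx => ?_⟩
  obtain ⟨ext, hext⟩ : ∃ ext : (∀ i, Fin m → A i) → (∀ i, ℕ → A i),
      ext = fun e i j => if hj : j < m then e i ⟨j, hj⟩ else x 0 i 0 := ⟨_, rfl⟩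
  have hind : ∀ e : ∀ i, Fin m → A i, ∑ n ∈ range N, ‖∑ k ∈ range h, mc (n + k) *
      (((∏ i, (if (fun j : Fin m => x n i (k + j)) = e i then (1 : ℝ) else 0) : ℝ) : ℂ) *
        ev (α * k))‖ ≤ κ * h * N := by
    intro e
    exact hN0 N hN q hq hcop α x hx (fun i e' => if e' = e i then (1 : ℝ) else 0)
      (fun i e' => by split_ifs <;> simp)
  have hprod : ∀ (e : ∀ i, Fin m → A i) (n k : ℕ),
      (∏ i, (if (fun j : Fin m => x n i (k + j)) = e i then (1 : ℝ) else 0)) =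
        if e = (fun i (j : Fin m) => x n i (k + j)) then (1 : ℝ) else 0 := by
    intro e n k
    split_ifs with h1
    · refine prod_eq_one fun i _ => ?_
      rw [h1, if_pos rfl]
    · have h2 : ∃ i, (fun j : Fin m => x n i (k + j)) ≠ e i := by
        by_contra hcon
        push Not at hcon
        exact h1 (funext fun i => (hcon i).symm)
      obtain ⟨i, hi⟩ := h2
      exact prod_eq_zero (mem_univ i) (if_neg hi)
  have hsum : ∀ n k : ℕ, ‖f (fun i j => x n i (j + k)) - ∑ e : ∀ i, Fin m → A i, f (ext e) *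
      (((∏ i, (if (fun j : Fin m => x n i (k + j)) = e i then (1 : ℝ) else 0) : ℝ)) : ℂ)‖ ≤
      ε / 4 := by
    intro n k
    have h1 : ∑ e : ∀ i, Fin m → A i, f (ext e) *
        (((∏ i, (if (fun j : Fin m => x n i (k + j)) = e i then (1 : ℝ) else 0) : ℝ)) : ℂ) =
        f (ext (fun i (j : Fin m) => x n i (k + j))) := by
      have h2 : ∀ e : ∀ i, Fin m → A i, f (ext e) *
          (((∏ i, (if (fun j : Fin m => x n i (k + j)) = e i then (1 : ℝ) else 0) : ℝ)) : ℂ) =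
          if e = (fun i (j : Fin m) => x n i (k + j)) then f (ext e) else 0 := by
        intro e
        rw [hprod]
        split_ifs <;> simp
      rw [sum_congr rfl fun e _ => h2 e, sum_ite_eq' univ, if_pos (mem_univ _)]
    rw [h1]
    refine hfm _ _ fun i j hj => ?_
    rw [hext]
    simp only [dif_pos hj]
    rw [add_comm]
  have key : ∀ n, ‖∑ k ∈ range h, mc (n + k) * (f (fun i j => x n i (j + k)) * ev (α * k))‖ ≤
      ε / 4 * h + ∑ e : ∀ i, Fin m → A i, C * ‖∑ k ∈ range h, mc (n + k) *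
      (((∏ i, (if (fun j : Fin m => x n i (k + j)) = e i then (1 : ℝ) else 0) : ℝ) : ℂ) *
        ev (α * k))‖ := by
    intro n
    have e1 : ∑ k ∈ range h, mc (n + k) * (f (fun i j => x n i (j + k)) * ev (α * k)) =
        ∑ k ∈ range h, mc (n + k) * ((f (fun i j => x n i (j + k)) -
          ∑ e : ∀ i, Fin m → A i, f (ext e) * (((∏ i, (if (fun j : Fin m => x n i (k + j)) = e i
            then (1 : ℝ) else 0) : ℝ)) : ℂ)) * ev (α * k)) +
        ∑ e : ∀ i, Fin m → A i, f (ext e) * ∑ k ∈ range h, mc (n + k) *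
          (((∏ i, (if (fun j : Fin m => x n i (k + j)) = e i then (1 : ℝ) else 0) : ℝ) : ℂ) *
            ev (α * k)) := by
      have e2 : ∑ e : ∀ i, Fin m → A i, f (ext e) * ∑ k ∈ range h, mc (n + k) *
          (((∏ i, (if (fun j : Fin m => x n i (k + j)) = e i then (1 : ℝ) else 0) : ℝ) : ℂ) *
            ev (α * k)) = ∑ k ∈ range h, mc (n + k) * ((∑ e : ∀ i, Fin m → A i, f (ext e) *
            (((∏ i, (if (fun j : Fin m => x n i (k + j)) = e i then (1 : ℝ) else 0) : ℝ)) : ℂ)) *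
            ev (α * k)) := by
        simp only [mul_sum, sum_mul]
        rw [sum_comm]
        exact sum_congr rfl fun k _ => sum_congr rfl fun e _ => by ring
      rw [e2, ← sum_add_distrib]
      exact sum_congr rfl fun k _ => by ring
    rw [e1]
    refine (norm_add_le _ _).trans (add_le_add ?_ ?_)
    · refine (norm_sum_le _ _).trans ?_
      have e3 : ∀ k ∈ range h, ‖mc (n + k) * ((f (fun i j => x n i (j + k)) -
          ∑ e : ∀ i, Fin m → A i, f (ext e) * (((∏ i, (if (fun j : Fin m => x n i (k + j)) = e i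
            then (1 : ℝ) else 0) : ℝ)) : ℂ)) * ev (α * k))‖ ≤ ε / 4 := by
        intro k _
        rw [norm_mul, norm_mul, norm_ev, mul_one]
        exact (mul_le_of_le_one_left (norm_nonneg _) (base_norm_mc _)).trans (hsum n k)
      refine (sum_le_sum e3).trans (le_of_eq ?_)
      rw [sum_const, card_range, nsmul_eq_mul]
      ring
    · refine (norm_sum_le _ _).trans (sum_le_sum fun e _ => ?_)
      rw [norm_mul]
      exact mul_le_mul_of_nonneg_right (hfC _) (norm_nonneg _)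
  refine (sum_le_sum fun n _ => key n).trans ?_
  rw [sum_add_distrib, sum_const, card_range, nsmul_eq_mul, sum_comm]
  have h1 : ∑ e : ∀ i, Fin m → A i, ∑ n ∈ range N, C * ‖∑ k ∈ range h, mc (n + k) *
      (((∏ i, (if (fun j : Fin m => x n i (k + j)) = e i then (1 : ℝ) else 0) : ℝ) : ℂ) *
        ev (α * k))‖ ≤ ∑ _e : ∀ i, Fin m → A i, C * (κ * h * N) := by
    refine sum_le_sum fun e _ => ?_
    rw [← mul_sum]
    exact mul_le_mul_of_nonneg_left (hind e) hC0.le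
  rw [sum_const, card_univ, nsmul_eq_mul, ← hP] at h1
  have h2 : (P : ℝ) * (C * (κ * h * N)) ≤ ε / 2 * h * N := by
    have h3 : (P : ℝ) * (C * (κ * h * N)) =
        (P / (P + 1)) * (C / (C + 1)) * (ε / 2 * h * N) := by
      rw [hκ]
      field_simp
    rw [h3]
    refine mul_le_of_le_one_left (by positivity) ?_
    have h4 : (P : ℝ) / (P + 1) ≤ 1 := by
      rw [div_le_one (by positivity)]
      linarith
    have h5 : C / (C + 1) ≤ 1 := by
      rw [div_le_one (by positivity)]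
      linarith
    exact mul_le_one₀ h4 (by positivity) h5
  have h3 : 0 ≤ ε * h * N := by positivity
  linarith

end Pool.Agent.Lib.MP_3e612f_nt.LV
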