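import Pool.Agent.Lib.MP_3e612f_nt.LV.AuGood
import Pool.Agent.Lib.MP_3e612f_nt.LV.AuBase
import Pool.Agent.Lib.MP_3e612f_nt.LV.SubR
import Pool.Agent.Lib.MP_3e612f_nt.LV.AuKern

/-!
The subshift of an automatic sequence has good block functions.
-/

set_option autoImplicit false

namespace Pool.Agent.Lib.MP_3e612f_nt.LV

open Finset
open Pool.Agent.Lib.MP_3e612f_nt.PB (Rad Qr)

/-- the transitions of the kernel -/
private noncomputable def kernT {A : Type} (b : ℕ) (a : ℕ → A) (d : ℕ) (s : kern b a) : kern b a := by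
  classical
  exact if hd : d < b then ⟨fun n => (s : ℕ → A) (b * n + d), kern_step s.2 hd⟩ else s

private theorem kernT_apply {A : Type} {b : ℕ} {a : ℕ → A} {d : ℕ} (hd : d < b) (s : kern b a)
    (n : ℕ) : (kernT b a d s : ℕ → A) n = (s : ℕ → A) (b * n + d) := by
  rw [kernT, dif_pos hd]

private theorem kernT_tw {A : Type} {b : ℕ} (hb : 2 ≤ b) {a : ℕ → A} (w : ℕ) :
    ∀ (s : kern b a) (u d : ℕ), d < b ^ w →
      (s : ℕ → A) (b ^ w * u + d) = (tw b (kernT b a) w d s : kern b a).1 u := by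
  induction w with
  | zero =>
    intro s u d hd
    rw [pow_zero] at hd
    rw [pow_zero, one_mul, show d = 0 by omega, add_zero]
    rfl
  | succ w ih =>
    intro s u d hd
    have h1 : d / b < b ^ w := by
      rw [Nat.div_lt_iff_lt_mul (by omega)]
      rwa [pow_succ] at hd
    have h2 : d % b < b := Nat.mod_lt _ (by omega)
    show _ = (tw b (kernT b a) w (d / b) (kernT b a (d % b) s) : kern b a).1 u
    rw [← ih (kernT b a (d % b) s) u (d / b) h1, kernT_apply h2]
    refine congrArg (s : ℕ → A) ?_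
    have h3 := Nat.div_add_mod d b
    rw [mul_add, add_assoc, h3, pow_succ']
    ring

/-- **functions of an automatic sequence are good for a power of the base**. PROOF. `S = kern b a` (a finite type),
`τ d s = (fun n => s (b * n + d))` if `d < b` (`kern_step`), `s` otherwise; `exists_AD` gives `w, D₀, de` and `AD S (b ^ w) D₀ de
(tw b τ w)`. `out s = s`: `s (b ^ w * u + d) = (tw b τ w d s) u` for `d < b ^ w` (induction over `w`). `good_au` gives
`Good (b ^ w) (FA (b ^ w) out)`, and `fun m => f (a m)` belongs to the class (`s₀ = ⟨a, kern_self⟩`) for constant radices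
`b ^ w`. -/
theorem good_kern {A : Type} [Finite A] {b : ℕ} (hb : 2 ≤ b) {a : ℕ → A}
    (ha : (kern b a).Finite) :
    ∃ (w : ℕ) (𝓕 : (ℕ → ℕ) → Set (ℕ → ℝ)), 1 ≤ w ∧ Good (b ^ w) 𝓕 ∧
      (∀ q, ∀ F ∈ 𝓕 q, ∀ n, |F n| ≤ 1) ∧
      ∀ (q : ℕ → ℕ), (∀ j, q j = b ^ w) → ∀ f : A → ℝ, (∀ x, |f x| ≤ 1) →
        (fun m => f (a m)) ∈ 𝓕 q := by
  classical
  have hfin : Finite (kern b a) := ha.to_subtype
  have hft := Fintype.ofFinite (kern b a)
  obtain ⟨w, D₀, de, hw, hAD⟩ := exists_AD hb (kernT b a)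
  refine ⟨w, FA (b ^ w) (fun s : kern b a => (s : ℕ → A)), hw,
    good_au hAD (fun s : kern b a => (s : ℕ → A)) fun s u d hd => kernT_tw hb w s u d hd, ?_, ?_⟩
  · rintro q F ⟨-, s₀, f, hf, hF⟩ n
    rw [hF]
    exact hf _
  · intro q hq f hf
    exact ⟨hq, ⟨a, kern_self b a⟩, f, hf, fun m => rfl⟩

/-- **the subshift of an automatic sequence**. PROOF. Given `m, η`: `good_kern` for `blk m a` (`kern_blk`; `Fin m → A` is
finite) gives `w, 𝓕`; `B' = b ^ w`, `ρ q = fun j => q j ^ w`, `h1 = 0`. For `x` in the set and `h` take `s` with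
`x j = a (j + s)` for `j < h + m`; then `f (fun j => x (n + j)) = f (blk m a (n + s))` for `n < h`, so there are no
exceptions with `F = fun n => f (blk m a n)`. -/
theorem sub_auto {A : Type} [Finite A] {b : ℕ} (hb : 2 ≤ b) {a : ℕ → A}
    (ha : (kern b a).Finite) : SubGoodR b (fun q => {x | (∀ j, q j = b) ∧ x ∈ XA a}) := by
  classical
  intro m η hη
  obtain ⟨w, 𝓕, hw, hG, hF1, hmem⟩ := good_kern hb (kern_blk hb ha m)
  refine ⟨b ^ w, 𝓕, fun q j => q j ^ w, hG, ?_, ?_, hF1, 0, ?_⟩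
  · intro q hq j
    obtain ⟨h1, h2⟩ := hq j
    refine ⟨?_, Nat.pow_le_pow_left h2 w⟩
    calc 2 ≤ q j := h1
      _ = q j ^ 1 := (pow_one _).symm
      _ ≤ q j ^ w := Nat.pow_le_pow_right (by omega) hw
  · intro q n hq j
    exact Nat.Coprime.pow_left w (hq j)
  · intro q hq x hx h _ f hf
    obtain ⟨hqb, hxa⟩ := hx
    obtain ⟨s, hs⟩ := hxa (h + m)
    refine ⟨fun n => f (blk m a n), hmem (fun j => q j ^ w) (fun j => by rw [hqb j]) f hf, s, ?_⟩
    have h0 : ((range h).filter fun n => f (fun j : Fin m => x (n + j)) ≠ f (blk m a (n + s))) =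
        ∅ := by
      rw [Finset.filter_eq_empty_iff]
      intro n hn
      rw [Finset.mem_range] at hn
      rw [not_not]
      congr 1
      funext j
      have hj := j.2
      show x (n + j) = a (n + s + j)
      rw [hs (n + j) (by omega)]
      congr 1
      omega
    rw [h0, Finset.card_empty, Nat.cast_zero]
    positivity

end Pool.Agent.Lib.MP_3e612f_nt.LV
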