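import Pool.Agent.Lib.MP_3e612f_nt.LV.SubR

/-!
Products of subshifts with good block functions, indexed by a finite type.
-/

set_option autoImplicit false

namespace Pool.Agent.Lib.MP_3e612f_nt.LV

open Finset
open Pool.Agent.Lib.MP_3e612f_nt.PB (Rad Qr)
open Pool.Agent.Lib.MP_3e612f_nt.LOD
open Pool.Agent.Lib.MP_3e612f_nt.LORT (ev norm_ev)
open Pool.Agent.Lib.MP_3e612f_nt.PI (mc)

/-- the same for a finite index type. PROOF. Transport along `Fintype.equivFin ι` (`sub_multiR` for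
`A' k = A (e.symm k)`, `B' k = B (e.symm k)`, `X' k = X (e.symm k)`, `f' y = f (fun i => …)` with
`Equiv.piCongrLeft'` or `(Equiv.piCongrLeft (fun i => ℕ → A i) e.symm)`, which is continuous). -/
theorem sub_multiF (hMR : MRp) {ι : Type} [Fintype ι] (A : ι → Type) [∀ i, Finite (A i)]
    [∀ i, TopologicalSpace (A i)] [∀ i, DiscreteTopology (A i)] (B : ι → ℕ)
    (X : ∀ i, (ℕ → ℕ) → Set (ℕ → A i)) (hX : ∀ i, SubGoodR (B i) (X i))
    (f : (∀ i, ℕ → A i) → ℂ) (hf : Continuous f) {ε : ℝ} (hε : 0 < ε) :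
    ∃ h0 : ℕ, ∀ h ≥ h0, ∃ N0 : ℕ, ∀ N ≥ N0, ∀ q : ι → ℕ → ℕ, (∀ i, Rad (B i) (q i)) →
      (∀ i i', i ≠ i' → ∀ j j', Nat.Coprime (q i j) (q i' j')) →
      ∀ (α : ℝ) (x : ℕ → ∀ i, ℕ → A i), (∀ n i, x n i ∈ X i (q i)) →
        ∑ n ∈ range N, ‖∑ k ∈ range h, mc (n + k) *
          (f (fun i j => x n i (j + k)) * ev (α * k))‖ ≤ ε * h * N := by
  obtain ⟨r, hr⟩ : ∃ r : ℕ, Fintype.card ι = r := ⟨_, rfl⟩
  obtain ⟨e⟩ : Nonempty (Fin r ≃ ι) := ⟨(Fintype.equivFinOfCardEq hr).symm⟩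
  have hP : ∀ g : ∀ i, ℕ → A i,
      (Homeomorph.piCongrLeft (Y := fun i => ℕ → A i) e) (fun k => g (e k)) = g := fun g =>
    (Equiv.piCongrLeft (fun i => ℕ → A i) e).apply_symm_apply g
  obtain ⟨h0, hh0⟩ := sub_multiR hMR (fun k => A (e k)) (fun k => B (e k)) (fun k => X (e k))
    (fun k => hX (e k)) (f ∘ (Homeomorph.piCongrLeft (Y := fun i => ℕ → A i) e))
    (hf.comp (Homeomorph.piCongrLeft (Y := fun i => ℕ → A i) e).continuous) hε
  refine ⟨h0, fun h hh => ?_⟩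
  obtain ⟨N0, hN0⟩ := hh0 h hh
  refine ⟨N0, fun N hN q hq hcop α x hx => ?_⟩
  have h1 := hN0 N hN (fun k => q (e k)) (fun k => hq (e k))
    (fun i i' hii j j' => hcop _ _ (fun h => hii (e.injective h)) j j') α
    (fun n k => x n (e k)) (fun n k => hx n (e k))
  refine le_trans (le_of_eq ?_) h1
  refine sum_congr rfl fun n _ => ?_
  congr 1
  refine sum_congr rfl fun k _ => ?_
  rw [Function.comp_apply, hP (fun i j => x n i (j + k))]

end Pool.Agent.Lib.MP_3e612f_nt.LV
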