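import Pool.Agent.Lib.MP_3e612f_nt.PB.Defs
import Pool.Agent.Lib.MP_3e612f_nt.LO.R.Ev

/-!
# Local Moebius disjointness of products of digital systems in coprime bases: the interface

`Good B 𝓕`: the class `𝓕 q` (`q` a sequence of radices in `[2, B]`) of real functions has, uniformly in `q`,
for every choice of finite sets of primes `P n` and of tolerances `δ n`, a decomposition at every scale
`Q = q 0 ⋯ q (K - 1)`: on the aligned blocks of length `Q` the function is one of `C` functions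
`U c + V c + E c`, where `U c` is a function of few `⌊m / D⌋ mod M`, where `V c` belongs to a class with small
correlations along all pairs of primes of `P n`, twisted by arbitrary linear phases, and `E c` is small in
mean; everything is periodic modulo `Q`.
-/

set_option autoImplicit false

namespace Pool.Agent.Lib.MP_3e612f_nt.LV

open Finset
open Pool.Agent.Lib.MP_3e612f_nt.PB (Rad Qr)
open Pool.Agent.Lib.MP_3e612f_nt.LORT (ev)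

/-- structured functions: functions of at most `R` residues `⌊m / D i⌋ mod M` -/
def Str (M R : ℕ) (U : ℕ → ℝ) : Prop :=
  ∃ n ≤ R, ∃ D : Fin n → ℕ, (∀ i, 1 ≤ D i) ∧ ∃ Ψ : (Fin n → ℕ) → ℝ, (∀ e, |Ψ e| ≤ 1) ∧
    ∀ m, U m = Ψ (fun i => m / D i % M)

/-- small correlations of the functions of `𝒱` (periodic modulo `Q`) along pairs of primes of `P`, with
arbitrary linear phases -/
def Flat (P : Finset ℕ) (δ : ℝ) (Q : ℕ) (𝒱 : Set (ℕ → ℝ)) : Prop :=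
  ∀ V₁ ∈ 𝒱, ∀ V₂ ∈ 𝒱, ∀ p ∈ P, ∀ r ∈ P, p < r → ∀ (θ : ℝ) (s₁ s₂ : ℕ),
    ‖∑ v ∈ range Q, ((V₁ (p * v + s₁) * V₂ (r * v + s₂) : ℝ) : ℂ) * ev (θ * v)‖ ≤ δ * Q

/-- the interface -/
def Good (B : ℕ) (𝓕 : (ℕ → ℕ) → Set (ℕ → ℝ)) : Prop :=
  ∃ C B0 : ℕ, ∀ ε : ℝ, 0 < ε → ∀ (P : ℕ → Finset ℕ) (δ : ℕ → ℝ),
    (∀ n, ∀ p ∈ P n, p.Prime ∧ B0 < p) → (∀ n, 0 < δ n) →
    ∃ R M K0 : ℕ, 1 ≤ M ∧ ∀ q : ℕ → ℕ, Rad B q → ∃ 𝒱 : ℕ → ℕ → Set (ℕ → ℝ),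
      (∀ n K, ∀ V ∈ 𝒱 n K, (∀ m, |V m| ≤ 2) ∧ ∀ m, V (m + Qr q 0 K) = V m) ∧
      (∀ n ≤ R, ∀ K ≥ K0, Flat (P n) (δ n) (Qr q 0 K) (𝒱 n K)) ∧
      ∀ K ≥ K0, ∀ F ∈ 𝓕 q, ∃ n ≤ R, ∃ (z : ℕ → Fin C) (U V E : Fin C → ℕ → ℝ),
        (∀ m, F m = U (z (m / Qr q 0 K)) m + V (z (m / Qr q 0 K)) m + E (z (m / Qr q 0 K)) m) ∧
        (∀ c, Str M R (U c) ∧ ∀ m, U c (m + Qr q 0 K) = U c m) ∧ (∀ c, V c ∈ 𝒱 n K) ∧
        ∀ c, (∀ m, |E c m| ≤ 2) ∧ (∀ m, E c (m + Qr q 0 K) = E c m) ∧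
          ∑ v ∈ range (Qr q 0 K), |E c v| ≤ ε * Qr q 0 K

end Pool.Agent.Lib.MP_3e612f_nt.LV
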