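import Pool.Agent.Lib.MP_3e612f_nt.LV.AuGrpB
import Pool.Agent.Lib.MP_3e612f_nt.LV.Defs

/-!
The correlation bound `CB` of an automaton and the average over the upper digits.
-/

set_option autoImplicit false

namespace Pool.Agent.Lib.MP_3e612f_nt.LV

open Finset
open Pool.Agent.Lib.MP_3e612f_nt.LORT (ev norm_ev)

variable {S : Type} [Fintype S] [DecidableEq S] {q D₀ de : ℕ} {τ : ℕ → S → S}

/-- all twisted correlations of length `L` are at most `γ` -/
def CB (q D₀ : ℕ) (τ : ℕ → S → S) (de p r L : ℕ) (γ : ℝ) : Prop :=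
  ∀ (θ : ℝ) (t t' : ℕ) (Φ : S → S → ℕ → ℕ → ℂ) (x x' : S) (k k' : ℕ), t < q ^ L → t' < q ^ L →
    k ≤ p → k' ≤ r → (∀ y y' j j', ‖Φ y y' j j'‖ ≤ 1) →
    (∀ y' j j', BalS q D₀ τ de (fun y => Φ y y' j j')) →
    ‖∑ v ∈ range (q ^ L), ev (θ * v) * Φ (tw q τ L (p * v + k + t) x)
      (tw q τ L (r * v + k' + t') x') ((p * v + k + t) / q ^ L)
      ((r * v + k' + t') / q ^ L)‖ ≤ γ * q ^ L

/-- the average over the upper digits -/
noncomputable def aver (q : ℕ) (τ : ℕ → S → S) (p r M : ℕ) (θ : ℝ) (t t' : ℕ)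
    (Φ : S → S → ℕ → ℕ → ℂ) (y y' : S) (i i' : ℕ) : ℂ :=
  if i ≤ p ∧ i' ≤ r then
    (∑ u ∈ range (q ^ M), ev (θ * u) * Φ (tw q τ M (p * u + i + t) y)
      (tw q τ M (r * u + i' + t') y') ((p * u + i + t) / q ^ M) ((r * u + i' + t') / q ^ M)) / q ^ M
  else 0

/-- PROOF. The sum over `ν` commutes with the sum over `u`, and `fun s => tw q τ M (p * u + i + t) (w s)` is `IsT`
(`IsT_tw`). -/
theorem aver_bal (h : AD S q D₀ de τ) (p r M : ℕ) (θ : ℝ) (t t' : ℕ) {Φ : S → S → ℕ → ℕ → ℂ}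
    (hΦ : ∀ y' j j', BalS q D₀ τ de (fun y => Φ y y' j j')) (y' : S) (i i' : ℕ) :
    BalS q D₀ τ de (fun y => aver q τ p r M θ t t' Φ y y' i i') := by
  classical
  intro w hw s
  by_cases hi : i ≤ p ∧ i' ≤ r
  · have h1 : ∀ u : ℕ, ∑ ν : Equiv.Perm (RR τ de), (if ν ∈ NN q D₀ τ de then
        Φ (tw q τ M (p * u + i + t) (w (ν s))) (tw q τ M (r * u + i' + t') y')
          ((p * u + i + t) / q ^ M) ((r * u + i' + t') / q ^ M) else 0) = 0 := by
      intro u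
      have h2 := hΦ (tw q τ M (r * u + i' + t') y') ((p * u + i + t) / q ^ M)
        ((r * u + i' + t') / q ^ M) (fun s => tw q τ M (p * u + i + t) (w s))
        (IsT_tw h hw M (p * u + i + t)) s
      exact h2
    have h3 : ∀ ν : Equiv.Perm (RR τ de), (if ν ∈ NN q D₀ τ de then
        aver q τ p r M θ t t' Φ (w (ν s)) y' i i' else 0) =
        (∑ u ∈ range (q ^ M), ev (θ * u) * (if ν ∈ NN q D₀ τ de then
          Φ (tw q τ M (p * u + i + t) (w (ν s))) (tw q τ M (r * u + i' + t') y')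
          ((p * u + i + t) / q ^ M) ((r * u + i' + t') / q ^ M) else 0)) / q ^ M := by
      intro ν
      by_cases hν : ν ∈ NN q D₀ τ de
      · simp only [if_pos hν]
        unfold aver
        rw [if_pos hi]
      · simp only [if_neg hν, mul_zero, sum_const_zero, zero_div]
    rw [Finset.sum_congr rfl (fun ν _ => h3 ν), ← Finset.sum_div, Finset.sum_comm]
    have h4 : ∑ u ∈ range (q ^ M), ∑ ν : Equiv.Perm (RR τ de), ev (θ * u) *
        (if ν ∈ NN q D₀ τ de then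
          Φ (tw q τ M (p * u + i + t) (w (ν s))) (tw q τ M (r * u + i' + t') y')
          ((p * u + i + t) / q ^ M) ((r * u + i' + t') / q ^ M) else 0) = 0 := by
      apply Finset.sum_eq_zero
      intro u _
      rw [← Finset.mul_sum, h1 u, mul_zero]
    rw [h4, zero_div]
  · apply Finset.sum_eq_zero
    intro ν _
    have h5 : aver q τ p r M θ t t' Φ (w (ν s)) y' i i' = 0 := by
      unfold aver
      rw [if_neg hi]
    show (if ν ∈ NN q D₀ τ de then aver q τ p r M θ t t' Φ (w (ν s)) y' i i' else 0) = 0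
    rw [h5]
    split_ifs <;> rfl

theorem aver_norm (hq : 1 ≤ q) (p r M : ℕ) (θ : ℝ) (t t' : ℕ) {Φ : S → S → ℕ → ℕ → ℂ}
    (hΦ : ∀ y y' j j', ‖Φ y y' j j'‖ ≤ 1) (y y' : S) (i i' : ℕ) :
    ‖aver q τ p r M θ t t' Φ y y' i i'‖ ≤ 1 := by
  have hpos : (0 : ℝ) < (q : ℝ) ^ M := pow_pos (by exact_mod_cast hq) M
  unfold aver
  split_ifs with hi
  · rw [norm_div, norm_pow, Complex.norm_natCast, div_le_one hpos]
    refine (norm_sum_le _ _).trans ?_
    have h1 : ∀ u ∈ range (q ^ M), ‖ev (θ * u) * Φ (tw q τ M (p * u + i + t) y)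
      (tw q τ M (r * u + i' + t') y') ((p * u + i + t) / q ^ M)
      ((r * u + i' + t') / q ^ M)‖ ≤ 1 := by
      intro u _
      rw [norm_mul, norm_ev, one_mul]
      exact hΦ _ _ _ _
    refine (Finset.sum_le_sum h1).trans ?_
    rw [Finset.sum_const, Finset.card_range, nsmul_eq_mul, mul_one]
    exact_mod_cast le_refl (q ^ M)
  · rw [norm_zero]
    exact zero_le_one

/-- PROOF. Definition of `CB`, division by `q ^ M > 0`. -/
theorem aver_le (hq : 1 ≤ q) {p r M : ℕ} {γ : ℝ} (hγ : 0 ≤ γ) (hC : CB q D₀ τ de p r M γ) (θ : ℝ)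
    {t t' : ℕ} (ht : t < q ^ M) (ht' : t' < q ^ M) {Φ : S → S → ℕ → ℕ → ℂ}
    (hΦ : ∀ y y' j j', ‖Φ y y' j j'‖ ≤ 1)
    (hb : ∀ y' j j', BalS q D₀ τ de (fun y => Φ y y' j j')) (y y' : S) (i i' : ℕ) :
    ‖aver q τ p r M θ t t' Φ y y' i i'‖ ≤ γ := by
  have hpos : (0 : ℝ) < (q : ℝ) ^ M := pow_pos (by exact_mod_cast hq) M
  unfold aver
  split_ifs with hi
  · rw [norm_div, norm_pow, Complex.norm_natCast, div_le_iff₀ hpos]
    exact hC θ t t' Φ y y' i i' ht ht' hi.1 hi.2 hΦ hb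
  · rw [norm_zero]
    exact hγ

private theorem aver_carry (hq : 1 ≤ q) {p L k t n : ℕ} (hk : k ≤ p) (ht : t < q ^ L)
    (hn : n < q ^ L) : (p * n + k + t) / q ^ L ≤ p := by
  have h0 : 0 < q ^ L := Nat.pow_pos hq
  rw [← Nat.lt_succ_iff, Nat.div_lt_iff_lt_mul h0, Nat.succ_mul]
  have h1 : p * (n + 1) ≤ p * q ^ L := Nat.mul_le_mul_left p hn
  have h2 : p * (n + 1) = p * n + p := by ring
  omega

private theorem aver_num (p k n u t₀ t₁ a : ℕ) :
    p * (n + a * u) + k + (t₀ + a * t₁) = (p * n + k + t₀) + a * (p * u + t₁) := by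
  ring

omit [Fintype S] [DecidableEq S] in
private theorem aver_tw (hq : 1 ≤ q) (τ : ℕ → S → S) {L M : ℕ} (p k n u t₀ t₁ : ℕ) (x : S) :
    tw q τ (L + M) (p * (n + q ^ L * u) + k + (t₀ + q ^ L * t₁)) x =
      tw q τ M (p * u + (p * n + k + t₀) / q ^ L + t₁) (tw q τ L (p * n + k + t₀) x) := by
  have h0 : 0 < q ^ L := Nat.pow_pos hq
  rw [aver_num, tw_add, Nat.add_mul_div_left _ _ h0]
  have h1 : tw q τ L (p * n + k + t₀ + q ^ L * (p * u + t₁)) x = tw q τ L (p * n + k + t₀) x := by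
    apply tw_congr
    show (p * n + k + t₀ + q ^ L * (p * u + t₁)) % q ^ L = (p * n + k + t₀) % q ^ L
    rw [Nat.add_mul_mod_self_left]
  rw [h1]
  congr 1
  ring

private theorem aver_fc (hq : 1 ≤ q) {L M : ℕ} (p k n u t₀ t₁ : ℕ) :
    (p * (n + q ^ L * u) + k + (t₀ + q ^ L * t₁)) / q ^ (L + M) =
      (p * u + (p * n + k + t₀) / q ^ L + t₁) / q ^ M := by
  have h0 : 0 < q ^ L := Nat.pow_pos hq
  rw [aver_num, pow_add, ← Nat.div_div_eq_div_mul, Nat.add_mul_div_left _ _ h0]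
  congr 1
  ring

/-- **the average and the lower digits**. PROOF. The carries `(p * n + k + t₀) / q ^ L ≤ p` (as
`p * n + k + t₀ < (p + 1) * q ^ L`) and similarly for `r`, so the `if` in `aver` is true. For every `u`
`p * (n + q ^ L * u) + k + (t₀ + q ^ L * t₁) = (p * n + k + t₀) + q ^ L * (p * u + t₁)`, so by `tw_add`
`tw q τ (L + M) (…) x = tw q τ M ((p * n + k + t₀) / q ^ L + (p * u + t₁)) (tw q τ L (p * n + k + t₀) x)`
(`Nat.add_mul_div_left`, `tw_congr` modulo `q ^ L`), the final carry is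
`(p * u + (p * n + k + t₀) / q ^ L + t₁) / q ^ M` (`Nat.div_div_eq_div_mul`, `pow_add`), and
`ev (θ * n) * ev (θ * q ^ L * u) = ev (θ * (n + q ^ L * u))`. -/
theorem aver_step (hq : 1 ≤ q) {p r L M : ℕ} (θ : ℝ) {t₀ t₀' : ℕ} (t₁ t₁' : ℕ) (ht : t₀ < q ^ L)
    (ht' : t₀' < q ^ L) (Φ : S → S → ℕ → ℕ → ℂ) (x x' : S) {k k' n : ℕ} (hk : k ≤ p) (hk' : k' ≤ r)
    (hn : n < q ^ L) :
    ev (θ * n) * aver q τ p r M (θ * q ^ L) t₁ t₁' Φ (tw q τ L (p * n + k + t₀) x)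
        (tw q τ L (r * n + k' + t₀') x') ((p * n + k + t₀) / q ^ L) ((r * n + k' + t₀') / q ^ L) =
      (∑ u ∈ range (q ^ M), ev (θ * ((n + q ^ L * u : ℕ) : ℝ)) *
        Φ (tw q τ (L + M) (p * (n + q ^ L * u) + k + (t₀ + q ^ L * t₁)) x)
          (tw q τ (L + M) (r * (n + q ^ L * u) + k' + (t₀' + q ^ L * t₁')) x')
          ((p * (n + q ^ L * u) + k + (t₀ + q ^ L * t₁)) / q ^ (L + M))
          ((r * (n + q ^ L * u) + k' + (t₀' + q ^ L * t₁')) / q ^ (L + M))) / q ^ M := by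
  have hc : (p * n + k + t₀) / q ^ L ≤ p := aver_carry hq hk ht hn
  have hc' : (r * n + k' + t₀') / q ^ L ≤ r := aver_carry hq hk' ht' hn
  unfold aver
  rw [if_pos ⟨hc, hc'⟩, mul_div_assoc', Finset.mul_sum]
  congr 1
  apply Finset.sum_congr rfl
  intro u _
  rw [aver_tw hq τ (L := L) (M := M) p k n u t₀ t₁ x, aver_tw hq τ (L := L) (M := M) r k' n u t₀' t₁' x',
    aver_fc hq (L := L) (M := M) p k n u t₀ t₁, aver_fc hq (L := L) (M := M) r k' n u t₀' t₁',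
    ← mul_assoc, ← LORT.ev_add]
  congr 2
  push_cast
  ring

end Pool.Agent.Lib.MP_3e612f_nt.LV
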