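import Pool.Agent.Lib.MP_3e612f_nt.LV.AuAver

/-!
The correlation bound is submultiplicative; a small correlation bound makes the balanced class flat.
-/

set_option autoImplicit false

namespace Pool.Agent.Lib.MP_3e612f_nt.LV

open Finset
open Pool.Agent.Lib.MP_3e612f_nt.LORT (ev norm_ev ev_add)

variable {S : Type} [Fintype S] [DecidableEq S] {q D₀ de : ℕ} {τ : ℕ → S → S}

private theorem sum_split (a b : ℕ) (f : ℕ → ℂ) :
    ∑ v ∈ range (a * b), f v = ∑ n ∈ range a, ∑ u ∈ range b, f (n + a * u) := by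
  induction b with
  | zero => simp
  | succ b ih =>
    rw [Nat.mul_succ, Finset.sum_range_add, ih, ← Finset.sum_add_distrib]
    refine Finset.sum_congr rfl fun n _ => ?_
    rw [Finset.sum_range_succ, Nat.add_comm (a * b) n]

open Classical in
private theorem bal_smul (c : ℂ) {g : S → ℂ} (hg : BalS q D₀ τ de g) :
    BalS q D₀ τ de (fun y => c * g y) := by
  intro w hw s
  have h1 := hg w hw s
  have h2 : (∑ ν : Equiv.Perm (RR τ de), (if ν ∈ NN q D₀ τ de then c * g (w (ν s)) else 0)) =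
      c * ∑ ν : Equiv.Perm (RR τ de), (if ν ∈ NN q D₀ τ de then g (w (ν s)) else 0) := by
    rw [Finset.mul_sum]
    refine Finset.sum_congr rfl fun ν _ => ?_
    by_cases hν : ν ∈ NN q D₀ τ de
    · rw [if_pos hν, if_pos hν]
    · rw [if_neg hν, if_neg hν, mul_zero]
  show (∑ ν : Equiv.Perm (RR τ de), (if ν ∈ NN q D₀ τ de then c * g (w (ν s)) else 0)) = 0
  rw [h2, h1, mul_zero]

theorem CB_one (p r L : ℕ) : CB q D₀ τ de p r L 1 := by
  intro θ t t' Φ x x' k k' _ _ _ _ hΦ _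
  refine (norm_sum_le _ _).trans ?_
  have h1 : ∀ v ∈ range (q ^ L), ‖ev (θ * v) * Φ (tw q τ L (p * v + k + t) x)
      (tw q τ L (r * v + k' + t') x') ((p * v + k + t) / q ^ L)
      ((r * v + k' + t') / q ^ L)‖ ≤ 1 := by
    intro v _
    rw [norm_mul, norm_ev, one_mul]
    exact hΦ _ _ _ _
  refine (Finset.sum_le_sum h1).trans (le_of_eq ?_)
  rw [Finset.sum_const, Finset.card_range, nsmul_eq_mul, mul_one, one_mul, Nat.cast_pow]

theorem CB_mono {p r L : ℕ} {γ γ' : ℝ} (hγ : γ ≤ γ') (hC : CB q D₀ τ de p r L γ) :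
    CB q D₀ τ de p r L γ' := by
  intro θ t t' Φ x x' k k' ht ht' hk hk' hΦ hb
  refine (hC θ t t' Φ x x' k k' ht ht' hk hk' hΦ hb).trans ?_
  exact mul_le_mul_of_nonneg_right hγ (by positivity)

/-- PROOF. `t = t₀ + q ^ L * t₁`, `t₀ = t % q ^ L`, `t₁ = t / q ^ L < q ^ M`, similarly `t'`. The sum over
`v < q ^ (L + M)` is the sum over `v = n + q ^ L * u`, `n < q ^ L`, `u < q ^ M`; by `aver_step` it is
`q ^ M * ∑ n, ev (θ * n) * aver … (…)`. Apply `hL` to `Φ' = γ'⁻¹ • aver q τ p r M (θ * q ^ L) t₁ t₁' Φ`, which is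
bounded by `1` (`aver_le`) and balanced (`aver_bal`). -/
theorem CB_add (h : AD S q D₀ de τ) {p r L M : ℕ} {γ γ' : ℝ} (hγ' : 0 < γ')
    (hL : CB q D₀ τ de p r L γ) (hM : CB q D₀ τ de p r M γ') :
    CB q D₀ τ de p r (L + M) (γ * γ') := by
  intro θ t t' Φ x x' k k' ht ht' hk hk' hΦ hb
  have hq0 : 0 < q := by have := h.hq; omega
  have hq1 : 1 ≤ q := hq0
  have hL0 : 0 < q ^ L := Nat.pow_pos hq0
  have hM0 : 0 < q ^ M := Nat.pow_pos hq0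
  have hM0' : (0 : ℝ) < (q : ℝ) ^ M := by positivity
  have hMC : ((q : ℂ) ^ M) ≠ 0 := by
    have : (q : ℂ) ≠ 0 := by exact_mod_cast hq0.ne'
    exact pow_ne_zero _ this
  obtain ⟨t₀, ht₀⟩ : ∃ t₀, t₀ = t % q ^ L := ⟨_, rfl⟩
  obtain ⟨t₁, ht₁⟩ : ∃ t₁, t₁ = t / q ^ L := ⟨_, rfl⟩
  obtain ⟨t₀', ht₀'⟩ : ∃ t₀', t₀' = t' % q ^ L := ⟨_, rfl⟩
  obtain ⟨t₁', ht₁'⟩ : ∃ t₁', t₁' = t' / q ^ L := ⟨_, rfl⟩
  have e1 : t = t₀ + q ^ L * t₁ := by rw [ht₀, ht₁]; exact (Nat.mod_add_div t (q ^ L)).symm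
  have e1' : t' = t₀' + q ^ L * t₁' := by rw [ht₀', ht₁']; exact (Nat.mod_add_div t' (q ^ L)).symm
  have l0 : t₀ < q ^ L := by rw [ht₀]; exact Nat.mod_lt _ hL0
  have l0' : t₀' < q ^ L := by rw [ht₀']; exact Nat.mod_lt _ hL0
  have l1 : t₁ < q ^ M := by
    rw [ht₁]; exact Nat.div_lt_of_lt_mul (by rw [← pow_add]; exact ht)
  have l1' : t₁' < q ^ M := by
    rw [ht₁']; exact Nat.div_lt_of_lt_mul (by rw [← pow_add]; exact ht')
  -- the inner function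
  have hA : ∀ y y' i i', ‖aver q τ p r M (θ * q ^ L) t₁ t₁' Φ y y' i i'‖ ≤ γ' :=
    fun y y' i i' => aver_le hq1 hγ'.le hM _ l1 l1' hΦ hb y y' i i'
  have hΦ' : ∀ y y' j j',
      ‖((γ' : ℂ)⁻¹ * aver q τ p r M (θ * q ^ L) t₁ t₁' Φ y y' j j')‖ ≤ 1 := by
    intro y y' j j'
    rw [norm_mul, norm_inv, Complex.norm_real, Real.norm_of_nonneg hγ'.le]
    calc γ'⁻¹ * ‖aver q τ p r M (θ * q ^ L) t₁ t₁' Φ y y' j j'‖
        ≤ γ'⁻¹ * γ' := mul_le_mul_of_nonneg_left (hA _ _ _ _) (inv_nonneg.mpr hγ'.le)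
      _ = 1 := inv_mul_cancel₀ hγ'.ne'
  have hb' : ∀ y' j j', BalS q D₀ τ de
      (fun y => (γ' : ℂ)⁻¹ * aver q τ p r M (θ * q ^ L) t₁ t₁' Φ y y' j j') := by
    intro y' j j'
    exact bal_smul _ (aver_bal h p r M _ t₁ t₁' hb y' j j')
  have key := hL θ t₀ t₀' (fun y y' j j' => (γ' : ℂ)⁻¹ *
    aver q τ p r M (θ * q ^ L) t₁ t₁' Φ y y' j j') x x' k k' l0 l0' hk hk' hΦ' hb'
  -- the sum
  have hsum : (∑ v ∈ range (q ^ (L + M)), ev (θ * v) * Φ (tw q τ (L + M) (p * v + k + t) x)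
      (tw q τ (L + M) (r * v + k' + t') x') ((p * v + k + t) / q ^ (L + M))
      ((r * v + k' + t') / q ^ (L + M))) =
      ((q : ℂ) ^ M * (γ' : ℂ)) * ∑ n ∈ range (q ^ L), ev (θ * n) * ((γ' : ℂ)⁻¹ *
        aver q τ p r M (θ * q ^ L) t₁ t₁' Φ (tw q τ L (p * n + k + t₀) x)
        (tw q τ L (r * n + k' + t₀') x') ((p * n + k + t₀) / q ^ L)
        ((r * n + k' + t₀') / q ^ L)) := by
    rw [pow_add, sum_split, Finset.mul_sum]
    refine Finset.sum_congr rfl fun n hn => ?_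
    have hn' : n < q ^ L := Finset.mem_range.mp hn
    have hγC : (γ' : ℂ) ≠ 0 := by exact_mod_cast hγ'.ne'
    have hs := aver_step (τ := τ) (M := M) hq1 θ t₁ t₁' l0 l0' Φ x x' hk hk' hn'
    have h2 : (q : ℂ) ^ M * (γ' : ℂ) * (ev (θ * n) * ((γ' : ℂ)⁻¹ *
        aver q τ p r M (θ * q ^ L) t₁ t₁' Φ (tw q τ L (p * n + k + t₀) x)
        (tw q τ L (r * n + k' + t₀') x') ((p * n + k + t₀) / q ^ L)
        ((r * n + k' + t₀') / q ^ L))) = (q : ℂ) ^ M * (ev (θ * n) *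
        aver q τ p r M (θ * q ^ L) t₁ t₁' Φ (tw q τ L (p * n + k + t₀) x)
        (tw q τ L (r * n + k' + t₀') x') ((p * n + k + t₀) / q ^ L)
        ((r * n + k' + t₀') / q ^ L)) := by
      field_simp
    rw [h2, hs, mul_div_cancel₀ _ hMC]
    rw [e1, e1', pow_add]
  rw [hsum, norm_mul, norm_mul, norm_pow, Complex.norm_natCast, Complex.norm_real,
    Real.norm_of_nonneg hγ'.le]
  calc (q : ℝ) ^ M * γ' * _ ≤ (q : ℝ) ^ M * γ' * (γ * (q : ℝ) ^ L) :=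
        mul_le_mul_of_nonneg_left key (by positivity)
    _ = γ * γ' * (q : ℝ) ^ (L + M) := by rw [pow_add]; ring

/-- PROOF. `γ₁ = max γ (1 / 2)` is in `(0, 1)`; by induction (`CB_add`, `CB_one` for `n = 0`) `CB (n * L) (γ₁ ^ n)`;
choose `n` with `γ₁ ^ n ≤ δ`, `L₀ = n * L`; for `L' ≥ L₀` `CB_add` with `CB_one (L' - n * L)`. -/
theorem CB_small (h : AD S q D₀ de τ) {p r L : ℕ} {γ : ℝ} (hγ : γ < 1)
    (hL : CB q D₀ τ de p r L γ) {δ : ℝ} (hδ : 0 < δ) :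
    ∃ L₀ : ℕ, ∀ L' ≥ L₀, CB q D₀ τ de p r L' δ := by
  obtain ⟨g, hg⟩ : ∃ g, g = max γ (1 / 2) := ⟨_, rfl⟩
  have g0 : 0 < g := by rw [hg]; exact lt_of_lt_of_le (by norm_num) (le_max_right _ _)
  have g1 : g < 1 := by rw [hg]; exact max_lt hγ (by norm_num)
  have hLg : CB q D₀ τ de p r L g := CB_mono (by rw [hg]; exact le_max_left _ _) hL
  have hn : ∀ n : ℕ, CB q D₀ τ de p r (n * L) (g ^ n) := by
    intro n
    induction n with
    | zero =>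
      rw [Nat.zero_mul, pow_zero]
      exact CB_one p r 0
    | succ n ih =>
      rw [Nat.succ_mul, pow_succ]
      exact CB_add h g0 ih hLg
  obtain ⟨n, hnδ⟩ := exists_pow_lt_of_lt_one hδ g1
  refine ⟨n * L, fun L' hL' => ?_⟩
  have h1 := CB_add h (M := L' - n * L) one_pos (hn n) (CB_one p r _)
  rw [Nat.add_sub_cancel' hL', mul_one] at h1
  exact CB_mono hnδ.le h1

/-- the balanced class of an automaton -/
def VV (q D₀ : ℕ) (τ : ℕ → S → S) (de A K : ℕ) : Set (ℕ → ℝ) :=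
  {V | ∃ (s₀ : S) (g : ℕ → S → ℝ), (∀ x s, |g x s| ≤ 2) ∧
    (∀ x, BalS q D₀ τ de (fun s => ((g x s : ℝ) : ℂ))) ∧
    ∀ m, V m = g (m / q ^ (K - A) % q ^ A) (tw q τ (K - A) m s₀)}

theorem VV_per (hq : 1 ≤ q) {A K : ℕ} (hA : A ≤ K) {V : ℕ → ℝ} (hV : V ∈ VV q D₀ τ de A K) :
    (∀ m, |V m| ≤ 2) ∧ ∀ m, V (m + q ^ K) = V m := by
  obtain ⟨s₀, g, hg, -, hV'⟩ := hV
  refine ⟨fun m => by rw [hV']; exact hg _ _, fun m => ?_⟩
  have hKA : q ^ K = q ^ (K - A) * q ^ A := by rw [← pow_add, Nat.sub_add_cancel hA]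
  have h0 : 0 < q ^ (K - A) := Nat.pow_pos hq
  rw [hV', hV', hKA, Nat.add_mul_div_left _ _ h0, Nat.add_mod_right]
  congr 1
  apply tw_congr
  show (m + q ^ (K - A) * q ^ A) % q ^ (K - A) = m % q ^ (K - A)
  rw [Nat.add_mul_mod_self_left]

/-- PROOF. `L = K - A`, `v = n + q ^ L * u`, `n < q ^ L`, `u < q ^ A` (`q ^ K = q ^ L * q ^ A`), `s₁ = t + q ^ L * a`,
`t = s₁ % q ^ L`, similarly `s₂ = t' + q ^ L * a'`. Then `p * v + s₁ = (p * n + 0 + t) + q ^ L * (p * u + a)`, so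
`(p * v + s₁) / q ^ L = (p * n + 0 + t) / q ^ L + (p * u + a)` and `tw q τ L (p * v + s₁) = tw q τ L (p * n + 0 + t)`.
For fixed `u` the sum over `n` is `4 * ev (θ * q ^ L * u)` times the sum in `CB` for
`Φ y y' j j' = g₁ ((j + (p * u + a)) % q ^ A) y * g₂ ((j' + (r * u + a')) % q ^ A) y' / 4`, which is bounded by `1` and
balanced in `y`. Sum over the `q ^ A` values of `u`. -/
theorem VV_flat (h : AD S q D₀ de τ) {p r A K : ℕ} (hA : A ≤ K) {δ : ℝ}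
    (hC : CB q D₀ τ de p r (K - A) δ) {V₁ V₂ : ℕ → ℝ} (h1 : V₁ ∈ VV q D₀ τ de A K)
    (h2 : V₂ ∈ VV q D₀ τ de A K) (θ : ℝ) (s₁ s₂ : ℕ) :
    ‖∑ v ∈ range (q ^ K), ((V₁ (p * v + s₁) * V₂ (r * v + s₂) : ℝ) : ℂ) * ev (θ * v)‖ ≤
      4 * δ * (q : ℝ) ^ K := by
  obtain ⟨x₁, g₁, hg₁, hb₁, hV₁⟩ := h1
  obtain ⟨x₂, g₂, hg₂, _, hV₂⟩ := h2
  have hq0 : 0 < q := by have := h.hq; omega
  obtain ⟨L, hLd⟩ : ∃ L, L = K - A := ⟨_, rfl⟩
  rw [← hLd] at hC hV₁ hV₂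
  have hL0 : 0 < q ^ L := Nat.pow_pos hq0
  have hKA : q ^ K = q ^ L * q ^ A := by rw [← pow_add, hLd, Nat.sub_add_cancel hA]
  have hKAr : (q : ℝ) ^ K = (q : ℝ) ^ L * (q : ℝ) ^ A := by
    rw [← pow_add, hLd, Nat.sub_add_cancel hA]
  obtain ⟨t, htd⟩ : ∃ t, t = s₁ % q ^ L := ⟨_, rfl⟩
  obtain ⟨a, had⟩ : ∃ a, a = s₁ / q ^ L := ⟨_, rfl⟩
  obtain ⟨t', htd'⟩ : ∃ t', t' = s₂ % q ^ L := ⟨_, rfl⟩
  obtain ⟨a', had'⟩ : ∃ a', a' = s₂ / q ^ L := ⟨_, rfl⟩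
  have e1 : s₁ = t + q ^ L * a := by rw [htd, had]; exact (Nat.mod_add_div s₁ (q ^ L)).symm
  have e1' : s₂ = t' + q ^ L * a' := by rw [htd', had']; exact (Nat.mod_add_div s₂ (q ^ L)).symm
  have l0 : t < q ^ L := by rw [htd]; exact Nat.mod_lt _ hL0
  have l0' : t' < q ^ L := by rw [htd']; exact Nat.mod_lt _ hL0
  rw [hKA, sum_split, Finset.sum_comm]
  have hu : ∀ u ∈ range (q ^ A), ‖∑ n ∈ range (q ^ L),
      ((V₁ (p * (n + q ^ L * u) + s₁) * V₂ (r * (n + q ^ L * u) + s₂) : ℝ) : ℂ) *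
        ev (θ * ((n + q ^ L * u : ℕ) : ℝ))‖ ≤ 4 * δ * (q : ℝ) ^ L := by
    intro u _
    have hn1 : ∀ (g : ℝ), |g| ≤ 2 → ‖((g : ℝ) : ℂ)‖ ≤ 2 := by
      intro g hg
      rw [Complex.norm_real, Real.norm_eq_abs]; exact hg
    have key := hC θ t t' (fun y y' j j' => (((g₂ ((j' + (r * u + a')) % q ^ A) y' : ℝ) : ℂ) / 4) *
      ((g₁ ((j + (p * u + a)) % q ^ A) y : ℝ) : ℂ)) x₁ x₂ 0 0 l0 l0' (Nat.zero_le _)
      (Nat.zero_le _) (by
        intro y y' j j'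
        rw [norm_mul, norm_div]
        have a1 := hn1 _ (hg₁ ((j + (p * u + a)) % q ^ A) y)
        have a2 := hn1 _ (hg₂ ((j' + (r * u + a')) % q ^ A) y')
        have a3 : ‖(4 : ℂ)‖ = 4 := by norm_num
        rw [a3]
        have a4 := norm_nonneg (((g₁ ((j + (p * u + a)) % q ^ A) y : ℝ) : ℂ))
        have a5 := norm_nonneg (((g₂ ((j' + (r * u + a')) % q ^ A) y' : ℝ) : ℂ))
        nlinarith) (by
        intro y' j j'
        exact bal_smul _ (hb₁ ((j + (p * u + a)) % q ^ A)))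
    have hsum : (∑ n ∈ range (q ^ L),
        ((V₁ (p * (n + q ^ L * u) + s₁) * V₂ (r * (n + q ^ L * u) + s₂) : ℝ) : ℂ) *
          ev (θ * ((n + q ^ L * u : ℕ) : ℝ))) = (4 * ev (θ * ((q ^ L * u : ℕ) : ℝ))) *
        ∑ n ∈ range (q ^ L), ev (θ * n) *
          ((((g₂ (((r * n + 0 + t') / q ^ L + (r * u + a')) % q ^ A)
            (tw q τ L (r * n + 0 + t') x₂) : ℝ) : ℂ) / 4) *
          ((g₁ (((p * n + 0 + t) / q ^ L + (p * u + a)) % q ^ A)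
            (tw q τ L (p * n + 0 + t) x₁) : ℝ) : ℂ)) := by
      rw [Finset.mul_sum]
      refine Finset.sum_congr rfl fun n _ => ?_
      have b1 : p * (n + q ^ L * u) + s₁ = (p * n + 0 + t) + q ^ L * (p * u + a) := by
        rw [e1]; ring
      have b2 : r * (n + q ^ L * u) + s₂ = (r * n + 0 + t') + q ^ L * (r * u + a') := by
        rw [e1']; ring
      have c1 : (p * (n + q ^ L * u) + s₁) / q ^ L = (p * n + 0 + t) / q ^ L + (p * u + a) := by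
        rw [b1, Nat.add_mul_div_left _ _ hL0]
      have c2 : (r * (n + q ^ L * u) + s₂) / q ^ L = (r * n + 0 + t') / q ^ L + (r * u + a') := by
        rw [b2, Nat.add_mul_div_left _ _ hL0]
      have d1 : tw q τ L (p * (n + q ^ L * u) + s₁) x₁ = tw q τ L (p * n + 0 + t) x₁ := by
        apply tw_congr
        show (p * (n + q ^ L * u) + s₁) % q ^ L = (p * n + 0 + t) % q ^ L
        rw [b1, Nat.add_mul_mod_self_left]
      have d2 : tw q τ L (r * (n + q ^ L * u) + s₂) x₂ = tw q τ L (r * n + 0 + t') x₂ := by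
        apply tw_congr
        show (r * (n + q ^ L * u) + s₂) % q ^ L = (r * n + 0 + t') % q ^ L
        rw [b2, Nat.add_mul_mod_self_left]
      have e2 : ev (θ * ((n + q ^ L * u : ℕ) : ℝ)) =
          ev (θ * n) * ev (θ * ((q ^ L * u : ℕ) : ℝ)) := by
        rw [Nat.cast_add, mul_add, ev_add]
      rw [hV₁, hV₂, c1, c2, d1, d2, e2, Complex.ofReal_mul]
      ring
    rw [hsum, norm_mul, norm_mul, norm_ev, mul_one]
    have a3 : ‖(4 : ℂ)‖ = 4 := by norm_num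
    rw [a3]
    calc (4 : ℝ) * _ ≤ 4 * (δ * (q : ℝ) ^ L) := mul_le_mul_of_nonneg_left key (by norm_num)
      _ = 4 * δ * (q : ℝ) ^ L := by ring
  refine (norm_sum_le _ _).trans ((Finset.sum_le_sum hu).trans (le_of_eq ?_))
  rw [Finset.sum_const, Finset.card_range, nsmul_eq_mul, Nat.cast_pow, hKAr]
  ring

end Pool.Agent.Lib.MP_3e612f_nt.LV
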