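import Pool.Agent.Lib.MP_3e612f_nt.LV.AuGrpB

/-!
The core average: for a string `x` of length `j` containing the digit `de` cut at the topmost occurrence and
average over `NN` there.
-/

set_option autoImplicit false

namespace Pool.Agent.Lib.MP_3e612f_nt.LV

open Finset

variable {S : Type} [Fintype S] [DecidableEq S] {q D₀ de : ℕ} {τ : ℕ → S → S}

open Classical in
/-- average over `NN` after the idempotent -/
noncomputable def nav (h : AD S q D₀ de τ) (f : S → ℝ) (s : S) : ℝ :=
  (∑ ν : Equiv.Perm (RR τ de), if ν ∈ NN q D₀ τ de then f (ν ⟨τ de s, h.hidem s⟩) else 0) /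
    (∑ ν : Equiv.Perm (RR τ de), if ν ∈ NN q D₀ τ de then 1 else 0)

/-- the string of the lowest `j` digits of `x` contains the digit `de` -/
def cor (q de j x : ℕ) : Prop := ∃ i < j, x / q ^ i % q = de

open Classical in
/-- the average at the topmost occurrence of `de` among the lowest `j` digits of `x` (`0` if there is none); `s` is
the state below the string -/
noncomputable def cav (h : AD S q D₀ de τ) : ℕ → ℕ → (S → ℝ) → S → ℝ
  | 0, _, _, _ => 0
  | j + 1, x, f, s => if x / q ^ j % q = de then nav h f (tw q τ j x s)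
      else cav h j x (fun s => f (τ (x / q ^ j % q) s)) s

open Classical in
private theorem cavx_right (F : Equiv.Perm (RR τ de) → ℝ) {κ : Equiv.Perm (RR τ de)}
    (hκ : κ ∈ NN q D₀ τ de) :
    (∑ ν : Equiv.Perm (RR τ de), if ν ∈ NN q D₀ τ de then F (ν * κ) else 0) =
      ∑ ν : Equiv.Perm (RR τ de), if ν ∈ NN q D₀ τ de then F ν else 0 := by
  rw [← Equiv.sum_comp (Equiv.mulRight κ) fun ν => if ν ∈ NN q D₀ τ de then F ν else 0]
  refine Finset.sum_congr rfl fun ν _ => ?_
  rw [Equiv.coe_mulRight]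
  have e : (ν * κ ∈ NN q D₀ τ de) = (ν ∈ NN q D₀ τ de) :=
    propext (Subgroup.mul_mem_cancel_right _ hκ)
  rw [e]

open Classical in
private theorem cavx_conj (h : AD S q D₀ de τ) (F : Equiv.Perm (RR τ de) → ℝ)
    {D : Equiv.Perm (RR τ de)} (hD : D ∈ HH q τ de) :
    (∑ ν : Equiv.Perm (RR τ de), if ν ∈ NN q D₀ τ de then F (D * ν * D⁻¹) else 0) =
      ∑ ν : Equiv.Perm (RR τ de), if ν ∈ NN q D₀ τ de then F ν else 0 := by
  rw [← Equiv.sum_comp (MulAut.conj D).toEquiv fun ν => if ν ∈ NN q D₀ τ de then F ν else 0]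
  refine Finset.sum_congr rfl fun ν _ => ?_
  have e0 : (MulAut.conj D).toEquiv ν = D * ν * D⁻¹ := rfl
  rw [e0]
  have e : (D * ν * D⁻¹ ∈ NN q D₀ τ de) = (ν ∈ NN q D₀ τ de) := by
    refine propext ⟨fun h1 => ?_, fun h1 => NN_conj h hD h1⟩
    have h2 := NN_conj h ((HH q τ de).inv_mem hD) h1
    have e1 : D⁻¹ * (D * ν * D⁻¹) * D⁻¹⁻¹ = ν := by group
    rwa [e1] at h2
  rw [e]

open Classical in
private theorem cavx_pos (q D₀ : ℕ) (τ : ℕ → S → S) (de : ℕ) :
    (0 : ℝ) < ∑ ν : Equiv.Perm (RR τ de), if ν ∈ NN q D₀ τ de then 1 else 0 := by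
  refine Finset.sum_pos' (fun ν _ => ?_) ⟨1, Finset.mem_univ _, ?_⟩
  · split_ifs <;> norm_num
  · rw [if_pos (NN q D₀ τ de).one_mem]
    norm_num

open Classical in
private theorem cavx_nav (h : AD S q D₀ de τ) (f : S → ℝ) (y : S) (t : RR τ de)
    (ht : (t : S) = τ de y) :
    nav h f y = (∑ ν : Equiv.Perm (RR τ de), if ν ∈ NN q D₀ τ de then f (ν t) else 0) /
      (∑ ν : Equiv.Perm (RR τ de), if ν ∈ NN q D₀ τ de then 1 else 0) := by
  have e : (⟨τ de y, h.hidem y⟩ : RR τ de) = t := Subtype.ext ht.symm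
  rw [nav, e]

open Classical in
private theorem cavx_abs (h : AD S q D₀ de τ) (f : S → ℝ) (hf : ∀ s, |f s| ≤ 1) (s : S) :
    |nav h f s| ≤ 1 := by
  have h0 := cavx_pos q D₀ τ de
  rw [nav, abs_div, abs_of_pos h0, div_le_one h0]
  refine (Finset.abs_sum_le_sum_abs _ _).trans (Finset.sum_le_sum fun ν _ => ?_)
  split_ifs
  · exact hf _
  · rw [abs_zero]

omit [Fintype S] [DecidableEq S] in
private theorem cavx_tw (q : ℕ) (τ : ℕ → S → S) (j x : ℕ) (y : S) :
    tw q τ (j + 1) x y = τ (x / q ^ j % q) (tw q τ j x y) := by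
  rw [tw_add, tw_one]

/-- PROOF. Induction over `j` for all `f`; `nav` is an average (the denominator is positive: `1 ∈ NN`). -/
theorem cav_abs (h : AD S q D₀ de τ) (j x : ℕ) (f : S → ℝ) (hf : ∀ s, |f s| ≤ 1) (s : S) :
    |cav h j x f s| ≤ 1 := by
  induction j generalizing f with
  | zero =>
    rw [cav, abs_zero]
    exact zero_le_one
  | succ j ih =>
    rw [cav]
    split_ifs
    · exact cavx_abs h f hf _
    · exact ih _ fun s => hf _

open Classical in
/-- the core average has the same `NN`-sums as `f ∘ tw`. PROOF. Induction over `j` for all `f`. `cor _ _ 0 _` is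
false. For `j + 1`: `tw q τ (j + 1) x s = τ (x / q ^ j % q) (tw q τ j x s)` (`tw_add`, `tw_one`). If the top digit is
`de`: `τ de (tw q τ j x (w (μ s))) = (lp τ de (fun s => tw q τ j x (w s)) * μ) s` (`lp_apply`, `IsT_tw`); put
`D = lp …`, `D ∈ HH`; `∑_μ f (D μ s) = ∑_μ f (μ D s)` by `μ ↦ D * μ * D⁻¹` (a bijection of `NN`: `NN_conj` for `D` and
`D⁻¹`), and `∑_μ nav f (…) = ∑_μ (∑_ν f (ν D μ s)) / |NN| = ∑_μ' (∑_ν f (ν μ' D s)) / |NN| = ∑_ν f (ν D s)`. Otherwise the
`de` of `cor` is among the lowest `j` digits and the induction hypothesis for `f ∘ τ (x / q ^ j % q)` applies. -/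
theorem cav_bal (h : AD S q D₀ de τ) {j x : ℕ} (hc : cor q de j x) (f : S → ℝ) {w : RR τ de → S}
    (hw : IsT q τ de w) (s : RR τ de) :
    (∑ μ : Equiv.Perm (RR τ de), if μ ∈ NN q D₀ τ de then f (tw q τ j x (w (μ s))) else 0) =
      ∑ μ : Equiv.Perm (RR τ de), if μ ∈ NN q D₀ τ de then cav h j x f (w (μ s)) else 0 := by
  induction j generalizing f with
  | zero =>
    obtain ⟨i, hi, -⟩ := hc
    exact absurd hi (Nat.not_lt_zero i)
  | succ j ih =>
    by_cases hd : x / q ^ j % q = de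
    · have hT : IsT q τ de (fun s => tw q τ j x (w s)) := IsT_tw h hw j x
      obtain ⟨D, hD⟩ : ∃ D, D = lp τ de (fun s => tw q τ j x (w s)) := ⟨_, rfl⟩
      have hDH : D ∈ HH q τ de := by rw [hD]; exact lp_mem h hT
      have hDs : ∀ t : RR τ de, (D t : S) = τ de (tw q τ j x (w t)) := by
        intro t
        rw [hD]
        exact lp_apply h hT t
      obtain ⟨A, hA⟩ : ∃ A : RR τ de → ℝ, ∀ t, A t =
          ∑ ν : Equiv.Perm (RR τ de), if ν ∈ NN q D₀ τ de then f (ν t) else 0 := ⟨_, fun _ => rfl⟩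
      have e1 : (∑ μ : Equiv.Perm (RR τ de),
          if μ ∈ NN q D₀ τ de then f (tw q τ (j + 1) x (w (μ s))) else 0) = A (D s) := by
        rw [hA, ← cavx_conj h (fun ν => f (ν (D s))) hDH]
        refine Finset.sum_congr rfl fun μ _ => ?_
        have e2 : (D * μ * D⁻¹) (D s) = D (μ s) := by
          simp [Equiv.Perm.mul_apply]
        rw [e2, hDs, cavx_tw, hd]
      have e3 : ∀ μ ∈ NN q D₀ τ de, cav h (j + 1) x f (w (μ s)) = A (D s) /
          (∑ ν : Equiv.Perm (RR τ de), if ν ∈ NN q D₀ τ de then 1 else 0) := by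
        intro μ hμ
        rw [cav, if_pos hd, cavx_nav h f _ (D (μ s)) (hDs _), hA]
        congr 1
        rw [← cavx_right (fun ν => f (ν (D s))) (NN_conj h hDH hμ)]
        refine Finset.sum_congr rfl fun ν _ => ?_
        have e2 : (ν * (D * μ * D⁻¹)) (D s) = ν (D (μ s)) := by
          simp [Equiv.Perm.mul_apply]
        rw [e2]
      rw [e1]
      have e4 : (∑ μ : Equiv.Perm (RR τ de),
          if μ ∈ NN q D₀ τ de then cav h (j + 1) x f (w (μ s)) else 0) =
          ∑ μ : Equiv.Perm (RR τ de), (if μ ∈ NN q D₀ τ de then 1 else 0) * (A (D s) /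
          (∑ ν : Equiv.Perm (RR τ de), if ν ∈ NN q D₀ τ de then 1 else 0)) := by
        refine Finset.sum_congr rfl fun μ _ => ?_
        by_cases hμ : μ ∈ NN q D₀ τ de
        · rw [if_pos hμ, if_pos hμ, e3 μ hμ, one_mul]
        · rw [if_neg hμ, if_neg hμ, zero_mul]
      rw [e4, ← Finset.sum_mul, mul_div_cancel₀ _ (cavx_pos q D₀ τ de).ne']
    · have hc' : cor q de j x := by
        obtain ⟨i, hi, h1⟩ := hc
        refine ⟨i, ?_, h1⟩
        rcases Nat.lt_succ_iff_lt_or_eq.1 hi with h2 | h2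
        · exact h2
        · rw [h2] at h1
          exact absurd h1 hd
      have h1 := ih hc' (fun s => f (τ (x / q ^ j % q) s))
      simp only [cavx_tw, cav, if_neg hd]
      exact h1

/-- the core average only depends on the number of the transformation below modulo `D₀`. PROOF. Induction over `j` for
all `f`. Top digit `de`: `nav f (tw q τ j x (z s)) = (∑_ν f (ν D s)) / |NN|`, `D = lp τ de (fun s => tw q τ j x (z s))`,
similarly `D'` for `z'`; by `IsTn_tw` (for `x % q ^ j`, `tw_mod`) and `lp_congr_NN` `D' * D⁻¹ ∈ NN`; substitute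
`ν ↦ ν * (D' * D⁻¹)`. Otherwise induction. -/
theorem cav_congr (h : AD S q D₀ de τ) (j x : ℕ) (f : S → ℝ) {n n' : ℕ} {z z' : RR τ de → S}
    (hz : IsTn q D₀ τ de n z) (hz' : IsTn q D₀ τ de n' z') (hn : n ≡ n' [MOD D₀]) (s : RR τ de) :
    cav h j x f (z s) = cav h j x f (z' s) := by
  induction j generalizing f with
  | zero => rw [cav, cav]
  | succ j ih =>
    rw [cav, cav]
    split_ifs with hd
    · have h0 : 0 < q ^ j := pow_pos (by have := h.hq; omega) j
      have hlt : x % q ^ j < q ^ j := Nat.mod_lt _ h0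
      have hT := IsTn_tw h hz (l := j) hlt
      have hT' := IsTn_tw h hz' (l := j) hlt
      simp only [tw_mod] at hT hT'
      obtain ⟨D, hD⟩ : ∃ D, D = lp τ de (fun s => tw q τ j x (z s)) := ⟨_, rfl⟩
      obtain ⟨D', hD'⟩ : ∃ D', D' = lp τ de (fun s => tw q τ j x (z' s)) := ⟨_, rfl⟩
      have hDs : (D s : S) = τ de (tw q τ j x (z s)) := by
        rw [hD]
        exact lp_apply h hT.isT s
      have hDs' : (D' s : S) = τ de (tw q τ j x (z' s)) := by
        rw [hD']
        exact lp_apply h hT'.isT s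
      have hN : D' * D⁻¹ ∈ NN q D₀ τ de := by
        rw [hD, hD']
        exact lp_congr_NN h hT hT' (hn.add_right _)
      classical
      rw [cavx_nav h f _ (D s) hDs, cavx_nav h f _ (D' s) hDs']
      congr 1
      rw [← cavx_right (fun ν => f (ν (D s))) hN]
      refine Finset.sum_congr rfl fun ν _ => ?_
      have e2 : (ν * (D' * D⁻¹)) (D s) = ν (D' s) := by
        simp [Equiv.Perm.mul_apply]
      rw [e2]
    · exact ih _

end Pool.Agent.Lib.MP_3e612f_nt.LV
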