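import Pool.Agent.Lib.MP_3e612f_nt.LV.AuGam

/-!
The phases form a character of `Γ`.
-/

set_option autoImplicit false

namespace Pool.Agent.Lib.MP_3e612f_nt.LV

open Finset

variable {S : Type} [Fintype S] [DecidableEq S] {q D₀ de : ℕ} {τ : ℕ → S → S}

/-- the character. PROOF. For `u, v ∈ Γ` and `K ∈ 𝒦`: `(b, act b u) ∈ BB i j` and `(b, act b v) ∈ BB j K` give strings
`X, Y`; by `BB_trans`, `step_act`, `act_act` `step i (K - i) (X + q ^ (j - i) * Y) b = act b (v * u)`, so (as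
`q ^ i * q ^ (j - i) = q ^ j`) `f j u * g K v = f K (v * u)` (*). All `f j u`, `g K v`, `f K w` for `u, v, w ∈ Γ` are powers
of `ζ`, so they are not zero. Put `χ u = f j u / f j 1`, `φ K = f K 1` if `K ∈ 𝒦` or `K = j`, else `1`. By (*) for
`(u, 1)` and `(1, 1)`: `f K u = f j u * g K 1`, `f K 1 = f j 1 * g K 1`, so `f K u = φ K * χ u`. By (*) for `(1, v)`:
`f j 1 * g K v = f K v`, so `g K v = g K 1 * χ v`, and (*) gives `χ (v * u) = χ v * χ u` (use one `K ∈ 𝒦`). -/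
theorem exists_char (h : AD S q D₀ de τ) {p r : ℕ} {t t' : ℕ → ℕ} {m l₀ : ℕ} {b : ST τ de}
    {B : Set (ST τ de × ST τ de)} {i j : ℕ} {𝒦 : Set ℕ} {W : ℕ → ℕ}
    (hL : Lev q τ de p r t t' m l₀ b B i j 𝒦 W)
    {Γ : Subgroup (Equiv.Perm (RR τ de) × Equiv.Perm (RR τ de))}
    (hΓ : ∀ u, u ∈ Γ ↔ u.1 ∈ HH q τ de ∧ u.2 ∈ HH q τ de ∧ (b, act b u) ∈ B) {ζ : ℂ}
    (hζ : ‖ζ‖ = 1) {f g : ℕ → Equiv.Perm (RR τ de) × Equiv.Perm (RR τ de) → ℂ}
    (hf : ∀ K, i ≤ K → ∀ X < q ^ (K - i), ∀ u, step q τ de p r t t' i (K - i) X b = act b u →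
      (ζ ^ q ^ i) ^ X = f K u)
    (hg : ∀ K, j ≤ K → ∀ X < q ^ (K - j), ∀ u, step q τ de p r t t' j (K - j) X b = act b u →
      (ζ ^ q ^ j) ^ X = g K u) :
    ∃ (χ : Equiv.Perm (RR τ de) × Equiv.Perm (RR τ de) → ℂ) (φ : ℕ → ℂ), (∀ K, φ K ≠ 0) ∧
      (∀ u ∈ Γ, χ u ≠ 0) ∧ (∀ u ∈ Γ, ∀ v ∈ Γ, χ (u * v) = χ u * χ v) ∧
      (∀ u ∈ Γ, f j u = φ j * χ u) ∧ ∀ K ∈ 𝒦, ∀ u ∈ Γ, f K u = φ K * χ u := by
  classical
  have hij := hL.hij
  have hz : ζ ≠ 0 := by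
    intro h0
    rw [h0, norm_zero] at hζ
    exact zero_ne_one hζ
  have hone : (1 : Equiv.Perm (RR τ de) × Equiv.Perm (RR τ de)) ∈ Γ := Γ.one_mem
  -- strings for the elements of `Γ`
  have hX : ∀ u ∈ Γ, ∃ X < q ^ (j - i), step q τ de p r t t' i (j - i) X b = act b u := by
    intro u hu
    have h1 := ((hΓ u).1 hu).2.2
    rw [← hL.hB] at h1
    exact h1.2
  have hXK : ∀ K ∈ 𝒦, ∀ u ∈ Γ, ∃ X < q ^ (K - i),
      step q τ de p r t t' i (K - i) X b = act b u := by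
    intro K hK u hu
    have h1 := ((hΓ u).1 hu).2.2
    rw [← (hL.hK K hK).2.1] at h1
    exact h1.2
  have hYK : ∀ K ∈ 𝒦, ∀ u ∈ Γ, ∃ X < q ^ (K - j),
      step q τ de p r t t' j (K - j) X b = act b u := by
    intro K hK u hu
    have h1 := ((hΓ u).1 hu).2.2
    rw [← (hL.hK K hK).2.2.1] at h1
    exact h1.2
  have fj0 : ∀ u ∈ Γ, f j u ≠ 0 := by
    intro u hu
    obtain ⟨X, h1, h2⟩ := hX u hu
    rw [← hf j (by omega) X h1 u h2]
    exact pow_ne_zero _ (pow_ne_zero _ hz)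
  have fK0 : ∀ K ∈ 𝒦, ∀ u ∈ Γ, f K u ≠ 0 := by
    intro K hK u hu
    obtain ⟨X, h1, h2⟩ := hXK K hK u hu
    have := (hL.hK K hK).1
    rw [← hf K (by omega) X h1 u h2]
    exact pow_ne_zero _ (pow_ne_zero _ hz)
  have gK0 : ∀ K ∈ 𝒦, ∀ u ∈ Γ, g K u ≠ 0 := by
    intro K hK u hu
    obtain ⟨X, h1, h2⟩ := hYK K hK u hu
    have := (hL.hK K hK).1
    rw [← hg K (by omega) X h1 u h2]
    exact pow_ne_zero _ (pow_ne_zero _ hz)
  -- composition
  have key : ∀ K ∈ 𝒦, ∀ u ∈ Γ, ∀ v ∈ Γ, f j u * g K v = f K (v * u) := by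
    intro K hK u hu v hv
    obtain ⟨X, x1, x2⟩ := hX u hu
    obtain ⟨Y, y1, y2⟩ := hYK K hK v hv
    have hjK := (hL.hK K hK).1
    obtain ⟨c1, c2⟩ := BB_trans h (p := p) (r := r) (t := t) (t' := t') (by omega : i ≤ j)
      (by omega : j ≤ K) x1 y1 b
    rw [x2, step_act, y2, act_act] at c2
    rw [← hf j (by omega) X x1 u x2, ← hg K (by omega) Y y1 v y2,
      ← hf K (by omega) _ c1 _ c2, pow_add, ← pow_mul, ← pow_mul, ← pow_mul]
    congr 2
    have e1 : q ^ j = q ^ i * q ^ (j - i) := by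
      rw [← pow_add]
      congr 1
      omega
    rw [e1, mul_assoc]
  obtain ⟨K, hK, -⟩ := hL.hKu 0
  refine ⟨fun u => f j u / f j 1, fun K => if K ∈ 𝒦 ∨ K = j then f K 1 else 1, ?_, ?_, ?_, ?_, ?_⟩
  · intro K
    show (if K ∈ 𝒦 ∨ K = j then f K 1 else 1) ≠ 0
    split_ifs with h1
    · rcases h1 with h1 | h1
      · exact fK0 K h1 1 hone
      · rw [h1]
        exact fj0 1 hone
    · exact one_ne_zero
  · intro u hu
    exact div_ne_zero (fj0 u hu) (fj0 1 hone)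
  · intro u hu v hv
    show f j (u * v) / f j 1 = f j u / f j 1 * (f j v / f j 1)
    have a1 := key K hK v hv u hu
    have a2 := key K hK (u * v) (Γ.mul_mem hu hv) 1 hone
    have a3 := key K hK 1 hone u hu
    have a4 := key K hK u hu 1 hone
    rw [one_mul] at a2 a4
    rw [mul_one] at a3
    have b1 := fj0 1 hone
    have b2 := gK0 K hK 1 hone
    -- `f j (u * v) * g K 1 = f j v * g K u`, `f j 1 * g K u = f j u * g K 1`
    have a5 : f j (u * v) * g K 1 = f j v * g K u := a2.trans a1.symm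
    have a6 : f j 1 * g K u = f j u * g K 1 := a3.trans a4.symm
    have a7 : f j (u * v) * f j 1 = f j u * f j v := by
      apply mul_right_cancel₀ b2
      calc f j (u * v) * f j 1 * g K 1 = f j 1 * (f j (u * v) * g K 1) := by ring
        _ = f j v * (f j 1 * g K u) := by rw [a5]; ring
        _ = f j u * f j v * g K 1 := by rw [a6]; ring
    rw [div_mul_div_comm, ← a7, mul_div_mul_right _ _ b1]
  · intro u hu
    show f j u = (if j ∈ 𝒦 ∨ j = j then f j 1 else 1) * (f j u / f j 1)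
    rw [if_pos (Or.inr rfl), mul_div_cancel₀ _ (fj0 1 hone)]
  · intro K hK u hu
    show f K u = (if K ∈ 𝒦 ∨ K = j then f K 1 else 1) * (f j u / f j 1)
    rw [if_pos (Or.inl hK)]
    have a1 := key K hK u hu 1 hone
    have a2 := key K hK 1 hone 1 hone
    rw [one_mul] at a1 a2
    rw [← a1, ← a2]
    have b1 := fj0 1 hone
    field_simp

end Pool.Agent.Lib.MP_3e612f_nt.LV
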