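import Pool.Agent.Lib.MP_3e612f_nt.LV.AuCav
import Pool.Agent.Lib.MP_3e612f_nt.LV.Defs

/-!
Counting strings without a core; functions of few residues.
-/

set_option autoImplicit false

namespace Pool.Agent.Lib.MP_3e612f_nt.LV

open Finset

private theorem ac_digit (q v : ℕ) {i A : ℕ} (hi : i < A) :
    v % q ^ A / q ^ i % q = v / q ^ i % q := by
  have h1 : q ^ A = q ^ i * q ^ (A - i) := by rw [← pow_add, Nat.add_sub_of_le hi.le]
  rw [h1, Nat.mod_mul_right_div_self,
    Nat.mod_mod_of_dvd _ (dvd_pow_self q (Nat.sub_ne_zero_of_lt hi))]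

private theorem ac_cor (q de A v : ℕ) : cor q de A (v % q ^ A) ↔ cor q de A v := by
  unfold cor
  constructor
  · rintro ⟨i, hi, h⟩
    exact ⟨i, hi, by rwa [ac_digit q v hi] at h⟩
  · rintro ⟨i, hi, h⟩
    exact ⟨i, hi, by rwa [ac_digit q v hi]⟩

private theorem ac_pow_pos {q de : ℕ} (hde : de < q) (A : ℕ) : 0 < q ^ A :=
  Nat.pow_pos (Nat.lt_of_le_of_lt (Nat.zero_le _) hde)

open Classical in
/-- PROOF. Induction over `A`: a string of length `A + 1` is a string of length `A` (`v % q ^ A`) and a top digit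
`v / q ^ A`; it avoids `de` iff the lower string does and the top digit is not `de` (`q - 1` choices). For example
inject the set into `Fin A → {d // d < q, d ≠ de}` by the digits, or map `v ↦ (v % q ^ A, v / q ^ A)`. -/
theorem cor_card {q de : ℕ} (hde : de < q) (A : ℕ) :
    ((range (q ^ A)).filter fun v => ¬ cor q de A v).card ≤ (q - 1) ^ A := by
  induction A with
  | zero =>
    refine (card_filter_le _ _).trans ?_
    rw [card_range, pow_zero, pow_zero]
  | succ A ih =>
    have h1 : ((range (q ^ (A + 1))).filter fun v => ¬ cor q de (A + 1) v).card ≤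
        (((range (q ^ A)).filter fun v => ¬ cor q de A v) ×ˢ (range q).erase de).card := by
      refine card_le_card_of_injOn (fun v => (v % q ^ A, v / q ^ A)) ?_ ?_
      · intro v hv
        rw [mem_coe, mem_filter, mem_range] at hv
        obtain ⟨hv1, hv2⟩ := hv
        have h2 : v / q ^ A < q := by
          rw [Nat.div_lt_iff_lt_mul (ac_pow_pos hde A), ← pow_succ']
          exact hv1
        rw [mem_coe, mem_product, mem_filter, mem_range, mem_erase, mem_range, ac_cor]
        refine ⟨⟨Nat.mod_lt _ (ac_pow_pos hde A), fun hc => hv2 ?_⟩, fun hc => hv2 ?_, h2⟩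
        · obtain ⟨i, hi, h⟩ := hc
          exact ⟨i, by omega, h⟩
        · refine ⟨A, by omega, ?_⟩
          rw [Nat.mod_eq_of_lt h2]
          exact hc
      · intro v _ w _ hvw
        have h2 := congrArg Prod.fst hvw
        have h3 := congrArg Prod.snd hvw
        simp only at h2 h3
        rw [← Nat.mod_add_div v (q ^ A), ← Nat.mod_add_div w (q ^ A), h2, h3]
    refine h1.trans ?_
    rw [card_product, card_erase_of_mem (mem_range.2 hde), card_range, pow_succ]
    exact Nat.mul_le_mul_right _ ih

open Classical in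
/-- PROOF. `cor q de A v` depends on `v % q ^ A`; inject `v ↦ (v % q ^ A, v / q ^ A)` into
`(filter of range (q ^ A)) ×ˢ range (q ^ (K - A))`; `cor_card`. -/
theorem cor_card_low {q de : ℕ} (hde : de < q) {A K : ℕ} (hK : A ≤ K) :
    ((range (q ^ K)).filter fun v => ¬ cor q de A v).card ≤ (q - 1) ^ A * q ^ (K - A) := by
  have h1 : ((range (q ^ K)).filter fun v => ¬ cor q de A v).card ≤
      (((range (q ^ A)).filter fun v => ¬ cor q de A v) ×ˢ range (q ^ (K - A))).card := by
    refine card_le_card_of_injOn (fun v => (v % q ^ A, v / q ^ A)) ?_ ?_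
    · intro v hv
      rw [mem_coe, mem_filter, mem_range] at hv
      obtain ⟨hv1, hv2⟩ := hv
      rw [mem_coe, mem_product, mem_filter, mem_range, mem_range, ac_cor]
      refine ⟨⟨Nat.mod_lt _ (ac_pow_pos hde A), hv2⟩, ?_⟩
      rw [Nat.div_lt_iff_lt_mul (ac_pow_pos hde A), ← pow_add, Nat.sub_add_cancel hK]
      exact hv1
    · intro v _ w _ hvw
      have h2 := congrArg Prod.fst hvw
      have h3 := congrArg Prod.snd hvw
      simp only at h2 h3
      rw [← Nat.mod_add_div v (q ^ A), ← Nat.mod_add_div w (q ^ A), h2, h3]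
  refine h1.trans ?_
  rw [card_product, card_range]
  exact Nat.mul_le_mul_right _ (cor_card hde A)

open Classical in
/-- PROOF. `v / q ^ (K - A) < q ^ A`; inject `v ↦ (v / q ^ (K - A), v % q ^ (K - A))`; `cor_card`. -/
theorem cor_card_top {q de : ℕ} (hde : de < q) {A K : ℕ} (hK : A ≤ K) :
    ((range (q ^ K)).filter fun v => ¬ cor q de A (v / q ^ (K - A))).card ≤
      (q - 1) ^ A * q ^ (K - A) := by
  have h1 : ((range (q ^ K)).filter fun v => ¬ cor q de A (v / q ^ (K - A))).card ≤
      (((range (q ^ A)).filter fun v => ¬ cor q de A v) ×ˢ range (q ^ (K - A))).card := by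
    refine card_le_card_of_injOn (fun v => (v / q ^ (K - A), v % q ^ (K - A))) ?_ ?_
    · intro v hv
      rw [mem_coe, mem_filter, mem_range] at hv
      obtain ⟨hv1, hv2⟩ := hv
      rw [mem_coe, mem_product, mem_filter, mem_range, mem_range]
      refine ⟨⟨?_, hv2⟩, Nat.mod_lt _ (ac_pow_pos hde _)⟩
      rw [Nat.div_lt_iff_lt_mul (ac_pow_pos hde _), ← pow_add, Nat.add_sub_of_le hK]
      exact hv1
    · intro v _ w _ hvw
      have h2 := congrArg Prod.fst hvw
      have h3 := congrArg Prod.snd hvw
      simp only at h2 h3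
      rw [← Nat.mod_add_div v (q ^ (K - A)), ← Nat.mod_add_div w (q ^ (K - A)), h2, h3]
  refine h1.trans ?_
  rw [card_product, card_range]
  exact Nat.mul_le_mul_right _ (cor_card hde A)

/-- PROOF. `Ψ e = U m` for a chosen `m` with `e = fun i => m / D i % M` if there is one, otherwise `0`. -/
theorem str_of_dep {M : ℕ} (D : Fin 3 → ℕ) (hD : ∀ i, 1 ≤ D i) (U : ℕ → ℝ) (hU : ∀ m, |U m| ≤ 1)
    (hdep : ∀ m m', (∀ i, m / D i % M = m' / D i % M) → U m = U m') : Str M 3 U := by
  classical
  refine ⟨3, le_rfl, D, hD, fun e => if h : ∃ m : ℕ, e = fun i => m / D i % M then U h.choose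
    else 0, fun e => ?_, fun m => ?_⟩
  · by_cases h : ∃ m : ℕ, e = fun i => m / D i % M
    · simp only [dif_pos h]
      exact hU _
    · simp only [dif_neg h, abs_zero]
      exact zero_le_one
  · have h : ∃ m' : ℕ, (fun i => m / D i % M) = fun i => m' / D i % M := ⟨m, rfl⟩
    simp only [dif_pos h]
    exact hdep _ _ fun i => congrFun h.choose_spec i

end Pool.Agent.Lib.MP_3e612f_nt.LV
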