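import Mathlib

/-!
The counting lemma.
-/

set_option autoImplicit false

namespace Pool.Agent.Lib.MP_3e612f_nt.LV

open Finset

section aux

variable {Y : Type} {E : Y × ℤ → Y × ℤ → Prop}

/-- the points with an infinite orbit under the translations -/
private def Fr (E : Y × ℤ → Y × ℤ → Prop) : Type :=
  {α : Y × ℤ // ∀ n : ℤ, n ≠ 0 → ¬ E α (α.1, α.2 + n)}

/-- equivalence modulo the translations by the multiples of `p` -/
private def stp (h : Equivalence E)
    (t : ∀ α β (x : ℤ), E α β → E (α.1, α.2 + x) (β.1, β.2 + x)) (p : ℕ) : Setoid (Fr E) where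
  r α β := ∃ m : ℤ, E α.1 (β.1.1, β.1.2 + p * m)
  iseqv := by
    refine ⟨fun α => ⟨0, ?_⟩, fun {α β} => ?_, fun {α β γ} => ?_⟩
    · have h1 := h.refl α.1
      rw [mul_zero, add_zero]
      exact h1
    · rintro ⟨m, hm⟩
      refine ⟨-m, h.symm ?_⟩
      have h1 := t _ _ (p * -m) hm
      have e : (p : ℤ) * m + p * -m = 0 := by ring
      simp only [add_assoc, e, add_zero] at h1
      exact h1
    · rintro ⟨m, hm⟩ ⟨k, hk⟩
      refine ⟨m + k, h.trans hm ?_⟩
      have h1 := t _ _ (p * m) hk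
      have e : (p : ℤ) * (m + k) = p * k + p * m := by ring
      rw [e, ← add_assoc]
      exact h1

/-- the finite quotient -/
private def Qp (h : Equivalence E)
    (t : ∀ α β (x : ℤ), E α β → E (α.1, α.2 + x) (β.1, β.2 + x)) (p : ℕ) : Type :=
  Quotient (stp h t p)

private noncomputable def rep (h : Equivalence E)
    (t : ∀ α β (x : ℤ), E α β → E (α.1, α.2 + x) (β.1, β.2 + x)) (p : ℕ) (x : Qp h t p) : Fr E :=
  Quotient.out (s := stp h t p) x

private theorem rep_eq (h : Equivalence E)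
    (t : ∀ α β (x : ℤ), E α β → E (α.1, α.2 + x) (β.1, β.2 + x)) (p : ℕ) {x y : Qp h t p}
    (hxy : ∃ m : ℤ, E (rep h t p x).1 ((rep h t p y).1.1, (rep h t p y).1.2 + p * m)) : x = y := by
  have h1 : Quotient.mk (stp h t p) (rep h t p x) = Quotient.mk (stp h t p) (rep h t p y) :=
    Quotient.sound (s := stp h t p) hxy
  exact (Quotient.out_eq (s := stp h t p) x).symm.trans
    (h1.trans (Quotient.out_eq (s := stp h t p) y))

private theorem qp_inj (h : Equivalence E)
    (t : ∀ α β (x : ℤ), E α β → E (α.1, α.2 + x) (β.1, β.2 + x)) (p : ℕ) [NeZero p] :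
    Function.Injective (fun x : Qp h t p =>
      ((rep h t p x).1.1, (((rep h t p x).1.2 : ℤ) : ZMod p))) := by
  intro x y hxy
  simp only [Prod.mk.injEq] at hxy
  obtain ⟨h1, h2⟩ := hxy
  rw [ZMod.intCast_eq_intCast_iff_dvd_sub] at h2
  obtain ⟨m, hm⟩ := h2
  refine rep_eq h t p ⟨-m, ?_⟩
  have e : (rep h t p x).1 = ((rep h t p y).1.1, (rep h t p y).1.2 + p * -m) := by
    refine Prod.ext h1 ?_
    simp only
    linarith
  rw [← e]
  exact h.refl _

private theorem qp_fin [Finite Y] (h : Equivalence E)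
    (t : ∀ α β (x : ℤ), E α β → E (α.1, α.2 + x) (β.1, β.2 + x)) (p : ℕ) [NeZero p] :
    Finite (Qp h t p) := Finite.of_injective _ (qp_inj h t p)

private theorem qp_card [Fintype Y] (h : Equivalence E)
    (t : ∀ α β (x : ℤ), E α β → E (α.1, α.2 + x) (β.1, β.2 + x)) (p : ℕ) [NeZero p] :
    Nat.card (Qp h t p) ≤ Fintype.card Y * p := by
  have h1 := Nat.card_le_card_of_injective _ (qp_inj h t p)
  rwa [Nat.card_prod, Nat.card_zmod, Nat.card_eq_fintype_card (α := Y)] at h1

/-- the translation by one has no fixed point and its `p`-th power is the identity -/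
private theorem qp_dvd [Finite Y] (h : Equivalence E)
    (t : ∀ α β (x : ℤ), E α β → E (α.1, α.2 + x) (β.1, β.2 + x)) {p : ℕ} (hp : p.Prime) :
    p ∣ Nat.card (Qp h t p) := by
  classical
  have : Fact p.Prime := ⟨hp⟩
  have := qp_fin h t p
  have := Fintype.ofFinite (Qp h t p)
  -- translations of free points
  let s : ℤ → Fr E → Fr E := fun k α => ⟨(α.1.1, α.1.2 + k), fun n hn hE => α.2 n hn (by
    have h1 := t _ _ (-k) hE
    have e1 : α.1.2 + k + -k = α.1.2 := by ring
    have e2 : α.1.2 + k + n + -k = α.1.2 + n := by ring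
    simp only [e1, e2] at h1
    exact h1)⟩
  have hs : ∀ k α β, (stp h t p).r α β → (stp h t p).r (s k α) (s k β) := by
    rintro k α β ⟨m, hm⟩
    refine ⟨m, ?_⟩
    have h1 := t _ _ k hm
    have e : β.1.2 + p * m + k = β.1.2 + k + p * m := by ring
    simp only [e] at h1
    exact h1
  let f : Function.End (Qp h t p) := Quotient.map (sa := stp h t p) (sb := stp h t p) (s 1) (hs 1)
  have hf : ∀ α : Fr E, f (Quotient.mk (stp h t p) α) = Quotient.mk (stp h t p) (s 1 α) :=
    fun α => rfl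
  have hfk : ∀ (k : ℕ) (α : Fr E),
      (f ^ k) (Quotient.mk (stp h t p) α) = Quotient.mk (stp h t p) (s k α) := by
    intro k
    induction k with
    | zero =>
      intro α
      rw [pow_zero]
      change Quotient.mk (stp h t p) α = _
      congr 1
      apply Subtype.ext
      refine Prod.ext rfl ?_
      simp [s]
    | succ k ih =>
      intro α
      rw [pow_succ]
      change (f ^ k) (f (Quotient.mk (stp h t p) α)) = _
      rw [hf, ih]
      congr 1
      apply Subtype.ext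
      refine Prod.ext rfl ?_
      simp only [s]
      push_cast
      ring
  have h1 : f ^ p ^ 1 = 1 := by
    rw [pow_one]
    funext x
    obtain ⟨α, rfl⟩ := Quotient.exists_rep (s := stp h t p) x
    rw [hfk]
    change _ = Quotient.mk (stp h t p) α
    refine Quotient.sound (s := stp h t p) ⟨1, ?_⟩
    rw [mul_one]
    exact h.refl _
  have h2 := Equiv.Perm.card_fixedPoints_modEq (f := f) (p := p) (n := 1) h1
  have h3 : Fintype.card f.fixedPoints = 0 := by
    rw [Fintype.card_eq_zero_iff]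
    refine ⟨fun x => ?_⟩
    obtain ⟨x, hx⟩ := x
    obtain ⟨α, rfl⟩ := Quotient.exists_rep (s := stp h t p) x
    have h4 : f (Quotient.mk (stp h t p) α) = Quotient.mk (stp h t p) α := hx
    rw [hf] at h4
    obtain ⟨m, hm⟩ := Quotient.exact (s := stp h t p) h4
    have h5 := t _ _ (-1) hm
    have e1 : α.1.2 + 1 + -1 = α.1.2 := by ring
    have e2 : α.1.2 + p * m + -1 = α.1.2 + (p * m - 1) := by ring
    simp only [s, e1, e2] at h5
    refine α.2 (p * m - 1) (fun h6 => ?_) h5
    have h7 : (p : ℤ) ∣ 1 := ⟨m, by linarith⟩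
    have h8 : p ∣ 1 := by exact_mod_cast h7
    exact hp.one_lt.ne' (Nat.dvd_one.1 h8)
  have h4 := h2.trans (show Fintype.card f.fixedPoints ≡ 0 [MOD p] by rw [h3])
  rw [Nat.modEq_zero_iff_dvd] at h4
  rwa [Nat.card_eq_fintype_card]

private theorem eqv_iter {p r : ℕ} {I : Y × ℤ → Y × ℤ → Prop}
    (eqv : ∀ α β, I α β → I (α.1, α.2 + p) (β.1, β.2 + r)) {α β : Y × ℤ} (h : I α β) (m : ℕ) :
    I (α.1, α.2 + p * m) (β.1, β.2 + r * m) := by
  induction m with
  | zero =>
    simp only [Nat.cast_zero, mul_zero, add_zero]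
    exact h
  | succ m ih =>
    have h1 := eqv _ _ ih
    have e1 : α.2 + p * m + p = α.2 + p * ((m + 1 : ℕ) : ℤ) := by push_cast; ring
    have e2 : β.2 + r * m + r = β.2 + r * ((m + 1 : ℕ) : ℤ) := by push_cast; ring
    simp only [e1, e2] at h1
    exact h1

private theorem per_iter (h : Equivalence E)
    (t : ∀ α β (x : ℤ), E α β → E (α.1, α.2 + x) (β.1, β.2 + x)) {β : Y × ℤ} {n : ℤ}
    (hn : E β (β.1, β.2 + n)) (k : ℕ) : E β (β.1, β.2 + k * n) := by
  induction k with
  | zero =>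
    simp only [Nat.cast_zero, zero_mul, add_zero]
    exact h.refl _
  | succ k ih =>
    refine h.trans ih ?_
    have h1 := t _ _ (k * n) hn
    have e : β.2 + n + k * n = β.2 + ((k + 1 : ℕ) : ℤ) * n := by push_cast; ring
    simp only [e] at h1
    exact h1

/-- a correspondence gives an injection of the finite quotients -/
private theorem qp_le [Finite Y] {p r : ℕ} (hp : p.Prime) (hr : r.Prime)
    {E₁ E₂ : Y × ℤ → Y × ℤ → Prop} (h1 : Equivalence E₁)
    (h2 : Equivalence E₂) (t1 : ∀ α β (x : ℤ), E₁ α β → E₁ (α.1, α.2 + x) (β.1, β.2 + x))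
    (t2 : ∀ α β (x : ℤ), E₂ α β → E₂ (α.1, α.2 + x) (β.1, β.2 + x))
    (I : Y × ℤ → Y × ℤ → Prop) (tot1 : ∀ α, ∃ β, I α β)
    (comp : ∀ α β α' β', I α β → I α' β' → (E₁ α α' ↔ E₂ β β'))
    (eqv : ∀ α β, I α β → I (α.1, α.2 + p) (β.1, β.2 + r)) :
    Nat.card (Qp h1 t1 p) ≤ Nat.card (Qp h2 t2 r) := by
  have : NeZero r := ⟨hr.ne_zero⟩
  have := qp_fin h2 t2 r
  have hpos : ∀ (α : Fr E₁) (β : Y × ℤ), I α.1 β → ∀ n : ℕ, 1 ≤ n → ¬ E₂ β (β.1, β.2 + n) := by
    intro α β hI n hn hE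
    have g1 := per_iter h2 t2 hE r
    have g2 := eqv_iter eqv hI n
    have g3 := (comp _ _ _ _ hI g2).2 g1
    refine α.2 (p * n) ?_ g3
    have : 0 < p * n := Nat.mul_pos hp.pos hn
    exact_mod_cast this.ne'
  have hfree : ∀ (α : Fr E₁) (β : Y × ℤ), I α.1 β → ∀ n : ℤ, n ≠ 0 → ¬ E₂ β (β.1, β.2 + n) := by
    intro α β hI n hn hE
    rcases lt_or_gt_of_ne hn with h0 | h0
    · obtain ⟨k, hk⟩ := Int.eq_ofNat_of_zero_le (show 0 ≤ -n by omega)
      refine hpos α β hI k (by omega) ?_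
      have g1 := t2 _ _ (-n) hE
      have e : β.2 + n + -n = β.2 := by ring
      simp only [e] at g1
      rw [hk] at g1
      exact h2.symm g1
    · obtain ⟨k, hk⟩ := Int.eq_ofNat_of_zero_le h0.le
      rw [hk] at hE
      exact hpos α β hI k (by omega) hE
  choose g hg using tot1
  let F : Qp h1 t1 p → Qp h2 t2 r := fun x =>
    Quotient.mk (stp h2 t2 r) ⟨g (rep h1 t1 p x).1, hfree _ _ (hg _)⟩
  refine Nat.card_le_card_of_injective F fun x y hxy => ?_
  obtain ⟨m, hm⟩ := Quotient.exact (s := stp h2 t2 r) hxy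
  refine rep_eq h1 t1 p ⟨m, ?_⟩
  set α := (rep h1 t1 p x).1 with hα
  set α' := (rep h1 t1 p y).1 with hα'
  have hm' : E₂ (g α) ((g α').1, (g α').2 + r * m) := hm
  rcases le_or_gt 0 m with h0 | h0
  · obtain ⟨k, hk⟩ := Int.eq_ofNat_of_zero_le h0
    rw [hk] at hm' ⊢
    exact (comp _ _ _ _ (hg α) (eqv_iter eqv (hg α') k)).2 hm'
  · obtain ⟨k, hk⟩ := Int.eq_ofNat_of_zero_le (show 0 ≤ -m by omega)
    have g1 := t2 _ _ (r * -m) hm'
    have e : (g α').2 + r * m + r * -m = (g α').2 := by ring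
    simp only [e] at g1
    rw [hk] at g1
    have g2 := (comp _ _ _ _ (eqv_iter eqv (hg α) k) (hg α')).2 g1
    have g3 := t1 _ _ (p * m) g2
    have e2 : α.2 + p * ((k : ℕ) : ℤ) + p * m = α.2 := by
      rw [show ((k : ℕ) : ℤ) = -m from hk.symm]
      ring
    simp only [e2] at g3
    exact g3

end aux

/-- **counting lemma**. Two equivalence relations `E₁, E₂` on `Y × ℤ`, invariant under translations, and a relation `I`,
total in both directions, compatible with them and equivariant for the translations by `p` and by `r`: then all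
classes of `E₁` are periodic. PROOF. Call `y` free for `E` if `(y, 0)` is not equivalent to `(y, n)` for any `n ≥ 1`
(then also for no `n ≠ 0`, by symmetry and translation). Suppose `y₀` is free for `E₁`. Let `Y₁ ⊆ Y` be a set of
representatives of the free `y` modulo the relation `∃ n, E₁ (y, 0) (y', n)`, `Y₂` the same for `E₂`;
`1 ≤ card Y₁ ≤ card Y < r`. For `(y, i)`, `y ∈ Y₁`, `0 ≤ i < p`, choose by `tot1` a `β = (y', k')` with
`I (y, i) β`. `β` is free: if `E₂ (y', k') (y', k' + n)`, `n ≥ 1`, then by translation and transitivity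
`E₂ β (y', k' + r * n)`, and `I (y, i + p * n) (y', k' + r * n)` (induction, `eqv`), so `comp` gives
`E₁ (y, i) (y, i + p * n)`, contradiction. So there are unique `y'' ∈ Y₂`, `n` with `E₂ β (y'', n)`; map `(y, i)` to
`(y'', n % r) ∈ Y₂ × Fin r`. This map `Y₁ × Fin p → Y₂ × Fin r` is well defined up to the choice of `β` (`comp` with
`E₁` reflexive: two choices are `E₂`-equivalent) and bijective: injective: if `(y, i)` and `(z, j)` are mapped to the same
pair then `E₂ β (y'', n)` and `E₂ β' (y'', n + r * s)`, so `E₂ β' (β + r * s)`, `I (y, i + p * s) (β + r * s)` (for `s < 0`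
use `I (z, j - p * s) (β' - r * s)` instead), so `comp` gives `E₁ (z, j) (y, i + p * s)`, so `y = z` (representatives) and
`E₁ (y, j) (y, i + p * s)`, so `j = i + p * s` (free), `i = j`. Surjective: the same map in the other direction (`tot2`).
So `p * card Y₁ = r * card Y₂`; `r` is a prime different from `p`, so it divides `card Y₁`, contradiction. (It is enough
to use the injectivity of both maps: `p * card Y₁ ≤ r * card Y₂ ≤ p * card Y₁`.) -/
theorem au_count {Y : Type} [Fintype Y] {p r : ℕ} (hp : p.Prime) (hr : r.Prime) (hpr : p ≠ r)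
    (hY : Fintype.card Y < r) (E₁ E₂ : Y × ℤ → Y × ℤ → Prop) (h1 : Equivalence E₁)
    (h2 : Equivalence E₂) (t1 : ∀ α β (x : ℤ), E₁ α β → E₁ (α.1, α.2 + x) (β.1, β.2 + x))
    (t2 : ∀ α β (x : ℤ), E₂ α β → E₂ (α.1, α.2 + x) (β.1, β.2 + x))
    (I : Y × ℤ → Y × ℤ → Prop) (tot1 : ∀ α, ∃ β, I α β) (tot2 : ∀ β, ∃ α, I α β)
    (comp : ∀ α β α' β', I α β → I α' β' → (E₁ α α' ↔ E₂ β β'))
    (eqv : ∀ α β, I α β → I (α.1, α.2 + p) (β.1, β.2 + r)) (y : Y) :
    ∃ n : ℕ, 1 ≤ n ∧ E₁ (y, 0) (y, (n : ℤ)) := by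
  have hpz : NeZero p := ⟨hp.ne_zero⟩
  have hle := qp_le hp hr h1 h2 t1 t2 I tot1 comp eqv
  have hge := qp_le hr hp h2 h1 t2 t1 (fun β α => I α β) tot2
    (fun β α β' α' g g' => (comp _ _ _ _ g g').symm) (fun β α g => eqv _ _ g)
  have hd1 := qp_dvd h1 t1 hp
  have hd2 := qp_dvd h2 t2 hr
  rw [le_antisymm hge hle] at hd2
  have hcop : Nat.Coprime p r := (Nat.coprime_primes hp hr).2 hpr
  have hd := hcop.mul_dvd_of_dvd_of_dvd hd1 hd2
  have hcard := qp_card h1 t1 p
  have hlt : Nat.card (Qp h1 t1 p) < p * r := by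
    refine hcard.trans_lt ?_
    rw [mul_comm]
    exact Nat.mul_lt_mul_of_pos_left hY hp.pos
  have h0 : Nat.card (Qp h1 t1 p) = 0 := Nat.eq_zero_of_dvd_of_lt hd hlt
  have hfin := qp_fin h1 t1 p
  have hemp : IsEmpty (Qp h1 t1 p) := (Finite.card_eq_zero_iff).1 h0
  by_contra hcon
  push Not at hcon
  have hpos : ∀ n : ℕ, 1 ≤ n → ¬ E₁ (y, 0) (y, (n : ℤ)) := hcon
  have hfree : ∀ n : ℤ, n ≠ 0 → ¬ E₁ (y, 0) ((y, (0 : ℤ)).1, (y, (0 : ℤ)).2 + n) := by
    intro n hn hE
    rcases lt_or_gt_of_ne hn with g0 | g0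
    · obtain ⟨k, hk⟩ := Int.eq_ofNat_of_zero_le (show 0 ≤ -n by omega)
      refine hpos k (by omega) ?_
      have g1 := t1 _ _ (-n) hE
      have e : (0 : ℤ) + n + -n = 0 := by ring
      simp only [e] at g1
      rw [hk, zero_add] at g1
      exact h1.symm g1
    · obtain ⟨k, hk⟩ := Int.eq_ofNat_of_zero_le g0.le
      rw [hk, zero_add] at hE
      exact hpos k (by omega) hE
  exact hemp.false (Quotient.mk (stp h1 t1 p) ⟨(y, 0), hfree⟩)

end Pool.Agent.Lib.MP_3e612f_nt.LV
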