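import Mathlib

/-!
The lemma on cyclic structures.
-/

set_option autoImplicit false

namespace Pool.Agent.Lib.MP_3e612f_nt.LV

open Finset

private theorem cy_split (q : ℕ) : ∀ N : ℕ, 1 ≤ N → ∃ N' N'' u : ℕ, N = N' * N'' ∧
    Nat.Coprime N' q ∧ N'' ∣ q ^ u := by
  intro N
  induction N using Nat.strong_induction_on with
  | _ N ih =>
    intro hN
    by_cases h : Nat.Coprime N q
    · exact ⟨N, 1, 0, by simp, h, by simp⟩
    · obtain ⟨N₁, hN₁⟩ := Nat.gcd_dvd_left N q
      have hg0 : 0 < Nat.gcd N q := Nat.gcd_pos_of_pos_left _ hN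
      have hg : 2 ≤ Nat.gcd N q := by
        have : Nat.gcd N q ≠ 1 := h
        omega
      have hN10 : 1 ≤ N₁ := by
        rcases Nat.eq_zero_or_pos N₁ with h0 | h0
        · rw [h0, mul_zero] at hN₁
          omega
        · exact h0
      have hlt : N₁ < N := by
        have : 2 * N₁ ≤ Nat.gcd N q * N₁ := Nat.mul_le_mul_right _ hg
        omega
      obtain ⟨N', N'', u, h1, h2, h3⟩ := ih N₁ hlt hN10
      refine ⟨N', Nat.gcd N q * N'', u + 1, ?_, h2, ?_⟩
      · rw [mul_left_comm, ← h1]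
        exact hN₁
      · rw [pow_succ, mul_comm (Nat.gcd N q)]
        exact Nat.mul_dvd_mul h3 (Nat.gcd_dvd_right N q)

/-- **cyclic structures**. PROOF. (a) `D l z_l = 1` for the number `z_l` with all `l` digits `de` (induction, `h2` with
`l = 0`, `D 0 0 = 1`). (b) `c ^ q = c`: `h2` with `l = 0`, `Z = 0` and `w + I`: `D (1 + s) (de + q * (w + I)) =
D s (w + I) = D s w * c`, and by `h1` (`q` times) it is `D (1 + s) (de + q * w) * c ^ q = D s w * c ^ q` (`s` with
`I < q ^ s`, `w = 0`). (c) `c` commutes with every `D l Z`: `h2` for `w + I` gives `D s w * c * D l Z`, `h1` (`q ^ (l + 1)`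
times) gives `D s w * D l Z * c ^ (q ^ (l + 1)) = D s w * D l Z * c`; by `h3` `c` is central. (d) `D l` has the period
`I₂ = I * card K` (as long as the numbers are less than `q ^ l`). Write `I₂ = I' * I''` with `Nat.Coprime I' q` and
`I'' ∣ q ^ u` (largest divisor coprime to `q`). (e) `D s w = D s w'` if `w ≡ w' [MOD I']`, `w, w' < q ^ s`: choose
`l + 1 ≥ u`; `q ^ (l + 1) * w ≡ q ^ (l + 1) * w' [MOD I₂]`; `h2` for both. (f) choose `l` with `l + 1` divisible by the
order of `q` modulo `I'` (for instance by `φ(I')`) and `q ^ l ≥ I'`, `l ≥ 2`; for `w, Z < q ^ l`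
`D l w * D l Z = D (l + 1 + l) (Z + q ^ l * de + q ^ (l + 1) * w)`, whose number is congruent to `Z + w + q ^ l * de`
modulo `I'`; so by (e) `D l w * D l Z` only depends on `w + Z` modulo `I'`. (g) Define `f : ZMod I' → K`,
`f x = D l w` for `w < q ^ l`, `w ≡ x`; `f x * f y = F (x + y)`; with `f z_l = 1`: `f x * f y = f (x + y - z_l)`; so
`ψ x = f (x + z_l)` is a homomorphism from `Multiplicative (ZMod I')` to `K`, surjective (by `h3` and `h2` with `s = 1`:
`D (l' + 2) (Z + q ^ l' * de + q ^ (l' + 1) * w) = D 1 w * D l' Z`, `l = l' + 2`). So `card K ∣ I'`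
(`Subgroup.card_dvd_of_surjective`), it is coprime to `q`, and by `hdvd` `card K ∣ D₀`. (h) For a digit `d` with
`D₀ ∣ d`: by `h2` with `l = 1` (and (a)) `D l (d + z_l - de) = D 1 d`, so
`D 1 d = ψ (d - de)`, `D₀ ∣ d - de`, so `D 1 d = ψ (…) ^ D₀ = 1`. -/
theorem au_cyc {K : Type} [Group K] [Finite K] {q de D₀ I : ℕ} (hq : 2 ≤ q) (hde : de < q)
    (hI : 1 ≤ I) (hdeD : D₀ ∣ de) (D : ℕ → ℕ → K) (c : K) (h0 : D 0 0 = 1)
    (h1 : ∀ l Z, Z + I < q ^ l → D l (Z + I) = D l Z * c)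
    (h2 : ∀ l s Z w, Z < q ^ l → w < q ^ s →
      D (l + 1 + s) (Z + q ^ l * de + q ^ (l + 1) * w) = D s w * D l Z)
    (h3 : ∀ x : K, ∃ d < q, D 1 d = x)
    (hdvd : ∀ m, m ∣ Nat.card K → Nat.Coprime m q → m ∣ D₀) :
    ∀ d < q, D₀ ∣ d → D 1 d = 1 := by
  have hq0 : 0 < q := by omega
  -- the numbers with all digits de
  obtain ⟨z, hz0, hzs⟩ : ∃ z : ℕ → ℕ, z 0 = 0 ∧ ∀ l, z (l + 1) = z l + q ^ l * de :=
    ⟨fun l => ∑ i ∈ range l, q ^ i * de, by simp, fun l => by simp [Finset.sum_range_succ]⟩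
  have hzlt : ∀ l, z l < q ^ l := by
    intro l
    induction l with
    | zero => simp [hz0]
    | succ l ih =>
      rw [hzs, pow_succ]
      have : q ^ l * (de + 1) ≤ q ^ l * q := Nat.mul_le_mul_left _ hde
      rw [mul_add, mul_one] at this
      omega
  have hz1 : ∀ l, D l (z l) = 1 := by
    intro l
    induction l with
    | zero => rw [hz0]; exact h0
    | succ l ih =>
      have := h2 l 0 (z l) 0 (hzlt l) (by simp)
      rw [mul_zero, add_zero, add_zero, h0, ih, one_mul] at this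
      rw [hzs]
      exact this
  -- iteration
  have hit : ∀ n l Z, Z + n * I < q ^ l → D l (Z + n * I) = D l Z * c ^ n := by
    intro n
    induction n with
    | zero => intro l Z _; simp
    | succ n ih =>
      intro l Z hZ
      have e1 : Z + (n + 1) * I = (Z + n * I) + I := by ring
      rw [e1] at hZ ⊢
      rw [h1 l _ hZ, ih l Z (by omega), pow_succ, mul_assoc]
  obtain ⟨s₀, hs₀⟩ : ∃ s₀ : ℕ, I < q ^ s₀ := ⟨I, Nat.lt_pow_self (by omega)⟩
  have hcq : c ^ q = c := by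
    have e1 := h2 0 s₀ 0 I (by simp) hs₀
    have e2 := h2 0 s₀ 0 0 (by simp) (by positivity)
    simp only [pow_zero, one_mul, zero_add, pow_one, h0, mul_one, mul_zero, add_zero] at e1 e2
    have hlt : de + q * I < q ^ (1 + s₀) := by
      rw [pow_add, pow_one]
      have : q * (I + 1) ≤ q * q ^ s₀ := Nat.mul_le_mul_left _ hs₀
      rw [mul_add, mul_one] at this
      omega
    have e3 := hit q (1 + s₀) de hlt
    rw [e1, e2] at e3
    have e4 := h1 s₀ 0 (by simpa using hs₀)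
    rw [zero_add] at e4
    rw [e4] at e3
    exact (mul_left_cancel e3).symm
  have hcqp : ∀ l : ℕ, c ^ q ^ l = c := by
    intro l
    induction l with
    | zero => simp
    | succ l ih => rw [pow_succ, pow_mul, ih, hcq]
  -- `D l` has the period `I * card K`
  have hper : ∀ l Z n, Z + n * (I * Nat.card K) < q ^ l → D l (Z + n * (I * Nat.card K)) = D l Z := by
    intro l Z n hZ
    have e1 : n * (I * Nat.card K) = (n * Nat.card K) * I := by ring
    rw [e1] at hZ ⊢
    rw [hit _ l Z hZ, mul_comm n, pow_mul, pow_card_eq_one', one_pow, mul_one]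
  have hmod : ∀ l Z Z', Z < q ^ l → Z' < q ^ l → Z ≡ Z' [MOD I * Nat.card K] → D l Z = D l Z' := by
    have key : ∀ l Z Z', Z ≤ Z' → Z' < q ^ l → Z ≡ Z' [MOD I * Nat.card K] → D l Z = D l Z' := by
      intro l Z Z' hle hlt hm
      obtain ⟨n, hn⟩ := (Nat.modEq_iff_dvd' hle).1 hm
      have e1 : Z' = Z + n * (I * Nat.card K) := by
        rw [mul_comm n, ← hn]; omega
      rw [e1] at hlt ⊢
      exact (hper l Z n hlt).symm
    intro l Z Z' hZ hZ' hm
    rcases le_total Z Z' with h | h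
    · exact key l Z Z' h hZ' hm
    · exact (key l Z' Z h hZ hm.symm).symm
  have hK : 1 ≤ Nat.card K := Nat.card_pos
  obtain ⟨N, N'', u, hN, hNq, hNu⟩ := cy_split q (I * Nat.card K) (Nat.mul_pos hI hK)
  have hN0 : 0 < N := by
    rcases Nat.eq_zero_or_pos N with h | h
    · rw [h, zero_mul] at hN
      have := Nat.mul_pos hI hK
      omega
    · exact h
  -- `D s w` only depends on `w` modulo `N`
  have hmodN : ∀ s w w', w < q ^ s → w' < q ^ s → w ≡ w' [MOD N] → D s w = D s w' := by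
    intro s w w' hw hw' hm
    have e1 := h2 u s (z u) w (hzlt u) hw
    have e2 := h2 u s (z u) w' (hzlt u) hw'
    rw [hz1, mul_one] at e1 e2
    rw [← e1, ← e2]
    have hlt : ∀ x, x < q ^ s → z u + q ^ u * de + q ^ (u + 1) * x < q ^ (u + 1 + s) := by
      intro x hx
      have h4 := hzlt (u + 1)
      rw [hzs] at h4
      have h5 : q ^ (u + 1) * (x + 1) ≤ q ^ (u + 1) * q ^ s := Nat.mul_le_mul_left _ hx
      rw [pow_add q (u + 1) s]
      rw [mul_add, mul_one] at h5
      omega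
    refine hmod _ _ _ (hlt w hw) (hlt w' hw') ?_
    refine Nat.ModEq.add_left _ ?_
    obtain ⟨v, hv⟩ : N'' ∣ q ^ (u + 1) := hNu.trans (pow_dvd_pow q (by omega))
    rw [hN, hv, mul_comm N N'', mul_assoc, mul_assoc]
    exact Nat.ModEq.mul_left' _ (Nat.ModEq.mul_left _ hm)
  -- the level
  obtain ⟨l, hl1, hl2, hl3⟩ : ∃ l : ℕ, q ^ (l + 2 + 1) ≡ 1 [MOD N] ∧ N ≤ q ^ (l + 2) ∧ 0 < l := by
    have hphi : 1 ≤ Nat.totient N := Nat.totient_pos.2 hN0
    refine ⟨Nat.totient N * (N + 4) - 3, ?_, ?_, ?_⟩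
    · have h4 : N + 4 ≤ Nat.totient N * (N + 4) := Nat.le_mul_of_pos_left _ hphi
      have e1 : Nat.totient N * (N + 4) - 3 + 2 + 1 = Nat.totient N * (N + 4) := by omega
      rw [e1, pow_mul]
      have h5 := (Nat.ModEq.pow_totient (Nat.Coprime.symm hNq)).pow (N + 4)
      rwa [one_pow] at h5
    · have h4 : N + 4 ≤ Nat.totient N * (N + 4) := Nat.le_mul_of_pos_left _ hphi
      have h5 : N ≤ Nat.totient N * (N + 4) - 3 + 2 := by omega
      exact h5.trans (Nat.lt_pow_self (by omega)).le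
    · have h4 : N + 4 ≤ Nat.totient N * (N + 4) := Nat.le_mul_of_pos_left _ hphi
      omega
  obtain ⟨m, hm⟩ : ∃ m : ℕ, m = l + 2 := ⟨_, rfl⟩
  rw [← hm] at hl1 hl2
  obtain ⟨f, hf⟩ : ∃ f : ℕ → K, ∀ x, f x = D m (x % N) := ⟨fun x => D m (x % N), fun _ => rfl⟩
  have hxN : ∀ x : ℕ, x % N < q ^ m := fun x => (Nat.mod_lt x hN0).trans_le hl2
  have hfD : ∀ w, w < q ^ m → f w = D m w := by
    intro w hw
    rw [hf]
    exact hmodN m _ _ (hxN w) hw (Nat.mod_modEq w N)
  have hfm : ∀ x y, x ≡ y [MOD N] → f x = f y := by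
    intro x y hxy
    rw [hf, hf]
    congr 1
  -- the product
  obtain ⟨G, hG⟩ : ∃ G : ℕ → K, ∀ x, G x = D (m + 1 + m) ((x + q ^ m * de) % N) :=
    ⟨fun x => D (m + 1 + m) ((x + q ^ m * de) % N), fun _ => rfl⟩
  have hfG : ∀ x y, f x * f y = G (x + y) := by
    intro x y
    rw [hf, hf, hG, ← h2 m m (y % N) (x % N) (hxN y) (hxN x)]
    refine hmodN _ _ _ ?_ ?_ ?_
    · have h5 : q ^ (m + 1) * (x % N + 1) ≤ q ^ (m + 1) * q ^ m := Nat.mul_le_mul_left _ (hxN x)
      have h6 : q ^ m * (de + 1) ≤ q ^ m * q := Nat.mul_le_mul_left _ hde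
      have h7 := hxN y
      rw [pow_add q (m + 1) m]
      rw [mul_add, mul_one] at h5 h6
      rw [← pow_succ] at h6
      omega
    · refine (Nat.mod_lt _ hN0).trans_le (hl2.trans ?_)
      exact Nat.pow_le_pow_right hq0 (by omega)
    · have e1 : y % N + q ^ m * de + q ^ (m + 1) * (x % N) ≡ y + q ^ m * de + 1 * x [MOD N] :=
        Nat.ModEq.add (Nat.ModEq.add_right _ (Nat.mod_modEq y N))
          (Nat.ModEq.mul hl1 (Nat.mod_modEq x N))
      refine e1.trans ?_
      rw [one_mul]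
      have e2 : y + q ^ m * de + x = x + y + q ^ m * de := by ring
      rw [e2]
      exact (Nat.mod_modEq _ N).symm
  have hfz : f (z m) = 1 := by rw [hfD _ (hzlt m), hz1]
  -- the homomorphism
  obtain ⟨ψ, hψ⟩ : ∃ ψ : ℕ → K, ∀ x, ψ x = f (x + z m) := ⟨fun x => f (x + z m), fun _ => rfl⟩
  have hψadd : ∀ x y, ψ x * ψ y = ψ (x + y) := by
    intro x y
    rw [hψ, hψ, hψ, hfG]
    have e1 : x + z m + (y + z m) = (x + y + z m) + z m := by ring
    rw [e1, ← hfG, hfz, mul_one]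
  have hψ0 : ψ 0 = 1 := by rw [hψ, zero_add, hfz]
  have hψpow : ∀ n, ψ n = ψ 1 ^ n := by
    intro n
    induction n with
    | zero => rw [hψ0, pow_zero]
    | succ n ih => rw [← hψadd, ih, pow_succ]
  have hψN : ψ 1 ^ N = 1 := by
    rw [← hψpow, hψ, ← hfz]
    refine hfm _ _ ?_
    have : N + z m ≡ 0 + z m [MOD N] := Nat.ModEq.add_right _ (by simp [Nat.ModEq])
    rwa [zero_add] at this
  have hD1 : ∀ d, d < q → D 1 d = ψ (d + (N - 1) * de) := by
    intro d hd
    have e1 := h2 1 l d (z l) (by simpa using hd) (hzlt l)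
    rw [hz1, one_mul, pow_one] at e1
    have e2 : 1 + 1 + l = m := by omega
    rw [e2] at e1
    -- z (l + 2) = de + q * de + q ^ 2 * z l
    have hzz : ∀ j, z (j + 1) = de + q * z j := by
      intro j
      induction j with
      | zero => rw [hzs, hz0]; simp
      | succ j ih =>
        calc z (j + 1 + 1) = z (j + 1) + q ^ (j + 1) * de := hzs _
          _ = (de + q * z j) + q ^ (j + 1) * de := by rw [ih]
          _ = de + q * (z j + q ^ j * de) := by ring
          _ = de + q * z (j + 1) := by rw [hzs j]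
    have e3 : z m = de + q * de + q ^ (1 + 1) * z l := by
      rw [hm, hzz (l + 1), hzz l]; ring
    have hlt : d + q * de + q ^ (1 + 1) * z l < q ^ m := by
      have h5 := hzlt l
      have h6 : q ^ (1 + 1) * (z l + 1) ≤ q ^ (1 + 1) * q ^ l := Nat.mul_le_mul_left _ h5
      have h7 : q * (de + 1) ≤ q * q := Nat.mul_le_mul_left _ hde
      have e4 : q ^ m = q ^ (1 + 1) * q ^ l := by rw [← pow_add]; congr 1; omega
      have e5 : q ^ (1 + 1) = q * q := by ring
      rw [e4]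
      rw [mul_add, mul_one] at h6 h7
      rw [← e5] at h7
      omega
    rw [← e1, ← hfD _ hlt, hψ]
    refine hfm _ _ ?_
    have e6 : d + (N - 1) * de + z m = (d + q * de + q ^ (1 + 1) * z l) + N * de := by
      rw [e3]
      obtain ⟨N₁, hN₁⟩ : ∃ N₁, N = N₁ + 1 := ⟨N - 1, by omega⟩
      rw [hN₁, Nat.add_sub_cancel]
      ring
    rw [e6]
    have : (d + q * de + q ^ (1 + 1) * z l) + 0 ≡
        (d + q * de + q ^ (1 + 1) * z l) + N * de [MOD N] :=
      Nat.ModEq.add_left _ (by simp [Nat.ModEq])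
    rwa [add_zero] at this
  -- `K` is generated by `ψ 1`
  have hgen : ∀ x : K, x ∈ Subgroup.zpowers (ψ 1) := by
    intro x
    obtain ⟨d, hd, hx⟩ := h3 x
    rw [← hx, hD1 d hd, hψpow (d + (N - 1) * de)]
    exact Subgroup.pow_mem _ (Subgroup.mem_zpowers _) _
  have hord : orderOf (ψ 1) = Nat.card K := orderOf_eq_card_of_forall_mem_zpowers hgen
  have hcard : Nat.card K ∣ N := by
    rw [← hord]
    exact orderOf_dvd_of_pow_eq_one hψN
  have hcD : Nat.card K ∣ D₀ := hdvd _ dvd_rfl (Nat.Coprime.coprime_dvd_left hcard hNq)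
  intro d hd hDd
  rw [hD1 d hd, hψpow (d + (N - 1) * de)]
  obtain ⟨k, hk⟩ : Nat.card K ∣ d + (N - 1) * de :=
    hcD.trans (dvd_add hDd (hdeD.mul_left _))
  rw [hk, pow_mul, pow_card_eq_one', one_pow]

end Pool.Agent.Lib.MP_3e612f_nt.LV
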