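import Pool.Agent.Lib.MP_3e612f_nt.LV.AuCor

/-!
The decomposition of functions of an automaton.
-/

set_option autoImplicit false

namespace Pool.Agent.Lib.MP_3e612f_nt.LV

open Finset

variable {S : Type} [Fintype S] [DecidableEq S] {q D₀ de : ℕ} {τ : ℕ → S → S}

/-- the state after a string with a core only depends on the string through a point of `RR` and a map. PROOF. Let `i`
be a position of `de` in `x % q ^ A`: `x % q ^ A = lo + q ^ i * de + q ^ (i + 1) * hi`; by `tw_cat` `tw q τ A x s₀ =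
tw q τ (A - i - 1) hi (τ de (tw q τ i lo s₀))`; `σ = τ de (…)`, `w = fun s => tw q τ (A - i - 1) hi s`, `IsTn_tw` and
`IsTn_incl`. -/
theorem cor_state (h : AD S q D₀ de τ) {A x : ℕ} (hc : cor q de A x) (s₀ : S) :
    ∃ (n : ℕ) (w : RR τ de → S) (σ : RR τ de), IsTn q D₀ τ de n w ∧ tw q τ A x s₀ = w σ := by
  obtain ⟨i, hi, hx⟩ := hc
  obtain ⟨m, rfl⟩ : ∃ m, A = i + (1 + m) := ⟨A - i - 1, by omega⟩
  have hq0 : 0 < q := by
    have := h.hq
    omega
  have hZ : x / q ^ i / q ^ 1 % q ^ m < q ^ m := Nat.mod_lt _ (pow_pos hq0 m)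
  refine ⟨_, _, ⟨τ de (tw q τ i x s₀), h.hidem _⟩, IsTn_tw h (IsTn_incl h) hZ, ?_⟩
  rw [tw_add, tw_add, tw_one, hx, tw_mod]

/-- the structured part only depends on few residues. PROOF. `x = (m / q ^ (K - A)) % q ^ A` and the low string
`m % q ^ A` agree for `m` and `m'`. By `cor_state` `tw q τ A m s₀ = w σ = tw q τ A m' s₀` (`tw_congr`). The numbers
`v = m % q ^ K`, `v' = m' % q ^ K` are congruent modulo `D₀`: `m = q ^ K * (m / q ^ K) + v ≡ m / q ^ K + v`. With
`v = m % q ^ A + q ^ A * mid + q ^ (K - A) * x`, `mid < q ^ (K - 2 * A)`, also `mid ≡ mid'`. `tw q τ (K - A) m s₀ =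
tw q τ (K - 2 * A) mid (w σ)` (`tw_add`, `tw_congr`), `IsTn_tw` and `cav_congr`. -/
theorem cav_dep (h : AD S q D₀ de τ) {A K : ℕ} (hK : 2 * A ≤ K) (s₀ : S) (f : S → ℝ) {m m' : ℕ}
    (hc : cor q de A m) (h0 : m % (q ^ A * D₀) = m' % (q ^ A * D₀))
    (h1 : m / q ^ (K - A) % (q ^ A * D₀) = m' / q ^ (K - A) % (q ^ A * D₀))
    (h2 : m / q ^ K % (q ^ A * D₀) = m' / q ^ K % (q ^ A * D₀)) :
    cav h A (m / q ^ (K - A) % q ^ A) f (tw q τ (K - A) m s₀) =
      cav h A (m' / q ^ (K - A) % q ^ A) f (tw q τ (K - A) m' s₀) := by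
  obtain ⟨j, rfl⟩ : ∃ j, K = A + (A + j) := ⟨K - 2 * A, by omega⟩
  have hKA : A + (A + j) - A = A + j := by omega
  rw [hKA] at h1 ⊢
  have _ := h2
  have hq0 : 0 < q := by
    have := h.hq
    omega
  have e0 : m % q ^ A = m' % q ^ A := by
    have h3 := congrArg (· % q ^ A) h0
    simp only [Nat.mod_mod_of_dvd _ (Dvd.intro D₀ rfl : q ^ A ∣ q ^ A * D₀)] at h3
    exact h3
  have e1 : m / q ^ (A + j) % q ^ A = m' / q ^ (A + j) % q ^ A := by
    have h3 := congrArg (· % q ^ A) h1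
    simp only [Nat.mod_mod_of_dvd _ (Dvd.intro D₀ rfl : q ^ A ∣ q ^ A * D₀)] at h3
    exact h3
  have e2 : m ≡ m' [MOD D₀] := by
    have h3 := congrArg (· % D₀) h0
    simp only [Nat.mod_mod_of_dvd _ (Dvd.intro_left (q ^ A) rfl : D₀ ∣ q ^ A * D₀)] at h3
    exact h3
  have e3 : m / q ^ (A + j) ≡ m' / q ^ (A + j) [MOD D₀] := by
    have h3 := congrArg (· % D₀) h1
    simp only [Nat.mod_mod_of_dvd _ (Dvd.intro_left (q ^ A) rfl : D₀ ∣ q ^ A * D₀)] at h3
    exact h3
  obtain ⟨n, w, σ, hw, hwσ⟩ := cor_state h hc s₀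
  have hwσ' : tw q τ A m' s₀ = w σ := by
    rw [← hwσ]
    exact tw_congr τ (Nat.ModEq.symm e0) s₀
  have key : ∀ y : ℕ, y ≡ y % q ^ A + (y / q ^ A % q ^ j + y / q ^ (A + j)) [MOD D₀] := by
    intro y
    have e4 : y / q ^ A % q ^ j + q ^ j * (y / q ^ (A + j)) = y / q ^ A := by
      rw [pow_add, ← Nat.div_div_eq_div_mul]
      exact Nat.mod_add_div _ _
    have e5 : y % q ^ A + q ^ A * (y / q ^ A % q ^ j + q ^ j * (y / q ^ (A + j))) = y := by
      rw [e4]
      exact Nat.mod_add_div _ _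
    have hp : ∀ k, q ^ k ≡ 1 [MOD D₀] := by
      intro k
      have h3 := h.hmod.pow k
      rwa [one_pow] at h3
    conv_lhs => rw [← e5]
    refine Nat.ModEq.add_left _ ?_
    have h3 := (hp A).mul (Nat.ModEq.refl (y / q ^ A % q ^ j + q ^ j * (y / q ^ (A + j))))
    rw [one_mul] at h3
    refine h3.trans (Nat.ModEq.add_left _ ?_)
    have h4 := (hp j).mul (Nat.ModEq.refl (y / q ^ (A + j)))
    rwa [one_mul] at h4
  have hmid : n + m / q ^ A % q ^ j ≡ n + m' / q ^ A % q ^ j [MOD D₀] := by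
    refine Nat.ModEq.add_left _ ?_
    have h3 := ((key m).symm.trans e2).trans (key m')
    rw [e0] at h3
    have h4 := Nat.ModEq.add_left_cancel' _ h3
    exact Nat.ModEq.add_right_cancel e3 h4
  have hlt : ∀ y : ℕ, y / q ^ A % q ^ j < q ^ j := fun y => Nat.mod_lt _ (pow_pos hq0 j)
  have hz := IsTn_tw h hw (hlt m)
  have hz' := IsTn_tw h hw (hlt m')
  have h5 := cav_congr h A (m / q ^ (A + j) % q ^ A) f hz hz' hmid σ
  simp only [tw_mod] at h5
  rw [← e1, tw_add, tw_add q τ A j m', hwσ, hwσ']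
  exact h5

private theorem ad_cor_congr {q de A x y : ℕ} (hxy : x ≡ y [MOD q ^ A]) (hc : cor q de A x) :
    cor q de A y := by
  obtain ⟨i, hi, hx⟩ := hc
  refine ⟨i, hi, ?_⟩
  rw [← hx]
  obtain ⟨k, rfl⟩ : ∃ k, A = i + (1 + k) := ⟨A - i - 1, by omega⟩
  have key : ∀ z : ℕ, z / q ^ i % q = z % q ^ (i + (1 + k)) / q ^ i % q := by
    intro z
    rw [pow_add, Nat.mod_mul_right_div_self,
      Nat.mod_mod_of_dvd _ (by rw [pow_add, pow_one]; exact Dvd.intro _ rfl)]
  have h1 : x % q ^ (i + (1 + k)) = y % q ^ (i + (1 + k)) := hxy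
  rw [key x, key y, h1]

private theorem ad_cor_iff {q de A x y : ℕ} (hxy : x ≡ y [MOD q ^ A]) :
    cor q de A x ↔ cor q de A y :=
  ⟨ad_cor_congr hxy, ad_cor_congr hxy.symm⟩

/-- **decomposition**. PROOF. `g x s = φ (tw q τ A x s) - cav h A x φ s` if `cor q de A x`, else `0`; it is balanced by
`cav_bal` (cast to `ℂ`). `U m = cav h A x φ (tw q τ (K - A) m s₀)`, `x = m / q ^ (K - A) % q ^ A`, if `cor q de A x` and
`cor q de A m`, else `0`; `str_of_dep` with the divisors `1, q ^ (K - A), q ^ K` and `cav_dep` (`cor` only depends on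
the residue modulo `q ^ A`). `E` is the difference: it is `0` if both strings have a core; it is `cav` if only the top
string has one, and `φ (tw q τ K m s₀)` otherwise (`tw_add`: `tw q τ K m s₀ = tw q τ A (m / q ^ (K - A))
(tw q τ (K - A) m s₀)`, `tw_mod`). The sum is bounded by `cor_card_low` and `cor_card_top`. Periodicity: everything only
depends on `m % q ^ K`. -/
theorem au_dec (h : AD S q D₀ de τ) {A K : ℕ} (hK : 2 * A ≤ K) (s₀ : S) (φ : S → ℝ)
    (hφ : ∀ s, |φ s| ≤ 1) :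
    ∃ (U E : ℕ → ℝ) (g : ℕ → S → ℝ), (∀ x s, |g x s| ≤ 2) ∧
      (∀ x, BalS q D₀ τ de (fun s => ((g x s : ℝ) : ℂ))) ∧
      (∀ m, φ (tw q τ K m s₀) =
        U m + g (m / q ^ (K - A) % q ^ A) (tw q τ (K - A) m s₀) + E m) ∧
      Str (q ^ A * D₀) 3 U ∧ (∀ m, U (m + q ^ K) = U m) ∧ (∀ m, |E m| ≤ 1) ∧
      (∀ m, E (m + q ^ K) = E m) ∧
      ∑ v ∈ range (q ^ K), |E v| ≤ 2 * ((q : ℝ) - 1) ^ A * (q : ℝ) ^ (K - A) := by
  classical
  have hq2 := h.hq
  have hq0 : 0 < q := by omega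
  have hAK : A ≤ K := by omega
  obtain ⟨g, hg⟩ : ∃ g : ℕ → S → ℝ, g = fun x s =>
      if cor q de A x then φ (tw q τ A x s) - cav h A x φ s else 0 := ⟨_, rfl⟩
  obtain ⟨U, hU⟩ : ∃ U : ℕ → ℝ, U = fun m =>
      if cor q de A (m / q ^ (K - A)) ∧ cor q de A m then
        cav h A (m / q ^ (K - A) % q ^ A) φ (tw q τ (K - A) m s₀) else 0 := ⟨_, rfl⟩
  obtain ⟨E, hE⟩ : ∃ E : ℕ → ℝ, E = fun m =>
      φ (tw q τ K m s₀) - U m - g (m / q ^ (K - A) % q ^ A) (tw q τ (K - A) m s₀) := ⟨_, rfl⟩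
  have hKm : ∀ m, tw q τ K m s₀ =
      tw q τ A (m / q ^ (K - A) % q ^ A) (tw q τ (K - A) m s₀) := by
    intro m
    rw [tw_mod, ← tw_add]
    congr 1
    omega
  have hgx : ∀ m s, g (m / q ^ (K - A) % q ^ A) s = if cor q de A (m / q ^ (K - A)) then
      φ (tw q τ A (m / q ^ (K - A) % q ^ A) s) - cav h A (m / q ^ (K - A) % q ^ A) φ s else 0 := by
    intro m s
    have h3 : cor q de A (m / q ^ (K - A) % q ^ A) ↔ cor q de A (m / q ^ (K - A)) :=
      ad_cor_iff (Nat.mod_modEq _ _)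
    simp only [hg, h3]
  have hUabs : ∀ m, |U m| ≤ 1 := by
    intro m
    simp only [hU]
    split_ifs
    · exact cav_abs h _ _ _ hφ _
    · simp
  have hE1 : ∀ m, |E m| ≤ (if ¬ cor q de A (m / q ^ (K - A)) then 1 else 0) +
      (if ¬ cor q de A m then 1 else 0) ∧ |E m| ≤ 1 := by
    intro m
    have h4 := cav_abs h A (m / q ^ (K - A) % q ^ A) φ hφ (tw q τ (K - A) m s₀)
    have h5 := hφ (tw q τ A (m / q ^ (K - A) % q ^ A) (tw q τ (K - A) m s₀))
    by_cases c1 : cor q de A (m / q ^ (K - A))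
    · by_cases c2 : cor q de A m
      · have h3 : E m = 0 := by
          simp only [hE, hgx, hU, hKm, c1, c2, and_self, if_true]
          ring
        rw [h3]
        simp [c1, c2]
      · have h3 : E m = cav h A (m / q ^ (K - A) % q ^ A) φ (tw q τ (K - A) m s₀) := by
          simp only [hE, hgx, hU, hKm, c1, c2, and_false, if_true, if_false]
          ring
        rw [h3]
        simp only [c1, c2, not_true, not_false_iff, if_true, if_false, zero_add]
        exact ⟨h4, h4⟩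
    · have h3 : E m = φ (tw q τ A (m / q ^ (K - A) % q ^ A) (tw q τ (K - A) m s₀)) := by
        simp only [hE, hgx, hU, hKm, c1, false_and, if_false]
        ring
      rw [h3]
      simp only [c1, not_false_iff, if_true]
      refine ⟨?_, h5⟩
      have h6 : (0 : ℝ) ≤ if ¬ cor q de A m then 1 else 0 := by
        split_ifs <;> norm_num
      linarith
  have hpow : q ^ (K - A) * q ^ A = q ^ K := by
    rw [← pow_add]
    congr 1
    omega
  have hdiv : ∀ m, (m + q ^ K) / q ^ (K - A) = m / q ^ (K - A) + q ^ A := by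
    intro m
    rw [← hpow, Nat.add_mul_div_left _ _ (pow_pos hq0 _)]
  have hper1 : ∀ m, (m + q ^ K) / q ^ (K - A) ≡ m / q ^ (K - A) [MOD q ^ A] := by
    intro m
    rw [hdiv]
    exact Nat.add_modEq_right
  have hper2 : ∀ m, ∀ j ≤ K, m + q ^ K ≡ m [MOD q ^ j] := by
    intro m j hj
    have h3 : q ^ K ≡ 0 [MOD q ^ j] := (Nat.modEq_zero_iff_dvd).2 (pow_dvd_pow q hj)
    exact Nat.ModEq.add_left m h3
  have hper3 : ∀ m, tw q τ (K - A) (m + q ^ K) s₀ = tw q τ (K - A) m s₀ := fun m =>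
    tw_congr τ (hper2 m _ (by omega)) s₀
  have hper4 : ∀ m, (m + q ^ K) / q ^ (K - A) % q ^ A = m / q ^ (K - A) % q ^ A := hper1
  have hUper : ∀ m, U (m + q ^ K) = U m := by
    intro m
    have c1 : cor q de A ((m + q ^ K) / q ^ (K - A)) ↔ cor q de A (m / q ^ (K - A)) :=
      ad_cor_iff (hper1 m)
    have c2 : cor q de A (m + q ^ K) ↔ cor q de A m := ad_cor_iff (hper2 m A hAK)
    simp only [hU, c1, c2, hper4, hper3]
  refine ⟨U, E, g, ?_, ?_, ?_, ?_, hUper, fun m => (hE1 m).2, ?_, ?_⟩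
  · intro x s
    simp only [hg]
    split_ifs
    · have h4 := cav_abs h A x φ hφ s
      have h5 := hφ (tw q τ A x s)
      have h6 := abs_sub (φ (tw q τ A x s)) (cav h A x φ s)
      linarith
    · simp
  · intro x w hw s
    by_cases c1 : cor q de A x
    · have h4 := cav_bal h c1 φ hw s
      have h5 : ∑ ν : Equiv.Perm (RR τ de), (if ν ∈ NN q D₀ τ de then
          ((g x (w (ν s)) : ℝ) : ℂ) else 0) =
          (((∑ μ : Equiv.Perm (RR τ de), if μ ∈ NN q D₀ τ de then φ (tw q τ A x (w (μ s))) else 0) -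
            ∑ μ : Equiv.Perm (RR τ de), if μ ∈ NN q D₀ τ de then cav h A x φ (w (μ s)) else 0 : ℝ) :
            ℂ) := by
        rw [← Finset.sum_sub_distrib, Complex.ofReal_sum]
        refine Finset.sum_congr rfl fun ν _ => ?_
        simp only [hg, c1, if_true]
        split_ifs
        · rfl
        · simp
      refine h5.trans ?_
      rw [h4, sub_self, Complex.ofReal_zero]
    · refine Finset.sum_eq_zero fun ν _ => ?_
      simp [hg, c1]
  · intro m
    simp only [hE]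
    ring
  · refine str_of_dep ![1, q ^ (K - A), q ^ K] ?_ U hUabs ?_
    · intro i
      fin_cases i
      · exact le_rfl
      · exact Nat.one_le_pow _ _ hq0
      · exact Nat.one_le_pow _ _ hq0
    · intro m m' hmm
      have h0 : m % (q ^ A * D₀) = m' % (q ^ A * D₀) := by
        have h3 := hmm 0
        simpa using h3
      have h1 : m / q ^ (K - A) % (q ^ A * D₀) = m' / q ^ (K - A) % (q ^ A * D₀) := by
        have h3 := hmm 1
        simpa using h3
      have h2 : m / q ^ K % (q ^ A * D₀) = m' / q ^ K % (q ^ A * D₀) := by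
        have h3 := hmm 2
        simpa using h3
      have c1 : cor q de A (m / q ^ (K - A)) ↔ cor q de A (m' / q ^ (K - A)) :=
        ad_cor_iff (Nat.ModEq.of_mul_right D₀ h1)
      have c2 : cor q de A m ↔ cor q de A m' := ad_cor_iff (Nat.ModEq.of_mul_right D₀ h0)
      simp only [hU]
      by_cases c3 : cor q de A (m / q ^ (K - A)) ∧ cor q de A m
      · have c4 : cor q de A (m' / q ^ (K - A)) ∧ cor q de A m' := by rwa [c1, c2] at c3
        rw [if_pos c3, if_pos c4]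
        exact cav_dep h hK s₀ φ c3.2 h0 h1 h2
      · have c4 : ¬ (cor q de A (m' / q ^ (K - A)) ∧ cor q de A m') := by rwa [c1, c2] at c3
        rw [if_neg c3, if_neg c4]
  · intro m
    have h3 : tw q τ K (m + q ^ K) s₀ = tw q τ K m s₀ := tw_congr τ (hper2 m K le_rfl) s₀
    simp only [hE, hUper, hper4, hper3, h3]
  · have h3 : ∑ v ∈ range (q ^ K), |E v| ≤ ∑ v ∈ range (q ^ K),
        ((if ¬ cor q de A (v / q ^ (K - A)) then (1 : ℝ) else 0) +
          (if ¬ cor q de A v then 1 else 0)) := Finset.sum_le_sum fun v _ => (hE1 v).1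
    rw [Finset.sum_add_distrib, Finset.sum_boole, Finset.sum_boole] at h3
    have h4 := cor_card_low h.hde hAK
    have h5 := cor_card_top h.hde hAK
    have h6 : (((q - 1) ^ A * q ^ (K - A) : ℕ) : ℝ) = ((q : ℝ) - 1) ^ A * (q : ℝ) ^ (K - A) := by
      push_cast [Nat.cast_sub (by omega : 1 ≤ q)]
      ring
    have h7 : ((((range (q ^ K)).filter fun v => ¬ cor q de A v).card : ℕ) : ℝ) ≤
        ((q : ℝ) - 1) ^ A * (q : ℝ) ^ (K - A) := by
      rw [← h6]
      exact_mod_cast h4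
    have h8 : ((((range (q ^ K)).filter fun v => ¬ cor q de A (v / q ^ (K - A))).card : ℕ) : ℝ) ≤
        ((q : ℝ) - 1) ^ A * (q : ℝ) ^ (K - A) := by
      rw [← h6]
      exact_mod_cast h5
    linarith

end Pool.Agent.Lib.MP_3e612f_nt.LV
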