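import Pool.Agent.Lib.MP_3e612f_nt.LO.R.Ev

/-!
# Automatic sequences form good classes: definitions

Blueprint: /team-store/h65_AU_BLUEPRINT.md

`tw q τ l z` is the transformation of the `l` lowest digits of `z` (least significant digit first). `AD` is the
automaton data after a change of the base. `RR` is the image of the idempotent `τ de` of minimal rank, `IsT` says that
a map `RR → S` is the restriction of some `τ d`, `HH` is the group `e T e` acting on `RR`, `NN` its subgroup of the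
elements coming from multiples of `D₀`.
-/

set_option autoImplicit false

namespace Pool.Agent.Lib.MP_3e612f_nt.LV

open Finset

section
variable {S : Type}

/-- the transformation of the `l` lowest digits of `z` -/
def tw (q : ℕ) (τ : ℕ → S → S) : ℕ → ℕ → S → S
  | 0, _, s => s
  | l + 1, z, s => tw q τ l (z / q) (τ (z % q) s)

/-- automaton data -/
structure AD (S : Type) [Fintype S] [DecidableEq S] (q D₀ de : ℕ) (τ : ℕ → S → S) : Prop where
  hq : 2 ≤ q
  hD : 1 ≤ D₀
  hmod : q ≡ 1 [MOD D₀]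
  hmul : ∀ d < q, ∀ d' < q, ∃ d'' < q, (∀ s, τ d'' s = τ d' (τ d s)) ∧ d'' ≡ d + d' [MOD D₀]
  hdiv : ∀ m, m ∣ (Fintype.card S).factorial → Nat.Coprime m q → m ∣ D₀
  hde : de < q
  hde0 : D₀ ∣ de
  hidem : ∀ s, τ de (τ de s) = τ de s
  hmin : ∀ d < q, (univ.image (τ de)).card ≤ (univ.image (τ d)).card

/-- the image of the idempotent `τ de` -/
abbrev RR (τ : ℕ → S → S) (de : ℕ) : Type := {s : S // τ de s = s}

/-- restriction of some `τ d` -/
def IsT (q : ℕ) (τ : ℕ → S → S) (de : ℕ) (z : RR τ de → S) : Prop :=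
  ∃ d < q, ∀ s : RR τ de, z s = τ d s

/-- the group `e T e` -/
def HH (q : ℕ) (τ : ℕ → S → S) (de : ℕ) : Subgroup (Equiv.Perm (RR τ de)) :=
  Subgroup.closure {π | ∃ d < q, ∀ s, (π s : S) = τ de (τ d s)}

/-- the elements of `e T e` with a number divisible by `D₀` -/
def NN (q D₀ : ℕ) (τ : ℕ → S → S) (de : ℕ) : Subgroup (Equiv.Perm (RR τ de)) :=
  Subgroup.closure {π | ∃ d < q, D₀ ∣ d ∧ ∀ s, (π s : S) = τ de (τ d s)}

open Classical in
/-- the permutation `s ↦ e (z s)` -/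
noncomputable def lp (τ : ℕ → S → S) (de : ℕ) (z : RR τ de → S) : Equiv.Perm (RR τ de) :=
  if h : ∃ π : Equiv.Perm (RR τ de), ∀ s, (π s : S) = τ de (z s) then h.choose else 1

end

section
variable {S : Type} [Fintype S] [DecidableEq S]

open Classical in
/-- zero average over `NN` after every map of the automaton -/
def BalS (q D₀ : ℕ) (τ : ℕ → S → S) (de : ℕ) (g : S → ℂ) : Prop :=
  ∀ w : RR τ de → S, IsT q τ de w → ∀ s : RR τ de,
    ∑ ν : Equiv.Perm (RR τ de), (if ν ∈ NN q D₀ τ de then g (w (ν s)) else 0) = 0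

/-- states: two maps and two carries -/
abbrev ST (τ : ℕ → S → S) (de : ℕ) : Type := (RR τ de → S) × (RR τ de → S) × ℕ × ℕ

/-- admissible states -/
def Val (q : ℕ) (τ : ℕ → S → S) (de p r : ℕ) (a : ST τ de) : Prop :=
  IsT q τ de a.1 ∧ IsT q τ de a.2.1 ∧ a.2.2.1 ≤ p ∧ a.2.2.2 ≤ r

/-- the number with the digits `t i, …, t (i + L - 1)` -/
def tt (q : ℕ) (t : ℕ → ℕ) (i L : ℕ) : ℕ := ∑ m ∈ range L, t (i + m) * q ^ m

/-- reading the string `X` of length `L` at the level `i` -/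
def step (q : ℕ) (τ : ℕ → S → S) (de p r : ℕ) (t t' : ℕ → ℕ) (i L X : ℕ) (a : ST τ de) : ST τ de :=
  (fun s => tw q τ L (p * X + a.2.2.1 + tt q t i L) (a.1 s),
    fun s => tw q τ L (r * X + a.2.2.2 + tt q t' i L) (a.2.1 s),
    (p * X + a.2.2.1 + tt q t i L) / q ^ L, (r * X + a.2.2.2 + tt q t' i L) / q ^ L)

/-- the action of pairs of permutations -/
def act {τ : ℕ → S → S} {de : ℕ} (a : ST τ de)
    (u : Equiv.Perm (RR τ de) × Equiv.Perm (RR τ de)) : ST τ de :=
  (fun s => a.1 (u.1 s), fun s => a.2.1 (u.2 s), a.2.2.1, a.2.2.2)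

/-- the relation modulo a subgroup: `(z, k)` and `(z', k')` lead to the same permutations up to a constant and up to
the subgroup -/
def Rel (q : ℕ) (τ : ℕ → S → S) (de : ℕ) (N : Subgroup (Equiv.Perm (RR τ de)))
    (z : RR τ de → S) (k : ℤ) (z' : RR τ de → S) (k' : ℤ) : Prop :=
  ∃ c ∈ HH q τ de, ∀ (l : ℕ) (Z : ℤ), 0 ≤ Z + k → Z + k < q ^ l → 0 ≤ Z + k' → Z + k' < q ^ l →
    c⁻¹ * ((lp τ de fun s => tw q τ l (Z + k).toNat (z s))⁻¹ *
      lp τ de fun s => tw q τ l (Z + k').toNat (z' s)) ∈ N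

end

end Pool.Agent.Lib.MP_3e612f_nt.LV
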