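import Pool.Agent.Lib.MP_3e612f_nt.LV.AuLev

/-!
The group `Γ`; reachable states.
-/

set_option autoImplicit false

namespace Pool.Agent.Lib.MP_3e612f_nt.LV

open Finset

variable {S : Type} [Fintype S] [DecidableEq S] {q D₀ de : ℕ} {τ : ℕ → S → S}

private theorem h21_subgroup {G : Type} [Group G] [Finite G] (T : Set G) (hne : T.Nonempty)
    (hmul : ∀ u ∈ T, ∀ v ∈ T, u * v ∈ T) : ∃ Γ : Subgroup G, ∀ u, u ∈ Γ ↔ u ∈ T := by
  have hpow : ∀ u ∈ T, ∀ n : ℕ, u ^ (n + 1) ∈ T := by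
    intro u hu n
    induction n with
    | zero => simpa using hu
    | succ n ih =>
      rw [pow_succ]
      exact hmul _ ih _ hu
  have hone : (1 : G) ∈ T := by
    obtain ⟨u, hu⟩ := hne
    have h1 : 0 < orderOf u := orderOf_pos u
    have h2 := hpow u hu (orderOf u - 1)
    rw [Nat.sub_add_cancel h1, pow_orderOf_eq_one] at h2
    exact h2
  have hinv : ∀ u ∈ T, u⁻¹ ∈ T := by
    intro u hu
    have h1 : 0 < orderOf u := orderOf_pos u
    have h2 : u⁻¹ = u ^ (2 * orderOf u - 2 + 1) := by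
      rw [eq_comm, ← mul_eq_one_iff_eq_inv, ← pow_succ]
      have : 2 * orderOf u - 2 + 1 + 1 = orderOf u * 2 := by omega
      rw [this, pow_mul, pow_orderOf_eq_one, one_pow]
    rw [h2]
    exact hpow u hu _
  exact ⟨{ carrier := T, mul_mem' := fun {a b} ha hb => hmul a ha b hb, one_mem' := hone,
           inv_mem' := fun {x} hx => hinv x hx }, fun u => Iff.rfl⟩

/-- the group `Γ`. PROOF. The set is nonempty (`end_TypeB` for the levels `i, j` and `a = b`, `X = 0`) and closed under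
products: for `u, v` in the set take `X` with `step i (j - i) X b = act b u` (`BB i j = B`), `K ∈ 𝒦`, `Y` with
`step j (K - j) Y b = act b v` (`BB j K = B`); by `BB_trans` and `step_act`, `act_act`
`step i (K - i) (X + …) b = act b (v * u)`, and `BB i K = B`. A nonempty subset of the finite group
`HH × HH` closed under products is a subgroup (inverse = power). -/
theorem exists_Gam (h : AD S q D₀ de τ) {p r : ℕ} {t t' : ℕ → ℕ} (ht : ∀ j, t j < q)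
    (ht' : ∀ j, t' j < q) {m l₀ : ℕ} {b : ST τ de} {B : Set (ST τ de × ST τ de)} {i j : ℕ}
    {𝒦 : Set ℕ} {W : ℕ → ℕ} (hL : Lev q τ de p r t t' m l₀ b B i j 𝒦 W) :
    ∃ Γ : Subgroup (Equiv.Perm (RR τ de) × Equiv.Perm (RR τ de)),
      ∀ u, u ∈ Γ ↔ u.1 ∈ HH q τ de ∧ u.2 ∈ HH q τ de ∧ (b, act b u) ∈ B := by
  have hq := h.hq
  have hij := hL.hij
  have key := h21_subgroup (G := Equiv.Perm (RR τ de) × Equiv.Perm (RR τ de))
    {u | u.1 ∈ HH q τ de ∧ u.2 ∈ HH q τ de ∧ (b, act b u) ∈ B} ?_ ?_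
  · obtain ⟨Γ, hΓ⟩ := key
    exact ⟨Γ, fun u => hΓ u⟩
  · obtain ⟨h1, u, hu1, hu2, hu3⟩ := end_TypeB h ht ht' hL.hj (i := i) (by omega) (X := 0)
      (by positivity) hL.hb
    refine ⟨u, hu1, hu2, ?_⟩
    rw [← hL.hB]
    exact ⟨hL.hb, _, h1, hu3⟩
  · rintro u ⟨hu1, hu2, hu3⟩ v ⟨hv1, hv2, hv3⟩
    refine ⟨(HH q τ de).mul_mem hu1 hv1, (HH q τ de).mul_mem hu2 hv2, ?_⟩
    obtain ⟨K, hK, -⟩ := hL.hKu 0
    obtain ⟨k1, k2, k3, -⟩ := hL.hK K hK
    have hv4 := hv3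
    rw [← hL.hB] at hv4
    rw [← k3] at hu3
    obtain ⟨-, X, hX, hX2⟩ := hv4
    obtain ⟨-, Y, hY, hY2⟩ := hu3
    obtain ⟨g1, g2⟩ := BB_trans h (p := p) (r := r) (t := t) (t' := t') (by omega : i ≤ j)
      (by omega : j ≤ K) hX hY b
    rw [← k2]
    refine ⟨hL.hb, _, g1, ?_⟩
    simp only at g2 hX2 hY2 ⊢
    rw [g2, hX2, step_act, hY2, act_act]

/-- every map and every residue of the first carry is reached. PROOF. `hl` (from `reach`, for the length `j - i ≥ l₀`,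
`c = b.2.2.1 + tt q t i (j - i)`), and `(b, a) ∈ BB i j`. -/
theorem reach_fst (h : AD S q D₀ de τ) {p r : ℕ} {t t' : ℕ → ℕ} {m l₀ : ℕ} {b : ST τ de}
    {B : Set (ST τ de × ST τ de)} {i j : ℕ} {𝒦 : Set ℕ} {W : ℕ → ℕ}
    (hL : Lev q τ de p r t t' m l₀ b B i j 𝒦 W)
    (hl : ∀ L ≥ l₀, ∀ z z' : RR τ de → S, IsT q τ de z → IsT q τ de z' → ∀ c ρ : ℕ,
      ∃ X < q ^ L, (∀ s, tw q τ L (p * X + c) (z s) = z' s) ∧ (p * X + c) / q ^ L ≡ ρ [MOD p])
    (z : RR τ de → S) (hz : IsT q τ de z) (ρ : ℕ) :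
    ∃ a : ST τ de, (b, a) ∈ B ∧ a.1 = z ∧ a.2.2.1 ≡ ρ [MOD p] := by
  have hij := hL.hij
  obtain ⟨X, hX, h1, h2⟩ := hl (j - i) (by omega) b.1 z hL.hb.1 hz
    (b.2.2.1 + tt q t i (j - i)) ρ
  refine ⟨step q τ de p r t t' i (j - i) X b, ?_, ?_, ?_⟩
  · rw [← hL.hB]
    exact ⟨hL.hb, X, hX, rfl⟩
  · funext s
    rw [← h1 s, ← add_assoc]
    rfl
  · rw [← add_assoc] at h2
    exact h2

/-- the same for the second components -/
theorem reach_snd (h : AD S q D₀ de τ) {p r : ℕ} {t t' : ℕ → ℕ} {m l₀ : ℕ} {b : ST τ de}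
    {B : Set (ST τ de × ST τ de)} {i j : ℕ} {𝒦 : Set ℕ} {W : ℕ → ℕ}
    (hL : Lev q τ de p r t t' m l₀ b B i j 𝒦 W)
    (hl : ∀ L ≥ l₀, ∀ z z' : RR τ de → S, IsT q τ de z → IsT q τ de z' → ∀ c ρ : ℕ,
      ∃ X < q ^ L, (∀ s, tw q τ L (r * X + c) (z s) = z' s) ∧ (r * X + c) / q ^ L ≡ ρ [MOD r])
    (z : RR τ de → S) (hz : IsT q τ de z) (ρ : ℕ) :
    ∃ a : ST τ de, (b, a) ∈ B ∧ a.2.1 = z ∧ a.2.2.2 ≡ ρ [MOD r] := by
  have hij := hL.hij
  obtain ⟨X, hX, h1, h2⟩ := hl (j - i) (by omega) b.2.1 z hL.hb.2.1 hz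
    (b.2.2.2 + tt q t' i (j - i)) ρ
  refine ⟨step q τ de p r t t' i (j - i) X b, ?_, ?_, ?_⟩
  · rw [← hL.hB]
    exact ⟨hL.hb, X, hX, rfl⟩
  · funext s
    rw [← h1 s, ← add_assoc]
    rfl
  · rw [← add_assoc] at h2
    exact h2

/-- `Γ` projects onto `HH`. PROOF. Let `z₁ = fun s => s`. The state `a₁ = (z₁, z₁, 1, 0)` is admissible (`1 ≤ p`);
`TypeB` at `j` gives `u₁` with `step (j - m) m (W j) a₁ = act b u₁`, so for the first components
`tw q τ m (p * W j + 1 + tt …) s = b.1 (u₁.1 s)` and the carry is `b.2.2.1`. Given `g ∈ HH` apply `hl` for the length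
`j - m - i ≥ l₀`, from `b.1` to `z' = fun s => (u₁.1⁻¹ * g) s` (as a point of `S`; `IsT_right` of `IsT_incl`) with
`ρ = 1`: a string `X`; the state after it is `(z', z'', k, k')` with `k ≤ p` and `k ≡ 1 [MOD p]`, so `k = 1` (`2 ≤ p`).
Then `W j`: the first component becomes `s ↦ tw q τ m (…) ((u₁.1⁻¹ * g) s) = b.1 (g s)`, and by `TypeB` the state is
`act b u` with `u ∈ HH × HH`; `b.1` is injective (`IsT_inj`), so `u.1 = g`. -/
theorem proj_fst (h : AD S q D₀ de τ) {p r : ℕ} (hp : 2 ≤ p) {t t' : ℕ → ℕ} (ht : ∀ j, t j < q)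
    (ht' : ∀ j, t' j < q) {m l₀ : ℕ} {b : ST τ de}
    {B : Set (ST τ de × ST τ de)} {i j : ℕ} {𝒦 : Set ℕ} {W : ℕ → ℕ}
    (hL : Lev q τ de p r t t' m l₀ b B i j 𝒦 W)
    (hl : ∀ L ≥ l₀, ∀ z z' : RR τ de → S, IsT q τ de z → IsT q τ de z' → ∀ c ρ : ℕ,
      ∃ X < q ^ L, (∀ s, tw q τ L (p * X + c) (z s) = z' s) ∧ (p * X + c) / q ^ L ≡ ρ [MOD p])
    (g : Equiv.Perm (RR τ de)) (hg : g ∈ HH q τ de) :
    ∃ g' ∈ HH q τ de, (b, act b (g, g')) ∈ B := by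
  have hij := hL.hij
  obtain ⟨m1, m2, hT⟩ := hL.hj
  obtain ⟨u₁, hu1, hu2, hu3⟩ := hT ((fun s => (s : S)), (fun s => (s : S)), 1, 0)
    ⟨IsT_incl h, IsT_incl h, by simp only; omega, Nat.zero_le _⟩
  have c1 : ∀ s : RR τ de, tw q τ m (p * W j + 1 + tt q t (j - m) m) (s : S) = b.1 (u₁.1 s) :=
    fun s => congrFun (congrArg Prod.fst hu3) s
  have hz' : IsT q τ de (fun s => (((u₁.1⁻¹ * g) s : RR τ de) : S)) :=
    IsT_right h (IsT_incl h) ((HH q τ de).mul_mem ((HH q τ de).inv_mem hu1) hg)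
  obtain ⟨X, hX, h1, h2⟩ := hl (j - m - i) (by omega) b.1 _ hL.hb.1 hz'
    (b.2.2.1 + tt q t i (j - m - i)) 1
  rw [← add_assoc] at h2
  have hval := Val_step h ht ht' (i := i) hX hL.hb
  obtain ⟨u, hu4, hu5, hu6⟩ := hT _ hval
  have ca : (step q τ de p r t t' i (j - m - i) X b).2.2.1 = 1 := by
    have e1 : (step q τ de p r t t' i (j - m - i) X b).2.2.1 ≤ p := hval.2.2.1
    have e2 : (step q τ de p r t t' i (j - m - i) X b).2.2.1 ≡ 1 [MOD p] := h2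
    unfold Nat.ModEq at e2
    rw [Nat.mod_eq_of_lt (by omega : 1 < p)] at e2
    rcases Nat.lt_or_ge (step q τ de p r t t' i (j - m - i) X b).2.2.1 p with e3 | e3
    · rwa [Nat.mod_eq_of_lt e3] at e2
    · have e4 : (step q τ de p r t t' i (j - m - i) X b).2.2.1 = p := le_antisymm e1 e3
      rw [e4, Nat.mod_self] at e2
      omega
  have cb : ∀ s : RR τ de, (step q τ de p r t t' i (j - m - i) X b).1 s =
      (((u₁.1⁻¹ * g) s : RR τ de) : S) := by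
    intro s
    rw [← h1 s, ← add_assoc]
    rfl
  have hinj := IsT_inj h hL.hb.1
  have hug : u.1 = g := by
    apply Equiv.ext
    intro s
    apply hinj
    have d1 : tw q τ m (p * W j + (step q τ de p r t t' i (j - m - i) X b).2.2.1 +
        tt q t (j - m) m) ((step q τ de p r t t' i (j - m - i) X b).1 s) = b.1 (u.1 s) :=
      congrFun (congrArg Prod.fst hu6) s
    rw [ca, cb, c1] at d1
    rw [← d1]
    simp
  refine ⟨u.2, hu5, ?_⟩
  obtain ⟨g1, g2⟩ := BB_trans h (p := p) (r := r) (t := t) (t' := t') (i := i) (j := j - m)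
    (K := j) (by omega) (by omega) hX (Y := W j) (by rw [Nat.sub_sub_self m1]; exact m2) b
  rw [← hL.hB]
  refine ⟨hL.hb, _, g1, ?_⟩
  simp only at g2 ⊢
  rw [g2, Nat.sub_sub_self m1, hu6, ← hug]

/-- the same for the second components -/
theorem proj_snd (h : AD S q D₀ de τ) {p r : ℕ} (hr : 2 ≤ r) {t t' : ℕ → ℕ} (ht : ∀ j, t j < q)
    (ht' : ∀ j, t' j < q) {m l₀ : ℕ} {b : ST τ de}
    {B : Set (ST τ de × ST τ de)} {i j : ℕ} {𝒦 : Set ℕ} {W : ℕ → ℕ}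
    (hL : Lev q τ de p r t t' m l₀ b B i j 𝒦 W)
    (hl : ∀ L ≥ l₀, ∀ z z' : RR τ de → S, IsT q τ de z → IsT q τ de z' → ∀ c ρ : ℕ,
      ∃ X < q ^ L, (∀ s, tw q τ L (r * X + c) (z s) = z' s) ∧ (r * X + c) / q ^ L ≡ ρ [MOD r])
    (g : Equiv.Perm (RR τ de)) (hg : g ∈ HH q τ de) :
    ∃ g' ∈ HH q τ de, (b, act b (g', g)) ∈ B := by
  have hij := hL.hij
  obtain ⟨m1, m2, hT⟩ := hL.hj
  obtain ⟨u₁, hu1, hu2, hu3⟩ := hT ((fun s => (s : S)), (fun s => (s : S)), 0, 1)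
    ⟨IsT_incl h, IsT_incl h, Nat.zero_le _, by simp only; omega⟩
  have c1 : ∀ s : RR τ de, tw q τ m (r * W j + 1 + tt q t' (j - m) m) (s : S) =
      b.2.1 (u₁.2 s) :=
    fun s => congrFun (congrArg (fun x => x.2.1) hu3) s
  have hz' : IsT q τ de (fun s => (((u₁.2⁻¹ * g) s : RR τ de) : S)) :=
    IsT_right h (IsT_incl h) ((HH q τ de).mul_mem ((HH q τ de).inv_mem hu2) hg)
  obtain ⟨X, hX, h1, h2⟩ := hl (j - m - i) (by omega) b.2.1 _ hL.hb.2.1 hz'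
    (b.2.2.2 + tt q t' i (j - m - i)) 1
  rw [← add_assoc] at h2
  have hval := Val_step h ht ht' (i := i) hX hL.hb
  obtain ⟨u, hu4, hu5, hu6⟩ := hT _ hval
  have ca : (step q τ de p r t t' i (j - m - i) X b).2.2.2 = 1 := by
    have e1 : (step q τ de p r t t' i (j - m - i) X b).2.2.2 ≤ r := hval.2.2.2
    have e2 : (step q τ de p r t t' i (j - m - i) X b).2.2.2 ≡ 1 [MOD r] := h2
    unfold Nat.ModEq at e2
    rw [Nat.mod_eq_of_lt (by omega : 1 < r)] at e2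
    rcases Nat.lt_or_ge (step q τ de p r t t' i (j - m - i) X b).2.2.2 r with e3 | e3
    · rwa [Nat.mod_eq_of_lt e3] at e2
    · have e4 : (step q τ de p r t t' i (j - m - i) X b).2.2.2 = r := le_antisymm e1 e3
      rw [e4, Nat.mod_self] at e2
      omega
  have cb : ∀ s : RR τ de, (step q τ de p r t t' i (j - m - i) X b).2.1 s =
      (((u₁.2⁻¹ * g) s : RR τ de) : S) := by
    intro s
    rw [← h1 s, ← add_assoc]
    rfl
  have hinj := IsT_inj h hL.hb.2.1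
  have hug : u.2 = g := by
    apply Equiv.ext
    intro s
    apply hinj
    have d1 : tw q τ m (r * W j + (step q τ de p r t t' i (j - m - i) X b).2.2.2 +
        tt q t' (j - m) m) ((step q τ de p r t t' i (j - m - i) X b).2.1 s) = b.2.1 (u.2 s) :=
      congrFun (congrArg (fun x => x.2.1) hu6) s
    rw [ca, cb, c1] at d1
    rw [← d1]
    simp
  refine ⟨u.1, hu4, ?_⟩
  obtain ⟨g1, g2⟩ := BB_trans h (p := p) (r := r) (t := t) (t' := t') (i := i) (j := j - m)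
    (K := j) (by omega) (by omega) hX (Y := W j) (by rw [Nat.sub_sub_self m1]; exact m2) b
  rw [← hL.hB]
  refine ⟨hL.hb, _, g1, ?_⟩
  simp only at g2 ⊢
  rw [g2, Nat.sub_sub_self m1, hu6, ← hug]

end Pool.Agent.Lib.MP_3e612f_nt.LV
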