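import Pool.Agent.Lib.MP_3e612f_nt.LV.AuNo
import Pool.Agent.Lib.MP_3e612f_nt.LV.AuDec

/-!
Functions of an automatic sequence form a good class.
-/

set_option autoImplicit false

namespace Pool.Agent.Lib.MP_3e612f_nt.LV

open Finset
open Pool.Agent.Lib.MP_3e612f_nt.PB (Rad Qr)
open Pool.Agent.Lib.MP_3e612f_nt.LORT (ev)

variable {S : Type} [Fintype S] [DecidableEq S] {q D₀ de : ℕ} {τ : ℕ → S → S}

/-- real functions of the sequences `out s` (for the constant radix `Q`) -/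
def FA {S A : Type} (Q : ℕ) (out : S → ℕ → A) (q : ℕ → ℕ) : Set (ℕ → ℝ) :=
  {F | (∀ j, q j = Q) ∧ ∃ (s₀ : S) (f : A → ℝ), (∀ x, |f x| ≤ 1) ∧ ∀ m, F m = f (out s₀ m)}

/-- PROOF. Induction over `K`; `m = q * (m / q) + m % q`. -/
theorem out_tw {A : Type} (hq : 1 ≤ q) {out : S → ℕ → A}
    (hout : ∀ s u d, d < q → out s (q * u + d) = out (τ d s) u) (K m : ℕ) (s : S) :
    out s m = out (tw q τ K m s) (m / q ^ K) := by
  induction K generalizing m s with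
  | zero => simp [tw]
  | succ K ih =>
    have h0 : 0 < q := hq
    have h1 : out s m = out (τ (m % q) s) (m / q) := by
      have h2 := hout s (m / q) (m % q) (Nat.mod_lt _ h0)
      rwa [Nat.div_add_mod] at h2
    show out s m = out (tw q τ K (m / q) (τ (m % q) s)) (m / q ^ (K + 1))
    rw [h1, ih, pow_succ', Nat.div_div_eq_div_mul]

/-- PROOF. Constant radices: the product of `K` factors `q`. -/
theorem Qr_const {q' : ℕ → ℕ} (hq' : ∀ j, q' j = q) (K : ℕ) : Qr q' 0 K = q ^ K := by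
  rw [Qr, prod_congr rfl fun i _ => hq' (0 + i), prod_const, card_range]

/-- **automatic sequences are good**. PROOF. Let `e : (S → A) ≃ Fin C`, `C = card (S → A)` (`Fintype`, classical),
`B0 = q`. Given `ε, P, δ`: choose `A' ≥ 1` with `2 * ((q - 1) / q) ^ A' ≤ ε`; `R = 3`, `M = q ^ A' * D₀`; for `n ≤ 3` and
`p < r` in `P n` `au_CB` gives `L₀ p r n` for `δ n / 4`; `K0` = maximum of `2 * A'` and all `A' + L₀ p r n` (finite). For
`q'` put `𝒱 n K = VV q D₀ τ de A' K` if `∀ j, q' j = q`, else `∅`. With `Qr_const`: the first condition is `VV_per`, the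
second `VV_flat` with `δ n / 4` (`K - A' ≥ L₀`). For `F m = f (out s₀ m)`, `K ≥ K0` put `n = 0`,
`z u = e (fun s => out s u)`, for `c : Fin C` `φ c s = f (e.symm c s)`: by `out_tw` `F m = φ (z (m / q ^ K)) (tw q τ K m s₀)`;
`au_dec` for `φ c` gives `U c, E c, g c`, and `V c m = g c (m / q ^ (K - A') % q ^ A') (tw q τ (K - A') m s₀)`. The sum of
`|E c|` is at most `2 * (q - 1) ^ A' * q ^ (K - A') ≤ ε * q ^ K`. -/
theorem good_au (h : AD S q D₀ de τ) {A : Type} [Finite A] (out : S → ℕ → A)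
    (hout : ∀ s u d, d < q → out s (q * u + d) = out (τ d s) u) : Good q (FA q out) := by
  classical
  have _ : Fintype A := Fintype.ofFinite A
  have hq2 := h.hq
  have hq1 : 1 ≤ q := by omega
  have hqR : (2 : ℝ) ≤ q := by exact_mod_cast hq2
  obtain ⟨C, ⟨e⟩⟩ : ∃ C, Nonempty ((S → A) ≃ Fin C) := ⟨_, ⟨Fintype.equivFin _⟩⟩
  refine ⟨C, q, fun ε hε P δ hP hδ => ?_⟩
  obtain ⟨A', hA'⟩ : ∃ A' : ℕ, (((q : ℝ) - 1) / q) ^ A' < ε / 2 :=
    exists_pow_lt_of_lt_one (by linarith) (by rw [div_lt_one (by linarith)]; linarith)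
  have hL : ∀ n p r : ℕ, ∃ L₀ : ℕ, p ∈ P n → r ∈ P n → p < r → ∀ L ≥ L₀,
      CB q D₀ τ de p r L (δ n / 4) := by
    intro n p r
    by_cases hh : p ∈ P n ∧ r ∈ P n ∧ p < r
    · obtain ⟨hp, hr, hpr⟩ := hh
      have h1 := hP n p hp
      have h2 := hP n r hr
      obtain ⟨L₀, hL₀⟩ := au_CB h h1.1 h2.1 h1.2 h2.2 hpr.ne
        (show 0 < δ n / 4 by have := hδ n; linarith)
      exact ⟨L₀, fun _ _ _ => hL₀⟩
    · exact ⟨0, fun hp hr hpr => absurd ⟨hp, hr, hpr⟩ hh⟩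
  choose L₀ hL₀ using hL
  obtain ⟨K0, hK0⟩ : ∃ K0 : ℕ, K0 = 2 * A' + ∑ n ∈ range 4, ∑ p ∈ P n, ∑ r ∈ P n, L₀ n p r :=
    ⟨_, rfl⟩
  have hK0' : ∀ n ≤ 3, ∀ p ∈ P n, ∀ r ∈ P n, 2 * A' + L₀ n p r ≤ K0 := by
    intro n hn p hp r hr
    have h1 : L₀ n p r ≤ ∑ r ∈ P n, L₀ n p r :=
      single_le_sum (f := fun r => L₀ n p r) (fun _ _ => Nat.zero_le _) hr
    have h2 : ∑ r ∈ P n, L₀ n p r ≤ ∑ p ∈ P n, ∑ r ∈ P n, L₀ n p r :=
      single_le_sum (f := fun p => ∑ r ∈ P n, L₀ n p r) (fun _ _ => Nat.zero_le _) hp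
    have h3 : ∑ p ∈ P n, ∑ r ∈ P n, L₀ n p r ≤
        ∑ n ∈ range 4, ∑ p ∈ P n, ∑ r ∈ P n, L₀ n p r :=
      single_le_sum (f := fun n => ∑ p ∈ P n, ∑ r ∈ P n, L₀ n p r) (fun _ _ => Nat.zero_le _)
        (mem_range.2 (by omega))
    omega
  refine ⟨3, q ^ A' * D₀, K0, Nat.mul_pos (pow_pos (by omega) _) h.hD, fun q' _ => ?_⟩
  refine ⟨fun _ K => {V | (∀ j, q' j = q) ∧ A' ≤ K ∧ V ∈ VV q D₀ τ de A' K}, ?_, ?_, ?_⟩
  · rintro n K V ⟨hq', hK, hV⟩
    rw [Qr_const hq']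
    exact VV_per hq1 hK hV
  · rintro n hn K hK V₁ ⟨hq', hKA, hV₁⟩ V₂ ⟨-, -, hV₂⟩ p hp r hr hpr θ s₁ s₂
    have h1 := hK0' n hn p hp r hr
    have h2 := VV_flat h hKA (hL₀ n p r hp hr hpr (K - A') (by omega)) hV₁ hV₂ θ s₁ s₂
    rw [Qr_const hq']
    push_cast
    have h3 : 4 * (δ n / 4) = δ n := by ring
    rw [h3] at h2
    convert h2 using 2
    push_cast
    rfl
  · rintro K hK F ⟨hq', s₀, f, hf, hF⟩
    have hKA : 2 * A' ≤ K := by omega
    rw [Qr_const hq']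
    choose U E g h1 h2 h3 h4 h5 h6 h7 h8 using fun c : Fin C =>
      au_dec h hKA s₀ (fun s => f (e.symm c s)) fun s => hf _
    refine ⟨0, Nat.zero_le _, fun u => e fun s => out s u, U,
      fun c m => g c (m / q ^ (K - A') % q ^ A') (tw q τ (K - A') m s₀), E, ?_, ?_, ?_, ?_⟩
    · intro m
      rw [← h3, hF, out_tw hq1 hout K m s₀, Equiv.symm_apply_apply]
    · exact fun c => ⟨h4 c, h5 c⟩
    · exact fun c => ⟨hq', by omega, s₀, g c, h1 c, h2 c, fun m => rfl⟩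
    · refine fun c => ⟨fun m => (h6 c m).trans one_le_two, h7 c, (h8 c).trans ?_⟩
      have h9 : ((q : ℝ) - 1) ^ A' * (q : ℝ) ^ (K - A') = (((q : ℝ) - 1) / q) ^ A' * (q : ℝ) ^ K := by
        have h10 : (q : ℝ) ^ K = (q : ℝ) ^ A' * (q : ℝ) ^ (K - A') := by
          rw [← pow_add]
          congr 1
          omega
        rw [h10, div_pow]
        field_simp
      rw [mul_assoc, h9]
      push_cast
      have h11 : 0 < (q : ℝ) ^ K := by positivity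
      nlinarith

end Pool.Agent.Lib.MP_3e612f_nt.LV
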