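import Pool.Agent.Lib.MP_3e612f_nt.LV.AuTw

/-!
The group `e T e` of an automaton: `IsT`, `lp`, membership in `HH` and `NN`.
-/

set_option autoImplicit false

namespace Pool.Agent.Lib.MP_3e612f_nt.LV

open Finset

variable {S : Type} [Fintype S] [DecidableEq S] {q D₀ de : ℕ} {τ : ℕ → S → S}

/-- restriction of some `τ d` with `d ≡ n` modulo `D₀` -/
def IsTn (q D₀ : ℕ) (τ : ℕ → S → S) (de n : ℕ) (z : RR τ de → S) : Prop :=
  ∃ d < q, d ≡ n [MOD D₀] ∧ ∀ s : RR τ de, z s = τ d s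

/-- PROOF. Induction over `l ≥ 1`: `l = 1` is `tw_one`; `tw (l + 1) z s = tw l (z / q) (τ (z % q) s)`, `hmul`, and
`z = z % q + q * (z / q) ≡ z % q + z / q` by `hmod`. -/
theorem tw_T (h : AD S q D₀ de τ) {l : ℕ} (hl : 1 ≤ l) {z : ℕ} (hz : z < q ^ l) :
    ∃ d < q, d ≡ z [MOD D₀] ∧ ∀ s, tw q τ l z s = τ d s := by
  induction l, hl using Nat.le_induction generalizing z with
  | base =>
    rw [pow_one] at hz
    refine ⟨z, hz, rfl, fun s => ?_⟩
    rw [tw_one, Nat.mod_eq_of_lt hz]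
  | succ l hl ih =>
    have hq0 : 0 < q := by have := h.hq; omega
    have h1 : z / q < q ^ l := by
      rw [Nat.div_lt_iff_lt_mul hq0, ← pow_succ]
      exact hz
    obtain ⟨d', hd', hm', ht'⟩ := ih h1
    obtain ⟨d'', hd'', ht'', hm''⟩ := h.hmul (z % q) (Nat.mod_lt _ hq0) d' hd'
    refine ⟨d'', hd'', ?_, fun s => ?_⟩
    · have h2 : z % q + d' ≡ z % q + z / q [MOD D₀] := Nat.ModEq.add_left _ hm'
      have h3 : z % q + 1 * (z / q) ≡ z % q + q * (z / q) [MOD D₀] :=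
        Nat.ModEq.add_left _ (Nat.ModEq.mul_right _ h.hmod.symm)
      rw [one_mul, Nat.mod_add_div] at h3
      exact hm''.trans (h2.trans h3)
    · show tw q τ l (z / q) (τ (z % q) s) = τ d'' s
      rw [ht', ht'']

theorem IsTn.isT {n : ℕ} {z : RR τ de → S} (hz : IsTn q D₀ τ de n z) : IsT q τ de z := by
  obtain ⟨d, hd, -, h⟩ := hz
  exact ⟨d, hd, h⟩

/-- PROOF. `l = 0`: `Z = 0`. Otherwise `tw_T` and `hmul`. -/
theorem IsTn_tw (h : AD S q D₀ de τ) {n : ℕ} {z : RR τ de → S} (hz : IsTn q D₀ τ de n z) {l Z : ℕ}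
    (hZ : Z < q ^ l) : IsTn q D₀ τ de (n + Z) (fun s => tw q τ l Z (z s)) := by
  rcases Nat.eq_zero_or_pos l with rfl | hl
  · have hZ0 : Z = 0 := by
      rw [pow_zero] at hZ
      omega
    subst hZ0
    rw [add_zero]
    exact hz
  · obtain ⟨d, hd, hm, ht⟩ := hz
    obtain ⟨d', hd', hm', ht'⟩ := tw_T h hl hZ
    obtain ⟨d'', hd'', ht'', hm''⟩ := h.hmul d hd d' hd'
    refine ⟨d'', hd'', hm''.trans (Nat.ModEq.add hm hm'), fun s => ?_⟩
    show tw q τ l Z (z s) = τ d'' s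
    rw [ht', ht'', ht]

/-- PROOF. `IsTn_tw` for `Z % q ^ l`, with `tw_mod`. -/
theorem IsT_tw (h : AD S q D₀ de τ) {z : RR τ de → S} (hz : IsT q τ de z) (l Z : ℕ) :
    IsT q τ de (fun s => tw q τ l Z (z s)) := by
  obtain ⟨d, hd, ht⟩ := hz
  have hz' : IsTn q D₀ τ de d z := ⟨d, hd, rfl, ht⟩
  have hq0 : 0 < q ^ l := pow_pos (by have := h.hq; omega) _
  have h1 := (IsTn_tw h hz' (Nat.mod_lt Z hq0)).isT
  simp only [tw_mod] at h1
  exact h1

/-- PROOF. `d = de`, `τ de s = s` on `RR`. -/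
theorem IsTn_incl (h : AD S q D₀ de τ) : IsTn q D₀ τ de 0 (fun s => (s : S)) :=
  ⟨de, h.hde, (Nat.modEq_zero_iff_dvd.2 h.hde0), fun s => s.2.symm⟩

theorem IsT_incl (h : AD S q D₀ de τ) : IsT q τ de (fun s => (s : S)) := (IsTn_incl h).isT

/-- PROOF. Two digits and the idempotent: `hmul` twice gives a digit `d''` with `τ d'' = τ de ∘ τ d ∘ τ de` and
`d'' ≡ d` (`D₀ ∣ de`). By `hmin` the image of `τ d''` has at least as many elements as that of `τ de`, which is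
`{s | τ de s = s}`; it is contained in this set, so it is equal to it, and `s ↦ τ de (τ d s)` is a surjective map
of the finite type `RR τ de` into itself, hence bijective. -/
theorem eTe_bij (h : AD S q D₀ de τ) {d : ℕ} (hd : d < q) :
    Function.Bijective (fun s : RR τ de => (⟨τ de (τ d s), h.hidem _⟩ : RR τ de)) := by
  obtain ⟨d1, hd1, h1, -⟩ := h.hmul de h.hde d hd
  obtain ⟨d2, hd2, h2, -⟩ := h.hmul d1 hd1 de h.hde
  have h3 : univ.image (τ d2) ⊆ univ.image (τ de) := by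
    intro x hx
    obtain ⟨s, -, rfl⟩ := mem_image.1 hx
    rw [h2]
    exact mem_image_of_mem _ (mem_univ _)
  have h4 : univ.image (τ d2) = univ.image (τ de) := eq_of_subset_of_card_le h3 (h.hmin d2 hd2)
  have h5 : Function.Surjective
      (fun s : RR τ de => (⟨τ de (τ d s), h.hidem _⟩ : RR τ de)) := by
    intro x
    have h6 : (x : S) ∈ univ.image (τ d2) := by
      rw [h4]
      exact mem_image.2 ⟨x, mem_univ _, x.2⟩
    obtain ⟨s, -, hs⟩ := mem_image.1 h6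
    refine ⟨⟨τ de s, h.hidem s⟩, Subtype.ext ?_⟩
    show τ de (τ d (τ de s)) = x
    rw [← hs, h2, h1]
  exact ⟨Finite.injective_iff_surjective.2 h5, h5⟩

/-- PROOF. `s ↦ τ de (z s)` is injective by `eTe_bij`. -/
theorem IsT_inj (h : AD S q D₀ de τ) {z : RR τ de → S} (hz : IsT q τ de z) : Function.Injective z := by
  obtain ⟨d, hd, ht⟩ := hz
  intro s s' hss
  apply (eTe_bij h hd).1
  refine Subtype.ext ?_
  show τ de (τ d s) = τ de (τ d s')
  rw [← ht, ← ht, hss]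

/-- PROOF. `eTe_bij` and `Equiv.ofBijective` give the permutation in the definition of `lp`; `Exists.choose_spec`. -/
theorem lp_apply (h : AD S q D₀ de τ) {z : RR τ de → S} (hz : IsT q τ de z) (s : RR τ de) :
    (lp τ de z s : S) = τ de (z s) := by
  obtain ⟨d, hd, ht⟩ := hz
  have h1 : ∃ π : Equiv.Perm (RR τ de), ∀ s, (π s : S) = τ de (z s) := by
    refine ⟨Equiv.ofBijective _ (eTe_bij h hd), fun s => ?_⟩
    rw [Equiv.ofBijective_apply, ht]
  unfold lp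
  rw [dif_pos h1]
  exact h1.choose_spec s

/-- a subset of a finite group which is closed under products and contains `1` is a subgroup -/
private theorem clos_aux {G : Type} [Group G] [Finite G] {A : Set G} (h1 : (1 : G) ∈ A)
    (hm : ∀ x ∈ A, ∀ y ∈ A, x * y ∈ A) (x : G) : x ∈ Subgroup.closure A ↔ x ∈ A := by
  refine ⟨fun hx => ?_, fun hx => Subgroup.subset_closure hx⟩
  induction hx using Subgroup.closure_induction with
  | mem x hx => exact hx
  | one => exact h1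
  | mul x y _ _ hx hy => exact hm x hx y hy
  | inv x _ hx =>
    have hp : ∀ n : ℕ, x ^ n ∈ A := by
      intro n
      induction n with
      | zero => rw [pow_zero]; exact h1
      | succ n ih => rw [pow_succ]; exact hm _ ih _ hx
    have h2 : x⁻¹ = x ^ (orderOf x - 1) := by
      have h3 : 0 < orderOf x := orderOf_pos x
      have h4 : x ^ (orderOf x - 1) * x = 1 := by
        rw [← pow_succ, Nat.sub_add_cancel h3, pow_orderOf_eq_one]
      exact (eq_inv_of_mul_eq_one_left h4).symm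
    rw [h2]
    exact hp _

/-- the product of two elements -/
private theorem mul_aux (h : AD S q D₀ de τ) {x y : Equiv.Perm (RR τ de)} {d1 d2 : ℕ} (hd1 : d1 < q)
    (hd2 : d2 < q) (hx : ∀ s, (x s : S) = τ de (τ d1 s)) (hy : ∀ s, (y s : S) = τ de (τ d2 s)) :
    ∃ d < q, d ≡ d1 + d2 [MOD D₀] ∧ ∀ s, ((x * y) s : S) = τ de (τ d s) := by
  obtain ⟨a, ha, h1, h2⟩ := h.hmul d2 hd2 de h.hde
  obtain ⟨b, hb, h3, h4⟩ := h.hmul a ha d1 hd1
  refine ⟨b, hb, ?_, fun s => ?_⟩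
  · have h5 : a + d1 ≡ d2 + de + d1 [MOD D₀] := Nat.ModEq.add_right _ h2
    have h6 : d2 + de + d1 ≡ d2 + 0 + d1 [MOD D₀] :=
      Nat.ModEq.add_right _ (Nat.ModEq.add_left _ (Nat.modEq_zero_iff_dvd.2 h.hde0))
    have h7 := h4.trans (h5.trans h6)
    rwa [add_zero, add_comm d2 d1] at h7
  · rw [Equiv.Perm.mul_apply, hx, h3, h1, hy]

/-- PROOF. The set is closed under products: `π₁ (π₂ s) = τ de (τ d₁ (τ de (τ d₂ s)))` and `hmul` twice give a digit
`d ≡ d₁ + d₂` with `τ de (τ d s)` for it; it contains `1` (`d = de`); for the inverse use that `Perm (RR τ de)` is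
finite: `π⁻¹ = π ^ (n - 1)`, `n = orderOf π` (or `Nat.factorial _`). `Subgroup.closure_induction`. -/
theorem mem_HH (h : AD S q D₀ de τ) (π : Equiv.Perm (RR τ de)) :
    π ∈ HH q τ de ↔ ∃ d < q, ∀ s, (π s : S) = τ de (τ d s) := by
  have k1 : (1 : Equiv.Perm (RR τ de)) ∈ {π : Equiv.Perm (RR τ de) |
      ∃ d < q, ∀ s, (π s : S) = τ de (τ d s)} := by
    refine ⟨de, h.hde, fun s => ?_⟩
    rw [h.hidem, Equiv.Perm.one_apply]
    exact s.2.symm
  have k2 : ∀ x ∈ {π : Equiv.Perm (RR τ de) | ∃ d < q, ∀ s, (π s : S) = τ de (τ d s)},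
      ∀ y ∈ {π : Equiv.Perm (RR τ de) | ∃ d < q, ∀ s, (π s : S) = τ de (τ d s)},
      x * y ∈ {π : Equiv.Perm (RR τ de) | ∃ d < q, ∀ s, (π s : S) = τ de (τ d s)} := by
    rintro x ⟨d1, hd1, hx⟩ y ⟨d2, hd2, hy⟩
    obtain ⟨d, hd, -, hs⟩ := mul_aux h hd1 hd2 hx hy
    exact ⟨d, hd, hs⟩
  have k3 := clos_aux k1 k2 π
  rw [Set.mem_setOf_eq] at k3
  exact k3

/-- PROOF. As `mem_HH`; the numbers of the products are divisible by `D₀`. -/
theorem mem_NN (h : AD S q D₀ de τ) (π : Equiv.Perm (RR τ de)) :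
    π ∈ NN q D₀ τ de ↔ ∃ d < q, D₀ ∣ d ∧ ∀ s, (π s : S) = τ de (τ d s) := by
  have k1 : (1 : Equiv.Perm (RR τ de)) ∈ {π : Equiv.Perm (RR τ de) |
      ∃ d < q, D₀ ∣ d ∧ ∀ s, (π s : S) = τ de (τ d s)} := by
    refine ⟨de, h.hde, h.hde0, fun s => ?_⟩
    rw [h.hidem, Equiv.Perm.one_apply]
    exact s.2.symm
  have k2 : ∀ x ∈ {π : Equiv.Perm (RR τ de) | ∃ d < q, D₀ ∣ d ∧ ∀ s, (π s : S) = τ de (τ d s)},
      ∀ y ∈ {π : Equiv.Perm (RR τ de) | ∃ d < q, D₀ ∣ d ∧ ∀ s, (π s : S) = τ de (τ d s)},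
      x * y ∈ {π : Equiv.Perm (RR τ de) | ∃ d < q, D₀ ∣ d ∧ ∀ s, (π s : S) = τ de (τ d s)} := by
    rintro x ⟨d1, hd1, hD1, hx⟩ y ⟨d2, hd2, hD2, hy⟩
    obtain ⟨d, hd, hm, hs⟩ := mul_aux h hd1 hd2 hx hy
    exact ⟨d, hd, (hm.dvd_iff dvd_rfl).2 (dvd_add hD1 hD2), hs⟩
  have k3 := clos_aux k1 k2 π
  rw [Set.mem_setOf_eq] at k3
  exact k3

end Pool.Agent.Lib.MP_3e612f_nt.LV
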