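import Pool.Agent.Lib.MP_3e612f_nt.LV.AuGrpA

/-!
The group `e T e` of an automaton, continued: `lp` is compatible with the right action of `HH`, cores factor out,
`NN` is normal and contains the quotients of elements with congruent numbers.
-/

set_option autoImplicit false

namespace Pool.Agent.Lib.MP_3e612f_nt.LV

open Finset

variable {S : Type} [Fintype S] [DecidableEq S] {q D₀ de : ℕ} {τ : ℕ → S → S}

/-- `π` has a digit congruent to `x` -/
private def Dg (q D₀ : ℕ) (τ : ℕ → S → S) (de x : ℕ) (π : Equiv.Perm (RR τ de)) : Prop :=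
  ∃ d < q, d ≡ x [MOD D₀] ∧ ∀ s, (π s : S) = τ de (τ d s)

private theorem Dg_mul (h : AD S q D₀ de τ) {x y : ℕ} {π ρ : Equiv.Perm (RR τ de)}
    (h1 : Dg q D₀ τ de x π) (h2 : Dg q D₀ τ de y ρ) : Dg q D₀ τ de (x + y) (π * ρ) := by
  obtain ⟨d1, hd1, c1, e1⟩ := h1
  obtain ⟨d2, hd2, c2, e2⟩ := h2
  obtain ⟨a, ha, ea, ca⟩ := h.hmul d2 hd2 de h.hde
  obtain ⟨b, hb, eb, cb⟩ := h.hmul a ha d1 hd1
  refine ⟨b, hb, ?_, fun s => ?_⟩
  · have c0 : de ≡ 0 [MOD D₀] := Nat.modEq_zero_iff_dvd.2 h.hde0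
    have c3 : a + d1 ≡ (y + 0) + x [MOD D₀] := (ca.trans (c2.add c0)).add c1
    have c4 := cb.trans c3
    rwa [add_zero, add_comm y x] at c4
  · rw [eb, ea, Equiv.Perm.mul_apply, e1, e2]

private theorem Dg_one (h : AD S q D₀ de τ) : Dg q D₀ τ de 0 1 := by
  refine ⟨de, h.hde, Nat.modEq_zero_iff_dvd.2 h.hde0, fun s => ?_⟩
  rw [h.hidem]
  exact s.2.symm

private theorem Dg_pow (h : AD S q D₀ de τ) {x : ℕ} {π : Equiv.Perm (RR τ de)}
    (h1 : Dg q D₀ τ de x π) (k : ℕ) : Dg q D₀ τ de (k * x) (π ^ k) := by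
  induction k with
  | zero => simpa using Dg_one h
  | succ k ih =>
    rw [pow_succ, Nat.succ_mul]
    exact Dg_mul h ih h1

private theorem Dg_inv (h : AD S q D₀ de τ) {x : ℕ} {π : Equiv.Perm (RR τ de)}
    (h1 : Dg q D₀ τ de x π) : ∃ y, Dg q D₀ τ de y π⁻¹ ∧ x + y ≡ 0 [MOD D₀] := by
  have hn : 0 < orderOf π := orderOf_pos π
  have hD := h.hD
  have hk : 1 ≤ orderOf π * D₀ := Nat.mul_pos hn hD
  refine ⟨(orderOf π * D₀ - 1) * x, ?_, ?_⟩
  · have h2 := Dg_pow h h1 (orderOf π * D₀ - 1)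
    have h3 : π ^ (orderOf π * D₀ - 1) = π⁻¹ := by
      rw [eq_inv_iff_mul_eq_one, ← pow_succ, Nat.sub_add_cancel hk, pow_mul, pow_orderOf_eq_one,
        one_pow]
    rwa [h3] at h2
  · rw [Nat.modEq_zero_iff_dvd]
    have h4 : x + (orderOf π * D₀ - 1) * x = (orderOf π * D₀ - 1 + 1) * x := by ring
    rw [h4, Nat.sub_add_cancel hk]
    exact Dvd.dvd.mul_right (Dvd.intro_left _ rfl) _

private theorem Dg_NN (h : AD S q D₀ de τ) {x : ℕ} {π : Equiv.Perm (RR τ de)}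
    (h1 : Dg q D₀ τ de x π) (hx : x ≡ 0 [MOD D₀]) : π ∈ NN q D₀ τ de := by
  obtain ⟨d, hd, c, e⟩ := h1
  exact (mem_NN h π).2 ⟨d, hd, Nat.modEq_zero_iff_dvd.1 (c.trans hx), e⟩

/-- PROOF. `z = τ d` on `RR`, `lp_apply`, `mem_HH`. -/
theorem lp_mem (h : AD S q D₀ de τ) {z : RR τ de → S} (hz : IsT q τ de z) :
    lp τ de z ∈ HH q τ de := by
  obtain ⟨d, hd, e⟩ := id hz
  exact (mem_HH h _).2 ⟨d, hd, fun s => by rw [lp_apply h hz, e]⟩

/-- PROOF. `mem_HH` gives `π s = τ de (τ d s)`; take this `d`, `Equiv.ext`, `lp_apply`. -/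
theorem exists_lp (h : AD S q D₀ de τ) {π : Equiv.Perm (RR τ de)} (hπ : π ∈ HH q τ de) :
    ∃ d < q, lp τ de (fun s => τ d s) = π := by
  obtain ⟨d, hd, e⟩ := (mem_HH h π).1 hπ
  refine ⟨d, hd, Equiv.ext fun s => Subtype.ext ?_⟩
  rw [lp_apply h ⟨d, hd, fun _ => rfl⟩, e]

theorem lp_incl (h : AD S q D₀ de τ) : lp τ de (fun s => (s : S)) = 1 := by
  refine Equiv.ext fun s => Subtype.ext ?_
  rw [lp_apply h (IsT_incl h)]
  exact s.2

/-- PROOF. `z (u s) = τ d (τ de (τ d' s))` by `mem_HH`, and `hmul` twice. -/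
theorem IsT_right (h : AD S q D₀ de τ) {z : RR τ de → S} (hz : IsT q τ de z)
    {u : Equiv.Perm (RR τ de)} (hu : u ∈ HH q τ de) : IsT q τ de (fun s => z (u s)) := by
  obtain ⟨d, hd, e⟩ := hz
  obtain ⟨d', hd', e'⟩ := (mem_HH h u).1 hu
  obtain ⟨a, ha, ea, -⟩ := h.hmul d' hd' de h.hde
  obtain ⟨b, hb, eb, -⟩ := h.hmul a ha d hd
  refine ⟨b, hb, fun s => ?_⟩
  show z (u s) = τ b s
  rw [eb, ea, e, e']

/-- PROOF. `lp_apply` for both sides (`IsT_right`). -/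
theorem lp_right (h : AD S q D₀ de τ) {z : RR τ de → S} (hz : IsT q τ de z)
    {u : Equiv.Perm (RR τ de)} (hu : u ∈ HH q τ de) :
    lp τ de (fun s => z (u s)) = lp τ de z * u := by
  refine Equiv.ext fun s => Subtype.ext ?_
  rw [lp_apply h (IsT_right h hz hu), Equiv.Perm.mul_apply, lp_apply h hz]

/-- PROOF. `tw_add` twice, digit `de` in the middle: the number is `Z + q ^ l * (de + q * W)`, `tw_cat`;
`tw 1 = τ de` on the middle digit; `lp_apply` for `fun s => tw q τ l Z (z s)` (`IsT_tw`). -/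
theorem tw_core (h : AD S q D₀ de τ) {z : RR τ de → S} (hz : IsT q τ de z) {l Z : ℕ} (hZ : Z < q ^ l)
    (m W : ℕ) (s : RR τ de) :
    tw q τ (l + 1 + m) (Z + q ^ l * de + q ^ (l + 1) * W) (z s) =
      tw q τ m W (lp τ de (fun s => tw q τ l Z (z s)) s : S) := by
  have h1 : Z + q ^ l * de < q ^ (l + 1) := by
    have h2 : q ^ l * (de + 1) ≤ q ^ l * q := Nat.mul_le_mul_left _ h.hde
    have h3 : q ^ l * (de + 1) = q ^ l * de + q ^ l := by ring
    rw [pow_succ]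
    omega
  rw [tw_cat τ m h1 W, tw_cat τ 1 hZ de, tw_one, Nat.mod_eq_of_lt h.hde]
  rw [lp_apply h (IsT_tw h hz l Z)]

/-- PROOF. `tw_core`, `lp_right` for `fun s => tw q τ m W s` (`IsT_tw`, `IsT_incl`) and
`lp τ de (fun s => tw q τ l Z (z s)) ∈ HH` (`lp_mem`). -/
theorem lp_core (h : AD S q D₀ de τ) {z : RR τ de → S} (hz : IsT q τ de z) {l Z : ℕ} (hZ : Z < q ^ l)
    (m W : ℕ) :
    lp τ de (fun s => tw q τ (l + 1 + m) (Z + q ^ l * de + q ^ (l + 1) * W) (z s)) =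
      lp τ de (fun s => tw q τ m W (s : S)) * lp τ de (fun s => tw q τ l Z (z s)) := by
  have h1 : (fun s => tw q τ (l + 1 + m) (Z + q ^ l * de + q ^ (l + 1) * W) (z s)) =
      fun s => (fun s : RR τ de => tw q τ m W (s : S))
        (lp τ de (fun s => tw q τ l Z (z s)) s) := funext fun s => tw_core h hz hZ m W s
  rw [h1, lp_right h (z := fun s : RR τ de => tw q τ m W (s : S)) (IsT_tw h (IsT_incl h) m W)
    (lp_mem h (IsT_tw h hz l Z))]

/-- PROOF. `mem_HH`, `mem_NN`. -/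
theorem NN_le (h : AD S q D₀ de τ) : NN q D₀ τ de ≤ HH q τ de := by
  intro π hπ
  obtain ⟨d, hd, -, e⟩ := (mem_NN h π).1 hπ
  exact (mem_HH h π).2 ⟨d, hd, e⟩

/-- PROOF. Write `u` with the digit `d` and `u⁻¹ = u ^ (n - 1)` with `n = orderOf u`: by `mem_HH`-type products
(`hmul`) the element `u ^ k` has a digit congruent to `k * d`; so `u * ν * u ^ (n * D₀ - 1)` (with
`u ^ (n * D₀ - 1) = u⁻¹`) has a digit congruent to `d + 0 + (n * D₀ - 1) * d = n * D₀ * d ≡ 0`. Prove first: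
if `π₁, π₂` have digits congruent to `x₁, x₂` then `π₁ * π₂` has one congruent to `x₁ + x₂`. -/
theorem NN_conj (h : AD S q D₀ de τ) {u ν : Equiv.Perm (RR τ de)} (hu : u ∈ HH q τ de)
    (hν : ν ∈ NN q D₀ τ de) : u * ν * u⁻¹ ∈ NN q D₀ τ de := by
  obtain ⟨d, hd, e⟩ := (mem_HH h u).1 hu
  obtain ⟨d', hd', c', e'⟩ := (mem_NN h ν).1 hν
  have h1 : Dg q D₀ τ de d u := ⟨d, hd, Nat.ModEq.refl _, e⟩
  have h2 : Dg q D₀ τ de 0 ν := ⟨d', hd', Nat.modEq_zero_iff_dvd.2 c', e'⟩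
  obtain ⟨y, h3, c3⟩ := Dg_inv h h1
  exact Dg_NN h (Dg_mul h (Dg_mul h h1 h2) h3) (by rwa [add_zero])

/-- PROOF. As `NN_conj`: `lp z` has a digit congruent to `n` (`z s = τ d s`), `(lp z)⁻¹` one congruent to
`(k * D₀ - 1) * n`, `k = orderOf (lp z)`, the product with `lp z'` one congruent to `n' + (k * D₀ - 1) * n ≡ 0`. -/
theorem lp_congr_NN (h : AD S q D₀ de τ) {n n' : ℕ} {z z' : RR τ de → S}
    (hz : IsTn q D₀ τ de n z) (hz' : IsTn q D₀ τ de n' z') (hn : n ≡ n' [MOD D₀]) :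
    lp τ de z' * (lp τ de z)⁻¹ ∈ NN q D₀ τ de := by
  have h1 : Dg q D₀ τ de n (lp τ de z) := by
    obtain ⟨d, hd, c, e⟩ := id hz
    exact ⟨d, hd, c, fun s => by rw [lp_apply h hz.isT, e]⟩
  have h2 : Dg q D₀ τ de n' (lp τ de z') := by
    obtain ⟨d, hd, c, e⟩ := id hz'
    exact ⟨d, hd, c, fun s => by rw [lp_apply h hz'.isT, e]⟩
  obtain ⟨y, h3, c3⟩ := Dg_inv h h1
  exact Dg_NN h (Dg_mul h h2 h3) ((hn.symm.add_right y).trans c3)

/-- PROOF. `HH` is a subgroup of `Perm (RR τ de)`, so its order divides `(card (RR τ de))!`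
(`Subgroup.card_subgroup_dvd_card`, `Fintype.card_perm`), and `card (RR τ de) ≤ card S`
(`Nat.factorial_dvd_factorial`, `Fintype.card_subtype_le`). -/
theorem card_HH_dvd (τ : ℕ → S → S) (de : ℕ) (q : ℕ) :
    Nat.card (HH q τ de) ∣ (Fintype.card S).factorial := by
  refine (Subgroup.card_subgroup_dvd_card (HH q τ de)).trans ?_
  rw [Nat.card_eq_fintype_card, Fintype.card_perm]
  exact Nat.factorial_dvd_factorial (Fintype.card_subtype_le _)

end Pool.Agent.Lib.MP_3e612f_nt.LV
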