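import Mathlib

/-!
Averages close to one, ultrafilter limits.
-/

set_option autoImplicit false

namespace Pool.Agent.Lib.MP_3e612f_nt.LV

open Finset Filter Topology

/-- PROOF. `c = ∑ / ‖∑‖`. For every `v` `(w v * conj c).re ≤ 1`, and the sum of these real parts is `‖∑‖ > (1 - ε) n`,
so `(w v * conj c).re ≥ 1 - ε n`; `‖w v - c‖ ^ 2 = ‖w v‖ ^ 2 + 1 - 2 (w v * conj c).re ≤ 2 ε n`. -/
theorem avg_near {n : ℕ} {ε : ℝ} (hε : ε < 1) {w : ℕ → ℂ} (hw : ∀ v < n, ‖w v‖ ≤ 1)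
    (hs : (1 - ε) * n < ‖∑ v ∈ range n, w v‖) :
    ∃ c : ℂ, ‖c‖ = 1 ∧ ∀ v < n, ‖w v - c‖ ^ 2 ≤ 2 * ε * n := by
  have hn : 0 < n := by
    rcases Nat.eq_zero_or_pos n with h | h
    · subst h
      simp at hs
    · exact h
  have hn' : (0 : ℝ) < n := by exact_mod_cast hn
  set S : ℂ := ∑ v ∈ range n, w v with hS
  have hS0 : 0 < ‖S‖ := lt_trans (mul_pos (by linarith) hn') hs
  have hc : ‖S / (‖S‖ : ℂ)‖ = 1 := by
    rw [norm_div, Complex.norm_real, norm_norm, div_self hS0.ne']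
  refine ⟨S / (‖S‖ : ℂ), hc, fun v hv => ?_⟩
  set c : ℂ := S / (‖S‖ : ℂ) with hcdef
  have hle : ∀ u ∈ range n, (w u * (starRingEnd ℂ) c).re ≤ 1 := by
    intro u hu
    refine (Complex.re_le_norm _).trans ?_
    rw [norm_mul, Complex.norm_conj, hc, mul_one]
    exact hw u (mem_range.1 hu)
  have hsum : ∑ u ∈ range n, (w u * (starRingEnd ℂ) c).re = ‖S‖ := by
    rw [← Complex.re_sum, ← Finset.sum_mul, ← hS, hcdef, map_div₀, Complex.conj_ofReal,
      mul_div_assoc', Complex.mul_conj, Complex.normSq_eq_norm_sq, ← Complex.ofReal_div,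
      Complex.ofReal_re, sq, mul_div_assoc, div_self hS0.ne', mul_one]
  have hv' : v ∈ range n := mem_range.2 hv
  have hrest : ∑ u ∈ (range n).erase v, (w u * (starRingEnd ℂ) c).re ≤ (n : ℝ) - 1 := by
    refine (Finset.sum_le_card_nsmul _ _ 1 fun u hu => hle u (mem_of_mem_erase hu)).trans ?_
    rw [card_erase_of_mem hv', card_range, nsmul_eq_mul, mul_one, Nat.cast_sub hn, Nat.cast_one]
  have hadd := Finset.add_sum_erase (range n) (fun u => (w u * (starRingEnd ℂ) c).re) hv'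
  rw [hsum] at hadd
  have hre : 1 - ε * n ≤ (w v * (starRingEnd ℂ) c).re := by
    have h1 : (w v * (starRingEnd ℂ) c).re =
        ‖S‖ - ∑ u ∈ (range n).erase v, (w u * (starRingEnd ℂ) c).re := by
      rw [← hadd]
      ring
    rw [h1]
    linarith
  have hsq := Complex.normSq_sub (w v) c
  rw [Complex.normSq_eq_norm_sq, Complex.normSq_eq_norm_sq, Complex.normSq_eq_norm_sq, hc] at hsq
  rw [hsq]
  have hw2 : ‖w v‖ ^ 2 ≤ 1 := pow_le_one₀ (norm_nonneg _) (hw v hv)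
  linarith

/-- PROOF. For example `Ultrafilter.eventually_exists_mem_iff` / finite union of the sets `{n | f n = a}`. -/
theorem ult_const {α : Type} [Finite α] (F : Ultrafilter ℕ) (f : ℕ → α) :
    ∃ a, ∀ᶠ n in (F : Filter ℕ), f n = a := by
  by_contra hcon
  push Not at hcon
  have h1 : ∀ a, ∀ᶠ n in (F : Filter ℕ), f n ≠ a := hcon
  have h2 : ∀ᶠ n in (F : Filter ℕ), ∀ a, f n ≠ a := Filter.eventually_all.2 h1
  obtain ⟨n, hn⟩ := h2.exists
  exact hn (f n) rfl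

/-- PROOF. `isCompact_closedBall.ultrafilter_le_nhds'` for `F.map f`. -/
theorem ult_lim (F : Ultrafilter ℕ) {f : ℕ → ℂ} (hf : ∀ n, ‖f n‖ ≤ 1) :
    ∃ z : ℂ, Tendsto f (F : Filter ℕ) (𝓝 z) := by
  have h1 : (F.map f : Filter ℂ) ≤ 𝓟 (Metric.closedBall 0 1) := by
    rw [Ultrafilter.coe_map, Filter.le_principal_iff, Filter.mem_map]
    exact Filter.univ_mem' fun n => by
      simpa using hf n
  obtain ⟨z, -, hz⟩ := (isCompact_closedBall (0 : ℂ) 1).ultrafilter_le_nhds (F.map f) h1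
  exact ⟨z, hz⟩

end Pool.Agent.Lib.MP_3e612f_nt.LV
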