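import Pool.Agent.Lib.MP_3e612f_nt.LV.AuMerge
import Pool.Agent.Lib.MP_3e612f_nt.LV.AuUlt

/-!
Choice of levels: the pairs of states which can be joined between two levels do not depend on the levels.
-/

set_option autoImplicit false

namespace Pool.Agent.Lib.MP_3e612f_nt.LV

open Finset Filter

variable {S : Type} [Fintype S] [DecidableEq S] {q D₀ de : ℕ} {τ : ℕ → S → S}

/-- the pairs of states which are joined by a string from the level `i` to the level `j` -/
def BB (q : ℕ) (τ : ℕ → S → S) (de p r : ℕ) (t t' : ℕ → ℕ) (i j : ℕ) : Set (ST τ de × ST τ de) :=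
  {x | Val q τ de p r x.1 ∧ ∃ X < q ^ (j - i), step q τ de p r t t' i (j - i) X x.1 = x.2}

/-- the string `W` before the level `K` leads all states to the orbit of `b` -/
def TypeB (q : ℕ) (τ : ℕ → S → S) (de p r : ℕ) (t t' : ℕ → ℕ) (m : ℕ) (b : ST τ de) (K W : ℕ) :
    Prop :=
  m ≤ K ∧ W < q ^ m ∧ ∀ a : ST τ de, Val q τ de p r a →
    ∃ u : Equiv.Perm (RR τ de) × Equiv.Perm (RR τ de), u.1 ∈ HH q τ de ∧ u.2 ∈ HH q τ de ∧
      step q τ de p r t t' (K - m) m W a = act b u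

/-- good levels `i < j` and an unbounded set `𝒦` of further levels -/
structure Lev (q : ℕ) (τ : ℕ → S → S) (de p r : ℕ) (t t' : ℕ → ℕ) (m l₀ : ℕ) (b : ST τ de)
    (B : Set (ST τ de × ST τ de)) (i j : ℕ) (𝒦 : Set ℕ) (W : ℕ → ℕ) : Prop where
  hb : Val q τ de p r b
  hi : TypeB q τ de p r t t' m b i (W i)
  hj : TypeB q τ de p r t t' m b j (W j)
  hij : i + l₀ + m ≤ j
  hB : BB q τ de p r t t' i j = B
  hKu : ∀ n, ∃ K ∈ 𝒦, n ≤ K
  hK : ∀ K ∈ 𝒦, j + m ≤ K ∧ BB q τ de p r t t' i K = B ∧ BB q τ de p r t t' j K = B ∧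
    TypeB q τ de p r t t' m b K (W K)

/-- **levels**. PROOF. `merge` gives `m` and for every level `i` a string and a state; let `W K`, `β K` be those for
`K - m` (so for `K ≥ m` `TypeB … m (β K) K (W K)` and `Val (β K)`). `F = hyperfilter ℕ`. The type `V` of the admissible
states is finite (`Val_finite`): `ult_const` gives `b` with `β K = b` for almost all `K`. The sets `BB i j` are sets of
pairs of admissible states (`Val_step`), which are finitely many sets: `ult_const` (for `j ↦ BB i j`, as a function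
into the finite type `Set (V × V)`, or into the finite powerset) gives `B i` with `BB i j = B i` for almost all `j`,
then `B` with `B i = B` for almost all `i`. Choose `i ≥ m` with `B i = B` and `β i = b`; then `j ≥ i + l₀ + m` with
`BB i j = B`, `B j = B`, `β j = b`; `𝒦 = {K | j + m ≤ K ∧ BB i K = B ∧ BB j K = B ∧ β K = b}` belongs to `F`, so it is
unbounded (`hyperfilter_le_cofinite`, `Filter.Eventually.exists`). -/
theorem levels (h : AD S q D₀ de τ) {p r : ℕ} (hp : Nat.Coprime p q) (hr : Nat.Coprime r q)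
    {t t' : ℕ → ℕ} (ht : ∀ j, t j < q) (ht' : ∀ j, t' j < q) (l₀ : ℕ) :
    ∃ (m : ℕ) (b : ST τ de) (B : Set (ST τ de × ST τ de)) (i j : ℕ) (𝒦 : Set ℕ) (W : ℕ → ℕ),
      Lev q τ de p r t t' m l₀ b B i j 𝒦 W := by
  classical
  obtain ⟨m, -, hm⟩ := merge h hp hr
  have h1 := hm t t' ht ht'
  choose W₀ hW₀ β₀ hβ₀ hs₀ using h1
  have : Finite {a : ST τ de // Val q τ de p r a} := Val_finite (q := q) (τ := τ) (de := de) p r
  -- the sets of pairs
  let V := {a : ST τ de // Val q τ de p r a}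
  let BV : ℕ → ℕ → Set (V × V) := fun i j => {x | (x.1.1, x.2.1) ∈ BB q τ de p r t t' i j}
  have hBV : ∀ i j, BB q τ de p r t t' i j = (fun x : V × V => (x.1.1, x.2.1)) '' BV i j := by
    intro i j
    ext ⟨x, y⟩
    constructor
    · rintro hx
      obtain ⟨hv, X, hX, hy⟩ := hx
      have hv2 : Val q τ de p r y := by
        change step q τ de p r t t' i (j - i) X x = y at hy
        rw [← hy]
        exact Val_step h ht ht' hX hv
      exact ⟨(⟨x, hv⟩, ⟨y, hv2⟩), ⟨hv, X, hX, hy⟩, rfl⟩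
    · rintro ⟨⟨x', y'⟩, hx', e⟩
      cases e
      exact hx'
  -- the limits
  let F : Ultrafilter ℕ := hyperfilter ℕ
  have hF : ∀ n : ℕ, ∀ᶠ K in (F : Filter ℕ), n ≤ K :=
    fun n => Nat.hyperfilter_le_atTop (eventually_ge_atTop n)
  obtain ⟨b, hb⟩ := ult_const F (fun K => (⟨β₀ (K - m), hβ₀ (K - m)⟩ : V))
  choose Bf hBf using fun i => ult_const F (fun j => BV i j)
  obtain ⟨B'', hB''⟩ := ult_const F Bf
  have hT : ∀ K, m ≤ K → (⟨β₀ (K - m), hβ₀ (K - m)⟩ : V) = b →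
      TypeB q τ de p r t t' m b.1 K (W₀ (K - m)) := by
    intro K hK e
    refine ⟨hK, hW₀ _, fun a ha => ?_⟩
    obtain ⟨u, hu1, hu2, hu3⟩ := hs₀ (K - m) a ha
    refine ⟨u, hu1, hu2, ?_⟩
    rw [hu3, ← e]
  obtain ⟨i, hi1, hi2, hi3⟩ := ((hF m).and (hB''.and hb)).exists
  obtain ⟨j, hj1, hj2, hj3, hj4⟩ := ((hF (i + l₀ + m)).and ((hBf i).and (hB''.and hb))).exists
  have hlim : ∀ k, Bf k = B'' → ∀ K, BV k K = Bf k →
      BB q τ de p r t t' k K = (fun x : V × V => (x.1.1, x.2.1)) '' B'' := by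
    intro k hk K hK
    rw [hBV, hK, hk]
  refine ⟨m, b.1, (fun x : V × V => (x.1.1, x.2.1)) '' B'', i, j,
    {K | j + m ≤ K ∧ BB q τ de p r t t' i K = (fun x : V × V => (x.1.1, x.2.1)) '' B'' ∧
      BB q τ de p r t t' j K = (fun x : V × V => (x.1.1, x.2.1)) '' B'' ∧
      TypeB q τ de p r t t' m b.1 K (W₀ (K - m))}, fun K => W₀ (K - m),
    ⟨b.2, hT i hi1 hi3, hT j (by omega) hj4, hj1, hlim i hi2 j hj2, ?_, fun K hK => hK⟩⟩
  intro n
  obtain ⟨K, hK1, hK2, hK3, hK4, hK5⟩ :=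
    ((hF n).and ((hF (j + m)).and ((hBf i).and ((hBf j).and hb)))).exists
  exact ⟨K, ⟨hK2, hlim i hi2 K hK3, hlim j hj3 K hK4, hT K (by omega) hK5⟩, hK1⟩

/-- composition of strings. PROOF. `step_add` with `L = j - i`, `M = K - j`. -/
theorem BB_trans (h : AD S q D₀ de τ) {p r : ℕ} {t t' : ℕ → ℕ} {i j K : ℕ} (hij : i ≤ j)
    (hjK : j ≤ K) {X Y : ℕ} (hX : X < q ^ (j - i)) (hY : Y < q ^ (K - j)) (a : ST τ de) :
    X + q ^ (j - i) * Y < q ^ (K - i) ∧
      step q τ de p r t t' i (K - i) (X + q ^ (j - i) * Y) a =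
        step q τ de p r t t' j (K - j) Y (step q τ de p r t t' i (j - i) X a) := by
  have hq : 1 ≤ q := by have := h.hq; omega
  have e1 : K - i = (j - i) + (K - j) := by omega
  have e2 : i + (j - i) = j := by omega
  refine ⟨?_, ?_⟩
  · have h3 : q ^ (j - i) * (Y + 1) ≤ q ^ (j - i) * q ^ (K - j) := Nat.mul_le_mul_left _ hY
    rw [e1, pow_add]
    calc X + q ^ (j - i) * Y < q ^ (j - i) + q ^ (j - i) * Y := Nat.add_lt_add_right hX _
      _ = q ^ (j - i) * (Y + 1) := by ring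
      _ ≤ _ := h3
  · have h4 := step_add hq p r t t' i (j - i) (K - j) X Y a
    rw [e2, ← e1] at h4
    exact h4

/-- a string which ends with `W`. PROOF. `step_add` with `L = K - i - m`, `M = m`, `i + (K - i - m) = K - m`; `TypeB`. -/
theorem end_TypeB (h : AD S q D₀ de τ) {p r : ℕ} {t t' : ℕ → ℕ} (ht : ∀ j, t j < q)
    (ht' : ∀ j, t' j < q) {m K W : ℕ} {b : ST τ de} (hT : TypeB q τ de p r t t' m b K W) {i : ℕ}
    (hi : i + m ≤ K) {X : ℕ} (hX : X < q ^ (K - i - m)) {a : ST τ de} (ha : Val q τ de p r a) :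
    X + q ^ (K - i - m) * W < q ^ (K - i) ∧
      ∃ u : Equiv.Perm (RR τ de) × Equiv.Perm (RR τ de), u.1 ∈ HH q τ de ∧ u.2 ∈ HH q τ de ∧
        step q τ de p r t t' i (K - i) (X + q ^ (K - i - m) * W) a = act b u := by
  obtain ⟨hT1, hT2, hT3⟩ := hT
  have e1 : K - m - i = K - i - m := by omega
  have e2 : K - (K - m) = m := by omega
  have h1 := BB_trans (t := t) (t' := t') h (p := p) (r := r) (i := i) (j := K - m) (K := K)
    (by omega) (by omega) (X := X) (Y := W) (by rw [e1]; exact hX) (by rw [e2]; exact hT2) a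
  rw [e1, e2] at h1
  refine ⟨h1.1, ?_⟩
  obtain ⟨u, hu1, hu2, hu3⟩ := hT3 (step q τ de p r t t' i (K - i - m) X a)
    (Val_step h ht ht' hX ha)
  exact ⟨u, hu1, hu2, h1.2.trans hu3⟩

end Pool.Agent.Lib.MP_3e612f_nt.LV
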