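import Pool.Agent.Lib.MP_3e612f_nt.LV.AuStep

/-!
Merging of all states.
-/

set_option autoImplicit false

namespace Pool.Agent.Lib.MP_3e612f_nt.LV

open Finset

variable {S : Type} [Fintype S] [DecidableEq S] {q D₀ de : ℕ} {τ : ℕ → S → S}

private theorem mg_split {Q D x c : ℕ} (hQ : D < Q) (hx : x ≡ D [MOD Q]) (hc : c + D < Q) :
    (x + c) = c + D + Q * (x / Q) ∧ (x + c) / Q = x / Q := by
  have h1 : x % Q = D := by
    have h2 : x % Q = D % Q := hx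
    rw [h2, Nat.mod_eq_of_lt hQ]
  have h2 := Nat.div_add_mod x Q
  rw [h1] at h2
  have h3 : x + c = c + D + Q * (x / Q) := by omega
  refine ⟨h3, ?_⟩
  conv_lhs => rw [h3]
  rw [Nat.add_mul_div_left _ _ (by omega), Nat.div_eq_of_lt hc, Nat.zero_add]

private theorem mg_carry {Q x c : ℕ} (hQ : 1 ≤ Q) (hc : c < Q) :
    ∃ ε ≤ 1, (x + c) / Q = x / Q + ε := by
  have h2 := Nat.div_add_mod x Q
  have h3 := Nat.mod_lt x hQ
  rcases lt_or_ge (x % Q + c) Q with h | h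
  · refine ⟨0, by omega, ?_⟩
    have h4 : x + c = (x % Q + c) + Q * (x / Q) := by omega
    conv_lhs => rw [h4]
    rw [Nat.add_mul_div_left _ _ hQ, Nat.div_eq_of_lt h]
    omega
  · refine ⟨1, le_rfl, ?_⟩
    have h4 : x + c = (x % Q + c - Q) + Q * (x / Q + 1) := by
      rw [Nat.mul_add, Nat.mul_one]
      omega
    conv_lhs => rw [h4]
    rw [Nat.add_mul_div_left _ _ hQ, Nat.div_eq_of_lt (by omega)]
    omega

/-- **merging**. PROOF. Choose `m₀` with `p + r < q ^ m₀`, `m = 2 * (m₀ + 1)`. First window: `solve_mod` gives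
`W₁ < q ^ (m₀ + 1)` with `p * W₁ + tt q t i (m₀ + 1) ≡ de * q ^ m₀ [MOD q ^ (m₀ + 1)]`, so
`p * W₁ + tt q t i (m₀ + 1) = de * q ^ m₀ + q ^ (m₀ + 1) * κ`. For `k ≤ p < q ^ m₀` adding `k` does not change the
digit `de` at the place `m₀` or the quotient `κ`: `tw q τ (m₀ + 1) (k + q ^ m₀ * de + …) (z s) = τ de (tw q τ m₀ k (z s))
= (lp …) s` (`tw_core` with `m = 0`). So after the first window the first map is a permutation in `HH` (as a map
`RR → S`), the carry is `κ` for all `a`. The second carry is `c` or `c + 1`,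
`c = (r * W₁ + tt q t' i (m₀ + 1)) / q ^ (m₀ + 1)`, since `k' ≤ r < q ^ (m₀ + 1)`. Second window: `W₂` with
`r * W₂ + c + tt q t' (i + (m₀ + 1)) (m₀ + 1) ≡ de * q ^ m₀ [MOD q ^ (m₀ + 1)]`: for both carries the digit at the place
`m₀` is `de` and the new carry is the same `κ'`; so the second map is a permutation in `HH`. The first map is
`fun s => tw q τ (m₀ + 1) (p * W₂ + κ + tt …) (u s)`, `u ∈ HH`, the carry `κ₂` is the same for all `a`. Put
`W = W₁ + q ^ (m₀ + 1) * W₂` (`step_add`), `b = (fun s => tw q τ (m₀ + 1) (p * W₂ + κ + tt …) s, fun s => s, κ₂, κ')`;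
`Val` of `b`: `IsT_tw`, `IsT_incl`, and the carries are those of `Val_step`. -/
theorem merge (h : AD S q D₀ de τ) {p r : ℕ} (hp : Nat.Coprime p q) (hr : Nat.Coprime r q) :
    ∃ m : ℕ, 1 ≤ m ∧ ∀ t t' : ℕ → ℕ, (∀ j, t j < q) → (∀ j, t' j < q) → ∀ i : ℕ, ∃ W < q ^ m,
      ∃ b : ST τ de, Val q τ de p r b ∧ ∀ a : ST τ de, Val q τ de p r a →
        ∃ u : Equiv.Perm (RR τ de) × Equiv.Perm (RR τ de), u.1 ∈ HH q τ de ∧ u.2 ∈ HH q τ de ∧
          step q τ de p r t t' i m W a = act b u := by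
  have hq := h.hq
  obtain ⟨m₀, hm₀⟩ : ∃ m₀ : ℕ, p + r + 1 < q ^ m₀ := ⟨p + r + 1, Nat.lt_pow_self (by omega)⟩
  obtain ⟨M, hM⟩ : ∃ M, M = m₀ + 1 := ⟨_, rfl⟩
  refine ⟨M + M, by omega, fun t t' ht ht' i => ?_⟩
  have hqM1 : 1 ≤ q ^ M := Nat.one_le_pow _ _ (by omega)
  have hdeM : q ^ m₀ * de + q ^ m₀ ≤ q ^ M := by
    rw [hM, pow_succ, ← Nat.mul_succ]
    exact Nat.mul_le_mul_left _ h.hde
  obtain ⟨W₁, hW₁, hW₁'⟩ := solve_mod hqM1 (hp.pow_right M) (tt q t i M) (q ^ m₀ * de)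
  obtain ⟨κ, hκ⟩ : ∃ κ, κ = (p * W₁ + tt q t i M) / q ^ M := ⟨_, rfl⟩
  obtain ⟨c, hc⟩ : ∃ c, c = (r * W₁ + tt q t' i M) / q ^ M := ⟨_, rfl⟩
  obtain ⟨W₂, hW₂, hW₂'⟩ := solve_mod hqM1 (hr.pow_right M) (c + tt q t' (i + M) M) (q ^ m₀ * de)
  obtain ⟨κ', hκ'⟩ : ∃ κ', κ' = (r * W₂ + (c + tt q t' (i + M) M)) / q ^ M := ⟨_, rfl⟩
  have hW : W₁ + q ^ M * W₂ < q ^ (M + M) := by
    have h5 : q ^ M * (W₂ + 1) ≤ q ^ M * q ^ M := Nat.mul_le_mul_left _ hW₂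
    rw [pow_add]
    rw [mul_add, mul_one] at h5
    omega
  obtain ⟨b, hb⟩ : ∃ b : ST τ de,
      b = ((fun s : RR τ de => tw q τ M (p * W₂ + κ + tt q t (i + M) M) (s : S)),
        (fun s : RR τ de => (s : S)), (p * W₂ + κ + tt q t (i + M) M) / q ^ M, κ') := ⟨_, rfl⟩
  have key : ∀ a : ST τ de, Val q τ de p r a →
      ∃ u : Equiv.Perm (RR τ de) × Equiv.Perm (RR τ de), u.1 ∈ HH q τ de ∧ u.2 ∈ HH q τ de ∧
        step q τ de p r t t' i (M + M) (W₁ + q ^ M * W₂) a = act b u := by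
    intro a ha
    obtain ⟨ha1, ha2, ha3, ha4⟩ := ha
    -- the first window
    obtain ⟨e1, e2⟩ := mg_split (Q := q ^ M) (D := q ^ m₀ * de) (x := p * W₁ + tt q t i M)
      (c := a.2.2.1) (by omega) hW₁' (by omega)
    rw [← hκ] at e1 e2
    have e3 : p * W₁ + a.2.2.1 + tt q t i M = p * W₁ + tt q t i M + a.2.2.1 := by ring
    have hu1 : ∀ s : RR τ de, tw q τ M (p * W₁ + a.2.2.1 + tt q t i M) (a.1 s) =
        (lp τ de (fun s => tw q τ m₀ a.2.2.1 (a.1 s)) s : S) := by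
      intro s
      have h6 := tw_core h ha1 (l := m₀) (Z := a.2.2.1) (by omega) 0 κ s
      rw [e3, e1, hM]
      exact h6
    -- the second window
    obtain ⟨ε, hε, e4⟩ := mg_carry (Q := q ^ M) (x := r * W₁ + tt q t' i M) (c := a.2.2.2) hqM1
      (by omega)
    rw [← hc] at e4
    have e5 : r * W₁ + a.2.2.2 + tt q t' i M = r * W₁ + tt q t' i M + a.2.2.2 := by ring
    obtain ⟨e6, e7⟩ := mg_split (Q := q ^ M) (D := q ^ m₀ * de)
      (x := r * W₂ + (c + tt q t' (i + M) M)) (c := ε) (by omega) hW₂' (by omega)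
    rw [← hκ'] at e6 e7
    have e8 : r * W₂ + (c + ε) + tt q t' (i + M) M = r * W₂ + (c + tt q t' (i + M) M) + ε := by ring
    have hz1 : IsT q τ de (fun s => tw q τ M (r * W₁ + a.2.2.2 + tt q t' i M) (a.2.1 s)) :=
      IsT_tw h ha2 _ _
    have hu2 : ∀ s : RR τ de, tw q τ M (r * W₂ + (c + ε) + tt q t' (i + M) M)
        (tw q τ M (r * W₁ + a.2.2.2 + tt q t' i M) (a.2.1 s)) =
        (lp τ de (fun s => tw q τ m₀ ε (tw q τ M (r * W₁ + a.2.2.2 + tt q t' i M) (a.2.1 s))) s :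
          S) := by
      intro s
      have h6 := tw_core h hz1 (l := m₀) (Z := ε) (by omega) 0 κ' s
      rw [e8, e6]
      conv_lhs => rw [show tw q τ M (ε + q ^ m₀ * de + q ^ M * κ') =
        tw q τ (m₀ + 1 + 0) (ε + q ^ m₀ * de + q ^ (m₀ + 1) * κ') by rw [hM]]
      exact h6
    refine ⟨(lp τ de (fun s => tw q τ m₀ a.2.2.1 (a.1 s)),
      lp τ de (fun s => tw q τ m₀ ε (tw q τ M (r * W₁ + a.2.2.2 + tt q t' i M) (a.2.1 s)))),
      lp_mem h (IsT_tw h ha1 _ _), lp_mem h (IsT_tw h hz1 _ _), ?_⟩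
    rw [step_add (by omega), hb]
    unfold step act
    simp only [Prod.mk.injEq]
    refine ⟨?_, ?_, ?_, ?_⟩
    · funext s
      rw [hu1 s, e3, e2]
    · funext s
      rw [← hu2 s, e5, e4]
    · rw [e3, e2]
    · rw [e5, e4, e8, e7]
  refine ⟨W₁ + q ^ M * W₂, hW, b, ?_, key⟩
  -- the carries of `b`
  have h0 : Val q τ de p r (((fun s : RR τ de => (s : S)), (fun s : RR τ de => (s : S)), 0, 0) :
      ST τ de) :=
    ⟨IsT_incl h, IsT_incl h, Nat.zero_le _, Nat.zero_le _⟩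
  obtain ⟨u, -, -, hu⟩ := key _ h0
  have h1 := Val_step (t := t) (t' := t') (i := i) h ht ht' hW h0
  rw [hu] at h1
  obtain ⟨-, -, h3, h4⟩ := h1
  refine ⟨?_, ?_, h3, h4⟩
  · rw [hb]
    exact IsT_tw h (IsT_incl h) _ _
  · rw [hb]
    exact IsT_incl h

end Pool.Agent.Lib.MP_3e612f_nt.LV
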