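import Pool.Agent.Lib.MP_3e612f_nt.LV.AuTw

/-!
The numbers `tt`; linear congruences.
-/

set_option autoImplicit false

namespace Pool.Agent.Lib.MP_3e612f_nt.LV

open Finset

/-- PROOF. `tt q t 0 (i + L) = tt q t 0 i + q ^ i * tt q t i L`, general form. -/
theorem tt_add (q : ℕ) (t : ℕ → ℕ) (i L M : ℕ) :
    tt q t i (L + M) = tt q t i L + q ^ L * tt q t (i + L) M := by
  unfold tt
  rw [Finset.sum_range_add, Finset.mul_sum]
  congr 1
  refine Finset.sum_congr rfl fun m _ => ?_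
  rw [pow_add, add_assoc]
  ring

/-- PROOF. Digits less than `q`: geometric sum, induction with `tt_add`. -/
theorem tt_lt {q : ℕ} {t : ℕ → ℕ} (ht : ∀ j, t j < q) (i L : ℕ) : tt q t i L < q ^ L := by
  induction L with
  | zero => simp [tt]
  | succ L ih =>
    have h1 : tt q t i (L + 1) = tt q t i L + t (i + L) * q ^ L := by
      unfold tt
      rw [Finset.sum_range_succ]
    have h2 : t (i + L) + 1 ≤ q := ht (i + L)
    have h3 : (t (i + L) + 1) * q ^ L ≤ q * q ^ L := Nat.mul_le_mul_right _ h2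
    have h4 : (t (i + L) + 1) * q ^ L = t (i + L) * q ^ L + q ^ L := by ring
    have h5 : q ^ (L + 1) = q * q ^ L := by ring
    omega

/-- PROOF. `p` is invertible modulo `m` (`Nat.exists_mul_emod_eq_one_of_coprime` or `ZMod`): choose
`X ≡ p⁻¹ * (Z - c)`. -/
theorem solve_mod {p m : ℕ} (hm : 1 ≤ m) (hp : Nat.Coprime p m) (c Z : ℕ) :
    ∃ X < m, p * X + c ≡ Z [MOD m] := by
  have hne : NeZero m := ⟨by omega⟩
  refine ⟨((p : ZMod m)⁻¹ * ((Z : ZMod m) - c)).val, ZMod.val_lt _, ?_⟩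
  rw [← ZMod.natCast_eq_natCast_iff]
  push_cast
  rw [ZMod.natCast_zmod_val, ← mul_assoc, ZMod.coe_mul_inv_eq_one p hp, one_mul, sub_add_cancel]

end Pool.Agent.Lib.MP_3e612f_nt.LV
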