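import Pool.Agent.Lib.MP_3e612f_nt.LV.AuPerf0
import Pool.Agent.Lib.MP_3e612f_nt.LV.AuTt
import Pool.Agent.Lib.MP_3e612f_nt.LV.AuGrpA

/-!
Normal form of a perfect correlation: after two digits the states are compositions of points of `RR` with maps
`IsT`.
-/

set_option autoImplicit false

namespace Pool.Agent.Lib.MP_3e612f_nt.LV

open Finset

variable {S : Type} [Fintype S] [DecidableEq S] {q D₀ de : ℕ} {τ : ℕ → S → S}

open Classical in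
/-- perfect correlation in normal form -/
def Perf1 (q D₀ : ℕ) (τ : ℕ → S → S) (de p r : ℕ) : Prop :=
  ∃ (t t' : ℕ → ℕ) (a : ST τ de) (ζ c : ℂ) (Ψ : ℕ → ST τ de → ℂ),
    (∀ j, t j < q) ∧ (∀ j, t' j < q) ∧ Val q τ de p r a ∧ ‖ζ‖ = 1 ∧ ‖c‖ = 1 ∧
    (∀ j (b : ST τ de) (h : Equiv.Perm (RR τ de)), IsT q τ de b.1 →
      ∑ ν : Equiv.Perm (RR τ de), (if ν ∈ NN q D₀ τ de then Ψ j (act b (ν * h, 1)) else 0) = 0) ∧
    ∀ j, ∀ X < q ^ j, ζ ^ X * Ψ j (step q τ de p r t t' 0 j X a) = c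

private theorem nf_tt (q : ℕ) (t : ℕ → ℕ) (j : ℕ) :
    tt q t 2 j = tt q (fun i => t (i + 2)) 0 j := by
  unfold tt
  refine Finset.sum_congr rfl fun m _ => ?_
  have : 2 + m = 0 + m + 2 := by omega
  rw [this]

private theorem nf_num (q p k X₀ X j : ℕ) (t : ℕ → ℕ) :
    p * (X₀ + q ^ 2 * X) + k + tt q t 0 (j + 2) =
      (p * X₀ + k + tt q t 0 2) + q ^ 2 * (p * X + tt q (fun i => t (i + 2)) 0 j) := by
  rw [add_comm j 2, tt_add, Nat.zero_add, nf_tt]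
  ring

private theorem nf_tw {S : Type} {q : ℕ} (hq : 2 ≤ q) (τ : ℕ → S → S) (P W j : ℕ) (x : S) :
    tw q τ (j + 2) (P + q ^ 2 * W) x = tw q τ j (P / q ^ 2 + W) (tw q τ 2 P x) := by
  have h0 : 0 < q ^ 2 := by positivity
  rw [add_comm j 2, tw_add, Nat.add_mul_div_left _ _ h0]
  congr 1
  apply tw_congr
  show (P + q ^ 2 * W) % q ^ 2 = P % q ^ 2
  rw [Nat.add_mul_mod_self_left]

private theorem nf_div {q : ℕ} (hq : 2 ≤ q) (P W j : ℕ) :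
    (P + q ^ 2 * W) / q ^ (j + 2) = (P / q ^ 2 + W) / q ^ j := by
  have h0 : 0 < q ^ 2 := by positivity
  rw [show q ^ (j + 2) = q ^ 2 * q ^ j by rw [pow_add, mul_comm], ← Nat.div_div_eq_div_mul,
    Nat.add_mul_div_left _ _ h0]

private theorem nf_carry {q : ℕ} {t : ℕ → ℕ} (ht : ∀ j, t j < q) {p k X₀ : ℕ}
    (hk : k ≤ p) (hX : X₀ < q ^ 2) : (p * X₀ + k + tt q t 0 2) / q ^ 2 ≤ p := by
  have h1 := tt_lt ht 0 2
  rw [← Nat.lt_succ_iff, Nat.div_lt_iff_lt_mul (by omega)]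
  have h2 : p * X₀ ≤ p * (q ^ 2 - 1) := Nat.mul_le_mul_left _ (by omega)
  have h3 : p * (q ^ 2 - 1) + p = p * q ^ 2 := by
    rw [Nat.mul_sub_one, Nat.sub_add_cancel (Nat.le_mul_of_pos_right _ (by omega))]
  have h4 : p.succ * q ^ 2 = p * q ^ 2 + q ^ 2 := by
    rw [Nat.succ_mul]
  omega

private theorem nf_tt2 (q : ℕ) (t : ℕ → ℕ) : tt q t 0 2 = t 0 + q * t 1 := by
  unfold tt
  rw [Finset.sum_range_succ, Finset.sum_range_one]
  ring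

/-- **normal form**. PROOF. Let `t, t', x, x', k, k', ζ, c, Φ` be the data of `Perf0`. `solve_mod` gives `n₀ < q` with
`p * n₀ + (k + t 0) ≡ de [MOD q]`, and `n₁ < q` with `r * n₁ + ((r * n₀ + k' + t' 0) / q + t' 1) ≡ de [MOD q]`. Let
`X₀ = n₀ + q * n₁ < q ^ 2`, `P = p * X₀ + k + tt q t 0 2`, `R = r * X₀ + k' + tt q t' 0 2`. Then `P % q = de` and
`R / q % q = de`. So `tw q τ 2 P x = τ (P / q % q) (τ de x)` is `z s` with `s = ⟨τ de x, _⟩` and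
`z = fun s => τ (P / q % q) s`; and `tw q τ 2 R x' = τ de (τ (R % q) x')` is `s' : RR` itself, `z' = fun s => s`
(`IsT_incl`). New data: `t̃ j = t (j + 2)`, `t̃' j = t' (j + 2)`, `a = (z, z', P / q ^ 2, R / q ^ 2)` (carries at most
`p`, `r`), `ζ̃ = ζ ^ (q ^ 2)`, `c̃ = c * (ζ ^ X₀)⁻¹`, `Ψ j b = Φ (j + 2) (b.1 s) (b.2.1 s') b.2.2.1 b.2.2.2`. For
`X < q ^ j` apply the identity of `Perf0` with `j + 2` and `n = X₀ + q ^ 2 * X`: by `tt_add`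
`p * n + k + tt q t 0 (2 + j) = P + q ^ 2 * (p * X + tt q t 2 j)` and `tw_add`, so the arguments of `Φ` are those of
`step q τ de p r t̃ t̃' 0 j X a`. Balanced: `Ψ j (act b (ν * h, 1)) = Φ (j + 2) (b.1 (ν (h s))) …`, `BalS` with the point
`h s`. -/
theorem perf1_of_perf0 (h : AD S q D₀ de τ) {p r : ℕ} (hp : Nat.Coprime p q)
    (hr : Nat.Coprime r q) (hP : Perf0 q D₀ τ de p r) : Perf1 q D₀ τ de p r := by
  classical
  obtain ⟨t, t', x, x', k, k', ζ, c, Φ, ht, ht', hk, hk', hζ, hc, hbal, hmain⟩ := hP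
  have hq := h.hq
  have hde := h.hde
  obtain ⟨n₀, hn₀, hc₀⟩ := solve_mod (m := q) (by omega) hp (k + t 0) de
  obtain ⟨n₁, hn₁, hc₁⟩ := solve_mod (m := q) (by omega) hr ((r * n₀ + k' + t' 0) / q + t' 1) de
  obtain ⟨X₀, hX₀⟩ : ∃ X₀, X₀ = n₀ + q * n₁ := ⟨_, rfl⟩
  have hX₀q : X₀ < q ^ 2 := by
    have h1 : q * n₁ ≤ q * (q - 1) := Nat.mul_le_mul_left _ (by omega)
    have h2 : q * (q - 1) + q = q ^ 2 := by
      rw [Nat.mul_sub_one, Nat.sub_add_cancel (Nat.le_mul_of_pos_right _ (by omega)), sq]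
    omega
  obtain ⟨P, hPd⟩ : ∃ P, P = p * X₀ + k + tt q t 0 2 := ⟨_, rfl⟩
  obtain ⟨R, hRd⟩ : ∃ R, R = r * X₀ + k' + tt q t' 0 2 := ⟨_, rfl⟩
  have hPq : P % q = de := by
    have e : P = (p * n₀ + (k + t 0)) + q * (p * n₁ + t 1) := by
      rw [hPd, hX₀, nf_tt2]
      ring
    rw [e, Nat.add_mul_mod_self_left]
    exact Nat.mod_eq_of_modEq hc₀ hde
  have hRq : R / q % q = de := by
    have e : R = (r * n₀ + k' + t' 0) + q * (r * n₁ + t' 1) := by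
      rw [hRd, hX₀, nf_tt2]
      ring
    rw [e, Nat.add_mul_div_left _ _ (by omega)]
    have e2 : (r * n₀ + k' + t' 0) / q + (r * n₁ + t' 1) =
        r * n₁ + ((r * n₀ + k' + t' 0) / q + t' 1) := by ring
    rw [e2]
    exact Nat.mod_eq_of_modEq hc₁ hde
  have htwP : tw q τ 2 P x = τ (P / q % q) (τ de x) := by
    show τ (P / q % q) (τ (P % q) x) = _
    rw [hPq]
  have htwR : tw q τ 2 R x' = τ de (τ (R % q) x') := by
    show τ (R / q % q) (τ (R % q) x') = _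
    rw [hRq]
  obtain ⟨s, hs⟩ : ∃ s : RR τ de, s = ⟨τ de x, h.hidem x⟩ := ⟨_, rfl⟩
  obtain ⟨s', hs'⟩ : ∃ s' : RR τ de, s' = ⟨τ de (τ (R % q) x'), h.hidem _⟩ := ⟨_, rfl⟩
  have hζ0 : ζ ≠ 0 := by
    intro h0
    rw [h0, norm_zero] at hζ
    exact zero_ne_one hζ
  refine ⟨fun j => t (j + 2), fun j => t' (j + 2),
    (fun y => τ (P / q % q) y, fun y => (y : S), P / q ^ 2, R / q ^ 2), ζ ^ (q ^ 2),
    c * (ζ ^ X₀)⁻¹, fun j b => Φ (j + 2) (b.1 s) (b.2.1 s') b.2.2.1 b.2.2.2,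
    fun j => ht _, fun j => ht' _, ⟨⟨P / q % q, Nat.mod_lt _ (by omega), fun _ => rfl⟩,
      IsT_incl h, ?_, ?_⟩, ?_, ?_, ?_, ?_⟩
  · show P / q ^ 2 ≤ p
    rw [hPd]
    exact nf_carry ht hk hX₀q
  · show R / q ^ 2 ≤ r
    rw [hRd]
    exact nf_carry ht' hk' hX₀q
  · rw [norm_pow, hζ, one_pow]
  · rw [norm_mul, norm_inv, norm_pow, hζ, one_pow, inv_one, mul_one, hc]
  · intro j b π hb
    exact hbal (j + 2) (b.2.1 s') b.2.2.1 b.2.2.2 b.1 hb (π s)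
  · intro j X hX
    have hn : X₀ + q ^ 2 * X < q ^ (j + 2) := by
      have h1 : q ^ 2 * X ≤ q ^ 2 * (q ^ j - 1) := Nat.mul_le_mul_left _ (by omega)
      have h2 : q ^ 2 * (q ^ j - 1) + q ^ 2 = q ^ (j + 2) := by
        rw [Nat.mul_sub_one, Nat.sub_add_cancel (Nat.le_mul_of_pos_right _ (by omega)), ← pow_add,
          add_comm]
      omega
    have hm := hmain (j + 2) (X₀ + q ^ 2 * X) hn
    rw [nf_num, nf_num, ← hPd, ← hRd, nf_tw hq, nf_tw hq, nf_div hq, nf_div hq, htwP, htwR,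
      pow_add, pow_mul] at hm
    have e1 : p * X + P / q ^ 2 + tt q (fun i => t (i + 2)) 0 j =
        P / q ^ 2 + (p * X + tt q (fun i => t (i + 2)) 0 j) := by ring
    have e2 : r * X + R / q ^ 2 + tt q (fun i => t' (i + 2)) 0 j =
        R / q ^ 2 + (r * X + tt q (fun i => t' (i + 2)) 0 j) := by ring
    show (ζ ^ q ^ 2) ^ X * Φ (j + 2)
      (tw q τ j (p * X + P / q ^ 2 + tt q (fun i => t (i + 2)) 0 j) (τ (P / q % q) (s : S)))
      (tw q τ j (r * X + R / q ^ 2 + tt q (fun i => t' (i + 2)) 0 j) (s' : S))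
      ((p * X + P / q ^ 2 + tt q (fun i => t (i + 2)) 0 j) / q ^ j)
      ((r * X + R / q ^ 2 + tt q (fun i => t' (i + 2)) 0 j) / q ^ j) = c * (ζ ^ X₀)⁻¹
    rw [e1, e2, hs, hs']
    have hz : ζ ^ X₀ ≠ 0 := pow_ne_zero _ hζ0
    rw [eq_mul_inv_iff_mul_eq₀ hz, ← hm]
    ring

end Pool.Agent.Lib.MP_3e612f_nt.LV
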