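import Pool.Agent.Lib.MP_3e612f_nt.LV.AuRel
import Pool.Agent.Lib.MP_3e612f_nt.LV.AuCyc

/-!
A period of the relation.
-/

set_option autoImplicit false

namespace Pool.Agent.Lib.MP_3e612f_nt.LV

open Finset

variable {S : Type} [Fintype S] [DecidableEq S] {q D₀ de : ℕ} {τ : ℕ → S → S}

/-- a period gives `NN ≤ N`. PROOF. Let `c₀ ∈ HH` be the constant of `hR`. `K = HH ⧸ (N.subgroupOf HH)` (a normal
subgroup by `hN'`), `D l Z` = class of `lp τ de (fun s => tw q τ l Z s) ∈ HH` (`lp_mem`, `IsT_tw`, `IsT_incl`), `c` = class of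
`c₀`. `au_cyc`: `h0`: `lp_incl`; `h1`: `hR` with `l`, `(Z : ℤ)`; `h2`: `lp_core` for `fun s => s`; `h3`: `exists_lp`, `tw_one`,
`d % q = d`; `hdvd`: `Nat.card K ∣ Nat.card HH` (`Subgroup.card_quotient_dvd_card`), `card_HH_dvd`, `h.hdiv`. So for
`d < q`, `D₀ ∣ d`: `lp τ de (fun s => τ d s) ∈ N`. An element of `NN` is of this form (`mem_NN`, `lp_apply`,
`Equiv.ext`). -/
theorem NN_le_of_rel (h : AD S q D₀ de τ) {N : Subgroup (Equiv.Perm (RR τ de))}
    (hN : N ≤ HH q τ de) (hN' : ∀ g ∈ HH q τ de, ∀ ν ∈ N, g * ν * g⁻¹ ∈ N) {I : ℕ} (hI : 1 ≤ I)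
    (hR : Rel q τ de N (fun s => (s : S)) 0 (fun s => (s : S)) (I : ℤ)) :
    NN q D₀ τ de ≤ N := by
  obtain ⟨c₀, hc₀, H⟩ := hR
  have hT : ∀ l Z : ℕ, IsT q τ de (fun s : RR τ de => tw q τ l Z (s : S)) :=
    fun l Z => IsT_tw h (IsT_incl h) l Z
  have hnorm : (N.subgroupOf (HH q τ de)).Normal := by
    constructor
    rintro ⟨n, hn⟩ hn2 ⟨g, hg⟩
    rw [Subgroup.mem_subgroupOf] at hn2 ⊢
    exact hN' g hg n hn2
  let D : ℕ → ℕ → (HH q τ de) ⧸ (N.subgroupOf (HH q τ de)) := fun l Z =>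
    QuotientGroup.mk ⟨lp τ de (fun s => tw q τ l Z (s : S)), lp_mem h (hT l Z)⟩
  have hone : ∀ d, d < q → (fun s : RR τ de => tw q τ 1 d (s : S)) = fun s : RR τ de => τ d (s : S) := by
    intro d hd
    funext s
    rw [tw_one, Nat.mod_eq_of_lt hd]
  have hfin : Finite ((HH q τ de) ⧸ (N.subgroupOf (HH q τ de))) := inferInstance
  have key := au_cyc (K := (HH q τ de) ⧸ (N.subgroupOf (HH q τ de))) (I := I) (D₀ := D₀) h.hq
    h.hde hI h.hde0 D (QuotientGroup.mk ⟨c₀, hc₀⟩) ?_ ?_ ?_ ?_ ?_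
  · intro π hπ
    obtain ⟨d, hd, hd0, hd2⟩ := (mem_NN h π).1 hπ
    have h1 := key d hd hd0
    have h2 := (QuotientGroup.eq_one_iff _).1 h1
    rw [Subgroup.mem_subgroupOf] at h2
    have h3 : π = lp τ de (fun s => tw q τ 1 d (s : S)) := by
      apply Equiv.ext
      intro s
      apply Subtype.ext
      rw [lp_apply h (hT 1 d), hd2, tw_one, Nat.mod_eq_of_lt hd]
    rw [h3]
    exact h2
  · have h1 : lp τ de (fun s => tw q τ 0 0 (s : S)) = 1 := lp_incl h
    change (QuotientGroup.mk _ : (HH q τ de) ⧸ (N.subgroupOf (HH q τ de))) = 1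
    rw [QuotientGroup.eq_one_iff, Subgroup.mem_subgroupOf]
    change lp τ de (fun s => tw q τ 0 0 (s : S)) ∈ N
    rw [h1]
    exact N.one_mem
  · intro l Z hZ
    change (QuotientGroup.mk _ : (HH q τ de) ⧸ (N.subgroupOf (HH q τ de))) =
      QuotientGroup.mk _ * QuotientGroup.mk _
    rw [← QuotientGroup.mk_mul, eq_comm, QuotientGroup.eq, Subgroup.mem_subgroupOf]
    have h1 := H l (Z : ℤ) (by positivity) (by rw [add_zero]; exact_mod_cast (by omega))
      (by positivity) (by exact_mod_cast hZ)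
    have e1 : ((Z : ℤ) + 0).toNat = Z := by simp
    have e2 : ((Z : ℤ) + (I : ℤ)).toNat = Z + I := by
      rw [← Nat.cast_add, Int.toNat_natCast]
    rw [e1, e2] at h1
    change (lp τ de (fun s => tw q τ l Z (s : S)) * c₀)⁻¹ *
      lp τ de (fun s => tw q τ l (Z + I) (s : S)) ∈ N
    rw [mul_inv_rev, mul_assoc]
    exact h1
  · intro l s Z w hZ hw
    change (QuotientGroup.mk _ : (HH q τ de) ⧸ (N.subgroupOf (HH q τ de))) =
      QuotientGroup.mk _ * QuotientGroup.mk _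
    rw [← QuotientGroup.mk_mul]
    congr 1
    apply Subtype.ext
    exact lp_core h (IsT_incl h) hZ s w
  · intro x
    induction x using QuotientGroup.induction_on with
    | H x =>
      obtain ⟨π, hπ⟩ := x
      obtain ⟨d, hd, hd2⟩ := exists_lp h hπ
      refine ⟨d, hd, ?_⟩
      change (QuotientGroup.mk _ : (HH q τ de) ⧸ (N.subgroupOf (HH q τ de))) = QuotientGroup.mk _
      congr 1
      apply Subtype.ext
      change lp τ de (fun s => tw q τ 1 d (s : S)) = π
      rw [hone d hd, hd2]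
  · intro m hm hmq
    apply h.hdiv m _ hmq
    exact (hm.trans (Subgroup.card_quotient_dvd_card _)).trans (card_HH_dvd τ de q)

/-- there are at most `q` maps `IsT`. PROOF. `Fin q → {z // IsT z}`, `d ↦ τ d` restricted, is surjective. -/
theorem card_IsT (h : AD S q D₀ de τ) : Nat.card {z : RR τ de → S // IsT q τ de z} ≤ q := by
  classical
  have hsurj : Function.Surjective (fun d : Fin q =>
      (⟨fun s : RR τ de => τ d (s : S), ⟨d, d.2, fun _ => rfl⟩⟩ : {z : RR τ de → S // IsT q τ de z})) := by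
    rintro ⟨z, d, hd, hz⟩
    refine ⟨⟨d, hd⟩, ?_⟩
    apply Subtype.ext
    funext s
    exact (hz s).symm
  have := Nat.card_le_card_of_surjective _ hsurj
  simpa using this

end Pool.Agent.Lib.MP_3e612f_nt.LV
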