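import Pool.Agent.Lib.MP_3e612f_nt.LV.AuStep

/-!
The algebraic structure given by a perfect correlation.
-/

set_option autoImplicit false

namespace Pool.Agent.Lib.MP_3e612f_nt.LV

open Finset

variable {S : Type} [Fintype S] [DecidableEq S] {q D₀ de : ℕ} {τ : ℕ → S → S}

/-- the data: a state `b`, a group `Γ` with a character `χ`, a set `P` of states such that all strings which end with
`W K` lead from a state `a ∈ P` to `act b u`, `u ∈ Γ`, with the phase `ω a * φ K * χ u` -/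
structure Pack (q : ℕ) (τ : ℕ → S → S) (de p r : ℕ) (t t' : ℕ → ℕ) (ζ : ℂ) (b : ST τ de)
    (Γ : Subgroup (Equiv.Perm (RR τ de) × Equiv.Perm (RR τ de)))
    (χ : Equiv.Perm (RR τ de) × Equiv.Perm (RR τ de) → ℂ) (P : Set (ST τ de)) (ω : ST τ de → ℂ)
    (m : ℕ) (𝒦 : Set ℕ) (φ : ℕ → ℂ) (W : ℕ → ℕ) : Prop where
  ht : ∀ j, t j < q
  ht' : ∀ j, t' j < q
  hζ : ζ ≠ 0
  hb : Val q τ de p r b
  hΓ : ∀ u ∈ Γ, u.1 ∈ HH q τ de ∧ u.2 ∈ HH q τ de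
  hχ : ∀ u ∈ Γ, ∀ v ∈ Γ, χ (u * v) = χ u * χ v
  hχ0 : ∀ u ∈ Γ, χ u ≠ 0
  hP : ∀ a ∈ P, Val q τ de p r a
  hω : ∀ a, ω a ≠ 0
  hφ : ∀ K, φ K ≠ 0
  hK : ∀ K ∈ 𝒦, m ≤ K
  hKu : ∀ n, ∃ K ∈ 𝒦, n ≤ K
  hW : ∀ K ∈ 𝒦, W K < q ^ m
  G2 : ∀ a ∈ P, ∀ K ∈ 𝒦, ∀ X < q ^ (K - m), ∃ u ∈ Γ,
    step q τ de p r t t' 0 K (X + q ^ (K - m) * W K) a = act b u ∧
      ζ ^ (X + q ^ (K - m) * W K) = ω a * φ K * χ u
  G3 : ∀ g ∈ HH q τ de, ∃ g', (g, g') ∈ Γ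
  G3' : ∀ g ∈ HH q τ de, ∃ g', (g', g) ∈ Γ
  G4 : ∀ z, IsT q τ de z → ∀ ρ : ℕ, ∃ a ∈ P, a.1 = z ∧ a.2.2.1 ≡ ρ [MOD p]
  G4' : ∀ z, IsT q τ de z → ∀ ρ : ℕ, ∃ a ∈ P, a.2.1 = z ∧ a.2.2.2 ≡ ρ [MOD r]

/-- the elements of the first factor with trivial character -/
def N1 {τ : ℕ → S → S} {de : ℕ} (Γ : Subgroup (Equiv.Perm (RR τ de) × Equiv.Perm (RR τ de)))
    (χ : Equiv.Perm (RR τ de) × Equiv.Perm (RR τ de) → ℂ) : Subgroup (Equiv.Perm (RR τ de)) :=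
  Subgroup.closure {ν | (ν, 1) ∈ Γ ∧ χ (ν, 1) = 1}

/-- the elements of the second factor with trivial character -/
def N2 {τ : ℕ → S → S} {de : ℕ} (Γ : Subgroup (Equiv.Perm (RR τ de) × Equiv.Perm (RR τ de)))
    (χ : Equiv.Perm (RR τ de) × Equiv.Perm (RR τ de) → ℂ) : Subgroup (Equiv.Perm (RR τ de)) :=
  Subgroup.closure {ν | (1, ν) ∈ Γ ∧ χ (1, ν) = 1}

variable {p r : ℕ} {t t' : ℕ → ℕ} {ζ : ℂ} {b : ST τ de}
  {Γ : Subgroup (Equiv.Perm (RR τ de) × Equiv.Perm (RR τ de))}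
  {χ : Equiv.Perm (RR τ de) × Equiv.Perm (RR τ de) → ℂ} {P : Set (ST τ de)} {ω : ST τ de → ℂ}
  {m : ℕ} {𝒦 : Set ℕ} {φ : ℕ → ℂ} {W : ℕ → ℕ}

private theorem h21_one (hP : Pack q τ de p r t t' ζ b Γ χ P ω m 𝒦 φ W) : χ 1 = 1 := by
  have h := hP.hχ 1 Γ.one_mem 1 Γ.one_mem
  rw [mul_one] at h
  exact mul_left_cancel₀ (hP.hχ0 1 Γ.one_mem) (by rw [mul_one]; exact h.symm)

private theorem h21_inv (hP : Pack q τ de p r t t' ζ b Γ χ P ω m 𝒦 φ W)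
    {u : Equiv.Perm (RR τ de) × Equiv.Perm (RR τ de)} (hu : u ∈ Γ) : χ u * χ u⁻¹ = 1 := by
  rw [← hP.hχ u hu u⁻¹ (Γ.inv_mem hu), mul_inv_cancel, h21_one hP]

/-- PROOF. `χ 1 = χ 1 * χ 1 ≠ 0`, so `χ 1 = 1`; the set is closed under products and inverses. -/
theorem mem_N1 (hP : Pack q τ de p r t t' ζ b Γ χ P ω m 𝒦 φ W) (ν : Equiv.Perm (RR τ de)) :
    ν ∈ N1 Γ χ ↔ (ν, 1) ∈ Γ ∧ χ (ν, 1) = 1 := by
  constructor
  · intro hν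
    unfold N1 at hν
    induction hν using Subgroup.closure_induction with
    | mem x hx => exact hx
    | one => exact ⟨Γ.one_mem, h21_one hP⟩
    | mul x y _ _ hx hy =>
      have e : ((x * y, 1) : Equiv.Perm (RR τ de) × Equiv.Perm (RR τ de)) = (x, 1) * (y, 1) := by
        simp
      rw [e]
      exact ⟨Γ.mul_mem hx.1 hy.1, by rw [hP.hχ _ hx.1 _ hy.1, hx.2, hy.2, mul_one]⟩
    | inv x _ hx =>
      have e : ((x⁻¹, 1) : Equiv.Perm (RR τ de) × Equiv.Perm (RR τ de)) = (x, 1)⁻¹ := by simp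
      rw [e]
      refine ⟨Γ.inv_mem hx.1, ?_⟩
      have := h21_inv hP hx.1
      rwa [hx.2, one_mul] at this
  · intro hν
    exact Subgroup.subset_closure hν

theorem mem_N2 (hP : Pack q τ de p r t t' ζ b Γ χ P ω m 𝒦 φ W) (ν : Equiv.Perm (RR τ de)) :
    ν ∈ N2 Γ χ ↔ (1, ν) ∈ Γ ∧ χ (1, ν) = 1 := by
  constructor
  · intro hν
    unfold N2 at hν
    induction hν using Subgroup.closure_induction with
    | mem x hx => exact hx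
    | one => exact ⟨Γ.one_mem, h21_one hP⟩
    | mul x y _ _ hx hy =>
      have e : ((1, x * y) : Equiv.Perm (RR τ de) × Equiv.Perm (RR τ de)) = (1, x) * (1, y) := by
        simp
      rw [e]
      exact ⟨Γ.mul_mem hx.1 hy.1, by rw [hP.hχ _ hx.1 _ hy.1, hx.2, hy.2, mul_one]⟩
    | inv x _ hx =>
      have e : ((1, x⁻¹) : Equiv.Perm (RR τ de) × Equiv.Perm (RR τ de)) = (1, x)⁻¹ := by simp
      rw [e]
      refine ⟨Γ.inv_mem hx.1, ?_⟩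
      have := h21_inv hP hx.1
      rwa [hx.2, one_mul] at this
  · intro hν
    exact Subgroup.subset_closure hν

theorem N1_le (hP : Pack q τ de p r t t' ζ b Γ χ P ω m 𝒦 φ W) : N1 Γ χ ≤ HH q τ de := by
  intro ν hν
  exact (hP.hΓ _ ((mem_N1 hP ν).1 hν).1).1

theorem N2_le (hP : Pack q τ de p r t t' ζ b Γ χ P ω m 𝒦 φ W) : N2 Γ χ ≤ HH q τ de := by
  intro ν hν
  exact (hP.hΓ _ ((mem_N2 hP ν).1 hν).1).2

/-- PROOF. Choose `(g, g') ∈ Γ` (`G3`) and conjugate `(ν, 1)` by it. -/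
theorem N1_conj (hP : Pack q τ de p r t t' ζ b Γ χ P ω m 𝒦 φ W) {g ν : Equiv.Perm (RR τ de)}
    (hg : g ∈ HH q τ de) (hν : ν ∈ N1 Γ χ) : g * ν * g⁻¹ ∈ N1 Γ χ := by
  obtain ⟨g', hg'⟩ := hP.G3 g hg
  rw [mem_N1 hP] at hν ⊢
  have e : ((g * ν * g⁻¹, 1) : Equiv.Perm (RR τ de) × Equiv.Perm (RR τ de)) =
      (g, g') * (ν, 1) * (g, g')⁻¹ := by simp
  rw [e]
  have h1 := Γ.mul_mem hg' hν.1
  have h2 := Γ.inv_mem hg'
  refine ⟨Γ.mul_mem h1 h2, ?_⟩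
  rw [hP.hχ _ h1 _ h2, hP.hχ _ hg' _ hν.1, hν.2, mul_one, h21_inv hP hg']

theorem N2_conj (hP : Pack q τ de p r t t' ζ b Γ χ P ω m 𝒦 φ W) {g ν : Equiv.Perm (RR τ de)}
    (hg : g ∈ HH q τ de) (hν : ν ∈ N2 Γ χ) : g * ν * g⁻¹ ∈ N2 Γ χ := by
  obtain ⟨g', hg'⟩ := hP.G3' g hg
  rw [mem_N2 hP] at hν ⊢
  have e : ((1, g * ν * g⁻¹) : Equiv.Perm (RR τ de) × Equiv.Perm (RR τ de)) =
      (g', g) * (1, ν) * (g', g)⁻¹ := by simp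
  rw [e]
  have h1 := Γ.mul_mem hg' hν.1
  have h2 := Γ.inv_mem hg'
  refine ⟨Γ.mul_mem h1 h2, ?_⟩
  rw [hP.hχ _ h1 _ h2, hP.hχ _ hg' _ hν.1, hν.2, mul_one, h21_inv hP hg']

/-- exchange of the two components of a state -/
def swp {τ : ℕ → S → S} {de : ℕ} (a : ST τ de) : ST τ de := (a.2.1, a.1, a.2.2.2, a.2.2.1)

/-- exchange of the two components of `Γ` -/
def swG {τ : ℕ → S → S} {de : ℕ} (Γ : Subgroup (Equiv.Perm (RR τ de) × Equiv.Perm (RR τ de))) :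
    Subgroup (Equiv.Perm (RR τ de) × Equiv.Perm (RR τ de)) :=
  Γ.comap (MulEquiv.prodComm).toMonoidHom

/-- **symmetry**. PROOF. All conditions are symmetric; `swp (step … a) = step … (swp a)` with `t, t'` and `p, r`
exchanged, `swp (act a u) = act (swp a) u.swap` (both by `rfl`). -/
theorem Pack.swap (hP : Pack q τ de p r t t' ζ b Γ χ P ω m 𝒦 φ W) :
    Pack q τ de r p t' t ζ (swp b) (swG Γ) (fun u => χ u.swap) {a | swp a ∈ P}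
      (fun a => ω (swp a)) m 𝒦 φ W := by
  constructor
  · exact hP.ht'
  · exact hP.ht
  · exact hP.hζ
  · exact ⟨hP.hb.2.1, hP.hb.1, hP.hb.2.2.2, hP.hb.2.2.1⟩
  · intro u hu
    exact ⟨(hP.hΓ _ hu).2, (hP.hΓ _ hu).1⟩
  · intro u hu v hv
    exact hP.hχ _ hu _ hv
  · intro u hu
    exact hP.hχ0 _ hu
  · intro a ha
    have h := hP.hP _ ha
    exact ⟨h.2.1, h.1, h.2.2.2, h.2.2.1⟩
  · intro a
    exact hP.hω _
  · exact hP.hφ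
  · exact hP.hK
  · exact hP.hKu
  · exact hP.hW
  · intro a ha K hK X hX
    obtain ⟨u, hu, h1, h2⟩ := hP.G2 _ ha K hK X hX
    refine ⟨u.swap, hu, ?_, h2⟩
    have h3 := congrArg swp h1
    exact h3
  · intro g hg
    obtain ⟨g', hg'⟩ := hP.G3' g hg
    exact ⟨g', hg'⟩
  · intro g hg
    obtain ⟨g', hg'⟩ := hP.G3 g hg
    exact ⟨g', hg'⟩
  · intro z hz ρ
    obtain ⟨a, h1, h2, h3⟩ := hP.G4' z hz ρ
    exact ⟨swp a, h1, h2, h3⟩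
  · intro z hz ρ
    obtain ⟨a, h1, h2, h3⟩ := hP.G4 z hz ρ
    exact ⟨swp a, h1, h2, h3⟩

theorem N1_swG (Γ : Subgroup (Equiv.Perm (RR τ de) × Equiv.Perm (RR τ de)))
    (χ : Equiv.Perm (RR τ de) × Equiv.Perm (RR τ de) → ℂ) :
    N1 (swG Γ) (fun u => χ u.swap) = N2 Γ χ := by
  rfl

theorem N2_swG (Γ : Subgroup (Equiv.Perm (RR τ de) × Equiv.Perm (RR τ de)))
    (χ : Equiv.Perm (RR τ de) × Equiv.Perm (RR τ de) → ℂ) :
    N2 (swG Γ) (fun u => χ u.swap) = N1 Γ χ := by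
  rfl

end Pool.Agent.Lib.MP_3e612f_nt.LV
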