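import Pool.Agent.Lib.MP_3e612f_nt.LV.AuGrpB
import Pool.Agent.Lib.MP_3e612f_nt.LV.AuTt

/-!
Independence of the transformation and of the residue modulo a prime `p > q`.
-/

set_option autoImplicit false

namespace Pool.Agent.Lib.MP_3e612f_nt.LV

open Finset

variable {S : Type} [Fintype S] [DecidableEq S] {q D₀ de : ℕ} {τ : ℕ → S → S}

private theorem udx_lt {q a b U V : ℕ} (hU : U < q ^ a) (hV : V < q ^ b) :
    U + q ^ a * V < q ^ (a + b) := by
  calc U + q ^ a * V < q ^ a + q ^ a * V := by omega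
    _ = q ^ a * (V + 1) := by ring
    _ ≤ q ^ a * q ^ b := Nat.mul_le_mul_left _ hV
    _ = q ^ (a + b) := (pow_add q a b).symm

private theorem udx_one {q d : ℕ} (τ : ℕ → S → S) (hd : d < q) (s : S) : tw q τ 1 d s = τ d s := by
  rw [tw_one, Nat.mod_eq_of_lt hd]

private theorem udx_idem (h : AD S q D₀ de τ) (n : ℕ) :
    ∃ E < q ^ (n + 1), ∀ s, tw q τ (n + 1) E s = τ de s := by
  induction n with
  | zero => exact ⟨de, by simpa using h.hde, fun s => udx_one τ h.hde s⟩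
  | succ n ih =>
    obtain ⟨E, hE, h1⟩ := ih
    refine ⟨E + q ^ (n + 1) * de, udx_lt hE (by simpa using h.hde), fun s => ?_⟩
    rw [tw_cat τ 1 hE, h1, udx_one τ h.hde, h.hidem]

private theorem udx_cop {p q : ℕ} (hq : 2 ≤ q) (hp : p.Prime) (hpq : q < p) : Nat.Coprime p q :=
  (Nat.Prime.coprime_iff_not_dvd hp).mpr (fun hd => by
    have := Nat.le_of_dvd (by omega) hd
    omega)

/-- two different numbers less than `p` with the same transformation. PROOF. Let `q ^ m ≥ p`, `m ≥ 1`. By `tw_T` every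
`tw q τ m F`, `F < p`, is `τ d` for some `d < q`: pigeonhole (`q < p`). -/
theorem two_strings (h : AD S q D₀ de τ) {p : ℕ} (hp : q < p) {m : ℕ} (hm : p ≤ q ^ m)
    (hm1 : 1 ≤ m) : ∃ F F' : ℕ, F < F' ∧ F' < p ∧ ∀ s, tw q τ m F s = tw q τ m F' s := by
  have hd : ∀ F : Fin p, ∃ d < q, ∀ s, tw q τ m F s = τ d s := by
    intro F
    obtain ⟨d, hd, -, h2⟩ := tw_T h hm1 (lt_of_lt_of_le F.2 hm)
    exact ⟨d, hd, h2⟩
  choose d hd1 hd2 using hd
  obtain ⟨F, F', hne, he⟩ := Fintype.exists_ne_map_eq_of_card_lt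
    (fun F : Fin p => (⟨d F, hd1 F⟩ : Fin q)) (by simpa using hp)
  have he' : d F = d F' := congrArg Fin.val he
  rcases lt_or_gt_of_ne (fun hh => hne (Fin.ext hh) : (F : ℕ) ≠ F') with hlt | hlt
  · exact ⟨F, F', hlt, F'.2, fun s => by rw [hd2, hd2, he']⟩
  · exact ⟨F', F, hlt, F.2, fun s => by rw [hd2, hd2, he']⟩

/-- blocks with a fixed transformation and all residues. PROOF. Let `w` be a multiple of the order of `q` modulo `p`
(`w = (p - 1) * p` or `φ(p) * p`), so `q ^ w ≡ 1 [MOD p]` and `q ^ w ≥ 2 ^ w ≥ p`; `two_strings` with `m = w`. A string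
of `p - 1` blocks of length `w`, each `F` or `F'`, has the transformation `(tw q τ w F)^[p - 1]` and the residue
`(p - 1) * F + c * (F' - F)`, `c` = number of blocks `F'`, `0 ≤ c ≤ p - 1`; `F' - F` is invertible modulo `p`. Formally:
induction over the number `n` of blocks: for every `c ≤ n` there is `Z < q ^ (w * n)` with
`Z ≡ n * F + c * (F' - F) [MOD p]` and `tw q τ (w * n) Z s = (tw q τ w F)^[n] s` (`tw_cat`). -/
theorem blocks_UD (h : AD S q D₀ de τ) {p : ℕ} (hp : p.Prime) (hpq : q < p) :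
    ∃ (l : ℕ) (f : S → S), (∃ Z₀ < q ^ l, ∀ s, tw q τ l Z₀ s = f s) ∧
      ∀ ρ : ℕ, ∃ Z < q ^ l, Z ≡ ρ [MOD p] ∧ ∀ s, tw q τ l Z s = f s := by
  have hq := h.hq
  have hp2 := hp.two_le
  set w := (p - 1) * p with hw
  have hwp : p ≤ w := Nat.le_mul_of_pos_left p (by omega)
  have hqw : p ≤ q ^ w := by
    calc p ≤ w := hwp
      _ ≤ 2 ^ w := Nat.lt_two_pow_self.le
      _ ≤ q ^ w := Nat.pow_le_pow_left hq w
  have hq1 : q ^ w ≡ 1 [MOD p] := by
    have h1 : q ^ (p - 1) ≡ 1 [MOD p] := by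
      have h2 := Nat.ModEq.pow_totient (udx_cop hq hp hpq).symm
      rwa [Nat.totient_prime hp] at h2
    rw [hw, pow_mul]
    simpa using h1.pow p
  obtain ⟨F, F', hFF, hF', hT⟩ := two_strings h hpq hqw (by omega)
  have key : ∀ n, ∀ c ≤ n, ∃ Z < q ^ (w * n), Z ≡ n * F + c * (F' - F) [MOD p] ∧
      ∀ s, tw q τ (w * n) Z s = (tw q τ w F)^[n] s := by
    intro n
    induction n with
    | zero =>
      intro c hc
      refine ⟨0, by simp, ?_, fun s => ?_⟩
      · have : c = 0 := by omega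
        subst this
        simp
        rfl
      · simp [tw]
    | succ n ih =>
      have hap : ∀ G, G < q ^ w → (∀ s, tw q τ w G s = tw q τ w F s) → ∀ c ≤ n,
          ∃ Z < q ^ (w * (n + 1)), Z ≡ n * F + c * (F' - F) + G [MOD p] ∧
            ∀ s, tw q τ (w * (n + 1)) Z s = (tw q τ w F)^[n + 1] s := by
        intro G hG hGT c hc
        obtain ⟨Z, hZ, hZ2, hZ3⟩ := ih c hc
        refine ⟨Z + q ^ (w * n) * G, ?_, ?_, fun s => ?_⟩
        · rw [Nat.mul_succ]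
          exact udx_lt hZ hG
        · have h1 : q ^ (w * n) ≡ 1 [MOD p] := by
            rw [pow_mul]
            simpa using hq1.pow n
          have h2 : q ^ (w * n) * G ≡ G [MOD p] := by simpa using h1.mul_right G
          exact hZ2.add h2
        · rw [Nat.mul_succ, tw_cat τ w hZ, hGT, hZ3, Function.iterate_succ_apply']
      intro c hc
      by_cases hcn : c ≤ n
      · obtain ⟨Z, h1, h2, h3⟩ := hap F (by omega) (fun s => rfl) c hcn
        refine ⟨Z, h1, ?_, h3⟩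
        have e : (n + 1) * F + c * (F' - F) = n * F + c * (F' - F) + F := by ring
        rw [e]
        exact h2
      · obtain ⟨Z, h1, h2, h3⟩ := hap F' (by omega) (fun s => (hT s).symm) n le_rfl
        refine ⟨Z, h1, ?_, h3⟩
        have hc1 : c = n + 1 := by omega
        subst hc1
        have e : (n + 1) * F + (n + 1) * (F' - F) = n * F + n * (F' - F) + F' := by
          have e1 : F' = F + (F' - F) := by omega
          calc (n + 1) * F + (n + 1) * (F' - F) = n * F + n * (F' - F) + (F + (F' - F)) := by ring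
            _ = _ := by rw [← e1]
        rw [e]
        exact h2
  refine ⟨w * (p - 1), (tw q τ w F)^[p - 1], ?_, fun ρ => ?_⟩
  · obtain ⟨Z, h1, -, h3⟩ := key (p - 1) 0 (by omega)
    exact ⟨Z, h1, h3⟩
  · have hcop : Nat.Coprime (F' - F) p :=
      ((Nat.Prime.coprime_iff_not_dvd hp).mpr (fun hd => by
        have := Nat.le_of_dvd (by omega) hd
        omega)).symm
    obtain ⟨X, hX, hX2⟩ := solve_mod (by omega) hcop ((p - 1) * F) ρ
    obtain ⟨Z, h1, h2, h3⟩ := key (p - 1) X (by omega)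
    refine ⟨Z, h1, h2.trans ?_, h3⟩
    rw [Nat.add_comm, Nat.mul_comm X]
    exact hX2

/-- **independence**. PROOF. `l, f` from `blocks_UD`, `l₀ = l + 4`. Given `z, z'` and a length `l + 3 + n`, `n ≥ 1`, let
`π = lp τ de (fun s => f (z s)) ∈ HH` (`IsT` by `IsT_tw` with the string `Z₀`), `d₁` a digit with
`lp τ de (fun s => τ d₁ s) = π⁻¹` (`exists_lp`), `z' = τ d₂` on `RR`. The string: a block `Z` of `blocks_UD`, then the
digits `de, d₁`, then `n` digits `de`, then `d₂`. Its transformation of `z s` is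
`τ d₂ (τ de … (τ d₁ (τ de (f (z s)))))`: `τ de (f (z s)) = π s` (`lp_apply`), `τ de (τ d₁ (π s)) = (π⁻¹ * π) s = s`, the
other `de` fix the points of `RR`, `τ d₂ s = z' s`. The number is `Z + q ^ l * W` with a `W < q ^ (n + 3)` which does
not depend on `Z`; choose `Z ≡ ρ - q ^ l * W` modulo `p` (for instance `Z ≡ ρ + (p - 1) * (q ^ l * W)`). -/
theorem UD (h : AD S q D₀ de τ) {p : ℕ} (hp : p.Prime) (hpq : q < p) :
    ∃ l₀ : ℕ, ∀ l ≥ l₀, ∀ z z' : RR τ de → S, IsT q τ de z → IsT q τ de z' → ∀ ρ : ℕ,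
      ∃ Z < q ^ l, Z ≡ ρ [MOD p] ∧ ∀ s, tw q τ l Z (z s) = z' s := by
  have hp2 := hp.two_le
  obtain ⟨l, f, ⟨Z₀, hZ₀, hf⟩, hbl⟩ := blocks_UD h hp hpq
  refine ⟨l + 4, fun L hL z z' hz hz' ρ => ?_⟩
  obtain ⟨n, rfl⟩ : ∃ n, L = l + (2 + (n + 1) + 1) := ⟨L - l - 4, by omega⟩
  obtain ⟨d₂, hd₂, hz'd⟩ := hz'
  have hfz : (fun s => f (z s)) = fun s => tw q τ l Z₀ (z s) := by
    funext s
    rw [hf]
  have hT : IsT q τ de (fun s => f (z s)) := by
    rw [hfz]
    exact IsT_tw h hz l Z₀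
  set π := lp τ de (fun s => f (z s)) with hπ
  obtain ⟨d₁, hd₁, hd₁π⟩ := exists_lp h ((HH q τ de).inv_mem (lp_mem h hT))
  obtain ⟨E, hE, hEs⟩ := udx_idem h n
  have hU1 : de < q ^ 1 := by simpa using h.hde
  have hU2 : de + q ^ 1 * d₁ < q ^ (1 + 1) := udx_lt hU1 (by simpa using hd₁)
  have hU3 : de + q ^ 1 * d₁ + q ^ (1 + 1) * E < q ^ (1 + 1 + (n + 1)) := udx_lt hU2 hE
  set W := de + q ^ 1 * d₁ + q ^ (1 + 1) * E + q ^ (1 + 1 + (n + 1)) * d₂ with hW
  have hU4 : W < q ^ (1 + 1 + (n + 1) + 1) := udx_lt hU3 (by simpa using hd₂)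
  have hWs : ∀ s, tw q τ (1 + 1 + (n + 1) + 1) W s = τ d₂ (τ de (τ d₁ (τ de s))) := by
    intro s
    rw [hW, tw_cat τ 1 hU3, udx_one τ hd₂, tw_cat τ (n + 1) hU2, hEs, tw_cat τ 1 hU1,
      udx_one τ hd₁, udx_one τ h.hde]
  obtain ⟨Z, hZ, hZρ, hZf⟩ := hbl (ρ + (p - 1) * (q ^ l * W))
  refine ⟨Z + q ^ l * W, udx_lt hZ hU4, ?_, fun s => ?_⟩
  · have h1 : Z + q ^ l * W ≡ ρ + (p - 1) * (q ^ l * W) + q ^ l * W [MOD p] := hZρ.add_right _
    have e : ρ + (p - 1) * (q ^ l * W) + q ^ l * W = ρ + p * (q ^ l * W) := by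
      have e1 : p = (p - 1) + 1 := by omega
      calc ρ + (p - 1) * (q ^ l * W) + q ^ l * W = ρ + ((p - 1) + 1) * (q ^ l * W) := by ring
        _ = _ := by rw [← e1]
    rw [e] at h1
    refine h1.trans ?_
    have h2 : p * (q ^ l * W) ≡ 0 [MOD p] := (Nat.modEq_zero_iff_dvd.2 (Dvd.intro _ rfl))
    simpa using h2.add_left ρ
  · have e2 : l + (2 + (n + 1) + 1) = l + (1 + 1 + (n + 1) + 1) := rfl
    rw [e2, tw_cat τ _ hZ, hWs, hZf]
    have h1 : τ de (f (z s)) = (π s : S) := (lp_apply h hT s).symm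
    have hT1 : IsT q τ de (fun s : RR τ de => τ d₁ s) := ⟨d₁, hd₁, fun s => rfl⟩
    have h2 : τ de (τ d₁ (π s : S)) = ((π⁻¹ (π s) : RR τ de) : S) := by
      rw [← hd₁π]
      exact (lp_apply h hT1 (π s)).symm
    have h3 : π⁻¹ (π s) = s := π.symm_apply_apply s
    rw [h1, h2, h3, hz'd]

/-- **reaching every map with every carry modulo `p`**. PROOF. Let `l₀` be that of `UD`. Given the data let `ρ' : ℕ` with
`ρ' + q ^ L * ρ ≡ c [MOD p]` (for instance `ρ' = c + (p - 1) * (q ^ L * ρ)`) and `Z < q ^ L` from `UD` with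
`Z ≡ ρ'`, `tw q τ L Z (z s) = z' s`; `solve_mod` gives `X < q ^ L` with `p * X + c ≡ Z [MOD q ^ L]` (`p` is coprime to
`q ^ L`: a prime larger than `q`). Then `p * X + c = Z + q ^ L * κ`, `κ = (p * X + c) / q ^ L` (`Z < q ^ L`), so
`q ^ L * κ ≡ c - Z ≡ q ^ L * ρ` modulo `p`, cancel `q ^ L`. `tw_congr`. -/
theorem reach (h : AD S q D₀ de τ) {p : ℕ} (hp : p.Prime) (hpq : q < p) :
    ∃ l₀ : ℕ, ∀ L ≥ l₀, ∀ z z' : RR τ de → S, IsT q τ de z → IsT q τ de z' → ∀ c ρ : ℕ,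
      ∃ X < q ^ L, (∀ s, tw q τ L (p * X + c) (z s) = z' s) ∧ (p * X + c) / q ^ L ≡ ρ [MOD p] := by
  have hp2 := hp.two_le
  have hq := h.hq
  obtain ⟨l₀, hl₀⟩ := UD h hp hpq
  refine ⟨l₀, fun L hL z z' hz hz' c ρ => ?_⟩
  have hQ : 0 < q ^ L := Nat.pow_pos (by omega)
  obtain ⟨Z, hZ, hZρ, hZs⟩ := hl₀ L hL z z' hz hz' (c + (p - 1) * (q ^ L * ρ))
  have hcop : Nat.Coprime p (q ^ L) := (udx_cop hq hp hpq).pow_right L
  obtain ⟨X, hX, hX2⟩ := solve_mod hQ hcop c Z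
  refine ⟨X, hX, fun s => ?_, ?_⟩
  · rw [tw_congr τ hX2, hZs]
  · have h1 : (p * X + c) % q ^ L = Z := by
      have h2 : (p * X + c) % q ^ L = Z % q ^ L := hX2
      rw [h2, Nat.mod_eq_of_lt hZ]
    set κ := (p * X + c) / q ^ L with hκ
    have h3 : q ^ L * κ + Z = p * X + c := by
      have := Nat.div_add_mod (p * X + c) (q ^ L)
      rwa [h1, ← hκ] at this
    have h4 : Z + q ^ L * ρ ≡ c [MOD p] := by
      refine (hZρ.add_right (q ^ L * ρ)).trans ?_
      have e : c + (p - 1) * (q ^ L * ρ) + q ^ L * ρ = c + p * (q ^ L * ρ) := by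
        have e1 : p = (p - 1) + 1 := by omega
        calc c + (p - 1) * (q ^ L * ρ) + q ^ L * ρ = c + ((p - 1) + 1) * (q ^ L * ρ) := by ring
          _ = _ := by rw [← e1]
      rw [e]
      have h2 : p * (q ^ L * ρ) ≡ 0 [MOD p] := (Nat.modEq_zero_iff_dvd.2 (Dvd.intro _ rfl))
      simpa using h2.add_left c
    have h5 : Z + q ^ L * κ ≡ c [MOD p] := by
      rw [Nat.add_comm, h3]
      have h2 : p * X ≡ 0 [MOD p] := (Nat.modEq_zero_iff_dvd.2 (Dvd.intro _ rfl))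
      simpa using h2.add_right c
    have h6 : q ^ L * κ ≡ q ^ L * ρ [MOD p] := Nat.ModEq.add_left_cancel' Z (h5.trans h4.symm)
    exact Nat.ModEq.cancel_left_of_coprime hcop h6

end Pool.Agent.Lib.MP_3e612f_nt.LV
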