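import Pool.Agent.Lib.MP_3e612f_nt.LV.AuPhase
import Pool.Agent.Lib.MP_3e612f_nt.LV.AuChar
import Pool.Agent.Lib.MP_3e612f_nt.LV.AuPack
import Pool.Agent.Lib.MP_3e612f_nt.LV.AuUD
import Pool.Agent.Lib.MP_3e612f_nt.LV.AuNF

/-!
A perfect correlation gives the structure `Pack`.
-/

set_option autoImplicit false

namespace Pool.Agent.Lib.MP_3e612f_nt.LV

open Finset

variable {S : Type} [Fintype S] [DecidableEq S] {q D₀ de : ℕ} {τ : ℕ → S → S}

/-- **a perfect correlation gives the structure `Pack`**. PROOF. Data `t, t', a₀, ζ, c, Ψ` of `Perf1`; `l₀` = maximum of the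
two numbers of `reach` for `p` and `r`; `levels`; `phase_at` at the levels `i` and `j` gives `f` and `g`; `exists_Gam`
gives `Γ`; `exists_char` gives `χ, φ`. The structure at the level `j`: `t̃ n = t (j + n)`, `t̃' n = t' (j + n)`,
`ζ̃ = ζ ^ q ^ j`, `P = {a | (b, a) ∈ B}` (admissible by `Val_step`), for `a ∈ P` choose `X_a < q ^ (j - i)` with
`step i (j - i) X_a b = a` (from `BB i j = B`) and put `ω a = ((ζ ^ q ^ i) ^ X_a)⁻¹`, `ω a = 1` for the other `a`;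
`𝒦̃ = {K | j + K ∈ 𝒦}`, `φ̃ K = φ (j + K)`, `W̃ K = W (j + K)`. `G2`: `end_TypeB` from the level `j` to `j + K` gives
`step j K (X + q ^ (K - m) * W̃ K) a = act b u`, `u ∈ HH × HH` (`step_shift` with `j + 0` rewrites it with the shifted
digits at the level `0`); with `X_a` in front (`BB_trans`) `(b, act b u) ∈ BB i (j + K) = B`, so `u ∈ Γ`, and
`f (j + K) u = (ζ ^ q ^ i) ^ X_a * ζ̃ ^ (X + …)`. `G3, G3'`: `proj_fst`, `proj_snd`. `G4, G4'`: `reach_fst`, `reach_snd`.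
If `NN ≤ N1 Γ χ` then by `mem_N1` `f j (ν, 1) = φ j` for all `ν ∈ NN`, a contradiction to the last statement of
`phase_at` (level `i`, `K = j`). -/
theorem exists_pack (h : AD S q D₀ de τ) {p r : ℕ} (hp : p.Prime) (hr : r.Prime) (hqp : q < p)
    (hqr : q < r) (hP : Perf1 q D₀ τ de p r) :
    ∃ (t t' : ℕ → ℕ) (ζ : ℂ) (b : ST τ de)
      (Γ : Subgroup (Equiv.Perm (RR τ de) × Equiv.Perm (RR τ de)))
      (χ : Equiv.Perm (RR τ de) × Equiv.Perm (RR τ de) → ℂ) (P : Set (ST τ de)) (ω : ST τ de → ℂ)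
      (m : ℕ) (𝒦 : Set ℕ) (φ : ℕ → ℂ) (W : ℕ → ℕ),
      Pack q τ de p r t t' ζ b Γ χ P ω m 𝒦 φ W ∧ ¬ NN q D₀ τ de ≤ N1 Γ χ := by
  classical
  obtain ⟨t, t', a₀, ζ, c, Ψ, ht, ht', ha₀, hζ, hc, hbal, hΨ⟩ := hP
  obtain ⟨l₁, hl₁⟩ := reach h hp hqp
  obtain ⟨l₂, hl₂⟩ := reach h hr hqr
  have hq2 : 2 ≤ q := h.hq
  have hpc : Nat.Coprime p q :=
    (Nat.Prime.coprime_iff_not_dvd hp).2 fun hd => absurd (Nat.le_of_dvd (by omega) hd) (by omega)
  have hrc : Nat.Coprime r q :=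
    (Nat.Prime.coprime_iff_not_dvd hr).2 fun hd => absurd (Nat.le_of_dvd (by omega) hd) (by omega)
  obtain ⟨m, b, B, i, j, 𝒦, W, hL⟩ := levels h hpc hrc ht ht' (max l₁ l₂)
  obtain ⟨f, hf, hfn⟩ := phase_at h ht ht' hL.hb hL.hi ha₀ hζ hc hΨ hbal
  obtain ⟨g, hg, -⟩ := phase_at h ht ht' hL.hb hL.hj ha₀ hζ hc hΨ hbal
  obtain ⟨Γ, hΓ⟩ := exists_Gam h ht ht' hL
  obtain ⟨χ, φ, hφ, hχ0, hχ, hfj, hfK⟩ := exists_char h hL hΓ hζ hf hg
  have hζ0 : ζ ≠ 0 := by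
    intro h0
    rw [h0, norm_zero] at hζ
    exact zero_ne_one hζ
  have hij : i ≤ j := by
    have h1 := hL.hij
    omega
  -- the strings to the states of `P`
  have hex : ∀ a : ST τ de, (b, a) ∈ B →
      ∃ X, X < q ^ (j - i) ∧ step q τ de p r t t' i (j - i) X b = a := by
    intro a ha
    rw [← hL.hB] at ha
    obtain ⟨-, X, hX, hX'⟩ := ha
    exact ⟨X, hX, hX'⟩
  choose! Xc hXc hXs using hex
  have hmaxp : ∀ L ≥ max l₁ l₂, ∀ z z' : RR τ de → S, IsT q τ de z → IsT q τ de z' → ∀ c ρ : ℕ,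
      ∃ X < q ^ L, (∀ s, tw q τ L (p * X + c) (z s) = z' s) ∧ (p * X + c) / q ^ L ≡ ρ [MOD p] :=
    fun L hLL => hl₁ L (le_trans (le_max_left _ _) hLL)
  have hmaxr : ∀ L ≥ max l₁ l₂, ∀ z z' : RR τ de → S, IsT q τ de z → IsT q τ de z' → ∀ c ρ : ℕ,
      ∃ X < q ^ L, (∀ s, tw q τ L (r * X + c) (z s) = z' s) ∧ (r * X + c) / q ^ L ≡ ρ [MOD r] :=
    fun L hLL => hl₂ L (le_trans (le_max_right _ _) hLL)
  have hValP : ∀ a : ST τ de, (b, a) ∈ B → Val q τ de p r a := by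
    intro a ha
    have h1 := Val_step h ht ht' (hXc a ha) (i := i) hL.hb
    rwa [hXs a ha] at h1
  have hPack : Pack q τ de p r (fun n => t (j + n)) (fun n => t' (j + n)) (ζ ^ q ^ j) b Γ χ
      {a | (b, a) ∈ B} (fun a => ((ζ ^ q ^ i) ^ Xc a)⁻¹) m {K | j + K ∈ 𝒦}
      (fun K => φ (j + K)) (fun K => W (j + K)) := by
    refine
      { ht := fun n => ht _
        ht' := fun n => ht' _
        hζ := pow_ne_zero _ hζ0
        hb := hL.hb
        hΓ := fun u hu => ⟨((hΓ u).1 hu).1, ((hΓ u).1 hu).2.1⟩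
        hχ := hχ
        hχ0 := hχ0
        hP := fun a ha => hValP a ha
        hω := fun a => inv_ne_zero (pow_ne_zero _ (pow_ne_zero _ hζ0))
        hφ := fun K => hφ _
        hK := fun K hK => ?_
        hKu := fun n => ?_
        hW := fun K hK => ?_
        G2 := ?_
        G3 := ?_
        G3' := ?_
        G4 := ?_
        G4' := ?_ }
    · have h1 := (hL.hK _ hK).1
      omega
    · obtain ⟨K', hK', hn⟩ := hL.hKu (j + n)
      refine ⟨K' - j, ?_, by omega⟩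
      show j + (K' - j) ∈ 𝒦
      rwa [show j + (K' - j) = K' by omega]
    · exact ((hL.hK _ hK).2.2.2).2.1
    · intro a ha K hK X hX
      have hK' := hL.hK _ hK
      have hT := hK'.2.2.2
      have e1 : j + K - j = K := by omega
      have h1 := end_TypeB h ht ht' hT (i := j) hK'.1 (X := X)
        (by rw [e1]; exact hX) (hValP a ha)
      rw [e1] at h1
      obtain ⟨hlt, u, hu1, hu2, hu⟩ := h1
      have h2 := BB_trans (p := p) (r := r) (t := t) (t' := t') h hij (show j ≤ j + K by omega)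
        (hXc a ha) (Y := X + q ^ (K - m) * W (j + K)) (by rw [e1]; exact hlt) b
      rw [e1, hXs a ha, hu] at h2
      have hB' : (b, act b u) ∈ B := by
        rw [← hK'.2.1]
        exact ⟨hL.hb, _, h2.1, h2.2⟩
      have huΓ : u ∈ Γ := (hΓ u).2 ⟨hu1, hu2, hB'⟩
      refine ⟨u, huΓ, ?_, ?_⟩
      · have h3 := step_shift (q := q) (τ := τ) (de := de) p r t t' j 0 K
          (X + q ^ (K - m) * W (j + K)) a
        rw [← h3, Nat.add_zero]
        exact hu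
      · have h3 := hf (j + K) (by omega) _ h2.1 u h2.2
        have h5 : (ζ ^ q ^ i) ^ q ^ (j - i) = ζ ^ q ^ j := by
          rw [← pow_mul, ← pow_add, show i + (j - i) = j by omega]
        rw [hfK _ hK u huΓ, pow_add, pow_mul (ζ ^ q ^ i) (q ^ (j - i)), h5] at h3
        have h4 : (ζ ^ q ^ i) ^ Xc a ≠ 0 := pow_ne_zero _ (pow_ne_zero _ hζ0)
        rw [mul_assoc, ← h3, inv_mul_cancel_left₀ h4]
    · intro g₀ hg₀
      obtain ⟨g', hg', hB⟩ := proj_fst h hp.two_le ht ht' hL hmaxp g₀ hg₀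
      exact ⟨g', (hΓ _).2 ⟨hg₀, hg', hB⟩⟩
    · intro g₀ hg₀
      obtain ⟨g', hg', hB⟩ := proj_snd h hr.two_le ht ht' hL hmaxr g₀ hg₀
      exact ⟨g', (hΓ _).2 ⟨hg', hg₀, hB⟩⟩
    · intro z hz ρ
      exact reach_fst h hL hmaxp z hz ρ
    · intro z hz ρ
      exact reach_snd h hL hmaxr z hz ρ
  refine ⟨_, _, _, _, _, _, _, _, _, _, _, _, hPack, fun hle => ?_⟩
  refine hfn j (φ j) (hφ j) fun ν hν => ?_
  have h1 := (mem_N1 hPack ν).1 (hle hν)
  rw [hfj _ h1.1, h1.2, mul_one]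

end Pool.Agent.Lib.MP_3e612f_nt.LV
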