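import Pool.Agent.Lib.MP_3e612f_nt.LV.AuTransf
import Pool.Agent.Lib.MP_3e612f_nt.LV.AuPk
import Pool.Agent.Lib.MP_3e612f_nt.LV.AuPer
import Pool.Agent.Lib.MP_3e612f_nt.LV.AuCount

/-!
There is no perfect correlation along two different primes larger than the base.
-/

set_option autoImplicit false

namespace Pool.Agent.Lib.MP_3e612f_nt.LV

open Finset

variable {S : Type} [Fintype S] [DecidableEq S] {q D₀ de : ℕ} {τ : ℕ → S → S}

/-- **no perfect correlation**. PROOF. `exists_pack`. `Y = {z // IsT q τ de z}` (finite), `E₁ α β = Rel q τ de (N1 Γ χ) α.1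
α.2 β.1 β.2`, `E₂` with `N2 Γ χ` (`Rel_refl`, `Rel_symm`, `Rel_trans`, `Rel_shift`, `N1_conj`, `N2_conj`);
`I α β = ∃ a ∈ P, ∃ n : ℤ, a.1 = α.1 ∧ a.2.1 = β.1 ∧ α.2 = a.2.2.1 + p * n ∧ β.2 = a.2.2.2 + r * n`. `tot1`: `G4` with the
residue `ρ = (α.2 % p).toNat`, then `p ∣ α.2 - a.2.2.1`. `tot2`: `G4'`. `comp`: for `a, n, a', n'` translate by `- p * n'` and
by `- r * n'` (`Rel_shift`) and use `transfer_iff` with `n - n'`. `eqv`: `n + 1`. `card Y ≤ q < r` (`card_IsT`).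
`au_count` for `y = fun s => s` (`IsT_incl`) gives a period, `NN_le_of_rel` gives `NN ≤ N1 Γ χ`, a contradiction. -/
theorem no_perf1 (h : AD S q D₀ de τ) {p r : ℕ} (hp : p.Prime) (hr : r.Prime) (hqp : q < p)
    (hqr : q < r) (hpr : p ≠ r) : ¬ Perf1 q D₀ τ de p r := by
  classical
  intro hP
  have hq2 := h.hq
  have hpq : Nat.Coprime p q := by
    rw [Nat.Prime.coprime_iff_not_dvd hp]
    exact fun h1 => absurd (Nat.le_of_dvd (by omega) h1) (by omega)
  have hrq : Nat.Coprime r q := by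
    rw [Nat.Prime.coprime_iff_not_dvd hr]
    exact fun h1 => absurd (Nat.le_of_dvd (by omega) h1) (by omega)
  obtain ⟨t, t', ζ, b, Γ, χ, P, ω, m, 𝒦, φ, W, hPk, hNN⟩ := exists_pack h hp hr hqp hqr hP
  apply hNN
  have : Fintype {z : RR τ de → S // IsT q τ de z} := Fintype.ofFinite _
  have hY : Fintype.card {z : RR τ de → S // IsT q τ de z} < r := by
    rw [← Nat.card_eq_fintype_card]
    exact lt_of_le_of_lt (card_IsT h) hqr
  have hcong : ∀ {a b : ℕ} {x : ℤ} {N : ℕ}, (x % N).toNat = a → 0 < N → b ≡ a [MOD N] →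
      ∃ n : ℤ, x = b + N * n := by
    intro a b x N ha hN hb
    have h1 : ((x % N).toNat : ℤ) = x % N := Int.toNat_of_nonneg (Int.emod_nonneg _ (by omega))
    have h2 : (b : ℤ) ≡ x [ZMOD N] := by
      have h3 : ((b : ℕ) : ℤ) ≡ ((a : ℕ) : ℤ) [ZMOD N] := (Int.natCast_modEq_iff).2 hb
      refine h3.trans ?_
      rw [← ha, h1]
      exact Int.mod_modEq x N
    obtain ⟨n, hn⟩ := h2.dvd
    exact ⟨n, by linarith⟩
  obtain ⟨n, hn1, hn⟩ := au_count (Y := {z : RR τ de → S // IsT q τ de z}) hp hr hpr hY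
    (fun α β => Rel q τ de (N1 Γ χ) α.1.1 α.2 β.1.1 β.2)
    (fun α β => Rel q τ de (N2 Γ χ) α.1.1 α.2 β.1.1 β.2)
    ⟨fun α => Rel_refl _ _ _, fun hR => Rel_symm (fun g hg ν hν => N1_conj hPk hg hν) hR,
      fun {α β γ} h1 h2 => Rel_trans h (fun g hg ν hν => N1_conj hPk hg hν) α.1.2 β.1.2 γ.1.2 h1 h2⟩
    ⟨fun α => Rel_refl _ _ _, fun hR => Rel_symm (fun g hg ν hν => N2_conj hPk hg hν) hR,
      fun {α β γ} h1 h2 => Rel_trans h (fun g hg ν hν => N2_conj hPk hg hν) α.1.2 β.1.2 γ.1.2 h1 h2⟩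
    (fun α β x hR => Rel_shift x hR) (fun α β x hR => Rel_shift x hR)
    (fun α β => ∃ a ∈ P, ∃ n : ℤ, a.1 = α.1.1 ∧ a.2.1 = β.1.1 ∧ α.2 = a.2.2.1 + p * n ∧
      β.2 = a.2.2.2 + r * n)
    (fun α => by
      obtain ⟨a, ha, ha1, ha2⟩ := hPk.G4 α.1.1 α.1.2 (α.2 % p).toNat
      obtain ⟨n, hn⟩ := hcong rfl hp.pos ha2
      exact ⟨(⟨a.2.1, (hPk.hP a ha).2.1⟩, a.2.2.2 + r * n), a, ha, n, ha1, rfl, hn, rfl⟩)
    (fun β => by
      obtain ⟨a, ha, ha1, ha2⟩ := hPk.G4' β.1.1 β.1.2 (β.2 % r).toNat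
      obtain ⟨n, hn⟩ := hcong rfl hr.pos ha2
      exact ⟨(⟨a.1, (hPk.hP a ha).1⟩, a.2.2.1 + p * n), a, ha, n, rfl, ha1, rfl, hn⟩)
    (fun α β α' β' => by
      rintro ⟨a, ha, n, h1, h2, h3, h4⟩ ⟨a', ha', n', h1', h2', h3', h4'⟩
      have key := transfer_iff h hpq hrq hPk ha ha' (n - n')
      rw [h1, h1', h2, h2'] at key
      constructor
      · intro hR
        have h5 := Rel_shift (-(p * n')) hR
        have h6 : α.2 + -(p * n') = a.2.2.1 + p * (n - n') := by rw [h3]; ring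
        have h7 : α'.2 + -(p * n') = a'.2.2.1 := by rw [h3']; ring
        rw [h6, h7] at h5
        have h8 := Rel_shift (r * n') (key.1 h5)
        have h9 : (a.2.2.2 : ℤ) + r * (n - n') + r * n' = β.2 := by rw [h4]; ring
        have h10 : (a'.2.2.2 : ℤ) + r * n' = β'.2 := h4'.symm
        rw [h9, h10] at h8
        exact h8
      · intro hR
        have h5 := Rel_shift (-(r * n')) hR
        have h6 : β.2 + -(r * n') = a.2.2.2 + r * (n - n') := by rw [h4]; ring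
        have h7 : β'.2 + -(r * n') = a'.2.2.2 := by rw [h4']; ring
        rw [h6, h7] at h5
        have h8 := Rel_shift (p * n') (key.2 h5)
        have h9 : (a.2.2.1 : ℤ) + p * (n - n') + p * n' = α.2 := by rw [h3]; ring
        have h10 : (a'.2.2.1 : ℤ) + p * n' = α'.2 := h3'.symm
        rw [h9, h10] at h8
        exact h8)
    (fun α β => by
      rintro ⟨a, ha, n, h1, h2, h3, h4⟩
      refine ⟨a, ha, n + 1, h1, h2, ?_, ?_⟩
      · show α.2 + p = _
        rw [h3]; ring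
      · show β.2 + r = _
        rw [h4]; ring)
    ⟨fun s => (s : S), IsT_incl h⟩
  exact NN_le_of_rel h (N1_le hPk) (fun g hg ν hν => N1_conj hPk hg hν) hn1 hn

/-- **correlation bound**. PROOF. If `∀ L γ, γ < 1 → ¬ CB … L γ` then `perf0_of_not`, `perf1_of_perf0` (primes larger than
`q` are coprime to `q`) contradict `no_perf1`. So `CB … L γ` for some `L` and `γ < 1`; `CB_small`. -/
theorem au_CB (h : AD S q D₀ de τ) {p r : ℕ} (hp : p.Prime) (hr : r.Prime) (hqp : q < p)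
    (hqr : q < r) (hpr : p ≠ r) {δ : ℝ} (hδ : 0 < δ) :
    ∃ L₀ : ℕ, ∀ L ≥ L₀, CB q D₀ τ de p r L δ := by
  have hq2 := h.hq
  have hpq : Nat.Coprime p q := by
    rw [Nat.Prime.coprime_iff_not_dvd hp]
    exact fun h1 => absurd (Nat.le_of_dvd (by omega) h1) (by omega)
  have hrq : Nat.Coprime r q := by
    rw [Nat.Prime.coprime_iff_not_dvd hr]
    exact fun h1 => absurd (Nat.le_of_dvd (by omega) h1) (by omega)
  by_contra hcon
  have hn : ∀ (L : ℕ) (γ : ℝ), γ < 1 → ¬ CB q D₀ τ de p r L γ := by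
    intro L γ hγ hC
    exact hcon (CB_small h hγ hC hδ)
  exact no_perf1 h hp hr hqp hqr hpr (perf1_of_perf0 h hpq hrq (perf0_of_not h hn))

end Pool.Agent.Lib.MP_3e612f_nt.LV
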