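import Pool.Agent.Lib.MP_3e612f_nt.LV.AuCB
import Pool.Agent.Lib.MP_3e612f_nt.LV.AuUlt

/-!
An almost perfect correlation for every length.
-/

set_option autoImplicit false

namespace Pool.Agent.Lib.MP_3e612f_nt.LV

open Finset Filter Topology
open Pool.Agent.Lib.MP_3e612f_nt.LORT (ev norm_ev)

variable {S : Type} [Fintype S] [DecidableEq S] {q D₀ de : ℕ} {τ : ℕ → S → S}

private theorem bal_zero (q D₀ : ℕ) (τ : ℕ → S → S) (de : ℕ) : BalS q D₀ τ de (fun _ => 0) := by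
  intro w _ s
  simp

/-- the average of numbers close to `c` is close to `c` -/
private theorem mean_near {N : ℕ} (hN : 1 ≤ N) {f : ℕ → ℂ} {c : ℂ} {δ : ℝ}
    (h : ∀ u < N, ‖f u - c‖ ≤ δ) : ‖(∑ u ∈ range N, f u) / (N : ℂ) - c‖ ≤ δ := by
  have hN0 : (N : ℂ) ≠ 0 := by
    rw [Nat.cast_ne_zero]
    omega
  have hNr : (0 : ℝ) < N := by exact_mod_cast hN
  have e : (∑ u ∈ range N, f u) / (N : ℂ) - c = (∑ u ∈ range N, (f u - c)) / (N : ℂ) := by
    rw [Finset.sum_sub_distrib, Finset.sum_const, Finset.card_range, nsmul_eq_mul]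
    field_simp
  rw [e, norm_div, Complex.norm_natCast, div_le_iff₀ hNr]
  calc ‖∑ u ∈ range N, (f u - c)‖ ≤ ∑ u ∈ range N, ‖f u - c‖ := norm_sum_le _ _
    _ ≤ ∑ _u ∈ range N, δ := Finset.sum_le_sum fun u hu => h u (Finset.mem_range.mp hu)
    _ = δ * N := by rw [Finset.sum_const, Finset.card_range, nsmul_eq_mul, mul_comm]

/-- approximate form for one `L`. PROOF. `hn` for `γ = 1 - ε`, `ε = 1 / (2 * q ^ L * (L + 1) ^ 2)`, gives
`θ, t, t', Φ, x, x', k, k'` with a sum larger than `(1 - ε) q ^ L`; `avg_near` gives `c` with all terms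
`w v = ev (θ * v) * Φ (…)` within `1 / (L + 1)` of `c`. For `j ≤ L` put
`Ψ j = aver q τ p r (L - j) (θ * q ^ j) (t / q ^ j) (t' / q ^ j) Φ` (and `Ψ j = 0` for `j > L`); by `aver_step`
(`t = t % q ^ j + q ^ j * (t / q ^ j)`) `ev (θ * n) * Ψ j (…)` is the average of the terms `w (n + q ^ j * u)`,
`u < q ^ (L - j)`, so it is within `1 / (L + 1)` of `c`. `ev (θ * n) = ev θ ^ n`, `ζ = ev θ`. -/
theorem perf_approx (h : AD S q D₀ de τ) {p r : ℕ}
    (hn : ∀ (L : ℕ) (γ : ℝ), γ < 1 → ¬ CB q D₀ τ de p r L γ) (L : ℕ) :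
    ∃ (t t' : ℕ) (x x' : S) (k k' : ℕ) (ζ c : ℂ) (Ψ : ℕ → S → S → ℕ → ℕ → ℂ),
      k ≤ p ∧ k' ≤ r ∧ ‖ζ‖ = 1 ∧ ‖c‖ = 1 ∧
      (∀ j y' i i', BalS q D₀ τ de (fun y => Ψ j y y' i i')) ∧
      (∀ j y y' i i', ‖Ψ j y y' i i'‖ ≤ 1) ∧
      ∀ j ≤ L, ∀ n < q ^ j, ‖ζ ^ n * Ψ j (tw q τ j (p * n + k + t % q ^ j) x)
        (tw q τ j (r * n + k' + t' % q ^ j) x') ((p * n + k + t % q ^ j) / q ^ j)
        ((r * n + k' + t' % q ^ j) / q ^ j) - c‖ ≤ 1 / ((L : ℝ) + 1) := by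
  have hq : 1 ≤ q := by
    have := h.hq
    omega
  have hqr : (1 : ℝ) ≤ q := by exact_mod_cast hq
  obtain ⟨Q, hQdef⟩ : ∃ Q : ℝ, Q = (q : ℝ) ^ L := ⟨_, rfl⟩
  have hQ : 1 ≤ Q := by
    rw [hQdef]
    exact one_le_pow₀ hqr
  have hL0 : (0 : ℝ) ≤ L := Nat.cast_nonneg L
  have hL1 : (1 : ℝ) ≤ (L : ℝ) + 1 := by linarith
  have hL2 : (1 : ℝ) ≤ ((L : ℝ) + 1) ^ 2 := one_le_pow₀ hL1
  obtain ⟨ε, hε⟩ : ∃ ε : ℝ, ε = 1 / (2 * Q * ((L : ℝ) + 1) ^ 2) := ⟨_, rfl⟩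
  have hden : 2 ≤ 2 * Q * ((L : ℝ) + 1) ^ 2 := by nlinarith
  have hε0 : 0 < ε := by
    rw [hε]
    positivity
  have hε1 : ε < 1 := by
    rw [hε, div_lt_one (by linarith)]
    linarith
  have h1 := hn L (1 - ε) (by linarith)
  unfold CB at h1
  push Not at h1
  obtain ⟨θ, t, t', Φ, x, x', k, k', ht, ht', hk, hk', hΦ, hb, hs⟩ := h1
  obtain ⟨w, hw⟩ : ∃ w : ℕ → ℂ, w = fun v : ℕ => ev (θ * v) *
      Φ (tw q τ L (p * v + k + t) x) (tw q τ L (r * v + k' + t') x')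
        ((p * v + k + t) / q ^ L) ((r * v + k' + t') / q ^ L) := ⟨_, rfl⟩
  have hw1 : ∀ v < q ^ L, ‖w v‖ ≤ 1 := by
    intro v _
    rw [hw]
    simp only []
    rw [norm_mul, norm_ev, one_mul]
    exact hΦ _ _ _ _
  have hs' : (1 - ε) * ((q ^ L : ℕ) : ℝ) < ‖∑ v ∈ range (q ^ L), w v‖ := by
    rw [hw]
    push_cast
    exact hs
  obtain ⟨c, hc, hcw⟩ := avg_near hε1 hw1 hs'
  have hcw' : ∀ v < q ^ L, ‖w v - c‖ ≤ 1 / ((L : ℝ) + 1) := by
    intro v hv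
    have h2 := hcw v hv
    have h3 : 2 * ε * ((q ^ L : ℕ) : ℝ) = (1 / ((L : ℝ) + 1)) ^ 2 := by
      rw [hε]
      push_cast
      rw [← hQdef]
      field_simp
    rw [h3] at h2
    exact le_of_sq_le_sq h2 (by positivity)
  refine ⟨t, t', x, x', k, k', ev θ, c, fun j y y' i i' => if j ≤ L then
    aver q τ p r (L - j) (θ * q ^ j) (t / q ^ j) (t' / q ^ j) Φ y y' i i' else 0,
    hk, hk', norm_ev θ, hc, ?_, ?_, ?_⟩
  · intro j y' i i'
    by_cases hj : j ≤ L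
    · simp only [if_pos hj]
      exact aver_bal h p r (L - j) (θ * q ^ j) (t / q ^ j) (t' / q ^ j) hb y' i i'
    · simp only [if_neg hj]
      exact bal_zero q D₀ τ de
  · intro j y y' i i'
    by_cases hj : j ≤ L
    · simp only [if_pos hj]
      exact aver_norm hq p r (L - j) (θ * q ^ j) (t / q ^ j) (t' / q ^ j) hΦ y y' i i'
    · simp only [if_neg hj, norm_zero]
      exact zero_le_one
  · intro j hj n hn'
    simp only [if_pos hj]
    have hqj : 0 < q ^ j := pow_pos (by omega) j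
    have hqM : 1 ≤ q ^ (L - j) := Nat.one_le_pow _ _ (by omega)
    have h4 := aver_step (τ := τ) hq (p := p) (r := r) (L := j) (M := L - j) θ (t / q ^ j)
      (t' / q ^ j) (Nat.mod_lt t hqj) (Nat.mod_lt t' hqj) Φ x x' hk hk' hn'
    rw [Nat.mod_add_div, Nat.mod_add_div, show j + (L - j) = L by omega] at h4
    rw [LORT.ev_pow, mul_comm ((n : ℝ)) θ, h4]
    have h5 : ∀ u < q ^ (L - j), ‖w (n + q ^ j * u) - c‖ ≤ 1 / ((L : ℝ) + 1) := by
      intro u hu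
      apply hcw'
      have h6 : q ^ L = q ^ j * q ^ (L - j) := by
        rw [← pow_add]
        congr 1
        omega
      rw [h6]
      calc n + q ^ j * u < q ^ j + q ^ j * u := by omega
        _ = q ^ j * (u + 1) := by ring
        _ ≤ q ^ j * q ^ (L - j) := Nat.mul_le_mul_left _ hu
    have h7 := mean_near hqM h5
    rw [hw] at h7
    push_cast at h7 ⊢
    exact h7

end Pool.Agent.Lib.MP_3e612f_nt.LV
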