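import Pool.Agent.Lib.MP_3e612f_nt.LV.AuPerf

/-!
If there is no nontrivial correlation bound, then there is a perfect correlation at all scales.
-/

set_option autoImplicit false

namespace Pool.Agent.Lib.MP_3e612f_nt.LV

open Finset Filter Topology
open Pool.Agent.Lib.MP_3e612f_nt.LORT (ev norm_ev)

variable {S : Type} [Fintype S] [DecidableEq S] {q D₀ de : ℕ} {τ : ℕ → S → S}

/-- perfect correlation at all scales -/
def Perf0 (q D₀ : ℕ) (τ : ℕ → S → S) (de p r : ℕ) : Prop :=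
  ∃ (t t' : ℕ → ℕ) (x x' : S) (k k' : ℕ) (ζ c : ℂ) (Φ : ℕ → S → S → ℕ → ℕ → ℂ),
    (∀ j, t j < q) ∧ (∀ j, t' j < q) ∧ k ≤ p ∧ k' ≤ r ∧ ‖ζ‖ = 1 ∧ ‖c‖ = 1 ∧
    (∀ j y' i i', BalS q D₀ τ de (fun y => Φ j y y' i i')) ∧
    ∀ j, ∀ n < q ^ j, ζ ^ n * Φ j (tw q τ j (p * n + k + tt q t 0 j) x)
      (tw q τ j (r * n + k' + tt q t' 0 j) x') ((p * n + k + tt q t 0 j) / q ^ j)
      ((r * n + k' + tt q t' 0 j) / q ^ j) = c

private theorem perf0_dig {q : ℕ} (F : Ultrafilter ℕ) (t T : ℕ → ℕ)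
    (hT : ∀ j, ∀ᶠ L in (F : Filter ℕ), t L / q ^ j % q = T j) (j : ℕ) :
    ∀ᶠ L in (F : Filter ℕ), t L % q ^ j = tt q T 0 j := by
  induction j with
  | zero => exact Eventually.of_forall fun L => by simp [tt, Nat.mod_one]
  | succ j ih =>
    filter_upwards [ih, hT j] with L h1 h2
    rw [Nat.mod_pow_succ, h1, h2]
    unfold tt
    rw [Finset.sum_range_succ, Nat.zero_add, mul_comm (q ^ j)]

/-- **perfect correlation**. PROOF. Choose the data of `perf_approx` for every `L` and take the limit along the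
hyperfilter `F = Filter.hyperfilter ℕ`: `ult_const` for `x L, x' L : S`, `k L : Fin (p + 1)`, `k' L`, and for every `j`
for the digits `t L / q ^ j % q : Fin q` (these eventual values are `t j`, `t' j`); then for every `j`
`t L % q ^ j = tt q t 0 j` for almost all `L` (a finite intersection; `tt` is the sum of the digits times the
powers). `ult_lim` for `ζ L`, `c L` and for all `Ψ L j y y' i i'`; the limits are `ζ, c, Φ j y y' i i'`. For fixed
`j` and `n < q ^ j` the inequality of `perf_approx` holds for all `L ≥ j` (`hyperfilter_le_cofinite`), and the right side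
tends to `0`. The finite sums in `BalS` and the norms pass to the limit. -/
theorem perf0_of_not (h : AD S q D₀ de τ) {p r : ℕ}
    (hn : ∀ (L : ℕ) (γ : ℝ), γ < 1 → ¬ CB q D₀ τ de p r L γ) : Perf0 q D₀ τ de p r := by
  classical
  choose t t' x x' k k' ζ c Ψ hk hk' hζ hc hb hΨ hA using perf_approx h hn
  have hq0 : 0 < q := by have := h.hq; omega
  obtain ⟨F, hF⟩ : ∃ F : Ultrafilter ℕ, (F : Filter ℕ) ≤ atTop :=
    ⟨hyperfilter ℕ, Nat.hyperfilter_le_atTop⟩
  obtain ⟨x0, hx0⟩ := ult_const F x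
  obtain ⟨x0', hx0'⟩ := ult_const F x'
  obtain ⟨k0, hk0⟩ := ult_const F (fun L => (⟨k L, Nat.lt_succ_of_le (hk L)⟩ : Fin (p + 1)))
  obtain ⟨k0', hk0'⟩ := ult_const F (fun L => (⟨k' L, Nat.lt_succ_of_le (hk' L)⟩ : Fin (r + 1)))
  choose T hT using fun j => ult_const F (fun L => (⟨t L / q ^ j % q, Nat.mod_lt _ hq0⟩ : Fin q))
  choose T' hT' using fun j =>
    ult_const F (fun L => (⟨t' L / q ^ j % q, Nat.mod_lt _ hq0⟩ : Fin q))
  obtain ⟨ζ0, hζ0⟩ := ult_lim F (fun n => (hζ n).le)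
  obtain ⟨c0, hc0⟩ := ult_lim F (fun n => (hc n).le)
  choose Φ hΦ using fun j y y' i i' => ult_lim F (fun n => hΨ n j y y' i i')
  have hd := perf0_dig F t (fun j => (T j : ℕ)) (fun j => (hT j).mono fun L hL => congrArg Fin.val hL)
  have hd' := perf0_dig F t' (fun j => (T' j : ℕ))
    (fun j => (hT' j).mono fun L hL => congrArg Fin.val hL)
  refine ⟨fun j => (T j : ℕ), fun j => (T' j : ℕ), x0, x0', k0, k0', ζ0, c0, Φ, fun j => (T j).2,
    fun j => (T' j).2, Nat.lt_succ_iff.1 k0.2, Nat.lt_succ_iff.1 k0'.2, ?_, ?_, ?_, ?_⟩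
  · have h1 := hζ0.norm
    simp only [hζ] at h1
    exact (tendsto_nhds_unique h1 tendsto_const_nhds)
  · have h1 := hc0.norm
    simp only [hc] at h1
    exact (tendsto_nhds_unique h1 tendsto_const_nhds)
  · intro j y' i i' w hw s
    have h1 : Tendsto (fun L => ∑ ν : Equiv.Perm (RR τ de),
        (if ν ∈ NN q D₀ τ de then Ψ L j (w (ν s)) y' i i' else 0)) (F : Filter ℕ)
        (𝓝 (∑ ν : Equiv.Perm (RR τ de),
          (if ν ∈ NN q D₀ τ de then Φ j (w (ν s)) y' i i' else 0))) := by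
      refine tendsto_finset_sum _ fun ν _ => ?_
      split_ifs
      · exact hΦ j _ y' i i'
      · exact tendsto_const_nhds
    have h2 : (fun L => ∑ ν : Equiv.Perm (RR τ de),
        (if ν ∈ NN q D₀ τ de then Ψ L j (w (ν s)) y' i i' else 0)) = fun _ => 0 :=
      funext fun L => hb L j y' i i' w hw s
    rw [h2] at h1
    exact tendsto_nhds_unique h1 tendsto_const_nhds
  · intro j n hnj
    obtain ⟨a, ha⟩ : ∃ a : ℕ, a = tt q (fun j => (T j : ℕ)) 0 j := ⟨_, rfl⟩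
    obtain ⟨a', ha'⟩ : ∃ a' : ℕ, a' = tt q (fun j => (T' j : ℕ)) 0 j := ⟨_, rfl⟩
    rw [← ha, ← ha']
    have h1 : Tendsto (fun L => ‖ζ L ^ n * Ψ L j (tw q τ j (p * n + k0 + a) x0)
        (tw q τ j (r * n + k0' + a') x0') ((p * n + k0 + a) / q ^ j)
        ((r * n + k0' + a') / q ^ j) - c L‖) (F : Filter ℕ)
        (𝓝 ‖ζ0 ^ n * Φ j (tw q τ j (p * n + k0 + a) x0)
        (tw q τ j (r * n + k0' + a') x0') ((p * n + k0 + a) / q ^ j)
        ((r * n + k0' + a') / q ^ j) - c0‖) :=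
      (((hζ0.pow n).mul (hΦ j _ _ _ _)).sub hc0).norm
    have h2 : Tendsto (fun L : ℕ => 1 / ((L : ℝ) + 1)) (F : Filter ℕ) (𝓝 0) :=
      tendsto_one_div_add_atTop_nhds_zero_nat.mono_left hF
    have h3 : ∀ᶠ L in (F : Filter ℕ), ‖ζ L ^ n * Ψ L j (tw q τ j (p * n + k0 + a) x0)
        (tw q τ j (r * n + k0' + a') x0') ((p * n + k0 + a) / q ^ j)
        ((r * n + k0' + a') / q ^ j) - c L‖ ≤ 1 / ((L : ℝ) + 1) := by
      filter_upwards [hx0, hx0', hk0, hk0', hd j, hd' j, hF (eventually_ge_atTop j)] with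
        L e1 e2 e3 e4 e5 e6 e7
      have h4 := hA L j e7 n hnj
      rw [e5, e6, ← ha, ← ha', e1, e2] at h4
      have e3' : k L = (k0 : ℕ) := congrArg Fin.val e3
      have e4' : k' L = (k0' : ℕ) := congrArg Fin.val e4
      rw [e3', e4'] at h4
      exact h4
    have h5 := le_of_tendsto_of_tendsto h1 h2 h3
    exact sub_eq_zero.1 (norm_le_zero_iff.1 h5)

end Pool.Agent.Lib.MP_3e612f_nt.LV
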