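import Pool.Agent.Lib.MP_3e612f_nt.LV.AuGam

/-!
The phases of a perfect correlation.
-/

set_option autoImplicit false

namespace Pool.Agent.Lib.MP_3e612f_nt.LV

open Finset

variable {S : Type} [Fintype S] [DecidableEq S] {q D₀ de : ℕ} {τ : ℕ → S → S}

open Classical in
/-- the phase of a string from `b` to `act b u` is a function of `u`. PROOF. `end_TypeB` (from the level `0` to the level
`K = i`, for `a`, `X = 0`) gives `X₀ < q ^ i` and `h₀` with `step 0 i X₀ a = act b h₀`. Put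
`f K u = c * (ζ ^ X₀ * Ψ K (act b (u * h₀)))⁻¹`. If `step i (K - i) X b = act b u` then by `BB_trans`, `step_act`, `act_act`
`step 0 K (X₀ + q ^ i * X) a = act b (u * h₀)`, so `ζ ^ (X₀ + q ^ i * X) * Ψ K (act b (u * h₀)) = c` (`‖c‖ = 1`, so all
factors are nonzero). For the last statement: `f K (ν, 1) = y ≠ 0` means
`Ψ K (act b ((ν, 1) * h₀)) = c * (ζ ^ X₀ * y)⁻¹`; apply `hbal` to the state `act b (1, h₀.2)` and the permutation `h₀.1`:
`act (act b (1, h₀.2)) (ν * h₀.1, 1) = act b ((ν, 1) * h₀)`. If this holds for all `ν ∈ NN` the sum is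
`|NN| * c * (ζ ^ X₀ * y)⁻¹ ≠ 0` (`1 ∈ NN`), a contradiction. -/
theorem phase_at (h : AD S q D₀ de τ) {p r : ℕ} {t t' : ℕ → ℕ} (ht : ∀ j, t j < q)
    (ht' : ∀ j, t' j < q) {m : ℕ} {b : ST τ de} (hb : Val q τ de p r b) {i W : ℕ}
    (hT : TypeB q τ de p r t t' m b i W) {a : ST τ de} (ha : Val q τ de p r a) {ζ c : ℂ}
    (hζ : ‖ζ‖ = 1) (hc : ‖c‖ = 1) {Ψ : ℕ → ST τ de → ℂ}
    (hΨ : ∀ j, ∀ X < q ^ j, ζ ^ X * Ψ j (step q τ de p r t t' 0 j X a) = c)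
    (hbal : ∀ (j : ℕ) (b : ST τ de) (g : Equiv.Perm (RR τ de)), IsT q τ de b.1 →
      ∑ ν : Equiv.Perm (RR τ de), (if ν ∈ NN q D₀ τ de then Ψ j (act b (ν * g, 1)) else 0) = 0) :
    ∃ f : ℕ → Equiv.Perm (RR τ de) × Equiv.Perm (RR τ de) → ℂ,
      (∀ K, i ≤ K → ∀ X < q ^ (K - i), ∀ u, step q τ de p r t t' i (K - i) X b = act b u →
        (ζ ^ q ^ i) ^ X = f K u) ∧
      ∀ (K : ℕ) (y : ℂ), y ≠ 0 → ¬ ∀ ν ∈ NN q D₀ τ de, f K (ν, 1) = y := by
  have hζ0 : ζ ≠ 0 := fun h0 => by rw [h0, norm_zero] at hζ; exact zero_ne_one hζ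
  have hc0 : c ≠ 0 := fun h0 => by rw [h0, norm_zero] at hc; exact zero_ne_one hc
  have hmi : m ≤ i := hT.1
  have hX00 : 0 < q ^ (i - 0 - m) := Nat.pow_pos (by have := h.hq; omega)
  obtain ⟨hX0, h₀, -, -, hstep⟩ := end_TypeB h ht ht' hT (i := 0) (by omega) hX00 ha
  set X₀ : ℕ := 0 + q ^ (i - 0 - m) * W with hX₀
  refine ⟨fun K u => c * (ζ ^ X₀ * Ψ K (act b (u * h₀)))⁻¹, ?_, ?_⟩
  · intro K hK X hX u hu
    obtain ⟨h1, h2⟩ := BB_trans (q := q) (τ := τ) (de := de) h (p := p) (r := r) (t := t) (t' := t')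
      (Nat.zero_le i) hK hX0 hX a
    rw [hstep, step_act, hu, act_act] at h2
    rw [Nat.sub_zero, Nat.sub_zero] at h1 h2
    have h3 := hΨ K _ h1
    rw [h2, pow_add, pow_mul] at h3
    have h4 : ζ ^ X₀ * Ψ K (act b (u * h₀)) ≠ 0 := by
      intro h5
      apply hc0
      rw [← h3, mul_right_comm, h5, zero_mul]
    show (ζ ^ q ^ i) ^ X = c * (ζ ^ X₀ * Ψ K (act b (u * h₀)))⁻¹
    rw [eq_mul_inv_iff_mul_eq₀ h4, ← h3]
    ring
  · intro K y hy hall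
    have h1 := hbal K (act b (1, h₀.2)) h₀.1 hb.1
    have h2 : ∀ ν ∈ NN q D₀ τ de, Ψ K (act (act b (1, h₀.2)) (ν * h₀.1, 1)) =
        c * (ζ ^ X₀ * y)⁻¹ := by
      intro ν hν
      have h3 : c * (ζ ^ X₀ * Ψ K (act b ((ν, 1) * h₀)))⁻¹ = y := hall ν hν
      have h4 : act (act b (1, h₀.2)) (ν * h₀.1, 1) = act b ((ν, 1) * h₀) := rfl
      rw [h4]
      have h5 : ζ ^ X₀ * Ψ K (act b ((ν, 1) * h₀)) ≠ 0 := by
        intro h6
        rw [h6, inv_zero, mul_zero] at h3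
        exact hy h3.symm
      have h7 : c = y * (ζ ^ X₀ * Ψ K (act b ((ν, 1) * h₀))) := by
        rw [← h3, mul_assoc, inv_mul_cancel₀ h5, mul_one]
      have h8 : ζ ^ X₀ * y ≠ 0 := mul_ne_zero (pow_ne_zero _ hζ0) hy
      rw [eq_mul_inv_iff_mul_eq₀ h8]
      conv_rhs => rw [h7]
      ring
    have h3 : ∑ ν : Equiv.Perm (RR τ de), (if ν ∈ NN q D₀ τ de then
        Ψ K (act (act b (1, h₀.2)) (ν * h₀.1, 1)) else 0) =
        ∑ ν : Equiv.Perm (RR τ de), (if ν ∈ NN q D₀ τ de then c * (ζ ^ X₀ * y)⁻¹ else 0) := by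
      refine sum_congr rfl fun ν _ => ?_
      split_ifs with hν
      · exact h2 ν hν
      · rfl
    rw [h3, sum_ite, sum_const_zero, add_zero, sum_const, nsmul_eq_mul] at h1
    rcases mul_eq_zero.1 h1 with h4 | h4
    · rw [Nat.cast_eq_zero, card_eq_zero] at h4
      have h5 : (1 : Equiv.Perm (RR τ de)) ∈
          (univ.filter fun ν : Equiv.Perm (RR τ de) => ν ∈ NN q D₀ τ de) := by
        rw [mem_filter]
        exact ⟨mem_univ _, Subgroup.one_mem _⟩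
      rw [h4] at h5
      exact absurd h5 (notMem_empty _)
    · exact mul_ne_zero hc0 (inv_ne_zero (mul_ne_zero (pow_ne_zero _ hζ0) hy)) h4

end Pool.Agent.Lib.MP_3e612f_nt.LV
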