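import Pool.Agent.Lib.MP_3e612f_nt.LV.AuGrpB

/-!
The relation `Rel` is an equivalence relation, invariant under translations.
-/

set_option autoImplicit false

namespace Pool.Agent.Lib.MP_3e612f_nt.LV

open Finset

variable {S : Type} [Fintype S] [DecidableEq S] {q D₀ de : ℕ} {τ : ℕ → S → S}

/-- the permutation of a string -/
noncomputable def DD (q : ℕ) (τ : ℕ → S → S) (de l : ℕ) (Z : ℤ) (z : RR τ de → S) :
    Equiv.Perm (RR τ de) :=
  lp τ de fun s => tw q τ l Z.toNat (z s)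

/-- PROOF. The constant `c = 1`. -/
theorem Rel_refl (N : Subgroup (Equiv.Perm (RR τ de))) (z : RR τ de → S) (k : ℤ) :
    Rel q τ de N z k z k := by
  refine ⟨1, (HH q τ de).one_mem, ?_⟩
  intro l Z _ _ _ _
  simp

/-- PROOF. The constant `c⁻¹`: if `x = c * ν` then `x⁻¹ = c⁻¹ * (c * ν⁻¹ * c⁻¹)`. -/
theorem Rel_symm {N : Subgroup (Equiv.Perm (RR τ de))}
    (hN : ∀ g ∈ HH q τ de, ∀ ν ∈ N, g * ν * g⁻¹ ∈ N) {z z' : RR τ de → S} {k k' : ℤ}
    (hR : Rel q τ de N z k z' k') : Rel q τ de N z' k' z k := by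
  obtain ⟨c, hc, H⟩ := hR
  refine ⟨c⁻¹, (HH q τ de).inv_mem hc, ?_⟩
  intro l Z h1 h2 h3 h4
  have h5 := H l Z h3 h4 h1 h2
  have h6 := hN c hc _ (N.inv_mem h5)
  convert h6 using 1
  simp only [mul_inv_rev, inv_inv]
  group

/-- PROOF. Replace `Z` by `Z + x`. -/
theorem Rel_shift {N : Subgroup (Equiv.Perm (RR τ de))} {z z' : RR τ de → S} {k k' : ℤ} (x : ℤ)
    (hR : Rel q τ de N z k z' k') : Rel q τ de N z (k + x) z' (k' + x) := by
  obtain ⟨c, hc, H⟩ := hR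
  refine ⟨c, hc, ?_⟩
  intro l Z h1 h2 h3 h4
  have e1 : Z + (k + x) = Z + x + k := by ring
  have e2 : Z + (k' + x) = Z + x + k' := by ring
  rw [e1] at h1 h2 ⊢
  rw [e2] at h3 h4 ⊢
  exact H l (Z + x) h1 h2 h3 h4

/-- adding upper digits with a core does not change the quotients. PROOF. `lp_core` for `z` with
`Z + k` (as a natural number less than `q ^ l`) and for `z'`; the factor
`lp τ de (fun s => tw q τ m W s)` cancels in `(… * A)⁻¹ * (… * A')`. -/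
theorem DD_core (h : AD S q D₀ de τ) {z z' : RR τ de → S} (hz : IsT q τ de z)
    (hz' : IsT q τ de z') {l : ℕ} {y y' : ℤ} (hy : 0 ≤ y) (hyl : y < q ^ l) (hy' : 0 ≤ y')
    (hyl' : y' < q ^ l) (m W : ℕ) :
    (DD q τ de (l + 1 + m) (y + q ^ l * de + q ^ (l + 1) * W) z)⁻¹ *
        DD q τ de (l + 1 + m) (y' + q ^ l * de + q ^ (l + 1) * W) z' =
      (DD q τ de l y z)⁻¹ * DD q τ de l y' z' := by
  have key : ∀ (x : ℤ), 0 ≤ x → x < (q : ℤ) ^ l → ∀ w : RR τ de → S, IsT q τ de w →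
      DD q τ de (l + 1 + m) (x + q ^ l * de + q ^ (l + 1) * W) w =
        lp τ de (fun s => tw q τ m W (s : S)) * DD q τ de l x w := by
    intro x hx hxl w hw
    have e1 : (x + (q : ℤ) ^ l * de + (q : ℤ) ^ (l + 1) * W).toNat =
        x.toNat + q ^ l * de + q ^ (l + 1) * W := by
      have h0 : x = ((x.toNat : ℕ) : ℤ) := (Int.toNat_of_nonneg hx).symm
      conv_lhs => rw [h0]
      have h1 : ((x.toNat : ℕ) : ℤ) + (q : ℤ) ^ l * de + (q : ℤ) ^ (l + 1) * W =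
          ((x.toNat + q ^ l * de + q ^ (l + 1) * W : ℕ) : ℤ) := by push_cast; ring
      rw [h1, Int.toNat_natCast]
    have e2 : x.toNat < q ^ l := by
      zify
      rw [Int.toNat_of_nonneg hx]
      exact hxl
    unfold DD
    rw [e1]
    exact lp_core h hw e2 m W
  rw [key y hy hyl z hz, key y' hy' hyl' z' hz', mul_inv_rev, mul_assoc, inv_mul_cancel_left]

/-- PROOF. Let `c, c'` be the constants of the two relations; the constant is `c * c'`. Let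
`0 ≤ Z + k < q ^ l`, `0 ≤ Z + k'' < q ^ l`. Choose `m, W` with `W < q ^ m` such that
`Z' = Z + q ^ l * de + q ^ (l + 1) * W` satisfies `0 ≤ Z' + k' < q ^ (l + 1 + m)` (for instance `W = |Z + k'|` and `m` with
`2 * W + 2 < q ^ m`; `|Z + k'| ≤ W * q ^ (l + 1)`). Both relations apply to `l + 1 + m, Z'`; the product of the two
quotients is `D_z(Z' + k)⁻¹ * D_{z''}(Z' + k'')`, which is `D_z(Z + k)⁻¹ * D_{z''}(Z + k'')` by `DD_core`, and
`(c * ν) * (c' * ν') = (c * c') * ((c'⁻¹ * ν * c') * ν')`. -/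
theorem Rel_trans (h : AD S q D₀ de τ) {N : Subgroup (Equiv.Perm (RR τ de))}
    (hN : ∀ g ∈ HH q τ de, ∀ ν ∈ N, g * ν * g⁻¹ ∈ N) {z z' z'' : RR τ de → S}
    (hz : IsT q τ de z) (hz' : IsT q τ de z') (hz'' : IsT q τ de z'') {k k' k'' : ℤ}
    (h1 : Rel q τ de N z k z' k') (h2 : Rel q τ de N z' k' z'' k'') :
    Rel q τ de N z k z'' k'' := by
  obtain ⟨c, hc, H⟩ := h1
  obtain ⟨c', hc', H'⟩ := h2
  refine ⟨c * c', (HH q τ de).mul_mem hc hc', ?_⟩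
  intro l Z a1 a2 a3 a4
  have hq := h.hq
  set W : ℕ := (Z + k').natAbs with hW
  obtain ⟨m, hm⟩ : ∃ m : ℕ, 2 * W + 2 < q ^ m := ⟨2 * W + 2, Nat.lt_pow_self (by omega)⟩
  set Z' : ℤ := Z + (q : ℤ) ^ l * de + (q : ℤ) ^ (l + 1) * W with hZ'
  have hql : (1 : ℤ) ≤ (q : ℤ) ^ l := one_le_pow₀ (by exact_mod_cast (by omega : 1 ≤ q))
  have hql1 : (1 : ℤ) ≤ (q : ℤ) ^ (l + 1) := one_le_pow₀ (by exact_mod_cast (by omega : 1 ≤ q))
  have hde : (de : ℤ) + 1 ≤ q := by exact_mod_cast h.hde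
  have hde0 : (0 : ℤ) ≤ de := by positivity
  have hW0 : (0 : ℤ) ≤ W := by positivity
  have habs : |Z + k'| = W := by rw [hW, Int.natCast_natAbs]
  have hmq : (2 * W + 3 : ℤ) ≤ (q : ℤ) ^ m := by exact_mod_cast hm
  have hpow : (q : ℤ) ^ (l + 1 + m) = (q : ℤ) ^ (l + 1) * (q : ℤ) ^ m := pow_add _ _ _
  have hpow1 : (q : ℤ) ^ (l + 1) = (q : ℤ) ^ l * q := pow_succ _ _
  have hlow : (q : ℤ) ^ l * de ≤ (q : ℤ) ^ (l + 1) - (q : ℤ) ^ l := by
    rw [hpow1]; nlinarith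
  have hlow0 : 0 ≤ (q : ℤ) ^ l * de := by positivity
  have hWq : (W : ℤ) ≤ (q : ℤ) ^ (l + 1) * W := by nlinarith
  have hWq2 : (q : ℤ) ^ (l + 1) * (2 * W + 3) ≤ (q : ℤ) ^ (l + 1 + m) := by
    rw [hpow]; exact mul_le_mul_of_nonneg_left hmq (by positivity)
  have up : ∀ x : ℤ, 0 ≤ x → x < (q : ℤ) ^ l →
      0 ≤ x + (q : ℤ) ^ l * de + (q : ℤ) ^ (l + 1) * W ∧
        x + (q : ℤ) ^ l * de + (q : ℤ) ^ (l + 1) * W < (q : ℤ) ^ (l + 1 + m) := by
    intro x hx hx2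
    constructor
    · nlinarith
    · nlinarith
  have b1 := up _ a1 a2
  have b3 := up _ a3 a4
  have e1 : Z + k + (q : ℤ) ^ l * de + (q : ℤ) ^ (l + 1) * W = Z' + k := by rw [hZ']; ring
  have e3 : Z + k'' + (q : ℤ) ^ l * de + (q : ℤ) ^ (l + 1) * W = Z' + k'' := by rw [hZ']; ring
  rw [e1] at b1
  rw [e3] at b3
  have b2 : 0 ≤ Z' + k' ∧ Z' + k' < (q : ℤ) ^ (l + 1 + m) := by
    have e2 : Z' + k' = (Z + k') + (q : ℤ) ^ l * de + (q : ℤ) ^ (l + 1) * W := by rw [hZ']; ring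
    rw [e2]
    have := abs_le.1 habs.le
    constructor
    · nlinarith
    · nlinarith
  have f1 := H (l + 1 + m) Z' b1.1 b1.2 b2.1 b2.2
  have f2 := H' (l + 1 + m) Z' b2.1 b2.2 b3.1 b3.2
  have g := DD_core h hz hz'' a1 a2 a3 a4 m W
  rw [e1, e3] at g
  change c⁻¹ * ((DD q τ de (l + 1 + m) (Z' + k) z)⁻¹ * DD q τ de (l + 1 + m) (Z' + k') z') ∈ N
    at f1
  change c'⁻¹ * ((DD q τ de (l + 1 + m) (Z' + k') z')⁻¹ *
    DD q τ de (l + 1 + m) (Z' + k'') z'') ∈ N at f2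
  change (c * c')⁻¹ * ((DD q τ de l (Z + k) z)⁻¹ * DD q τ de l (Z + k'') z'') ∈ N
  rw [← g]
  have f3 := hN c'⁻¹ ((HH q τ de).inv_mem hc') _ f1
  have f4 := N.mul_mem f3 f2
  convert f4 using 1
  group

end Pool.Agent.Lib.MP_3e612f_nt.LV
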