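import Pool.Agent.Lib.MP_3e612f_nt.LV.AuGrpB
import Pool.Agent.Lib.MP_3e612f_nt.LV.AuTt

/-!
Properties of `step` and `act`.
-/

set_option autoImplicit false

namespace Pool.Agent.Lib.MP_3e612f_nt.LV

open Finset

variable {S : Type} [Fintype S] [DecidableEq S] {q D₀ de : ℕ} {τ : ℕ → S → S}

private theorem st_num (q p k : ℕ) (t : ℕ → ℕ) (i L M X Y : ℕ) :
    p * (X + q ^ L * Y) + k + tt q t i (L + M) =
      (p * X + k + tt q t i L) + q ^ L * (p * Y + tt q t (i + L) M) := by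
  rw [tt_add]
  ring

private theorem st_div (hq : 1 ≤ q) (p k : ℕ) (t : ℕ → ℕ) (i L M X Y : ℕ) :
    (p * (X + q ^ L * Y) + k + tt q t i (L + M)) / q ^ L =
      p * Y + (p * X + k + tt q t i L) / q ^ L + tt q t (i + L) M := by
  have h0 : 0 < q ^ L := Nat.pow_pos hq
  rw [st_num, Nat.add_mul_div_left _ _ h0]
  ring

private theorem st_tw (hq : 1 ≤ q) (p k : ℕ) (t : ℕ → ℕ) (i L M X Y : ℕ) (s : S) :
    tw q τ (L + M) (p * (X + q ^ L * Y) + k + tt q t i (L + M)) s =
      tw q τ M (p * Y + (p * X + k + tt q t i L) / q ^ L + tt q t (i + L) M)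
        (tw q τ L (p * X + k + tt q t i L) s) := by
  rw [tw_add, st_div hq]
  congr 1
  apply tw_congr
  rw [st_num]
  show (_ + q ^ L * _) % q ^ L = _ % q ^ L
  rw [Nat.add_mul_mod_self_left]

private theorem st_div2 (hq : 1 ≤ q) (p k : ℕ) (t : ℕ → ℕ) (i L M X Y : ℕ) :
    (p * (X + q ^ L * Y) + k + tt q t i (L + M)) / q ^ (L + M) =
      (p * Y + (p * X + k + tt q t i L) / q ^ L + tt q t (i + L) M) / q ^ M := by
  rw [pow_add, ← Nat.div_div_eq_div_mul, st_div hq]

/-- PROOF. `p * (X + q ^ L * Y) + k + tt q t i (L + M) = P + q ^ L * (p * Y + tt q t (i + L) M)` with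
`P = p * X + k + tt q t i L` (`tt_add`); `tw_add`, `tw_congr`, `Nat.add_mul_div_left`. -/
theorem step_add (hq : 1 ≤ q) (p r : ℕ) (t t' : ℕ → ℕ) (i L M X Y : ℕ) (a : ST τ de) :
    step q τ de p r t t' i (L + M) (X + q ^ L * Y) a =
      step q τ de p r t t' (i + L) M Y (step q τ de p r t t' i L X a) := by
  refine Prod.ext (funext fun s => ?_) (Prod.ext (funext fun s => ?_) (Prod.ext ?_ ?_))
  · exact st_tw hq p _ t i L M X Y _
  · exact st_tw hq r _ t' i L M X Y _
  · exact st_div2 hq p _ t i L M X Y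
  · exact st_div2 hq r _ t' i L M X Y

theorem step_zero (p r : ℕ) (t t' : ℕ → ℕ) (i : ℕ) (a : ST τ de) :
    step q τ de p r t t' i 0 0 a = a := by
  refine Prod.ext (funext fun s => ?_) (Prod.ext (funext fun s => ?_) (Prod.ext ?_ ?_))
  · rfl
  · rfl
  · simp [step, tt]
  · simp [step, tt]

/-- shift of the level: the digits are read from `t (i + ·)` -/
theorem step_shift (p r : ℕ) (t t' : ℕ → ℕ) (i j L X : ℕ) (a : ST τ de) :
    step q τ de p r t t' (i + j) L X a =
      step q τ de p r (fun n => t (i + n)) (fun n => t' (i + n)) j L X a := by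
  have h : ∀ t : ℕ → ℕ, tt q t (i + j) L = tt q (fun n => t (i + n)) j L := by
    intro t
    unfold tt
    refine sum_congr rfl fun m _ => ?_
    rw [add_assoc]
  unfold step
  rw [h t, h t']

theorem act_act (a : ST τ de) (u v : Equiv.Perm (RR τ de) × Equiv.Perm (RR τ de)) :
    act (act a u) v = act a (u * v) := by
  rfl

theorem act_one (a : ST τ de) : act a 1 = a := by
  rfl

theorem step_act (p r : ℕ) (t t' : ℕ → ℕ) (i L X : ℕ) (a : ST τ de)
    (u : Equiv.Perm (RR τ de) × Equiv.Perm (RR τ de)) :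
    step q τ de p r t t' i L X (act a u) = act (step q τ de p r t t' i L X a) u := by
  rfl

/-- PROOF. `IsT_tw`; `p * X + k + tt q t i L < (p + 1) * q ^ L` by `tt_lt`. -/
theorem Val_step (h : AD S q D₀ de τ) {p r : ℕ} {t t' : ℕ → ℕ} (ht : ∀ j, t j < q)
    (ht' : ∀ j, t' j < q) {i L X : ℕ} (hX : X < q ^ L) {a : ST τ de} (ha : Val q τ de p r a) :
    Val q τ de p r (step q τ de p r t t' i L X a) := by
  have key : ∀ (p k : ℕ) (t : ℕ → ℕ), (∀ j, t j < q) → k ≤ p →
      (p * X + k + tt q t i L) / q ^ L ≤ p := by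
    intro p k t ht hk
    have h0 : 0 < q ^ L := Nat.pow_pos (by have := h.hq; omega)
    have h1 := tt_lt ht i L
    refine Nat.le_of_lt_succ ?_
    rw [Nat.div_lt_iff_lt_mul h0]
    have h2 : p * (X + 1) ≤ p * q ^ L := Nat.mul_le_mul_left _ hX
    have h3 : (p + 1) * q ^ L = p * q ^ L + q ^ L := by ring
    have h4 : p * (X + 1) = p * X + p := by ring
    rw [h3]
    omega
  exact ⟨IsT_tw h ha.1 _ _, IsT_tw h ha.2.1 _ _, key p _ t ht ha.2.2.1, key r _ t' ht' ha.2.2.2⟩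

/-- PROOF. `IsT_right`. -/
theorem Val_act (h : AD S q D₀ de τ) {p r : ℕ} {a : ST τ de} (ha : Val q τ de p r a)
    {u : Equiv.Perm (RR τ de) × Equiv.Perm (RR τ de)} (h1 : u.1 ∈ HH q τ de)
    (h2 : u.2 ∈ HH q τ de) : Val q τ de p r (act a u) := by
  exact ⟨IsT_right h ha.1 h1, IsT_right h ha.2.1 h2, ha.2.2.1, ha.2.2.2⟩

/-- PROOF. `IsT_inj`. -/
theorem act_free (h : AD S q D₀ de τ) {p r : ℕ} {a : ST τ de} (ha : Val q τ de p r a)
    {u v : Equiv.Perm (RR τ de) × Equiv.Perm (RR τ de)} (huv : act a u = act a v) : u = v := by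
  have e1 : (fun s => a.1 (u.1 s)) = fun s => a.1 (v.1 s) := congrArg Prod.fst huv
  have e2 : (fun s => a.2.1 (u.2 s)) = fun s => a.2.1 (v.2 s) :=
    congrArg (fun x : ST τ de => x.2.1) huv
  refine Prod.ext (Equiv.ext fun s => ?_) (Equiv.ext fun s => ?_)
  · exact IsT_inj h ha.1 (congrFun e1 s)
  · exact IsT_inj h ha.2.1 (congrFun e2 s)

/-- PROOF. The functions `RR τ de → S` form a finite type, the carries are bounded. -/
theorem Val_finite (p r : ℕ) : {a : ST τ de | Val q τ de p r a}.Finite := by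
  have hf : ((Set.univ : Set (RR τ de → S)) ×ˢ ((Set.univ : Set (RR τ de → S)) ×ˢ
      (Set.Iic p ×ˢ Set.Iic r))).Finite :=
    Set.finite_univ.prod (Set.finite_univ.prod ((Set.finite_Iic p).prod (Set.finite_Iic r)))
  refine hf.subset ?_
  rintro a ⟨-, -, h3, h4⟩
  exact ⟨Set.mem_univ _, Set.mem_univ _, h3, h4⟩

end Pool.Agent.Lib.MP_3e612f_nt.LV
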