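import Pool.Agent.Lib.MP_3e612f_nt.LV.AuGrpB
import Pool.Agent.Lib.MP_3e612f_nt.LV.AuTt

/-!
Choice of a string.
-/

set_option autoImplicit false

namespace Pool.Agent.Lib.MP_3e612f_nt.LV

open Finset

variable {S : Type} [Fintype S] [DecidableEq S] {q D₀ de : ℕ} {τ : ℕ → S → S}

/-- choice of the string. PROOF. `solve_mod` gives `X₁ < q ^ (l + 1)` with
`p * X₁ + (k' + tt q t 0 (l + 1)) ≡ y' + q ^ l * de [MOD q ^ (l + 1)]`, `y' = (Z + k').toNat`. Put `X₂ = n.natAbs`,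
`X = X₁ + q ^ (l + 1) * X₂`, `X' = (X + n).toNat`. For every `K` with `M ≥ l + 1 + 2 * n.natAbs + 2` both are less than
`q ^ M`, and `(X' : ℤ) = X + n`. For every `Y` and `K = l + 1 + M'`, with `X̂ = X + q ^ M * Y`, `M ≥ l + 1`: the number
`p * X̂ + k' + tt q t 0 K` is congruent to `y' + q ^ l * de` modulo `q ^ (l + 1)` (`tt_add`), and `y' + q ^ l * de` is less
than `q ^ (l + 1)`; so it is `y' + q ^ l * de + q ^ (l + 1) * Q`. -/
theorem string_choice (h : AD S q D₀ de τ) {p : ℕ} (hp : Nat.Coprime p q) (t : ℕ → ℕ) (k' l : ℕ)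
    (y' : ℕ) (hy' : y' < q ^ l) (n : ℤ) :
    ∃ X X' : ℕ, (X' : ℤ) = X + n ∧ (∀ M, l + 1 + 2 * n.natAbs + 2 ≤ M → X < q ^ M ∧ X' < q ^ M) ∧
      ∀ M, l + 1 ≤ M → ∀ Y K, l + 1 ≤ K → ∃ Q,
        p * (X + q ^ M * Y) + k' + tt q t 0 K = y' + q ^ l * de + q ^ (l + 1) * Q := by
  have hq := h.hq
  have hde := h.hde
  have hpos : 0 < q ^ (l + 1) := Nat.pow_pos (by omega)
  obtain ⟨X₁, hX₁, hc⟩ := solve_mod (p := p) (m := q ^ (l + 1)) hpos
    (Nat.Coprime.pow_right (l + 1) hp) (k' + tt q t 0 (l + 1)) (y' + q ^ l * de)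
  have hle : n.natAbs ≤ q ^ (l + 1) * n.natAbs := Nat.le_mul_of_pos_left _ hpos
  have hX' : (((X₁ + q ^ (l + 1) * n.natAbs : ℕ) : ℤ) + n).toNat =
      ((X₁ + q ^ (l + 1) * n.natAbs : ℕ) : ℤ) + n := by
    apply Int.toNat_of_nonneg
    have h1 : -(n.natAbs : ℤ) ≤ n := by
      rw [Int.natCast_natAbs]
      exact neg_abs_le n
    have h2 : (n.natAbs : ℤ) ≤ ((X₁ + q ^ (l + 1) * n.natAbs : ℕ) : ℤ) := by
      exact_mod_cast hle.trans (Nat.le_add_left _ _)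
    linarith
  refine ⟨X₁ + q ^ (l + 1) * n.natAbs, (((X₁ + q ^ (l + 1) * n.natAbs : ℕ) : ℤ) + n).toNat,
    hX', ?_, ?_⟩
  · intro M hM
    have h0 : ∀ m : ℕ, 1 + 2 * m < q ^ (2 * m + 2) := by
      intro m
      have h1 : 2 * m + 2 < 2 ^ (2 * m + 2) := Nat.lt_two_pow_self
      have h2 : 2 ^ (2 * m + 2) ≤ q ^ (2 * m + 2) := Nat.pow_le_pow_left hq _
      omega
    have h1 : q ^ (l + 1) * (1 + 2 * n.natAbs) ≤ q ^ M := by
      calc q ^ (l + 1) * (1 + 2 * n.natAbs) ≤ q ^ (l + 1) * q ^ (2 * n.natAbs + 2) :=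
            Nat.mul_le_mul_left _ (h0 _).le
        _ = q ^ (l + 1 + (2 * n.natAbs + 2)) := (pow_add q _ _).symm
        _ ≤ q ^ M := Nat.pow_le_pow_right (by omega) (by omega)
    have h2 : X₁ + q ^ (l + 1) * n.natAbs + n.natAbs < q ^ (l + 1) * (1 + 2 * n.natAbs) := by
      have e : q ^ (l + 1) * (1 + 2 * n.natAbs) =
          q ^ (l + 1) + q ^ (l + 1) * n.natAbs + q ^ (l + 1) * n.natAbs := by ring
      rw [e]
      omega
    have h3 : n ≤ (n.natAbs : ℤ) := by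
      rw [Int.natCast_natAbs]
      exact le_abs_self n
    refine ⟨by omega, ?_⟩
    have h4 : ((((X₁ + q ^ (l + 1) * n.natAbs : ℕ) : ℤ) + n).toNat : ℤ) < ((q ^ M : ℕ) : ℤ) := by
      rw [hX']
      have h5 : ((X₁ + q ^ (l + 1) * n.natAbs + n.natAbs : ℕ) : ℤ) < ((q ^ M : ℕ) : ℤ) := by
        exact_mod_cast lt_of_lt_of_le h2 h1
      rw [Nat.cast_add (X₁ + q ^ (l + 1) * n.natAbs) n.natAbs] at h5
      linarith
    exact_mod_cast h4
  · intro M hM Y K hK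
    obtain ⟨M', rfl⟩ := Nat.exists_eq_add_of_le hM
    obtain ⟨K', rfl⟩ := Nat.exists_eq_add_of_le hK
    have hr : y' + q ^ l * de < q ^ (l + 1) := by
      have h1 : q ^ l * de ≤ q ^ l * (q - 1) := Nat.mul_le_mul_left _ (by omega)
      have h2 : q ^ (l + 1) = q ^ l * (q - 1) + q ^ l := by
        rw [pow_succ]
        obtain ⟨m, rfl⟩ : ∃ m, q = m + 1 := ⟨q - 1, by omega⟩
        rw [Nat.add_sub_cancel]
        ring
      omega
    have hN : p * (X₁ + q ^ (l + 1) * n.natAbs + q ^ (l + 1 + M') * Y) + k' +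
        tt q t 0 (l + 1 + K') = p * X₁ + (k' + tt q t 0 (l + 1)) + q ^ (l + 1) *
          (p * n.natAbs + p * q ^ M' * Y + tt q t (0 + (l + 1)) K') := by
      rw [tt_add, pow_add q (l + 1) M']
      ring
    have hmod : (p * (X₁ + q ^ (l + 1) * n.natAbs + q ^ (l + 1 + M') * Y) + k' +
        tt q t 0 (l + 1 + K')) % q ^ (l + 1) = y' + q ^ l * de := by
      rw [hN, Nat.add_mul_mod_self_left]
      have h1 : (p * X₁ + (k' + tt q t 0 (l + 1))) % q ^ (l + 1) =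
        (y' + q ^ l * de) % q ^ (l + 1) := hc
      rw [h1, Nat.mod_eq_of_lt hr]
    refine ⟨(p * (X₁ + q ^ (l + 1) * n.natAbs + q ^ (l + 1 + M') * Y) + k' +
        tt q t 0 (l + 1 + K')) / q ^ (l + 1), ?_⟩
    rw [← hmod]
    exact (Nat.mod_add_div _ _).symm

end Pool.Agent.Lib.MP_3e612f_nt.LV
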