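import Pool.Agent.Lib.MP_3e612f_nt.LV.AuPack
import Pool.Agent.Lib.MP_3e612f_nt.LV.AuRel
import Pool.Agent.Lib.MP_3e612f_nt.LV.AuStr

/-!
The main step of the transfer lemma.
-/

set_option autoImplicit false

namespace Pool.Agent.Lib.MP_3e612f_nt.LV

open Finset

variable {S : Type} [Fintype S] [DecidableEq S] {q D₀ de : ℕ} {τ : ℕ → S → S}
  {p r : ℕ} {t t' : ℕ → ℕ} {ζ : ℂ} {b : ST τ de}
  {Γ : Subgroup (Equiv.Perm (RR τ de) × Equiv.Perm (RR τ de))}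
  {χ : Equiv.Perm (RR τ de) × Equiv.Perm (RR τ de) → ℂ} {P : Set (ST τ de)} {ω : ST τ de → ℂ}
  {m : ℕ} {𝒦 : Set ℕ} {φ : ℕ → ℂ} {W : ℕ → ℕ}

/-- **one quotient**. PROOF. Write `k = a.2.2.1`, `k' = a'.2.2.1`, `x = (Z + (k + p * n)).toNat`,
`x' = (Z + k').toNat`. `string_choice` for `k', l, x', n` gives `X, X'`; let `K ∈ 𝒦` with
`K ≥ m + (l + 1 + 2 * |n| + 2)`. `G2` for `a', K, X` gives `v`, `G2` for `a, K, X'` gives `u`; let `X̂ = X + q ^ (K - m) * W K`,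
`X̂' = X' + q ^ (K - m) * W K`, so `(X̂' : ℤ) = X̂ + n`. First components: `p * X̂ + k' + tt q t 0 K =
x' + q ^ l * de + q ^ (l + 1) * Q`, hence `p * X̂' + k + tt q t 0 K = x + q ^ l * de + q ^ (l + 1) * Q`; by `tw_core`
(`K = l + 1 + M`) `b.1 (v.1 s) = tw q τ M Q (D' s)` and `b.1 (u.1 s) = tw q τ M Q (D s)`, `D' = DD q τ de l (Z + k') a'.1`,
`D = DD q τ de l (Z + (k + p * n)) a.1`. Put `D'⁻¹ s`, `D⁻¹ s` for `s`: `v.1 * D'⁻¹ = u.1 * D⁻¹` (`IsT_inj`), so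
`u.1⁻¹ * v.1 = D⁻¹ * D'`. Second components: `R' = r * X̂ + a'.2.2.2 + tt q t' 0 K` and
`R = r * X̂' + a.2.2.2 + tt q t' 0 K` have the same quotient `b.2.2.2` by `q ^ K`. With
`Z' = r * X̂ + tt q t' 0 K - q ^ K * b.2.2.2` we have `Z' + a'.2.2.2 = R' % q ^ K` and
`Z' + (a.2.2.2 + r * n) = R % q ^ K`; so `hc` applies for `K, Z'`. As `tw q τ K (R % q ^ K) = tw q τ K R`
(`tw_mod`) and `tw q τ K R (a.2.1 s) = b.2.1 (u.2 s)`, `DD q τ de K (R % q ^ K) a.2.1 = lp τ de b.2.1 * u.2`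
(`lp_right`), similarly `… = lp τ de b.2.1 * v.2`; so `c⁻¹ * (u.2⁻¹ * v.2) = ν' ∈ N2`. Put
`w = u⁻¹ * v * (1, ν')⁻¹`; `mem_N2`, `hχ`; `χ u * χ (u⁻¹ * v) = χ v` and
`ζ ^ X̂' = ζ ^ X̂ * ζ ^ n` give the value of `χ`. -/
theorem trans_one (h : AD S q D₀ de τ) (hp : Nat.Coprime p q)
    (hPk : Pack q τ de p r t t' ζ b Γ χ P ω m 𝒦 φ W) {a a' : ST τ de} (ha : a ∈ P) (ha' : a' ∈ P)
    (n : ℤ) {c : Equiv.Perm (RR τ de)}
    (hc : ∀ (l : ℕ) (Z : ℤ), 0 ≤ Z + (a.2.2.2 + r * n) → Z + (a.2.2.2 + r * n) < q ^ l →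
      0 ≤ Z + a'.2.2.2 → Z + a'.2.2.2 < q ^ l →
      c⁻¹ * ((DD q τ de l (Z + (a.2.2.2 + r * n)) a.2.1)⁻¹ *
        DD q τ de l (Z + a'.2.2.2) a'.2.1) ∈ N2 Γ χ)
    (l : ℕ) (Z : ℤ) (h1 : 0 ≤ Z + (a.2.2.1 + p * n)) (h2 : Z + (a.2.2.1 + p * n) < q ^ l)
    (h3 : 0 ≤ Z + a'.2.2.1) (h4 : Z + a'.2.2.1 < q ^ l) :
    ∃ w ∈ Γ, w.1 = (DD q τ de l (Z + (a.2.2.1 + p * n)) a.1)⁻¹ *
        DD q τ de l (Z + a'.2.2.1) a'.1 ∧ w.2 = c ∧ χ w = ζ ^ (-n) * ω a * (ω a')⁻¹ := by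
  have hq : 1 ≤ q := le_trans one_le_two h.hq
  obtain ⟨x, hx⟩ : ∃ x : ℕ, (x : ℤ) = Z + (a.2.2.1 + p * n) :=
    ⟨(Z + (a.2.2.1 + p * n)).toNat, Int.toNat_of_nonneg h1⟩
  obtain ⟨x', hx'⟩ : ∃ x' : ℕ, (x' : ℤ) = Z + a'.2.2.1 :=
    ⟨(Z + a'.2.2.1).toNat, Int.toNat_of_nonneg h3⟩
  have hxl : x < q ^ l := by
    rw [← hx] at h2
    exact_mod_cast h2
  have hxl' : x' < q ^ l := by
    rw [← hx'] at h4
    exact_mod_cast h4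
  obtain ⟨X, X', hXX, hXM, hXQ⟩ := string_choice h hp t a'.2.2.1 l x' hxl' n
  obtain ⟨K, hK, hKl⟩ := hPk.hKu (m + (l + 1 + 2 * n.natAbs + 2))
  obtain ⟨hXM1, hXM2⟩ := hXM (K - m) (by omega)
  obtain ⟨v, hv, hv1, hv2⟩ := hPk.G2 a' ha' K hK X hXM1
  obtain ⟨u, hu, hu1, hu2⟩ := hPk.G2 a ha K hK X' hXM2
  obtain ⟨Q, hQ⟩ := hXQ (K - m) (by omega) (W K) K (by omega)
  obtain ⟨Xh, hXh⟩ : ∃ Xh, Xh = X + q ^ (K - m) * W K := ⟨_, rfl⟩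
  obtain ⟨Xh', hXh'⟩ : ∃ Xh', Xh' = X' + q ^ (K - m) * W K := ⟨_, rfl⟩
  rw [← hXh] at hv1 hv2 hQ
  rw [← hXh'] at hu1 hu2
  have hXn : (Xh' : ℤ) = Xh + n := by
    rw [hXh, hXh']
    push_cast
    rw [hXX]
    ring
  -- the components of the states
  have e1 : ∀ s, tw q τ K (p * Xh + a'.2.2.1 + tt q t 0 K) (a'.1 s) = b.1 (v.1 s) :=
    fun s => congrFun (congrArg Prod.fst hv1) s
  have e2 : ∀ s, tw q τ K (p * Xh' + a.2.2.1 + tt q t 0 K) (a.1 s) = b.1 (u.1 s) :=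
    fun s => congrFun (congrArg Prod.fst hu1) s
  have e3 : ∀ s, tw q τ K (r * Xh + a'.2.2.2 + tt q t' 0 K) (a'.2.1 s) = b.2.1 (v.2 s) :=
    fun s => congrFun (congrArg (fun y : ST τ de => y.2.1) hv1) s
  have e4 : ∀ s, tw q τ K (r * Xh' + a.2.2.2 + tt q t' 0 K) (a.2.1 s) = b.2.1 (u.2 s) :=
    fun s => congrFun (congrArg (fun y : ST τ de => y.2.1) hu1) s
  have e5 : (r * Xh + a'.2.2.2 + tt q t' 0 K) / q ^ K = b.2.2.2 :=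
    congrArg (fun y : ST τ de => y.2.2.2) hv1
  have e6 : (r * Xh' + a.2.2.2 + tt q t' 0 K) / q ^ K = b.2.2.2 :=
    congrArg (fun y : ST τ de => y.2.2.2) hu1
  have hQ' : p * Xh' + a.2.2.1 + tt q t 0 K = x + q ^ l * de + q ^ (l + 1) * Q := by
    zify at hQ ⊢
    rw [hXn]
    linear_combination hQ - hx + hx'
  have hKe : l + 1 + (K - (l + 1)) = K := by omega
  obtain ⟨aT, aT2, -⟩ := hPk.hP a ha
  obtain ⟨aT', aT2', -⟩ := hPk.hP a' ha'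
  obtain ⟨bT, bT2, -⟩ := hPk.hb
  obtain ⟨hu3, hu4⟩ := hPk.hΓ u hu
  obtain ⟨hv3, hv4⟩ := hPk.hΓ v hv
  -- first components
  obtain ⟨D', hD'⟩ : ∃ D', D' = DD q τ de l (Z + a'.2.2.1) a'.1 := ⟨_, rfl⟩
  obtain ⟨D, hD⟩ : ∃ D, D = DD q τ de l (Z + (a.2.2.1 + p * n)) a.1 := ⟨_, rfl⟩
  have hD1' : D' = lp τ de (fun s => tw q τ l x' (a'.1 s)) := by
    rw [hD', ← hx', DD, Int.toNat_natCast]
  have hD1 : D = lp τ de (fun s => tw q τ l x (a.1 s)) := by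
    rw [hD, ← hx, DD, Int.toNat_natCast]
  have f1 : ∀ s, b.1 (v.1 s) = tw q τ (K - (l + 1)) Q (D' s : S) := by
    intro s
    have h5 := tw_core h aT' hxl' (K - (l + 1)) Q s
    rw [hKe, ← hQ, e1, ← hD1'] at h5
    exact h5
  have f2 : ∀ s, b.1 (u.1 s) = tw q τ (K - (l + 1)) Q (D s : S) := by
    intro s
    have h5 := tw_core h aT hxl (K - (l + 1)) Q s
    rw [hKe, ← hQ', e2, ← hD1] at h5
    exact h5
  have f3 : v.1 * D'⁻¹ = u.1 * D⁻¹ := by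
    ext1 s
    apply IsT_inj h bT
    have k1 : D' (D'⁻¹ s) = s := by
      rw [← Equiv.Perm.mul_apply, mul_inv_cancel, Equiv.Perm.one_apply]
    have k2 : D (D⁻¹ s) = s := by
      rw [← Equiv.Perm.mul_apply, mul_inv_cancel, Equiv.Perm.one_apply]
    rw [Equiv.Perm.mul_apply, Equiv.Perm.mul_apply, f1, f2, k1, k2]
  have f4 : u.1⁻¹ * v.1 = D⁻¹ * D' := by
    have h5 : v.1 = u.1 * D⁻¹ * D' := by rw [← f3, inv_mul_cancel_right]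
    rw [h5, mul_assoc, inv_mul_cancel_left]
  -- second components
  obtain ⟨Z₂, hZ₂⟩ : ∃ Z₂ : ℤ, Z₂ = r * Xh + tt q t' 0 K - q ^ K * b.2.2.2 := ⟨_, rfl⟩
  have hqK : (0 : ℕ) < q ^ K := pow_pos (by omega) K
  have g1 : Z₂ + a'.2.2.2 = (((r * Xh + a'.2.2.2 + tt q t' 0 K) % q ^ K : ℕ) : ℤ) := by
    have h5 := Nat.div_add_mod (r * Xh + a'.2.2.2 + tt q t' 0 K) (q ^ K)
    rw [e5] at h5
    have h6 : ((q ^ K * b.2.2.2 + (r * Xh + a'.2.2.2 + tt q t' 0 K) % q ^ K : ℕ) : ℤ) =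
        ((r * Xh + a'.2.2.2 + tt q t' 0 K : ℕ) : ℤ) := by rw [h5]
    rw [Nat.cast_add (q ^ K * b.2.2.2)] at h6
    rw [hZ₂]
    push_cast at h6 ⊢
    linear_combination -h6
  have g2 : Z₂ + (a.2.2.2 + r * n) = (((r * Xh' + a.2.2.2 + tt q t' 0 K) % q ^ K : ℕ) : ℤ) := by
    have h5 := Nat.div_add_mod (r * Xh' + a.2.2.2 + tt q t' 0 K) (q ^ K)
    rw [e6] at h5
    have h6 : ((q ^ K * b.2.2.2 + (r * Xh' + a.2.2.2 + tt q t' 0 K) % q ^ K : ℕ) : ℤ) =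
        ((r * Xh' + a.2.2.2 + tt q t' 0 K : ℕ) : ℤ) := by rw [h5]
    rw [Nat.cast_add (q ^ K * b.2.2.2)] at h6
    rw [hZ₂]
    push_cast at h6 ⊢
    linear_combination -h6 - (r : ℤ) * hXn
  have g3 : DD q τ de K (Z₂ + a'.2.2.2) a'.2.1 = lp τ de b.2.1 * v.2 := by
    rw [g1, DD, Int.toNat_natCast, ← lp_right h bT2 hv4]
    congr 1
    funext s
    rw [tw_mod, e3]
  have g4 : DD q τ de K (Z₂ + (a.2.2.2 + r * n)) a.2.1 = lp τ de b.2.1 * u.2 := by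
    rw [g2, DD, Int.toNat_natCast, ← lp_right h bT2 hu4]
    congr 1
    funext s
    rw [tw_mod, e4]
  have hlt : ∀ y : ℕ, ((y % q ^ K : ℕ) : ℤ) < q ^ K := fun y => by
    exact_mod_cast Nat.mod_lt y hqK
  have g5 := hc K Z₂ (by rw [g2]; exact Int.natCast_nonneg _) (by rw [g2]; exact hlt _)
    (by rw [g1]; exact Int.natCast_nonneg _) (by rw [g1]; exact hlt _)
  have g6 : (lp τ de b.2.1 * u.2)⁻¹ * (lp τ de b.2.1 * v.2) = u.2⁻¹ * v.2 := by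
    rw [mul_inv_rev, mul_assoc, inv_mul_cancel_left]
  rw [g3, g4, g6] at g5
  obtain ⟨g7, g8⟩ := (mem_N2 hPk _).1 g5
  obtain ⟨ν, hν⟩ : ∃ ν, ν = c⁻¹ * (u.2⁻¹ * v.2) := ⟨_, rfl⟩
  rw [← hν] at g7 g8
  -- the character
  have c1 : χ 1 = 1 := by
    have h5 := hPk.hχ 1 Γ.one_mem 1 Γ.one_mem
    rw [mul_one] at h5
    have h6 := hPk.hχ0 1 Γ.one_mem
    field_simp at h5
    exact h5.symm
  have c2 : χ (1, ν)⁻¹ = 1 := by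
    have h5 := hPk.hχ _ g7 _ (Γ.inv_mem g7)
    rw [mul_inv_cancel, c1, g8, one_mul] at h5
    exact h5.symm
  have huv : u⁻¹ * v ∈ Γ := Γ.mul_mem (Γ.inv_mem hu) hv
  have c3 : χ u * χ (u⁻¹ * v) = χ v := by
    rw [← hPk.hχ u hu _ huv, mul_inv_cancel_left]
  have c4 : ζ ^ Xh' = ζ ^ Xh * ζ ^ n := by
    rw [← zpow_natCast, ← zpow_natCast, hXn, zpow_add₀ hPk.hζ]
  refine ⟨u⁻¹ * v * (1, ν)⁻¹, Γ.mul_mem huv (Γ.inv_mem g7), ?_, ?_, ?_⟩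
  · rw [← hD, ← hD', ← f4]
    show u.1⁻¹ * v.1 * 1⁻¹ = _
    rw [inv_one, mul_one]
  · show u.2⁻¹ * v.2 * ν⁻¹ = c
    rw [hν]
    group
  · rw [hPk.hχ _ huv _ (Γ.inv_mem g7), c2, mul_one]
    have n1 := hPk.hω a
    have n2 := hPk.hω a'
    have n3 := hPk.hφ K
    have n4 := hPk.hχ0 u hu
    have n5 : ζ ^ n ≠ 0 := zpow_ne_zero n hPk.hζ
    have h5 : ω a * φ K * χ u = ω a' * φ K * χ v * ζ ^ n := by
      rw [← hu2, ← hv2, c4]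
    rw [zpow_neg]
    field_simp
    apply mul_left_cancel₀ n3
    apply mul_left_cancel₀ n4
    rw [← c3] at h5
    linear_combination -h5

end Pool.Agent.Lib.MP_3e612f_nt.LV
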