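import Pool.Agent.Lib.MP_3e612f_nt.LV.AuTrans

/-!
The transfer lemma: relations between the second components give relations between the first ones.
-/

set_option autoImplicit false

namespace Pool.Agent.Lib.MP_3e612f_nt.LV

open Finset

variable {S : Type} [Fintype S] [DecidableEq S] {q D₀ de : ℕ} {τ : ℕ → S → S}
  {p r : ℕ} {t t' : ℕ → ℕ} {ζ : ℂ} {b : ST τ de}
  {Γ : Subgroup (Equiv.Perm (RR τ de) × Equiv.Perm (RR τ de))}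
  {χ : Equiv.Perm (RR τ de) × Equiv.Perm (RR τ de) → ℂ} {P : Set (ST τ de)} {ω : ST τ de → ℂ}
  {m : ℕ} {𝒦 : Set ℕ} {φ : ℕ → ℂ} {W : ℕ → ℕ}

/-- **transfer lemma**. PROOF. Let `c` be the constant of `hR`. If there are no `l, Z` with
`0 ≤ Z + (a.2.2.1 + p * n) < q ^ l` and `0 ≤ Z + a'.2.2.1 < q ^ l`, take the constant `1`. Otherwise fix one such pair,
let `w₀` be the element of `trans_one` for it and take the constant `w₀.1 ∈ HH`. For another pair with the element `w`: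
`w₀⁻¹ * w = (w₀.1⁻¹ * w.1, 1) ∈ Γ`, and `χ w₀ * χ (w₀⁻¹ * w) = χ w = χ w₀`, so `χ (w₀⁻¹ * w) = 1` (`hχ0`); `mem_N1`. -/
theorem transfer (h : AD S q D₀ de τ) (hp : Nat.Coprime p q)
    (hPk : Pack q τ de p r t t' ζ b Γ χ P ω m 𝒦 φ W) {a a' : ST τ de} (ha : a ∈ P) (ha' : a' ∈ P)
    (n : ℤ) (hR : Rel q τ de (N2 Γ χ) a.2.1 (a.2.2.2 + r * n) a'.2.1 a'.2.2.2) :
    Rel q τ de (N1 Γ χ) a.1 (a.2.2.1 + p * n) a'.1 a'.2.2.1 := by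
  obtain ⟨c, hcH, hc⟩ := hR
  by_cases hE : ∃ (l : ℕ) (Z : ℤ), 0 ≤ Z + (a.2.2.1 + p * n) ∧ Z + (a.2.2.1 + p * n) < q ^ l ∧
      0 ≤ Z + a'.2.2.1 ∧ Z + a'.2.2.1 < q ^ l
  · obtain ⟨l₀, Z₀, h1, h2, h3, h4⟩ := hE
    obtain ⟨w₀, hw₀, hw1, hw2, hw3⟩ := trans_one h hp hPk ha ha' n (c := c)
      (fun l Z g1 g2 g3 g4 => hc l Z g1 g2 g3 g4) l₀ Z₀ h1 h2 h3 h4
    refine ⟨w₀.1, (hPk.hΓ w₀ hw₀).1, fun l Z g1 g2 g3 g4 => ?_⟩
    obtain ⟨w, hw, hv1, hv2, hv3⟩ := trans_one h hp hPk ha ha' n (c := c)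
      (fun l Z g1 g2 g3 g4 => hc l Z g1 g2 g3 g4) l Z g1 g2 g3 g4
    have hmem : w₀⁻¹ * w ∈ Γ := Γ.mul_mem (Γ.inv_mem hw₀) hw
    have e : w₀⁻¹ * w = (w₀.1⁻¹ * ((lp τ de fun s => tw q τ l (Z + (a.2.2.1 + p * n)).toNat (a.1 s))⁻¹ *
        lp τ de fun s => tw q τ l (Z + a'.2.2.1).toNat (a'.1 s)), 1) := by
      ext1
      · show w₀.1⁻¹ * w.1 = _
        rw [hv1]
        rfl
      · show w₀.2⁻¹ * w.2 = 1
        rw [hv2, hw2, inv_mul_cancel]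
    have hχw : χ w₀ * χ (w₀⁻¹ * w) = χ w₀ := by
      rw [← hPk.hχ w₀ hw₀ _ hmem, mul_inv_cancel_left, hv3, hw3]
    have hχ1 : χ (w₀⁻¹ * w) = 1 := by
      have h0 := hPk.hχ0 w₀ hw₀
      exact mul_left_cancel₀ h0 (by rw [hχw, mul_one])
    rw [mem_N1 hPk]
    rw [e] at hmem hχ1
    exact ⟨hmem, hχ1⟩
  · refine ⟨1, Subgroup.one_mem _, fun l Z g1 g2 g3 g4 => ?_⟩
    exact absurd ⟨l, Z, g1, g2, g3, g4⟩ hE

/-- both directions. PROOF. `transfer`, and `transfer` for `hPk.swap` with `N1_swG`, `N2_swG`. -/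
theorem transfer_iff (h : AD S q D₀ de τ) (hp : Nat.Coprime p q) (hr : Nat.Coprime r q)
    (hPk : Pack q τ de p r t t' ζ b Γ χ P ω m 𝒦 φ W) {a a' : ST τ de} (ha : a ∈ P) (ha' : a' ∈ P)
    (n : ℤ) : Rel q τ de (N1 Γ χ) a.1 (a.2.2.1 + p * n) a'.1 a'.2.2.1 ↔
      Rel q τ de (N2 Γ χ) a.2.1 (a.2.2.2 + r * n) a'.2.1 a'.2.2.2 := by
  constructor
  · intro hR
    have h1 := transfer h hr hPk.swap (a := swp a) (a' := swp a') (show swp (swp a) ∈ P from ha)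
      (show swp (swp a') ∈ P from ha') n
    rw [N1_swG, N2_swG] at h1
    exact h1 hR
  · exact transfer h hp hPk ha ha' n

end Pool.Agent.Lib.MP_3e612f_nt.LV
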