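import Pool.Agent.Lib.MP_3e612f_nt.LV.AuDefs

/-!
Basic properties of `tw`.
-/

set_option autoImplicit false

namespace Pool.Agent.Lib.MP_3e612f_nt.LV

open Finset

variable {S : Type}

theorem tw_add (q : ℕ) (τ : ℕ → S → S) (l m z : ℕ) (s : S) :
    tw q τ (l + m) z s = tw q τ m (z / q ^ l) (tw q τ l z s) := by
  induction l generalizing z s with
  | zero => simp [tw]
  | succ l ih =>
    rw [show l + 1 + m = (l + m) + 1 by ring]
    show tw q τ (l + m) (z / q) (τ (z % q) s) =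
      tw q τ m (z / q ^ (l + 1)) (tw q τ l (z / q) (τ (z % q) s))
    rw [ih, Nat.div_div_eq_div_mul, pow_succ']

theorem tw_mod (q : ℕ) (τ : ℕ → S → S) (l z : ℕ) (s : S) :
    tw q τ l (z % q ^ l) s = tw q τ l z s := by
  induction l generalizing z s with
  | zero => simp [tw]
  | succ l ih =>
    show tw q τ l (z % q ^ (l + 1) / q) (τ (z % q ^ (l + 1) % q) s) =
      tw q τ l (z / q) (τ (z % q) s)
    have h1 : z % q ^ (l + 1) % q = z % q := Nat.mod_mod_of_dvd z (dvd_pow_self q (by omega))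
    have h2 : z % q ^ (l + 1) / q = z / q % q ^ l := by
      rw [pow_succ', Nat.mod_mul_right_div_self]
    rw [h1, h2, ih]

theorem tw_congr {q : ℕ} (τ : ℕ → S → S) {l z z' : ℕ} (h : z ≡ z' [MOD q ^ l]) (s : S) :
    tw q τ l z s = tw q τ l z' s := by
  rw [← tw_mod q τ l z, ← tw_mod q τ l z']
  have h1 : z % q ^ l = z' % q ^ l := h
  rw [h1]

theorem tw_cat {q : ℕ} (τ : ℕ → S → S) {l : ℕ} (m : ℕ) {u : ℕ} (hu : u < q ^ l) (v : ℕ) (s : S) :
    tw q τ (l + m) (u + q ^ l * v) s = tw q τ m v (tw q τ l u s) := by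
  have h0 : 0 < q ^ l := by omega
  rw [tw_add, Nat.add_mul_div_left _ _ h0, Nat.div_eq_of_lt hu, Nat.zero_add]
  congr 1
  apply tw_congr
  show (u + q ^ l * v) % q ^ l = u % q ^ l
  rw [Nat.add_mul_mod_self_left]

theorem tw_one (q : ℕ) (τ : ℕ → S → S) (z : ℕ) (s : S) : tw q τ 1 z s = τ (z % q) s := rfl

theorem tw_base (b : ℕ) (τ : ℕ → S → S) (w l z : ℕ) (s : S) :
    tw (b ^ w) (tw b τ w) l z s = tw b τ (w * l) z s := by
  induction l generalizing z s with
  | zero => rfl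
  | succ l ih =>
    show tw (b ^ w) (tw b τ w) l (z / b ^ w) (tw b τ w (z % b ^ w) s) = _
    rw [ih, tw_mod, show w * (l + 1) = w + w * l by ring, tw_add b τ w]

end Pool.Agent.Lib.MP_3e612f_nt.LV
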