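import Pool.Agent.Lib.MP_3e612f_nt.LO.D.Base

/-!
Averages over short intervals; jumps of floors.
-/

set_option autoImplicit false

namespace Pool.Agent.Lib.MP_3e612f_nt.LV

open Finset

/-- PROOF: every `m` with `J ≤ m < N` is counted `J` times in `∑ a < N, ∑ d < J, G (a + d)`, the others at most `J`
times; compare `LOD.base_avg` (there `range h` and bound `1`: apply it to `m ↦ G m / A` if convenient). -/
theorem avg_le (G : ℕ → ℂ) {A : ℝ} (hA : 0 < A) (hG : ∀ m, ‖G m‖ ≤ A) (N : ℕ) {J : ℕ} (hJ : 1 ≤ J) :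
    ‖∑ m ∈ Icc 1 N, G m‖ ≤ (∑ a ∈ range N, ‖∑ d ∈ range J, G (a + d)‖) / J + 4 * A * J := by
  have hAc : (A : ℂ) ≠ 0 := by exact_mod_cast hA.ne'
  have hJr : (1 : ℝ) ≤ J := by exact_mod_cast hJ
  have h1 := LOD.base_avg (fun m => G m / A) (fun m => by
    rw [norm_div, Complex.norm_real, Real.norm_of_nonneg hA.le, div_le_one hA]
    exact hG m) N hJ
  have e1 : ∀ (S : Finset ℕ) (f : ℕ → ℕ), ‖∑ m ∈ S, G (f m) / A‖ = ‖∑ m ∈ S, G (f m)‖ / A := by
    intro S f
    rw [← Finset.sum_div, norm_div, Complex.norm_real, Real.norm_of_nonneg hA.le]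
  have e2 : ‖∑ m ∈ range N, G m / A‖ = ‖∑ m ∈ range N, G m‖ / A := e1 (range N) fun m => m
  have e3 : ∑ n ∈ range N, ‖∑ k ∈ range J, G (n + k) / A‖ =
      (∑ n ∈ range N, ‖∑ k ∈ range J, G (n + k)‖) / A := by
    rw [Finset.sum_div]
    exact Finset.sum_congr rfl fun n _ => e1 (range J) fun k => n + k
  rw [e2, e3] at h1
  have h2 : ‖∑ m ∈ range N, G m‖ ≤
      (∑ a ∈ range N, ‖∑ d ∈ range J, G (a + d)‖) / J + 2 * A * J := by
    have h3 := mul_le_mul_of_nonneg_right h1 hA.le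
    rw [div_mul_cancel₀ _ hA.ne'] at h3
    refine h3.trans (le_of_eq ?_)
    have hJ0 : (J : ℝ) ≠ 0 := by linarith
    field_simp
  have h4 : ∑ m ∈ Icc 1 N, G m = ∑ m ∈ range N, G m - G 0 + G N := by
    have h5 : ∑ m ∈ range (N + 1), G m = ∑ m ∈ Icc 1 N, G m + G 0 := by
      rw [Finset.sum_range_succ', Finset.range_eq_Ico, Finset.sum_Ico_add' G 0 N 1]
      rfl
    rw [Finset.sum_range_succ] at h5
    linear_combination -h5
  rw [h4]
  have h6 := norm_add_le (∑ m ∈ range N, G m - G 0) (G N)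
  have h7 := norm_sub_le (∑ m ∈ range N, G m) (G 0)
  have h8 := hG 0
  have h9 := hG N
  nlinarith

/-- PROOF: `φ a = (p * a + s) / Q` is monotone; for a bad `a` one has `φ a + 1 ≤ φ (a + J)`. Hence the number of bad
`a` is at most `∑ a < N, (φ (a + J) - φ a) = ∑ j < J, (φ (N + j) - φ j) ≤ J (φ (N + J) - φ 0)`, and
`φ (N + J) - φ 0 ≤ p (N + J) / Q + 1`. -/
theorem floor_count (p s : ℕ) {Q : ℕ} (hQ : 1 ≤ Q) (J N : ℕ) :
    ((range N).filter fun a => ¬ ∀ d < J, (p * (a + d) + s) / Q = (p * a + s) / Q).card ≤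
      J * (p * (N + J) / Q + 1) := by
  set φ : ℕ → ℕ := fun a => (p * a + s) / Q with hφ
  have hmono : Monotone φ := by
    intro a b hab
    exact Nat.div_le_div_right (Nat.add_le_add_right (Nat.mul_le_mul_left p hab) s)
  have h1 : ((range N).filter fun a => ¬ ∀ d < J, (p * (a + d) + s) / Q = (p * a + s) / Q).card +
      ∑ a ∈ range N, φ a ≤ ∑ a ∈ range N, φ (a + J) := by
    rw [Finset.card_filter, ← Finset.sum_add_distrib]
    refine Finset.sum_le_sum fun a _ => ?_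
    split_ifs with h
    · rw [zero_add]
      exact hmono (Nat.le_add_right a J)
    · push Not at h
      obtain ⟨d, hd, hne⟩ := h
      have h2 : φ a ≤ φ (a + d) := hmono (Nat.le_add_right a d)
      have h3 : φ (a + d) ≤ φ (a + J) := hmono (Nat.add_le_add_left hd.le a)
      have h4 : φ (a + d) ≠ φ a := hne
      omega
  have e1 : ∑ a ∈ range (N + J), φ a = ∑ a ∈ range N, φ a + ∑ i ∈ range J, φ (N + i) :=
    Finset.sum_range_add _ _ _
  have e2 : ∑ a ∈ range (J + N), φ a = ∑ a ∈ range J, φ a + ∑ i ∈ range N, φ (J + i) :=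
    Finset.sum_range_add _ _ _
  have e3 : ∑ i ∈ range N, φ (J + i) = ∑ a ∈ range N, φ (a + J) :=
    Finset.sum_congr rfl fun a _ => by rw [add_comm]
  rw [add_comm J N, e1, e3] at e2
  have h2 : J * φ 0 ≤ ∑ a ∈ range J, φ a := by
    have := Finset.card_nsmul_le_sum (range J) φ (φ 0) fun a _ => hmono (Nat.zero_le a)
    rwa [card_range, smul_eq_mul] at this
  have h3 : ∑ i ∈ range J, φ (N + i) ≤ J * φ (N + J) := by
    have := Finset.sum_le_card_nsmul (range J) (fun i => φ (N + i)) (φ (N + J)) fun a ha =>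
      hmono (Nat.add_le_add_left (mem_range.1 ha).le N)
    rwa [card_range, smul_eq_mul] at this
  have h4 : φ (N + J) ≤ φ 0 + (p * (N + J) / Q + 1) := by
    simp only [hφ]
    rw [mul_zero, zero_add]
    have hQ0 : 0 < Q := hQ
    have h5 := Nat.div_add_mod (p * (N + J)) Q
    have h6 := Nat.mod_lt (p * (N + J)) hQ0
    have h7 := Nat.div_add_mod s Q
    have h8 := Nat.mod_lt s hQ0
    have h9 : p * (N + J) + s < Q * (s / Q + (p * (N + J) / Q + 1) + 1) := by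
      have : Q * (s / Q + (p * (N + J) / Q + 1) + 1) =
        Q * (s / Q) + Q * (p * (N + J) / Q) + Q + Q := by ring
      omega
    exact Nat.lt_succ_iff.1 ((Nat.div_lt_iff_lt_mul hQ0).2 (lt_of_lt_of_eq h9 (mul_comm _ _)))
  have h5 : J * φ (N + J) ≤ J * (φ 0 + (p * (N + J) / Q + 1)) := Nat.mul_le_mul_left J h4
  rw [mul_add] at h5
  omega

private theorem per_shift (Φ : ℕ → ℝ) {Q : ℕ} (hper : ∀ a, Φ (a + Q) = Φ a) (s : ℕ) :
    ∑ a ∈ range Q, Φ (a + s) = ∑ a ∈ range Q, Φ a := by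
  induction s with
  | zero => rfl
  | succ s ih =>
    have h1 : ∑ a ∈ range (Q + 1), Φ (a + s) = ∑ a ∈ range Q, Φ (a + s) + Φ (Q + s) :=
      Finset.sum_range_succ _ _
    have h2 : ∑ a ∈ range (Q + 1), Φ (a + s) = ∑ a ∈ range Q, Φ (a + 1 + s) + Φ (0 + s) :=
      Finset.sum_range_succ' _ _
    have h3 : ∑ a ∈ range Q, Φ (a + (s + 1)) = ∑ a ∈ range Q, Φ (a + 1 + s) :=
      Finset.sum_congr rfl fun a _ => by congr 1; ring
    have h4 := hper s
    rw [add_comm s Q] at h4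
    rw [zero_add] at h2
    linarith

private theorem per_mul (Φ : ℕ → ℝ) {Q : ℕ} (hper : ∀ a, Φ (a + Q) = Φ a) (s k : ℕ) :
    ∑ a ∈ range (k * Q), Φ (a + s) = k * ∑ a ∈ range Q, Φ a := by
  induction k with
  | zero => simp
  | succ k ih =>
    have h1 : ∑ a ∈ range (k * Q + Q), Φ (a + s) =
        ∑ a ∈ range (k * Q), Φ (a + s) + ∑ i ∈ range Q, Φ (k * Q + i + s) :=
      Finset.sum_range_add _ _ _
    have h2 : ∑ i ∈ range Q, Φ (k * Q + i + s) = ∑ i ∈ range Q, Φ (i + (k * Q + s)) :=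
      Finset.sum_congr rfl fun i _ => by congr 1; ring
    rw [add_mul, one_mul, h1, ih, h2, per_shift Φ hper]
    push_cast
    ring

/-- a nonnegative function with period `Q` over an interval -/
theorem per_sum (Φ : ℕ → ℝ) (hΦ : ∀ a, 0 ≤ Φ a) {Q : ℕ} (hQ : 1 ≤ Q) (hper : ∀ a, Φ (a + Q) = Φ a)
    (s N : ℕ) : ∑ a ∈ range N, Φ (a + s) ≤ ((N : ℝ) / Q + 1) * ∑ a ∈ range Q, Φ a := by
  have hQ0 : 0 < Q := hQ
  have h1 : N ≤ (N / Q + 1) * Q := by
    have h2 := Nat.div_add_mod N Q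
    have h3 := Nat.mod_lt N hQ0
    rw [add_mul, one_mul, mul_comm]
    omega
  have h2 : ∑ a ∈ range N, Φ (a + s) ≤ ∑ a ∈ range ((N / Q + 1) * Q), Φ (a + s) :=
    Finset.sum_le_sum_of_subset_of_nonneg (range_subset_range.2 h1) fun a _ _ => hΦ _
  rw [per_mul Φ hper] at h2
  refine h2.trans (mul_le_mul_of_nonneg_right ?_ (Finset.sum_nonneg fun a _ => hΦ a))
  push_cast
  have h3 : ((N / Q : ℕ) : ℝ) ≤ N / Q := Nat.cast_div_le
  linarith

end Pool.Agent.Lib.MP_3e612f_nt.LV
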