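import Pool.Agent.Lib.MP_3e612f_nt.LO.R.Tw
import Pool.Agent.Lib.MP_3e612f_nt.LU.Base

/-!
The theorem of Matomaki, Radziwill and Tao in residue classes and for functions of few floors, uniformly in
the frequency.
-/

set_option autoImplicit false

namespace Pool.Agent.Lib.MP_3e612f_nt.LV

open Finset
open Pool.Agent.Lib.MP_3e612f_nt.LOD
open Pool.Agent.Lib.MP_3e612f_nt.LORT
open Pool.Agent.Lib.MP_3e612f_nt.PI (mc)

private theorem ev_eq_one {x : ℝ} (h : ev x = 1) : ∃ k : ℤ, x = k := by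
  unfold ev at h
  obtain ⟨k, hk⟩ := Complex.exp_eq_one_iff.1 h
  refine ⟨k, ?_⟩
  have h1 : (Complex.I * (2 * Real.pi * x : ℝ) : ℂ) = (2 * Real.pi * Complex.I) * (x : ℂ) := by
    push_cast
    ring
  have h2 : (k : ℂ) * (2 * Real.pi * Complex.I) = (2 * Real.pi * Complex.I) * ((k : ℝ) : ℂ) := by
    push_cast
    ring
  rw [h1, h2] at hk
  have h3 := mul_left_cancel₀ Complex.two_pi_I_ne_zero hk
  exact_mod_cast h3

private theorem orth {Q : ℕ} (hQ : 1 ≤ Q) (m : ℤ) :
    ∑ b ∈ range Q, ev (b * (m / Q : ℝ)) = if (Q : ℤ) ∣ m then (Q : ℂ) else 0 := by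
  have hQr : (Q : ℝ) ≠ 0 := by
    have : (0 : ℝ) < Q := by exact_mod_cast hQ
    exact this.ne'
  have h1 : ∀ b : ℕ, ev (b * (m / Q : ℝ)) = ev (m / Q : ℝ) ^ b := fun b => (ev_pow _ b).symm
  rw [Finset.sum_congr rfl fun b _ => h1 b]
  split_ifs with h
  · obtain ⟨k, hk⟩ := h
    have h2 : (m / Q : ℝ) = (k : ℤ) := by
      rw [hk]
      push_cast
      field_simp
    rw [h2, ev_int]
    simp
  · have h2 : ev (m / Q : ℝ) ≠ 1 := by
      intro h3
      obtain ⟨k, hk⟩ := ev_eq_one h3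
      apply h
      refine ⟨k, ?_⟩
      have h4 : (m : ℝ) = Q * k := by
        rw [← hk]
        field_simp
      exact_mod_cast h4
    have h3 := geom_sum_mul (ev (m / Q : ℝ)) Q
    have h4 : ev (m / Q : ℝ) ^ Q = 1 := by
      rw [ev_pow]
      have : (Q : ℝ) * (m / Q : ℝ) = (m : ℤ) := by
        field_simp
      rw [this, ev_int]
    rw [h4, sub_self] at h3
    exact (mul_eq_zero.1 h3).resolve_right (sub_ne_zero.2 h2)

private theorem cls_one : Pool.Agent.Lib.MP_3e612f_nt.EM.Cls 2 0 1 1 0 0 (fun _ => (1 : ℂ)) := by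
  refine ⟨∅, fun _ => 1, fun _ => 0, le_rfl, fun n => by simp, fun n n' _ => rfl,
    ⟨fun _ => 0, fun S _ => rfl, fun n => Subsingleton.elim _ _⟩, fun n => ?_⟩
  rw [Pool.Agent.Lib.MP_3e612f_nt.DI.Rep_ee_zero, mul_one]

/-- PROOF: `LORT.lpt_all (q := 2) le_rfl hMR 0` for the constant function `1` (it is in `Cls 2 0 1 1 0 0`: `I = ∅`,
`β = 1`, `f = 0`) gives, for every real `α`, `∑ y < X, ‖∑ k < H, mc (y + k) ev (α k)‖ ≤ ε H X` with `H`, `X`
independent of `α`. The indicator of `(y + k) % Q = a` is `(1 / Q) ∑ b < Q, ev (b (y + k - a) / Q)`; the sum is at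
most the mean over `b` of the sums with `α + b / Q`. -/
theorem mrt (hMR : MRp) {Q : ℕ} (hQ : 1 ≤ Q) {ε : ℝ} (hε : 0 < ε) :
    ∃ H0 : ℕ, ∀ H ≥ H0, ∃ X0 : ℕ, ∀ X ≥ X0, ∀ (α : ℝ), ∀ a < Q,
      ∑ y ∈ range X, ‖∑ k ∈ (range H).filter (fun k => (y + k) % Q = a), mc (y + k) * ev (α * k)‖ ≤
        ε * H * X := by
  obtain ⟨H0, hH0⟩ := lpt_all (q := 2) le_rfl hMR 0 1 1 0 Nat.one_pos ε hε
  refine ⟨H0, fun H hH => ?_⟩
  obtain ⟨X0, hX0⟩ := hH0 H hH
  refine ⟨X0, fun X hX α a ha => ?_⟩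
  have hQ0 : (Q : ℝ) ≠ 0 := by
    have : (0 : ℝ) < Q := by exact_mod_cast hQ
    exact this.ne'
  have hQp : (0 : ℝ) < Q := by exact_mod_cast hQ
  have hQc : (Q : ℂ) ≠ 0 := by exact_mod_cast hQ0
  have key : ∀ β : ℝ, ∑ y ∈ range X, ‖∑ k ∈ range H, mc (y + k) * ev (β * k)‖ ≤ ε * H * X := by
    intro β
    have h1 := hX0 X hX β (fun _ => 0) (fun _ => 0) (fun _ _ => 1) (fun _ => cls_one)
    simpa only [one_mul] using h1
  have hpt : ∀ y : ℕ,
      ‖∑ k ∈ (range H).filter (fun k => (y + k) % Q = a), mc (y + k) * ev (α * k)‖ ≤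
        (1 / Q : ℝ) * ∑ b ∈ range Q, ‖∑ k ∈ range H, mc (y + k) * ev ((α + b / Q) * k)‖ := by
    intro y
    have h1 : ∑ k ∈ (range H).filter (fun k => (y + k) % Q = a), mc (y + k) * ev (α * k) =
        (1 / Q : ℂ) * ∑ b ∈ range Q, ev (b * (((y : ℤ) - a : ℤ) / Q : ℝ)) *
          ∑ k ∈ range H, mc (y + k) * ev ((α + b / Q) * k) := by
      rw [Finset.sum_filter, Finset.mul_sum]
      simp only [Finset.mul_sum]
      rw [Finset.sum_comm]
      refine Finset.sum_congr rfl fun k _ => ?_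
      have h2 : ∑ b ∈ range Q, (1 / Q : ℂ) * (ev (b * (((y : ℤ) - a : ℤ) / Q : ℝ)) *
          (mc (y + k) * ev ((α + b / Q) * k))) =
          (1 / Q : ℂ) * (mc (y + k) * ev (α * k)) *
            ∑ b ∈ range Q, ev (b * (((y : ℤ) + k - a : ℤ) / Q : ℝ)) := by
        rw [Finset.mul_sum]
        refine Finset.sum_congr rfl fun b _ => ?_
        have h3 : ev (b * (((y : ℤ) + k - a : ℤ) / Q : ℝ)) =
            ev (b * (((y : ℤ) - a : ℤ) / Q : ℝ)) * ev (b / Q * k) := by
          rw [← ev_add]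
          congr 1
          push_cast
          ring
        have h4 : ev ((α + b / Q) * k) = ev (α * k) * ev (b / Q * k) := by
          rw [← ev_add]
          congr 1
          ring
        rw [h3, h4]
        ring
      rw [h2, orth hQ]
      have h5 : (Q : ℤ) ∣ (y : ℤ) + k - a ↔ (y + k) % Q = a := by
        constructor
        · intro h
          have h6 : ((y + k : ℕ) : ℤ) % Q = a := by
            have h7 : ((y + k : ℕ) : ℤ) = (a : ℤ) + ((y : ℤ) + k - a) := by
              push_cast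
              ring
            obtain ⟨c, hc⟩ := h
            rw [h7, hc, Int.add_mul_emod_self_left]
            exact Int.emod_eq_of_lt (by positivity) (by exact_mod_cast ha)
          exact_mod_cast h6
        · intro h
          have h6 : ((y + k : ℕ) : ℤ) % Q = a := by exact_mod_cast h
          have h7 := Int.emod_add_mul_ediv ((y + k : ℕ) : ℤ) Q
          refine ⟨((y + k : ℕ) : ℤ) / Q, ?_⟩
          rw [h6] at h7
          push_cast at h7 ⊢
          linarith
      simp only [h5]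
      split_ifs with h6
      · field_simp
      · ring
    rw [h1, norm_mul]
    have h2 : ‖(1 / Q : ℂ)‖ = (1 / Q : ℝ) := by
      rw [norm_div, norm_one, Complex.norm_natCast]
    rw [h2]
    refine mul_le_mul_of_nonneg_left ?_ (by positivity)
    refine (norm_sum_le _ _).trans (Finset.sum_le_sum fun b _ => ?_)
    rw [norm_mul, norm_ev, one_mul]
  calc ∑ y ∈ range X, ‖∑ k ∈ (range H).filter (fun k => (y + k) % Q = a), mc (y + k) * ev (α * k)‖
      ≤ ∑ y ∈ range X, (1 / Q : ℝ) * ∑ b ∈ range Q,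
          ‖∑ k ∈ range H, mc (y + k) * ev ((α + b / Q) * k)‖ := Finset.sum_le_sum fun y _ => hpt y
    _ = (1 / Q : ℝ) * ∑ b ∈ range Q, ∑ y ∈ range X,
          ‖∑ k ∈ range H, mc (y + k) * ev ((α + b / Q) * k)‖ := by
        rw [← Finset.mul_sum, Finset.sum_comm]
    _ ≤ (1 / Q : ℝ) * ∑ b ∈ range Q, ε * H * X :=
        mul_le_mul_of_nonneg_left (Finset.sum_le_sum fun b _ => key _) (by positivity)
    _ = ε * H * X := by
        rw [Finset.sum_const, Finset.card_range, nsmul_eq_mul]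
        field_simp

end Pool.Agent.Lib.MP_3e612f_nt.LV
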