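import Pool.Agent.Lib.MP_3e612f_nt.LO.R.Ev

/-!
Parseval and short convolutions of functions with flat Fourier transform.
-/

set_option autoImplicit false

namespace Pool.Agent.Lib.MP_3e612f_nt.LV

open Finset
open Pool.Agent.Lib.MP_3e612f_nt.LORT

private theorem conv_orth {Q : ℕ} (hQ : 1 ≤ Q) {v w : ℕ} (hv : v < Q) (hw : w < Q) :
    ∑ k ∈ range Q, ev ((k : ℝ) * (((v : ℝ) - w) / Q)) = if v = w then (Q : ℂ) else 0 := by
  have hQ0 : (0 : ℝ) < Q := by exact_mod_cast hQ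
  split_ifs with h
  · subst h
    simp [ev_zero]
  · set ζ : ℂ := ev (((v : ℝ) - w) / Q) with hζ
    have h1 : ∀ k : ℕ, ev ((k : ℝ) * (((v : ℝ) - w) / Q)) = ζ ^ k := fun k => by
      rw [hζ, ev_pow]
    simp only [h1]
    have h2 : ζ ^ Q = 1 := by
      rw [hζ, ev_pow]
      have h3 : (Q : ℝ) * (((v : ℝ) - w) / Q) = (((v : ℤ) - w : ℤ) : ℝ) := by
        push_cast
        field_simp
      rw [h3, ev_int]
    have h4 : ζ ≠ 1 := by
      intro h5
      rw [hζ] at h5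
      unfold ev at h5
      rw [Complex.exp_eq_one_iff] at h5
      obtain ⟨n, hn⟩ := h5
      have h6 : ((((v : ℝ) - w) / Q : ℝ) : ℂ) = ((n : ℝ) : ℂ) := by
        have h7 : (2 * Real.pi * Complex.I : ℂ) ≠ 0 := Complex.two_pi_I_ne_zero
        apply mul_left_cancel₀ h7
        push_cast at hn ⊢
        linear_combination hn
      have h8 : ((v : ℝ) - w) / Q = (n : ℝ) := by exact_mod_cast h6
      rw [div_eq_iff hQ0.ne'] at h8
      have h9 : (v : ℤ) - w = n * Q := by exact_mod_cast h8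
      have h10 : n = 0 := by
        by_contra hn0
        rcases lt_or_gt_of_ne hn0 with h11 | h11
        · have : n * (Q : ℤ) ≤ -1 * Q := by
            apply mul_le_mul_of_nonneg_right _ (by positivity)
            omega
          omega
        · have : 1 * (Q : ℤ) ≤ n * Q := by
            apply mul_le_mul_of_nonneg_right _ (by positivity)
            omega
          omega
      rw [h10] at h9
      apply h
      omega
    have h5 := mul_geom_sum ζ Q
    rw [h2, sub_self] at h5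
    exact (mul_eq_zero.1 h5).resolve_left (sub_ne_zero.2 h4)

private theorem conv_nsq (z : ℂ) : ((‖z‖ ^ 2 : ℝ) : ℂ) = z * (starRingEnd ℂ) z := by
  rw [Complex.mul_conj, Complex.normSq_eq_norm_sq]

private theorem conv_shift {Q : ℕ} (h : ℕ → ℂ) (hp : ∀ n, h (n + Q) = h n) (d : ℕ) :
    ∑ a ∈ range Q, h (a + d) = ∑ a ∈ range Q, h a := by
  induction d with
  | zero => rfl
  | succ d ih =>
    rw [← ih]
    have h1 := Finset.sum_range_succ (fun a => h (a + d)) Q
    have h2 := Finset.sum_range_succ' (fun a => h (a + d)) Q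
    rw [h1] at h2
    have h3 : h (Q + d) = h (0 + d) := by
      rw [add_comm Q d, hp, zero_add]
    have h4 : ∑ a ∈ range Q, h (a + 1 + d) = ∑ a ∈ range Q, h (a + (d + 1)) :=
      Finset.sum_congr rfl fun a _ => by
        congr 1
        ring
    rw [h4, h3] at h2
    exact (add_right_cancel h2).symm

/-- Parseval modulo `Q`. PROOF: expand the square; `∑ k < Q, ev (k (v - v') / Q)` is `Q` if `v = v'` and `0`
otherwise (geometric sum; for `v, v' < Q`). -/
theorem parseval {Q : ℕ} (hQ : 1 ≤ Q) (f : ℕ → ℂ) :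
    ∑ k ∈ range Q, ‖∑ v ∈ range Q, f v * ev ((k : ℝ) * v / Q)‖ ^ 2 =
      (Q : ℝ) * ∑ v ∈ range Q, ‖f v‖ ^ 2 := by
  have key : ((∑ k ∈ range Q, ‖∑ v ∈ range Q, f v * ev ((k : ℝ) * v / Q)‖ ^ 2 : ℝ) : ℂ) =
      (((Q : ℝ) * ∑ v ∈ range Q, ‖f v‖ ^ 2 : ℝ) : ℂ) := by
    have h1 : ∀ k : ℕ, ((‖∑ v ∈ range Q, f v * ev ((k : ℝ) * v / Q)‖ ^ 2 : ℝ) : ℂ) =
        ∑ v ∈ range Q, ∑ w ∈ range Q,
          f v * (starRingEnd ℂ) (f w) * ev ((k : ℝ) * (((v : ℝ) - w) / Q)) := by
      intro k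
      rw [conv_nsq, map_sum, Finset.sum_mul_sum]
      refine Finset.sum_congr rfl fun v _ => Finset.sum_congr rfl fun w _ => ?_
      rw [map_mul, conj_ev]
      have h2 : (k : ℝ) * (((v : ℝ) - w) / Q) = (k : ℝ) * v / Q + -((k : ℝ) * w / Q) := by ring
      rw [h2, ev_add]
      ring
    rw [Complex.ofReal_sum]
    simp only [h1]
    rw [Finset.sum_comm]
    have h3 : ∀ v ∈ range Q, ∑ k ∈ range Q, ∑ w ∈ range Q,
        f v * (starRingEnd ℂ) (f w) * ev ((k : ℝ) * (((v : ℝ) - w) / Q)) =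
        (Q : ℂ) * ((‖f v‖ ^ 2 : ℝ) : ℂ) := by
      intro v hv
      rw [Finset.sum_comm]
      have h4 : ∀ w ∈ range Q, ∑ k ∈ range Q,
          f v * (starRingEnd ℂ) (f w) * ev ((k : ℝ) * (((v : ℝ) - w) / Q)) =
          if v = w then f v * (starRingEnd ℂ) (f w) * (Q : ℂ) else 0 := by
        intro w hw
        rw [← Finset.mul_sum, conv_orth hQ (Finset.mem_range.1 hv) (Finset.mem_range.1 hw)]
        split_ifs <;> simp
      rw [Finset.sum_congr rfl h4, Finset.sum_ite_eq, if_pos hv, conv_nsq]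
      ring
    rw [Finset.sum_congr rfl h3, ← Finset.mul_sum]
    push_cast
    rfl
  exact_mod_cast key

/-- PROOF: for `k < Q` put `ĝ k = ∑ v < Q, g v * ev (k v / Q)`, `B k = ∑ d < J, b d * ev (- k d / Q)` and
`H a = ∑ d < J, b d * g (a + d)`, which is `Q`-periodic. Then `∑ a < Q, H a * ev (k a / Q) = B k * ĝ k` (shift the
sum over `a` by `d`, periodicity). By `parseval` twice
`Q * ∑ a ‖H a‖² = ∑ k ‖B k‖² ‖ĝ k‖² ≤ (δ Q)² ∑ k ‖B k‖² = (δ Q)² Q ∑ d < J ‖b d‖² ≤ (δ Q)² Q J A²` (for the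
second use: extend `b` by `0` to `range Q`, possible since `J ≤ Q`; the conjugate phase by `k ↦ Q - k` or by
applying `parseval` to the conjugate). -/
theorem conv_sq {Q J : ℕ} (hQ : 1 ≤ Q) (hJ : J ≤ Q) (g b : ℕ → ℂ) {δ A : ℝ} (hδ : 0 ≤ δ)
    (hper : ∀ n, g (n + Q) = g n)
    (hflat : ∀ θ : ℝ, ‖∑ v ∈ range Q, g v * ev (θ * v)‖ ≤ δ * Q) (hb : ∀ d, ‖b d‖ ≤ A) :
    ∑ a ∈ range Q, ‖∑ d ∈ range J, b d * g (a + d)‖ ^ 2 ≤ (δ * Q) ^ 2 * (J * A ^ 2) := by
  have hQ0 : (0 : ℝ) < Q := by exact_mod_cast hQ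
  set H : ℕ → ℂ := fun a => ∑ d ∈ range J, b d * g (a + d) with hH
  set G : ℕ → ℂ := fun k => ∑ v ∈ range Q, g v * ev ((k : ℝ) * v / Q) with hG
  set B : ℕ → ℂ := fun k => ∑ d ∈ range J, b d * ev (-((k : ℝ) * d / Q)) with hB
  have e1 : ∀ k : ℕ, ∑ a ∈ range Q, H a * ev ((k : ℝ) * a / Q) = B k * G k := by
    intro k
    have hp : ∀ n : ℕ, g (n + Q) * ev ((k : ℝ) * ((n + Q : ℕ) : ℝ) / Q) = g n * ev ((k : ℝ) * n / Q) := by
      intro n
      rw [hper]
      congr 1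
      have h1 : (k : ℝ) * ((n + Q : ℕ) : ℝ) / Q = (k : ℝ) * n / Q + ((k : ℤ) : ℝ) := by
        push_cast
        field_simp
      rw [h1, ev_add_int]
    have h2 : ∀ a ∈ range Q, H a * ev ((k : ℝ) * a / Q) =
        ∑ d ∈ range J, b d * ev (-((k : ℝ) * d / Q)) *
          (g (a + d) * ev ((k : ℝ) * ((a + d : ℕ) : ℝ) / Q)) := by
      intro a _
      simp only [hH]
      rw [Finset.sum_mul]
      refine Finset.sum_congr rfl fun d _ => ?_
      have h3 : (k : ℝ) * a / Q = -((k : ℝ) * d / Q) + (k : ℝ) * ((a + d : ℕ) : ℝ) / Q := by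
        push_cast
        ring
      rw [h3, ev_add]
      ring
    rw [Finset.sum_congr rfl h2, Finset.sum_comm]
    simp only [hB, hG]
    rw [Finset.sum_mul]
    refine Finset.sum_congr rfl fun d _ => ?_
    rw [← Finset.mul_sum]
    congr 1
    exact conv_shift (fun n => g n * ev ((k : ℝ) * (n : ℝ) / Q)) hp d
  have e2 : ∀ k : ℕ, ‖G k‖ ≤ δ * Q := by
    intro k
    have h1 := hflat ((k : ℝ) / Q)
    have h2 : G k = ∑ v ∈ range Q, g v * ev ((k : ℝ) / Q * v) := by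
      simp only [hG]
      refine Finset.sum_congr rfl fun v _ => ?_
      congr 2
      ring
    rw [h2]
    exact h1
  have e3 : ∑ k ∈ range Q, ‖B k‖ ^ 2 ≤ Q * (J * A ^ 2) := by
    have h1 := parseval hQ (fun v => if v ∈ range J then (starRingEnd ℂ) (b v) else 0)
    have h2 : ∀ k ∈ range Q, ‖∑ v ∈ range Q, (if v ∈ range J then (starRingEnd ℂ) (b v) else 0) *
        ev ((k : ℝ) * v / Q)‖ ^ 2 = ‖B k‖ ^ 2 := by
      intro k _
      have h3 : ∑ v ∈ range Q, (if v ∈ range J then (starRingEnd ℂ) (b v) else 0) *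
          ev ((k : ℝ) * v / Q) = (starRingEnd ℂ) (B k) := by
        simp only [hB]
        rw [map_sum]
        have h4 : range J ⊆ range Q := Finset.range_subset_range.2 hJ
        rw [← Finset.sum_subset h4]
        · refine Finset.sum_congr rfl fun d hd => ?_
          rw [if_pos hd, map_mul, conj_ev, neg_neg]
        · intro v _ hv
          rw [if_neg hv, zero_mul]
      rw [h3, RCLike.norm_conj]
    rw [Finset.sum_congr rfl h2] at h1
    rw [h1]
    refine mul_le_mul_of_nonneg_left ?_ hQ0.le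
    have h5 : ∑ v ∈ range Q, ‖(if v ∈ range J then (starRingEnd ℂ) (b v) else 0 : ℂ)‖ ^ 2 =
        ∑ v ∈ range J, ‖b v‖ ^ 2 := by
      have h4 : range J ⊆ range Q := Finset.range_subset_range.2 hJ
      rw [← Finset.sum_subset h4]
      · refine Finset.sum_congr rfl fun d hd => ?_
        rw [if_pos hd, RCLike.norm_conj]
      · intro v _ hv
        rw [if_neg hv]
        simp
    rw [h5]
    refine (Finset.sum_le_sum fun d _ => pow_le_pow_left₀ (norm_nonneg _) (hb d) 2).trans ?_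
    rw [Finset.sum_const, Finset.card_range, nsmul_eq_mul]
  have e4 := parseval hQ H
  have e5 : ∑ k ∈ range Q, ‖∑ a ∈ range Q, H a * ev ((k : ℝ) * a / Q)‖ ^ 2 ≤
      (δ * Q) ^ 2 * (Q * (J * A ^ 2)) := by
    calc _ ≤ ∑ k ∈ range Q, (δ * Q) ^ 2 * ‖B k‖ ^ 2 := by
          refine Finset.sum_le_sum fun k _ => ?_
          rw [e1, norm_mul, mul_pow, mul_comm]
          exact mul_le_mul_of_nonneg_right (pow_le_pow_left₀ (norm_nonneg _) (e2 k) 2) (sq_nonneg _)
      _ ≤ _ := by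
          rw [← Finset.mul_sum]
          exact mul_le_mul_of_nonneg_left e3 (sq_nonneg _)
  rw [e4] at e5
  have e6 : (Q : ℝ) * ∑ v ∈ range Q, ‖H v‖ ^ 2 ≤ Q * ((δ * Q) ^ 2 * (J * A ^ 2)) := by
    refine e5.trans (le_of_eq ?_)
    ring
  exact le_of_mul_le_mul_left e6 hQ0

end Pool.Agent.Lib.MP_3e612f_nt.LV
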