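import Pool.Agent.Lib.MP_3e612f_nt.LV.Conv

/-!
Product of a periodic function and a flat periodic function with coprime periods on short intervals.
-/

set_option autoImplicit false

namespace Pool.Agent.Lib.MP_3e612f_nt.LV

open Finset
open Pool.Agent.Lib.MP_3e612f_nt.LORT

/-- summation over the residues modulo `Q₁ Q₂` (Chinese remainder theorem): the map `a ↦ (a % Q₁, a % Q₂)` is a
bijection of `range (Q₁ * Q₂)` onto `range Q₁ ×ˢ range Q₂` -/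
theorem crt_bij {Q₁ Q₂ : ℕ} (h₁ : 1 ≤ Q₁) (h₂ : 1 ≤ Q₂) (hcop : Nat.Coprime Q₁ Q₂) (Φ : ℕ → ℕ → ℝ) :
    ∑ a ∈ range (Q₁ * Q₂), Φ (a % Q₁) (a % Q₂) = ∑ a ∈ range Q₁, ∑ b ∈ range Q₂, Φ a b := by
  rw [← Finset.sum_product' (range Q₁) (range Q₂) Φ]
  have h1 : Q₁ ≠ 0 := by omega
  have h2 : Q₂ ≠ 0 := by omega
  refine Finset.sum_nbij' (fun a => (a % Q₁, a % Q₂))
    (fun x => (Nat.chineseRemainder hcop x.1 x.2 : ℕ)) ?_ ?_ ?_ ?_ ?_
  · intro a _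
    simp only [mem_product, mem_range]
    exact ⟨Nat.mod_lt _ (by omega), Nat.mod_lt _ (by omega)⟩
  · intro x _
    exact mem_range.2 (Nat.chineseRemainder_lt_mul hcop _ _ h1 h2)
  · intro a ha
    have h3 : a ≡ Nat.chineseRemainder hcop (a % Q₁) (a % Q₂) [MOD Q₁ * Q₂] :=
      Nat.chineseRemainder_modEq_unique hcop (Nat.mod_modEq a Q₁).symm (Nat.mod_modEq a Q₂).symm
    exact (Nat.ModEq.eq_of_lt_of_lt h3 (mem_range.1 ha)
      (Nat.chineseRemainder_lt_mul hcop _ _ h1 h2)).symm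
  · rintro ⟨x, y⟩ hx
    simp only [mem_product, mem_range] at hx
    have h3 := (Nat.chineseRemainder hcop x y).2
    refine Prod.ext ?_ ?_
    · show (Nat.chineseRemainder hcop x y : ℕ) % Q₁ = x
      have := h3.1
      unfold Nat.ModEq at this
      rw [this, Nat.mod_eq_of_lt hx.1]
    · show (Nat.chineseRemainder hcop x y : ℕ) % Q₂ = y
      have := h3.2
      unfold Nat.ModEq at this
      rw [this, Nat.mod_eq_of_lt hx.2]
  · intro a _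
    rfl

private theorem per_mod {Q : ℕ} {f : ℕ → ℂ} (hf : ∀ n, f (n + Q) = f n) (a d : ℕ) :
    f (a + d) = f (a % Q + d) := by
  have h : ∀ k n, f (n + Q * k) = f n := by
    intro k
    induction k with
    | zero => intro n; rfl
    | succ k ih => intro n; rw [Nat.mul_succ, ← add_assoc, hf, ih]
  conv_lhs => rw [← Nat.mod_add_div a Q]
  rw [add_right_comm, h]

/-- PROOF: the summand depends on `a % Q₁` and `a % Q₂` only: it is
`Φ (a % Q₁) (a % Q₂)`, `Φ a b = ‖∑ d < J, f (a + d) * g (b + d) * ev (θ * d)‖`. By `crt_bij`, Cauchy - Schwarz over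
`b < Q₂` and `conv_sq` with `b d = f (a + d) * ev (θ * d)`. -/
theorem crt_sum {Q₁ Q₂ J : ℕ} (h₁ : 1 ≤ Q₁) (h₂ : 1 ≤ Q₂) (hcop : Nat.Coprime Q₁ Q₂) (hJ : J ≤ Q₂)
    (f g : ℕ → ℂ) {δ A : ℝ} (hδ : 0 ≤ δ) (hA : 0 ≤ A) (hfp : ∀ n, f (n + Q₁) = f n)
    (hgp : ∀ n, g (n + Q₂) = g n) (hf : ∀ n, ‖f n‖ ≤ A)
    (hflat : ∀ θ : ℝ, ‖∑ v ∈ range Q₂, g v * ev (θ * v)‖ ≤ δ * Q₂) (θ : ℝ) :
    ∑ a ∈ range (Q₁ * Q₂), ‖∑ d ∈ range J, f (a + d) * g (a + d) * ev (θ * d)‖ ≤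
      A * (Q₁ * Q₂) * δ * √(Q₂ * J) := by
  let Φ : ℕ → ℕ → ℝ := fun a b => ‖∑ d ∈ range J, f (a + d) * g (b + d) * ev (θ * d)‖
  have h0 : ∀ a, ‖∑ d ∈ range J, f (a + d) * g (a + d) * ev (θ * d)‖ = Φ (a % Q₁) (a % Q₂) := by
    intro a
    show _ = ‖∑ d ∈ range J, f (a % Q₁ + d) * g (a % Q₂ + d) * ev (θ * d)‖
    congr 1
    refine sum_congr rfl fun d _ => ?_
    rw [per_mod hfp a d, per_mod hgp a d]
  have h3 : ∀ a, ∑ b ∈ range Q₂, Φ a b ≤ A * Q₂ * δ * √(Q₂ * J) := by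
    intro a
    have hev : ∀ d : ℕ, ‖f (a + d) * ev (θ * d)‖ ≤ A := by
      intro d
      rw [norm_mul, norm_ev, mul_one]
      exact hf _
    have h4 := conv_sq h₂ hJ g (fun d => f (a + d) * ev (θ * d)) hδ hgp hflat hev
    have h5 : ∑ b ∈ range Q₂, Φ a b ^ 2 ≤ (δ * Q₂) ^ 2 * (J * A ^ 2) := by
      refine le_trans (le_of_eq ?_) h4
      refine sum_congr rfl fun b _ => ?_
      show ‖∑ d ∈ range J, f (a + d) * g (b + d) * ev (θ * d)‖ ^ 2 = _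
      congr 2
      refine sum_congr rfl fun d _ => ?_
      ring
    have h6 := sq_sum_le_card_mul_sum_sq (s := range Q₂) (f := fun b => Φ a b)
    rw [card_range] at h6
    have hQ : (0 : ℝ) ≤ Q₂ := Nat.cast_nonneg _
    have hJ0 : (0 : ℝ) ≤ J := Nat.cast_nonneg _
    refine (pow_le_pow_iff_left₀ (sum_nonneg fun b _ => norm_nonneg _) (by positivity)
      two_ne_zero).1 ?_
    calc (∑ b ∈ range Q₂, Φ a b) ^ 2 ≤ Q₂ * ∑ b ∈ range Q₂, Φ a b ^ 2 := h6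
      _ ≤ Q₂ * ((δ * Q₂) ^ 2 * (J * A ^ 2)) := mul_le_mul_of_nonneg_left h5 hQ
      _ = (A * Q₂ * δ * √(Q₂ * J)) ^ 2 := by
        rw [mul_pow (A * Q₂ * δ) (√(Q₂ * J)), Real.sq_sqrt (mul_nonneg hQ hJ0)]
        ring
  calc ∑ a ∈ range (Q₁ * Q₂), ‖∑ d ∈ range J, f (a + d) * g (a + d) * ev (θ * d)‖
      = ∑ a ∈ range (Q₁ * Q₂), Φ (a % Q₁) (a % Q₂) := sum_congr rfl fun a _ => h0 a
    _ = ∑ a ∈ range Q₁, ∑ b ∈ range Q₂, Φ a b := crt_bij h₁ h₂ hcop Φ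
    _ ≤ ∑ _a ∈ range Q₁, A * Q₂ * δ * √(Q₂ * J) := sum_le_sum fun a _ => h3 a
    _ = A * (Q₁ * Q₂) * δ * √(Q₂ * J) := by
      rw [sum_const, card_range, nsmul_eq_mul]
      ring

end Pool.Agent.Lib.MP_3e612f_nt.LV
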