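import Pool.Agent.Lib.MP_3e612f_nt.LU.Sub

/-!
Products of universal subshifts have zero topological entropy.
-/

set_option autoImplicit false

namespace Pool.Agent.Lib.MP_3e612f_nt.LV

open Finset
open Pool.Agent.Lib.MP_3e612f_nt.PB

private theorem ent_iterate {r : ℕ} {G : Fin r → Type} (x : ∀ i, ℕ → G i) (j : ℕ) :
    (fun (x : ∀ i, ℕ → G i) i n => x i (n + 1))^[j] x = fun i n => x i (n + j) := by
  induction j generalizing x with
  | zero => rfl
  | succ j ih =>
    rw [Function.iterate_succ_apply, ih]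
    funext i n
    show x i (n + j + 1) = x i (n + (j + 1))
    rw [Nat.add_assoc]

private theorem ent_unif {r : ℕ} {G : Fin r → Type} [∀ i, UniformSpace (G i)]
    [∀ i, DiscreteUniformity (G i)]
    {U : Set ((∀ i, ℕ → G i) × (∀ i, ℕ → G i))} (hU : U ∈ uniformity (∀ i, ℕ → G i)) :
    ∃ m : ℕ, ∀ x y : ∀ i, ℕ → G i, (∀ i, ∀ j < m, x i j = y i j) → (x, y) ∈ U := by
  rw [Pi.uniformity, Filter.mem_iInf'] at hU
  obtain ⟨I, hI, V, hV, -, hUV, -⟩ := hU
  have h1 : ∀ i, ∃ m : ℕ, ∀ x y : ∀ i, ℕ → G i, (∀ j < m, x i j = y i j) → (x, y) ∈ V i := by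
    intro i
    obtain ⟨W, hW, hWV⟩ := hV i
    obtain ⟨m, hm⟩ := PS.SubD2_unif hW
    exact ⟨m, fun x y hxy => hWV (hm (x i) (y i) hxy)⟩
  choose m hm using h1
  refine ⟨∑ i, m i, fun x y hxy => ?_⟩
  rw [hUV]
  refine Set.mem_iInter₂.2 fun i _ => hm i x y fun j hj => hxy i j ?_
  exact lt_of_lt_of_le hj (single_le_sum (f := m) (fun _ _ => Nat.zero_le _) (mem_univ i))

/-- adapt `PS.UX_entropy` (file PS/SubD2.lean): for every factor `LU.XQ_subset` and `PS.UX_words` give codes of the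
blocks of length `2 ^ k` by `A i ^ (k + 1)` symbols; the code of a point of the product is the tuple of the codes
(at most `(∏ A i) ^ (k + 1)` values); `SubD2_unif` for the product uniformity (finitely many factors). -/
theorem prod_entropy {r : ℕ} (G : Fin r → Type) [∀ i, Group (G i)] [∀ i, Finite (G i)]
    [∀ i, UniformSpace (G i)] [∀ i, DiscreteUniformity (G i)] {B : ℕ} (hB : 2 ≤ B)
    {q : Fin r → ℕ → ℕ} (hq : ∀ i, Rad B (q i)) :
    Dynamics.coverEntropy (fun (x : ∀ i, ℕ → G i) i n => x i (n + 1))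
      {x | ∀ i, x i ∈ LU.XQ (G i) (q i)} = 0 := by
  apply le_antisymm
  · have hmaps : Set.MapsTo (fun (x : ∀ i, ℕ → G i) i n => x i (n + 1))
        {x | ∀ i, x i ∈ LU.XQ (G i) (q i)} {x | ∀ i, x i ∈ LU.XQ (G i) (q i)} :=
      fun x hx i => LU.XQ_shift (hx i) 1
    have : ∀ i, Filter.IsCountablyGenerated (uniformity (G i)) := by
      intro i
      rw [DiscreteUniformity.eq_principal_setRelId]
      infer_instance
    letI : PseudoMetricSpace (∀ i, ℕ → G i) := UniformSpace.pseudoMetricSpace (∀ i, ℕ → G i)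
    refine coverEntropy_le_zero hmaps ?_
    intro ε hε δ hδ
    obtain ⟨m, hm⟩ := ent_unif (G := G) (U := {p | dist p.1 p.2 < ε})
      (Metric.dist_mem_uniformity hε)
    choose A hA hw using fun i => PS.UX_words (G i) B hB
    have hA1 : 1 ≤ ∏ i, A i := Nat.one_le_iff_ne_zero.2
      (Finset.prod_ne_zero_iff.2 fun i _ => Nat.one_le_iff_ne_zero.1 (hA i))
    obtain ⟨k, hk1, hk2⟩ := PS.SubD2_growth (C := Real.log ((∏ i, A i : ℕ) : ℝ))
      (Real.log_nonneg (by exact_mod_cast hA1)) hδ m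
    choose c hc using fun i => hw i k
    have hcard : Fintype.card (∀ i, Fin (A i ^ (k + 1))) = (∏ i, A i) ^ (k + 1) := by
      rw [Fintype.card_pi]
      simp only [Fintype.card_fin]
      exact Finset.prod_pow _ _ _
    refine ⟨2 ^ k - m, by omega, (∏ i, A i) ^ (k + 1), ?_,
      fun x => Fintype.equivFinOfCardEq hcard (fun i => c i (x i)), ?_⟩
    · push_cast
      rw [Real.log_pow]
      push_cast
      push_cast at hk2
      exact hk2
    · intro x hx y hy hxy j hj
      apply hm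
      intro i l hl
      rw [ent_iterate, ent_iterate]
      have h1 : c i (x i) = c i (y i) :=
        congrFun ((Fintype.equivFinOfCardEq hcard).injective hxy) i
      exact hc i (x i) (LU.XQ_subset (G i) (hq i) (hx i)) (y i)
        (LU.XQ_subset (G i) (hq i) (hy i)) h1 (l + j) (by omega)
  · exact Dynamics.coverEntropy_nonneg _ ⟨fun _ _ => 1, fun i => LU.XQ_nonempty (G i) (q i)⟩

end Pool.Agent.Lib.MP_3e612f_nt.LV
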