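import Pool.Agent.Lib.MP_3e612f_nt.LV.Ent

/-!
Products of subshifts of small complexity have zero topological entropy.
-/

set_option autoImplicit false

namespace Pool.Agent.Lib.MP_3e612f_nt.LV

open Finset
open Pool.Agent.Lib.MP_3e612f_nt.PB

/-- the blocks of length `2 ^ k` are determined by one of `A ^ (k + 1)` codes -/
def Words {G : Type} (X : Set (ℕ → G)) : Prop :=
  ∃ A : ℕ, 1 ≤ A ∧ ∀ k : ℕ, ∃ c : (ℕ → G) → Fin (A ^ (k + 1)),
    ∀ x ∈ X, ∀ y ∈ X, c x = c y → ∀ i < 2 ^ k, x i = y i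

/-- PROOF. `LU.XQ_subset` and `PS.UX_words`. -/
theorem words_group (G : Type) [Group G] [Finite G] {B : ℕ} (hB : 2 ≤ B) {q : ℕ → ℕ}
    (hq : Rad B q) : Words (LU.XQ G q) := by
  obtain ⟨A, hA, hw⟩ := PS.UX_words G B hB
  refine ⟨A, hA, fun k => ?_⟩
  obtain ⟨c, hc⟩ := hw k
  exact ⟨c, fun x hx y hy h => hc x (LU.XQ_subset G hq hx) y (LU.XQ_subset G hq hy) h⟩

private theorem entW_iterate {ι : Type} {G : ι → Type} (x : ∀ i, ℕ → G i) (j : ℕ) :
    (fun (x : ∀ i, ℕ → G i) i n => x i (n + 1))^[j] x = fun i n => x i (n + j) := by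
  induction j generalizing x with
  | zero => rfl
  | succ j ih =>
    rw [Function.iterate_succ_apply, ih]
    funext i n
    show x i (n + j + 1) = x i (n + (j + 1))
    rw [Nat.add_assoc]

private theorem entW_unif {ι : Type} [Fintype ι] {G : ι → Type} [∀ i, UniformSpace (G i)]
    [∀ i, DiscreteUniformity (G i)]
    {U : Set ((∀ i, ℕ → G i) × (∀ i, ℕ → G i))} (hU : U ∈ uniformity (∀ i, ℕ → G i)) :
    ∃ m : ℕ, ∀ x y : ∀ i, ℕ → G i, (∀ i, ∀ j < m, x i j = y i j) → (x, y) ∈ U := by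
  rw [Pi.uniformity, Filter.mem_iInf'] at hU
  obtain ⟨I, hI, V, hV, -, hUV, -⟩ := hU
  have h1 : ∀ i, ∃ m : ℕ, ∀ x y : ∀ i, ℕ → G i, (∀ j < m, x i j = y i j) → (x, y) ∈ V i := by
    intro i
    obtain ⟨W, hW, hWV⟩ := hV i
    obtain ⟨m, hm⟩ := PS.SubD2_unif hW
    exact ⟨m, fun x y hxy => hWV (hm (x i) (y i) hxy)⟩
  choose m hm using h1
  refine ⟨∑ i, m i, fun x y hxy => ?_⟩
  rw [hUV]
  refine Set.mem_iInter₂.2 fun i _ => hm i x y fun j hj => hxy i j ?_
  exact lt_of_lt_of_le hj (single_le_sum (f := m) (fun _ _ => Nat.zero_le _) (mem_univ i))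

/-- PROOF. Copy the proof of `prod_entropy` (file Ent; `ent_unif` and `ent_iterate` for a finite index type `ι`). -/
theorem prod_entropyW {ι : Type} [Fintype ι] (G : ι → Type) [∀ i, Finite (G i)]
    [∀ i, UniformSpace (G i)] [∀ i, DiscreteUniformity (G i)] (X : ∀ i, Set (ℕ → G i))
    (hX : ∀ i, Words (X i)) (hne : ∀ i, (X i).Nonempty)
    (hs : ∀ i, ∀ x ∈ X i, (fun n => x (n + 1)) ∈ X i) :
    Dynamics.coverEntropy (fun (x : ∀ i, ℕ → G i) i n => x i (n + 1)) {x | ∀ i, x i ∈ X i} = 0 := by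
  classical
  apply le_antisymm
  · have hmaps : Set.MapsTo (fun (x : ∀ i, ℕ → G i) i n => x i (n + 1))
        {x | ∀ i, x i ∈ X i} {x | ∀ i, x i ∈ X i} :=
      fun x hx i => hs i (x i) (hx i)
    have : ∀ i, Filter.IsCountablyGenerated (uniformity (G i)) := by
      intro i
      rw [DiscreteUniformity.eq_principal_setRelId]
      infer_instance
    let _ : PseudoMetricSpace (∀ i, ℕ → G i) := UniformSpace.pseudoMetricSpace (∀ i, ℕ → G i)
    refine coverEntropy_le_zero hmaps ?_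
    intro ε hε δ hδ
    obtain ⟨m, hm⟩ := entW_unif (G := G) (U := {p | dist p.1 p.2 < ε})
      (Metric.dist_mem_uniformity hε)
    choose A hA hw using hX
    have hA1 : 1 ≤ ∏ i, A i := Nat.one_le_iff_ne_zero.2
      (Finset.prod_ne_zero_iff.2 fun i _ => Nat.one_le_iff_ne_zero.1 (hA i))
    obtain ⟨k, hk1, hk2⟩ := PS.SubD2_growth (C := Real.log ((∏ i, A i : ℕ) : ℝ))
      (Real.log_nonneg (by exact_mod_cast hA1)) hδ m
    choose c hc using fun i => hw i k
    have hcard : Fintype.card (∀ i, Fin (A i ^ (k + 1))) = (∏ i, A i) ^ (k + 1) := by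
      rw [Fintype.card_pi]
      simp only [Fintype.card_fin]
      exact Finset.prod_pow _ _ _
    refine ⟨2 ^ k - m, by omega, (∏ i, A i) ^ (k + 1), ?_,
      fun x => Fintype.equivFinOfCardEq hcard (fun i => c i (x i)), ?_⟩
    · push_cast
      rw [Real.log_pow]
      push_cast
      push_cast at hk2
      exact hk2
    · intro x hx y hy hxy j hj
      apply hm
      intro i l hl
      rw [entW_iterate, entW_iterate]
      have h1 : c i (x i) = c i (y i) :=
        congrFun ((Fintype.equivFinOfCardEq hcard).injective hxy) i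
      exact hc i (x i) (hx i) (y i) (hy i) h1 (l + j) (by omega)
  · exact Dynamics.coverEntropy_nonneg _ ⟨fun i => (hne i).choose, fun i => (hne i).choose_spec⟩

end Pool.Agent.Lib.MP_3e612f_nt.LV
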