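import Pool.Agent.Lib.MP_3e612f_nt.LV.TwUns
import Pool.Agent.Lib.MP_3e612f_nt.PS.SubA

/-!
Digit products with values in a finite group form a good class.
-/

set_option autoImplicit false

namespace Pool.Agent.Lib.MP_3e612f_nt.LV

open Finset Filter Topology
open Pool.Agent.Lib.MP_3e612f_nt.PB
open Pool.Agent.Lib.MP_3e612f_nt.LORT (ev)

/-- real functions of digit products with values in `G` -/
def FG (G : Type) [Group G] (q : ℕ → ℕ) : Set (ℕ → ℝ) :=
  {F | ∃ (g : ℕ → ℕ → G) (L : ℕ) (f : G → ℝ), (∀ x, |f x| ≤ 1) ∧ ∀ m, F m = f (hw q g 0 L m)}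

private theorem gg_ext {G : Type} [Group G] (q : ℕ → ℕ) (g : ℕ → ℕ → G) (L K : ℕ) :
    ∃ (g' : ℕ → ℕ → G) (l : ℕ), ∀ m, hw q g 0 L m = hw q g' 0 (K + l) m := by
  classical
  rcases le_or_gt K L with h | h
  · exact ⟨g, L - K, fun m => by rw [Nat.add_sub_cancel' h]⟩
  · obtain ⟨e, rfl⟩ : ∃ e, K = L + e := ⟨K - L, by omega⟩
    refine ⟨fun j => if j < L then g j else fun _ => 1, 0, fun m => ?_⟩
    rw [Nat.add_zero, hw_add, PS.SubA_one q _ (0 + L) e _ fun a h1 _ d => ?_, mul_one]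
    · refine PS.SubA_congr q _ _ 0 L _ fun a _ h2 d => ?_
      rw [if_pos (by omega)]
    · rw [if_neg (by omega)]

/-- **finite groups are good**. PROOF. `C = card G`, `B0 = max B (card (G × G))`. Given `ε, P, δ`: for every `n` choose
`k n` with `p * r < 2 ^ k n` for `p, r ∈ P n` and `κ n` with
`n * (4 * card (G × G) * √(rhoT (G × G) B (k n) ^ κ n)) ≤ δ n` (compare `LU.unstr_class`), put
`f n = (n + 2) * ((5 * k n + 1) * (κ n + 1)) ^ card (G × G)`; `parts_first G B f` gives `R`;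
`M = card G * B.factorial`, `K0 = 0`, `𝒱 n K = {V | ∃ g, Neu g ∧ UnsP q g K n (f n) V}`. Primes `p < r` of `P n` are
odd (larger than `B ≥ 2`), so `p + 2 ≤ r`, and `r` does not divide `q j ≤ B`. For `F m = h (hw q g 0 L m)`: if
`K ≤ L` then `hw q g 0 L m = hw q g 0 K m * hw q g K (L - K) (m / Qr q 0 K)` (`PB.hw_add`); if `L < K` replace `g` by
the map which is `1` at the positions `≥ L` (`PS.SubA_one`, `PS.SubA_congr` as in `LU.trunc0`) and `L` by `K`. `PB.gauge`
on the positions below `K`: `hw q g 0 K m = hw q g' 0 K m * t`. With an equivalence `e : G ≃ Fin (card G)` put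
`z u = e (hw q g K (L - K) u)`, and `U c, V c` from `parts_first` for the function `x ↦ h (x * t * e.symm c)` (the
number `n` is the same for all `c`), `E c = 0`. -/
theorem good_group (G : Type) [Group G] [Fintype G] (B : ℕ) : Good B (FG G) := by
  classical
  refine ⟨Fintype.card G, max B (Fintype.card (G × G)), fun ε hε P δ hP hδ => ?_⟩
  have hkex : ∀ n : ℕ, ∃ k : ℕ, ∀ p ∈ P n, ∀ r ∈ P n, p * r < 2 ^ k := by
    intro n
    refine ⟨(P n).sup id * (P n).sup id, fun p hp r hr => ?_⟩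
    have h1 : p ≤ (P n).sup id := Finset.le_sup (f := id) hp
    have h2 : r ≤ (P n).sup id := Finset.le_sup (f := id) hr
    calc p * r ≤ (P n).sup id * (P n).sup id := Nat.mul_le_mul h1 h2
      _ < 2 ^ ((P n).sup id * (P n).sup id) := Nat.lt_two_pow_self
  choose k hk using hkex
  have hκex : ∀ n : ℕ, ∃ κ : ℕ, (n : ℝ) * (4 * (Fintype.card (G × G) : ℝ) *
      √(rhoT (G × G) B (k n) ^ κ)) ≤ δ n := by
    intro n
    have h1 : Tendsto (fun κ : ℕ => (n : ℝ) * (4 * (Fintype.card (G × G) : ℝ) *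
        √(rhoT (G × G) B (k n) ^ κ))) atTop (𝓝 0) := by
      have h4 := tendsto_pow_atTop_nhds_zero_of_lt_one (rhoT_nonneg (G × G) B (k n))
        (rhoT_lt_one (G × G) B (k n))
      have h5 := (Real.continuous_sqrt.tendsto 0).comp h4
      rw [Real.sqrt_zero] at h5
      have h6 := (h5.const_mul (4 * (Fintype.card (G × G) : ℝ))).const_mul (n : ℝ)
      rw [mul_zero, mul_zero] at h6
      exact h6
    exact ((h1.eventually (gt_mem_nhds (hδ n))).exists).imp fun _ h => h.le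
  choose κ hκ using hκex
  obtain ⟨f, hf⟩ : ∃ f : ℕ → ℕ, ∀ n,
      f n = (n + 2) * ((5 * k n + 1) * (κ n + 1)) ^ Fintype.card (G × G) := ⟨_, fun _ => rfl⟩
  obtain ⟨R, hR⟩ := parts_first G B f
  have hM : 1 ≤ Fintype.card G * B.factorial :=
    Nat.mul_pos Fintype.card_pos (Nat.factorial_pos B)
  refine ⟨R, Fintype.card G * B.factorial, 0, hM, fun q hq => ?_⟩
  refine ⟨fun n K => {V | ∃ g : ℕ → ℕ → G, Neu g ∧ UnsP q g K n (f n) V}, ?_, ?_, ?_⟩
  · rintro n K V ⟨g, _, hV⟩
    exact UnsP_per hq hV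
  · rintro n _ K _ V₁ ⟨g₁, hg₁, hV₁⟩ V₂ ⟨g₂, hg₂, hV₂⟩ p hp r hr hpr θ s₁ s₂
    have hpp := hP n p hp
    have hrr := hP n r hr
    have hB := le_max_left B (Fintype.card (G × G))
    have hq0 := hq 0
    have hrq : ∀ j, ¬ r ∣ q j := by
      intro j hd
      have h1 := Nat.le_of_dvd (by have := (hq j).1; omega) hd
      have h2 := (hq j).2
      omega
    have hGr : Fintype.card (G × G) < r := lt_of_le_of_lt (le_max_right _ _) hrr.2
    have hp3 : 3 ≤ p := by omega
    have hpr2 : p + 2 ≤ r := by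
      have h1 : p % 2 = 1 := by
        rcases hpp.1.eq_two_or_odd with h | h
        · omega
        · exact h
      have h2 : r % 2 = 1 := by
        rcases hrr.1.eq_two_or_odd with h | h
        · omega
        · exact h
      omega
    rw [hf] at hV₁ hV₂
    refine (uns_pairT hq hg₁ hg₂ (by omega : 2 ≤ p) hpr2 hrr.1 hrq (hk n p hp r hr) hGr hV₁ hV₂
      θ s₁ s₂).trans ?_
    exact mul_le_mul_of_nonneg_right (hκ n) (Nat.cast_nonneg _)
  · rintro K _ F ⟨g, L, h, hh, hF⟩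
    obtain ⟨g₁, l, hg₁⟩ := gg_ext q g L K
    obtain ⟨g', t, hg', ht⟩ := gauge q g₁ K
    obtain ⟨n, hn, hUV⟩ := hR q hq g' hg' K
    choose U V h1 h2 h3 h4 using fun c : Fin (Fintype.card G) =>
      hUV (fun x => h (x * t * (Fintype.equivFin G).symm c)) fun x => hh _
    refine ⟨n, hn, fun u => Fintype.equivFin G (hw q g₁ K l u), U, V, fun _ _ => 0, ?_, ?_, ?_, ?_⟩
    · intro m
      rw [← h1, hF, hg₁, hw_add, ht, Nat.zero_add, Equiv.symm_apply_apply, add_zero]
    · exact fun c => ⟨h2 c, h3 c⟩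
    · exact fun c => ⟨g', hg', h4 c⟩
    · intro c
      refine ⟨fun m => by rw [abs_zero]; norm_num, fun m => rfl, ?_⟩
      rw [Finset.sum_eq_zero fun v _ => abs_zero]
      positivity

end Pool.Agent.Lib.MP_3e612f_nt.LV
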