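import Pool.Agent.Lib.MP_3e612f_nt.LV.StrT

/-!
The local theorem for products of good classes in coprime radices.
-/

set_option autoImplicit false

namespace Pool.Agent.Lib.MP_3e612f_nt.LV

open Finset
open Pool.Agent.Lib.MP_3e612f_nt.PB (Rad Qr)
open Pool.Agent.Lib.MP_3e612f_nt.LOD
open Pool.Agent.Lib.MP_3e612f_nt.LORT
open Pool.Agent.Lib.MP_3e612f_nt.PI (mc)

/-- the exceptional part. PROOF: bound by the sum over all states `c`, `per_sum`. -/
theorem e_part {Q C : ℕ} (hQ : 1 ≤ Q) {ε : ℝ} (E : Fin C → ℕ → ℝ)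
    (hper : ∀ c m, E c (m + Q) = E c m) (hE : ∀ c, ∑ v ∈ range Q, |E c v| ≤ ε * Q)
    (z : ℕ → Fin C) (s h : ℕ) :
    ∑ m ∈ range h, |E (z ((m + s) / Q)) (m + s)| ≤ C * ((h : ℝ) + Q) * ε := by
  have h1 : ∀ m, |E (z ((m + s) / Q)) (m + s)| ≤ ∑ c, |E c (m + s)| := fun m =>
    Finset.single_le_sum (f := fun c => |E c (m + s)|) (fun c _ => abs_nonneg _) (mem_univ _)
  refine (sum_le_sum fun m _ => h1 m).trans ?_
  rw [sum_comm]
  have h2 : ∀ c, ∑ m ∈ range h, |E c (m + s)| ≤ ((h : ℝ) + Q) * ε := by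
    intro c
    have h3 := per_sum (fun a => |E c a|) (fun a => abs_nonneg _) hQ (fun a => by rw [hper]) s h
    refine h3.trans ?_
    have hQ' : (0 : ℝ) < Q := by exact_mod_cast hQ
    calc ((h : ℝ) / Q + 1) * ∑ a ∈ range Q, |E c a| ≤ ((h : ℝ) / Q + 1) * (ε * Q) :=
          mul_le_mul_of_nonneg_left (hE c) (by positivity)
      _ = ((h : ℝ) + Q) * ε := by field_simp
  refine (sum_le_sum fun c _ => h2 c).trans (le_of_eq ?_)
  rw [sum_const, card_univ, Fintype.card_fin, nsmul_eq_mul]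
  ring

/-! ### Auxiliary lemmas -/

/-- the body of `Good` -/
private def GoodC (C B0 B : ℕ) (𝓕 : (ℕ → ℕ) → Set (ℕ → ℝ)) : Prop :=
  ∀ ε : ℝ, 0 < ε → ∀ (P : ℕ → Finset ℕ) (δ : ℕ → ℝ),
    (∀ n, ∀ p ∈ P n, p.Prime ∧ B0 < p) → (∀ n, 0 < δ n) →
    ∃ R M K0 : ℕ, 1 ≤ M ∧ ∀ q : ℕ → ℕ, Rad B q → ∃ 𝒱 : ℕ → ℕ → Set (ℕ → ℝ),
      (∀ n K, ∀ V ∈ 𝒱 n K, (∀ m, |V m| ≤ 2) ∧ ∀ m, V (m + Qr q 0 K) = V m) ∧
      (∀ n ≤ R, ∀ K ≥ K0, Flat (P n) (δ n) (Qr q 0 K) (𝒱 n K)) ∧
      ∀ K ≥ K0, ∀ F ∈ 𝓕 q, ∃ n ≤ R, ∃ (z : ℕ → Fin C) (U V E : Fin C → ℕ → ℝ),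
        (∀ m, F m = U (z (m / Qr q 0 K)) m + V (z (m / Qr q 0 K)) m + E (z (m / Qr q 0 K)) m) ∧
        (∀ c, Str M R (U c) ∧ ∀ m, U c (m + Qr q 0 K) = U c m) ∧ (∀ c, V c ∈ 𝒱 n K) ∧
        ∀ c, (∀ m, |E c m| ≤ 2) ∧ (∀ m, E c (m + Qr q 0 K) = E c m) ∧
          ∑ v ∈ range (Qr q 0 K), |E c v| ≤ ε * Qr q 0 K

private theorem str_zero (M R : ℕ) : Str M R 0 :=
  ⟨0, Nat.zero_le _, Fin.elim0, fun i => i.elim0, fun _ => 0, fun _ => by simp, fun _ => rfl⟩

private theorem str_mono {M R M' R' : ℕ} (hM : M ∣ M') (hR : R ≤ R') {U : ℕ → ℝ}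
    (h : Str M R U) : Str M' R' U := by
  obtain ⟨n, hn, D, hD, Ψ, hΨ, hU⟩ := h
  refine ⟨n, hn.trans hR, D, hD, fun e => Ψ fun i => e i % M, fun e => hΨ _, fun m => ?_⟩
  rw [hU]
  congr 1
  funext i
  exact (Nat.mod_mod_of_dvd _ hM).symm

private theorem str_abs {M R : ℕ} {U : ℕ → ℝ} (h : Str M R U) (m : ℕ) : |U m| ≤ 1 := by
  obtain ⟨n, _, D, _, Ψ, hΨ, hU⟩ := h
  rw [hU]
  exact hΨ _

/-- extension of a family by zero -/
private noncomputable def ext {C : ℕ} (C' : ℕ) (A : Fin C → ℕ → ℝ) : Fin C' → ℕ → ℝ := fun c =>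
  if h : c.1 < C then A ⟨c.1, h⟩ else 0

private theorem ext_cast {C C' : ℕ} (hC : C ≤ C') (A : Fin C → ℕ → ℝ) (c : Fin C) :
    ext C' A (Fin.castLE hC c) = A c := by
  unfold ext
  rw [dif_pos (by exact c.2)]
  rfl

private theorem ext_ind {C C' : ℕ} {A : Fin C → ℕ → ℝ} {p : (ℕ → ℝ) → Prop} (h : ∀ c, p (A c))
    (h0 : p 0) (c : Fin C') : p (ext C' A c) := by
  unfold ext
  split_ifs with hc
  · exact h _
  · exact h0

private theorem goodC_mono {C C' B0 B0' B : ℕ} {𝓕 : (ℕ → ℕ) → Set (ℕ → ℝ)} (hC : C ≤ C')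
    (hB : B0 ≤ B0') (h : GoodC C B0 B 𝓕) : GoodC C' B0' B 𝓕 := by
  intro ε hε P δ hP hδ
  obtain ⟨R, M, K0, hM, h1⟩ := h ε hε P δ (fun n p hp => ⟨(hP n p hp).1,
    lt_of_le_of_lt hB (hP n p hp).2⟩) hδ
  refine ⟨R, M, K0, hM, fun q hq => ?_⟩
  obtain ⟨𝒱, a1, a2, a3⟩ := h1 q hq
  refine ⟨fun n K => insert 0 (𝒱 n K), ?_, ?_, ?_⟩
  · intro n K V hV
    rcases hV with rfl | hV
    · exact ⟨fun m => by simp, fun m => rfl⟩
    · exact a1 n K V hV
  · intro n hn K hK V₁ hV₁ V₂ hV₂ p hp r hr hpr θ s₁ s₂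
    have h0 : 0 ≤ δ n * Qr q 0 K := mul_nonneg (hδ n).le (Nat.cast_nonneg _)
    rcases hV₁ with rfl | hV₁
    · refine le_trans (le_of_eq ?_) h0
      simp
    rcases hV₂ with rfl | hV₂
    · refine le_trans (le_of_eq ?_) h0
      simp
    exact a2 n hn K hK V₁ hV₁ V₂ hV₂ p hp r hr hpr θ s₁ s₂
  · intro K hK F hF
    obtain ⟨n, hn, z, U, V, E, b1, b2, b3, b4⟩ := a3 K hK F hF
    refine ⟨n, hn, fun m => Fin.castLE hC (z m), ext C' U, ext C' V, ext C' E, fun m => ?_,
      fun c => ?_, fun c => ?_, fun c => ?_⟩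
    · rw [ext_cast, ext_cast, ext_cast]
      exact b1 m
    · exact ext_ind (p := fun A => Str M R A ∧ ∀ m, A (m + Qr q 0 K) = A m) b2
        ⟨str_zero M R, fun m => rfl⟩ c
    · exact ext_ind (p := fun A => A ∈ insert 0 (𝒱 n K)) (fun c => Set.mem_insert_of_mem _ (b3 c))
        (Set.mem_insert _ _) c
    · refine ext_ind (p := fun A => (∀ m, |A m| ≤ 2) ∧ (∀ m, A (m + Qr q 0 K) = A m) ∧
          ∑ v ∈ range (Qr q 0 K), |A v| ≤ ε * Qr q 0 K) b4 ⟨fun m => by simp, fun m => rfl, ?_⟩ c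
      have h0 : 0 ≤ ε * Qr q 0 K := mul_nonneg hε.le (Nat.cast_nonneg _)
      simpa using h0

/-- the sum of the theorem -/
private noncomputable def sg (h X : ℕ) (α : ℝ) (G : ℕ → ℕ → ℝ) : ℝ :=
  ∑ x ∈ range X, ‖∑ m ∈ range h, mc (x + m) * ((G x m : ℂ) * ev (α * m))‖

private theorem sg_add (h X : ℕ) (α : ℝ) (G₁ G₂ : ℕ → ℕ → ℝ) :
    sg h X α (fun x m => G₁ x m + G₂ x m) ≤ sg h X α G₁ + sg h X α G₂ := by
  unfold sg
  rw [← sum_add_distrib]
  refine sum_le_sum fun x _ => ?_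
  refine le_trans (le_of_eq ?_) (norm_add_le _ _)
  rw [← sum_add_distrib]
  congr 1
  refine sum_congr rfl fun m _ => ?_
  push_cast
  ring

private theorem sg_sum {ι : Type} (h X : ℕ) (α : ℝ) (t : Finset ι) (G : ι → ℕ → ℕ → ℝ) :
    sg h X α (fun x m => ∑ i ∈ t, G i x m) ≤ ∑ i ∈ t, sg h X α (G i) := by
  classical
  induction t using Finset.induction_on with
  | empty =>
    simp only [sum_empty]
    unfold sg
    simp
  | insert i t hi ih =>
    simp only [sum_insert hi]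
    exact (sg_add _ _ _ _ _).trans (add_le_add le_rfl ih)

private theorem sg_abs (h X : ℕ) (α : ℝ) (G : ℕ → ℕ → ℝ) :
    sg h X α G ≤ ∑ x ∈ range X, ∑ m ∈ range h, |G x m| := by
  unfold sg
  refine sum_le_sum fun x _ => (norm_sum_le _ _).trans (sum_le_sum fun m _ => ?_)
  rw [norm_mul, norm_mul, norm_ev, mul_one, Complex.norm_real, Real.norm_eq_abs]
  exact mul_le_of_le_one_left (abs_nonneg _) (base_norm_mc _)

private theorem prod_three {r : ℕ} (i : Fin r) (a b c : Fin r → ℝ) :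
    ∏ j, (if j < i then a j else if j = i then b j else c j) =
      b i * (∏ j with j < i, a j) * ∏ j with i < j, c j := by
  rw [Finset.prod_ite]
  have h1 : (univ.filter fun j : Fin r => ¬ j < i) = insert i (univ.filter fun j => i < j) := by
    ext j
    simp only [mem_filter, mem_univ, true_and, mem_insert, not_lt]
    exact ⟨fun h => (eq_or_lt_of_le h).imp Eq.symm id, fun h => h.elim (fun h => h.ge) le_of_lt⟩
  have h2 : i ∉ univ.filter fun j : Fin r => i < j := by simp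
  rw [h1, prod_insert h2, if_pos rfl]
  have h3 : ∏ j with i < j, (if j = i then b j else c j) = ∏ j with i < j, c j :=
    prod_congr rfl fun j hj => if_neg (ne_of_gt (mem_filter.1 hj).2)
  rw [h3]
  ring

private theorem scale {B K0 T : ℕ} {q : ℕ → ℕ} (hq : Rad B q) (hT : 1 ≤ T) (hT0 : B ^ K0 ≤ T) :
    Qr q 0 (Nat.findGreatest (fun k => Qr q 0 k ≤ T) T) ≤ T ∧
      T ≤ B * Qr q 0 (Nat.findGreatest (fun k => Qr q 0 k ≤ T) T) ∧
      K0 ≤ Nat.findGreatest (fun k => Qr q 0 k ≤ T) T := by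
  have h0 : Qr q 0 0 ≤ T := by
    rw [PB.Qr_zero]
    exact hT
  have h1 := Nat.findGreatest_spec (P := fun k => Qr q 0 k ≤ T) (Nat.zero_le T) h0
  have hself : ∀ k, k < Qr q 0 k := fun k => PB.lt_Qr_self hq 0 k
  refine ⟨h1, ?_, ?_⟩
  · by_contra hcon
    push Not at hcon
    have hB : q (0 + Nat.findGreatest (fun k => Qr q 0 k ≤ T) T) ≤ B := (hq _).2
    have h2 : Qr q 0 (Nat.findGreatest (fun k => Qr q 0 k ≤ T) T + 1) ≤ T := by
      rw [PB.Qr_succ]
      calc _ ≤ Qr q 0 (Nat.findGreatest (fun k => Qr q 0 k ≤ T) T) * B :=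
            Nat.mul_le_mul_left _ hB
        _ = B * Qr q 0 (Nat.findGreatest (fun k => Qr q 0 k ≤ T) T) := mul_comm _ _
        _ ≤ T := hcon.le
    have h3 : Nat.findGreatest (fun k => Qr q 0 k ≤ T) T + 1 ≤ T := by
      have := hself (Nat.findGreatest (fun k => Qr q 0 k ≤ T) T + 1)
      omega
    have h4 := Nat.le_findGreatest (P := fun k => Qr q 0 k ≤ T) h3 h2
    omega
  · have h2 : Qr q 0 K0 ≤ T := (PB.Qr_le_pow hq 0 K0).trans hT0
    refine Nat.le_findGreatest ?_ h2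
    have := hself K0
    omega

private theorem qr_cop {q q' : ℕ → ℕ} (h : ∀ j j', Nat.Coprime (q j) (q' j')) (k k' : ℕ) :
    Nat.Coprime (Qr q 0 k) (Qr q' 0 k') := by
  unfold Qr
  exact Nat.Coprime.prod_left fun i _ => Nat.Coprime.prod_right fun i' _ => h _ _

/-- **the local theorem for products**. PROOF. If `r = 0` this is `mrt` with `Q = 1`. Let `C` be the maximum of the
constants `C` of the factors (extend the families `U c` etc. to `Fin C` by repetition or by `0`; or, better, first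
prove `Good` is monotone in `C`), `B0` the maximum of the `B0`, `B` the maximum of the `B i`. Put
`εn = ε / 2 ^ (n + 4) / (r + 1)`, `vclass B0 r C B (A := 6) εn` gives `P n`, `δ n`. Tolerance for the exceptional part
`ε' = ε / (100 (r + 1) (C + 1) 6 ^ r)`. `Good` gives `R i`, `M i`, `K0 i`; `R = max`, `M = ∏ M i` (a function of
residues modulo `M i` is a function of residues modulo a multiple, `Str_mono`). `T = log₂ h`,
`K i = Nat.findGreatest (fun k => Qr (q i) 0 k ≤ T) T`: `Q i = Qr (q i) 0 (K i) ≤ T < B Q i` and `K i ≥ K0 i` for large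
`h` (as `Qr (q i) 0 K0 ≤ B ^ K0`). The `Q i` are pairwise coprime. Decompose `F x i = (U + V + E)_z`; by
`Finset.prod_add_ordered` (with `f = U_z`, `g = V_z + E_z`)
`∏ F = ∏ U_z + ∑ i, (V_z + E_z) i * ∏ j < i, F j * ∏ j > i, U_z j`. First term: `str_part`. The terms with `E`:
all other factors are at most `1` in absolute value, `e_part`, sum `≤ 2 C ε' h`. The terms with `V i`: split the `x` by
the number `n = n x i ≤ R` (`∑ n ≤ R` of the sums with `w x i = 0` for `x` not in the class `n`); for every `n`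
`vclass` with `w x j = U + V + E` for `j < i` (bounded by `1 + 2 + 2`, periodic), `U` for `j > i`, `V` for `j = i`:
`≤ εn h X`. Note that `vclass` wants the flatness for all `x, y`: it holds for the zero function. -/
theorem multi (hMR : MRp) {r : ℕ} (B : Fin r → ℕ) (𝓕 : Fin r → (ℕ → ℕ) → Set (ℕ → ℝ))
    (hG : ∀ i, Good (B i) (𝓕 i)) {ε : ℝ} (hε : 0 < ε) :
    ∃ h0 : ℕ, ∀ h ≥ h0, ∃ X0 : ℕ, ∀ X ≥ X0, ∀ q : Fin r → ℕ → ℕ, (∀ i, Rad (B i) (q i)) →
      (∀ i i', i ≠ i' → ∀ j j', Nat.Coprime (q i j) (q i' j')) →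
      ∀ (α : ℝ) (s : ℕ → Fin r → ℕ) (F : ℕ → Fin r → ℕ → ℝ), (∀ x i, F x i ∈ 𝓕 i (q i)) →
        (∀ x i m, |F x i m| ≤ 1) →
        ∑ x ∈ range X, ‖∑ m ∈ range h, mc (x + m) *
          (((∏ i, F x i (m + s x i) : ℝ) : ℂ) * ev (α * m))‖ ≤ ε * h * X := by
  classical
  have hG1 : ∀ i, ∃ C B0 : ℕ, GoodC C B0 (B i) (𝓕 i) := hG
  choose Cf B0f hG2 using hG1
  obtain ⟨C, hC⟩ : ∃ C, C = ∑ i, Cf i := ⟨_, rfl⟩
  obtain ⟨B0, hB0⟩ : ∃ B0, B0 = ∑ i, B0f i := ⟨_, rfl⟩
  obtain ⟨BB, hBB⟩ : ∃ BB, BB = ∑ i, B i := ⟨_, rfl⟩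
  have hG3 : ∀ i, GoodC C B0 (B i) (𝓕 i) := fun i => goodC_mono
    (by rw [hC]; exact Finset.single_le_sum (f := Cf) (fun _ _ => Nat.zero_le _) (mem_univ i))
    (by rw [hB0]; exact Finset.single_le_sum (f := B0f) (fun _ _ => Nat.zero_le _) (mem_univ i))
    (hG2 i)
  have hBi : ∀ i, B i ≤ BB := fun i => by
    rw [hBB]
    exact Finset.single_le_sum (f := B) (fun _ _ => Nat.zero_le _) (mem_univ i)
  -- the classes
  have hεn : ∀ n : ℕ, 0 < ε / (8 * (r + 1)) * (1 / 2) ^ n := fun n => by positivity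
  choose P δ hP hδ h0 hcl using fun n : ℕ =>
    vclass B0 r C BB (A := 6) (by norm_num) (hεn n)
  -- the decompositions
  have hε' : 0 < ε / (8 * (r + 1) * (C + 1)) := by positivity
  choose Rf Mf K0f hMf hdec using fun i => hG3 i _ hε' P δ hP hδ
  obtain ⟨R, hR⟩ : ∃ R, R = ∑ i, Rf i := ⟨_, rfl⟩
  obtain ⟨M, hM⟩ : ∃ M, M = ∏ i, Mf i := ⟨_, rfl⟩
  have hRi : ∀ i, Rf i ≤ R := fun i => by
    rw [hR]
    exact Finset.single_le_sum (f := Rf) (fun _ _ => Nat.zero_le _) (mem_univ i)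
  have hM1 : 1 ≤ M := by
    rw [hM]
    have e : 0 < ∏ i, Mf i := Finset.prod_pos fun i _ => Nat.lt_of_lt_of_le Nat.zero_lt_one (hMf i)
    exact e
  have hMi : ∀ i, Mf i ∣ M := fun i => by
    rw [hM]
    exact Finset.dvd_prod_of_mem Mf (mem_univ i)
  obtain ⟨h1, hstr⟩ := str_part hMR r R M C BB hM1 (ε := ε / 4) (by positivity)
  obtain ⟨T0, hT0⟩ : ∃ T0, T0 = ∑ i, B i ^ K0f i := ⟨_, rfl⟩
  obtain ⟨W, hW⟩ : ∃ W, W = 2 ^ (T0 + 1) := ⟨_, rfl⟩
  refine ⟨(∑ n ∈ range (R + 1), h0 n) + h1 + W, fun h hh => ?_⟩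
  have hh0 : ∀ n ≤ R, h0 n ≤ h := by
    intro n hn
    have e : n ∈ range (R + 1) := mem_range.2 (by omega)
    have e1 := Finset.single_le_sum (f := h0) (fun _ _ => Nat.zero_le _) e
    have e2 : h0 n ≤ ∑ n ∈ range (R + 1), h0 n := e1
    omega
  have hh1 : h1 ≤ h := by omega
  have hh2 : 2 ^ (T0 + 1) ≤ h := by rw [← hW]; omega
  obtain ⟨T, hT⟩ : ∃ T, T = Nat.log 2 h := ⟨_, rfl⟩
  have hTT0 : T0 + 1 ≤ T := by
    rw [hT]
    exact Nat.le_log_of_pow_le (by norm_num) hh2
  have hTh : T ≤ h := by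
    rw [hT]
    exact Nat.log_le_self 2 h
  choose! X1 hX1 using fun (n : ℕ) (hn : n ≤ R) => hcl n h (hh0 n hn)
  obtain ⟨X2, hX2⟩ := hstr h hh1
  refine ⟨(∑ n ∈ range (R + 1), X1 n) + X2, fun X hX q hq hcop α s F hFm hF1 => ?_⟩
  have hX1' : ∀ n ≤ R, X1 n ≤ X := by
    intro n hn
    have e : n ∈ range (R + 1) := mem_range.2 (by omega)
    have e1 := Finset.single_le_sum (f := X1) (fun _ _ => Nat.zero_le _) e
    have e2 : X1 n ≤ ∑ n ∈ range (R + 1), X1 n := e1
    omega
  -- the scales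
  have hsc : ∀ i, Qr (q i) 0 (Nat.findGreatest (fun k => Qr (q i) 0 k ≤ T) T) ≤ T ∧
      T ≤ B i * Qr (q i) 0 (Nat.findGreatest (fun k => Qr (q i) 0 k ≤ T) T) ∧
      K0f i ≤ Nat.findGreatest (fun k => Qr (q i) 0 k ≤ T) T := by
    intro i
    refine scale (hq i) (by omega) ?_
    have e1 := Finset.single_le_sum (f := fun i => B i ^ K0f i) (fun _ _ => Nat.zero_le _)
      (mem_univ i)
    have e2 : B i ^ K0f i ≤ ∑ i, B i ^ K0f i := e1
    omega
  obtain ⟨K, hK⟩ : ∃ K : Fin r → ℕ, K = fun i => Nat.findGreatest (fun k => Qr (q i) 0 k ≤ T) T :=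
    ⟨_, rfl⟩
  have hK1 : ∀ i, Qr (q i) 0 (K i) ≤ T := fun i => by
    rw [hK]
    exact (hsc i).1
  have hK2 : ∀ i, T ≤ BB * Qr (q i) 0 (K i) := fun i => by
    rw [hK]
    exact (hsc i).2.1.trans (Nat.mul_le_mul_right _ (hBi i))
  have hK3 : ∀ i, K0f i ≤ K i := fun i => by
    rw [hK]
    exact (hsc i).2.2
  obtain ⟨Q, hQ⟩ : ∃ Q : Fin r → ℕ, ∀ i, Qr (q i) 0 (K i) = Q i := ⟨_, fun _ => rfl⟩
  have hQ1 : ∀ i, 1 ≤ Q i := fun i => by
    rw [← hQ]
    exact PB.Qr_pos (hq i) 0 _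
  have hQcop : ∀ j j', j ≠ j' → Nat.Coprime (Q j) (Q j') := fun j j' hj => by
    rw [← hQ, ← hQ]
    exact qr_cop (hcop j j' hj) _ _
  have hQT : ∀ i, Q i ≤ T := fun i => by
    rw [← hQ]
    exact hK1 i
  have hQB : ∀ i, T ≤ BB * Q i := fun i => by
    rw [← hQ]
    exact hK2 i
  -- the decomposition of the functions
  choose 𝒱 hV1 hV2 hV3 using fun i => hdec i (q i) (hq i)
  choose n hnR z U V E hF hU hV hE using fun (x : ℕ) (i : Fin r) => hV3 i (K i) (hK3 i) (F x i)
    (hFm x i)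
  simp only [hQ] at hF hU hE
  have hUs : ∀ x j c, Str M R (U x j c) := fun x j c => str_mono (hMi j) (hRi j) (hU x j c).1
  have hU1 : ∀ x j c m, |U x j c m| ≤ 1 := fun x j c m => str_abs (hUs x j c) m
  have hVb : ∀ x j c m, |V x j c m| ≤ 2 := fun x j c m => (hV1 j (n x j) (K j) _ (hV x j c)).1 m
  have hVp : ∀ x j c m, V x j c (m + Q j) = V x j c m := fun x j c m => by
    rw [← hQ]
    exact (hV1 j (n x j) (K j) _ (hV x j c)).2 m
  have hT' : Nat.log 2 h = T := hT.symm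
  -- the structured part
  have hs1 : sg h X α (fun x m => ∏ j, U x j (z x j ((m + s x j) / Q j)) (m + s x j)) ≤
      ε / 4 * h * X :=
    hX2 X (by omega) Q hQ1 (fun j => by rw [hT']; exact hQB j) U hUs z s α
  -- the exceptional part
  have hs2 : ∀ i, sg h X α (fun x m => E x i (z x i ((m + s x i) / Q i)) (m + s x i) *
      (∏ j with j < i, F x j (m + s x j)) *
      ∏ j with i < j, U x j (z x j ((m + s x j) / Q j)) (m + s x j)) ≤
      ε / (4 * (r + 1)) * h * X := by
    intro i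
    refine (sg_abs _ _ _ _).trans ?_
    have h2 : ∀ x, ∑ m ∈ range h, |E x i (z x i ((m + s x i) / Q i)) (m + s x i) *
        (∏ j with j < i, F x j (m + s x j)) *
        ∏ j with i < j, U x j (z x j ((m + s x j) / Q j)) (m + s x j)| ≤
        ε / (4 * (r + 1)) * h := by
      intro x
      have h3 : ∀ m, |E x i (z x i ((m + s x i) / Q i)) (m + s x i) *
          (∏ j with j < i, F x j (m + s x j)) *
          ∏ j with i < j, U x j (z x j ((m + s x j) / Q j)) (m + s x j)| ≤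
          |E x i (z x i ((m + s x i) / Q i)) (m + s x i)| := by
        intro m
        have h4 : |∏ j with j < i, F x j (m + s x j)| ≤ 1 := by
          rw [abs_prod]
          exact prod_le_one (fun _ _ => abs_nonneg _) fun j _ => hF1 x j _
        have h5 : |∏ j with i < j, U x j (z x j ((m + s x j) / Q j)) (m + s x j)| ≤ 1 := by
          rw [abs_prod]
          exact prod_le_one (fun _ _ => abs_nonneg _) fun j _ => hU1 x j _ _
        rw [abs_mul, abs_mul]
        calc |E x i (z x i ((m + s x i) / Q i)) (m + s x i)| *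
              |∏ j with j < i, F x j (m + s x j)| *
              |∏ j with i < j, U x j (z x j ((m + s x j) / Q j)) (m + s x j)|
            ≤ |E x i (z x i ((m + s x i) / Q i)) (m + s x i)| * 1 * 1 := by gcongr
          _ = _ := by ring
      refine (sum_le_sum fun m _ => h3 m).trans ?_
      have h6 := e_part (hQ1 i) (E x i) (fun c m => (hE x i c).2.1 m)
        (fun c => (hE x i c).2.2) (z x i) (s x i) h
      refine h6.trans ?_
      have h7 : ((Q i : ℕ) : ℝ) ≤ h := by exact_mod_cast (hQT i).trans hTh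
      calc (C : ℝ) * ((h : ℝ) + Q i) * (ε / (8 * (r + 1) * (C + 1)))
          ≤ (C + 1) * ((h : ℝ) + h) * (ε / (8 * (r + 1) * (C + 1))) := by
            gcongr
            linarith
        _ = ε / (4 * (r + 1)) * h := by
            field_simp
            ring
    refine (sum_le_sum fun x _ => h2 x).trans (le_of_eq ?_)
    rw [sum_const, card_range, nsmul_eq_mul]
    ring
  -- the flat part
  have hs3 : ∀ i, sg h X α (fun x m => V x i (z x i ((m + s x i) / Q i)) (m + s x i) *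
      (∏ j with j < i, F x j (m + s x j)) *
      ∏ j with i < j, U x j (z x j ((m + s x j) / Q j)) (m + s x j)) ≤
      ε / (4 * (r + 1)) * h * X := by
    intro i
    have h3 : ∀ k ≤ R, sg h X α (fun x m => if n x i = k then
        V x i (z x i ((m + s x i) / Q i)) (m + s x i) *
        (∏ j with j < i, F x j (m + s x j)) *
        (∏ j with i < j, U x j (z x j ((m + s x j) / Q j)) (m + s x j)) else 0) ≤
        ε / (8 * (r + 1)) * (1 / 2) ^ k * h * X := by
      intro k hk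
      have h4 := hX1 k hk X (hX1' k hk) Q hQ1 hQcop
        (fun j => ⟨by rw [hT']; exact hQT j, by rw [hT']; exact hQB j⟩) i
        (fun x j c m => if n x i = k then (if j < i then U x j c m + V x j c m + E x j c m
          else if j = i then V x j c m else U x j c m) else 0) ?_ ?_ ?_ z s α
      · refine le_trans (le_of_eq ?_) h4
        unfold sg
        refine sum_congr rfl fun x _ => ?_
        congr 1
        refine sum_congr rfl fun m _ => ?_
        congr 3
        by_cases hx : n x i = k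
        · simp only [if_pos hx]
          rw [prod_three]
          congr 2
          exact prod_congr rfl fun j _ => hF x j (m + s x j)
        · simp only [if_neg hx]
          rw [prod_eq_zero (mem_univ i) rfl]
      · intro x j c m
        rw [(hU x j c).2, hVp, (hE x j c).2.1]
      · intro x j c m
        have b1 := hU1 x j c m
        have b2 := hVb x j c m
        have b3 := (hE x j c).1 m
        split_ifs
        · exact (abs_add_three _ _ _).trans (by linarith)
        · linarith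
        · linarith
        · simp
      · intro p hp p' hp' hpp x y c c' θ s₁ s₂
        have hpos : 0 ≤ δ k * Q i := mul_nonneg (hδ k).le (Nat.cast_nonneg _)
        by_cases hx : n x i = k
        · by_cases hy : n y i = k
          · have h5 := hV x i c
            have h6 := hV y i c'
            rw [hx] at h5
            rw [hy] at h6
            have hkR : k ≤ Rf i := by
              rw [← hx]
              exact hnR x i
            have h7 := hV2 i k hkR (K i) (hK3 i) _ h5 _ h6 p hp p' hp' hpp θ s₁ s₂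
            rw [hQ] at h7
            simpa only [if_pos hx, if_pos hy, lt_irrefl, if_false, if_true] using h7
          · simpa [if_neg hy] using hpos
        · simpa [if_neg hx] using hpos
    have h4 : sg h X α (fun x m => V x i (z x i ((m + s x i) / Q i)) (m + s x i) *
        (∏ j with j < i, F x j (m + s x j)) *
        ∏ j with i < j, U x j (z x j ((m + s x j) / Q j)) (m + s x j)) =
        sg h X α (fun x m => ∑ k ∈ range (R + 1), if n x i = k then
        V x i (z x i ((m + s x i) / Q i)) (m + s x i) *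
        (∏ j with j < i, F x j (m + s x j)) *
        (∏ j with i < j, U x j (z x j ((m + s x j) / Q j)) (m + s x j)) else 0) := by
      congr 1
      funext x m
      rw [Finset.sum_ite_eq, if_pos (mem_range.2 (Nat.lt_succ_of_le ((hnR x i).trans (hRi i))))]
    rw [h4]
    refine (sg_sum h X α (range (R + 1)) _).trans ?_
    refine (sum_le_sum fun k hk => h3 k (Nat.le_of_lt_succ (mem_range.1 hk))).trans ?_
    have h6 : ∑ k ∈ range (R + 1), ε / (8 * (r + 1)) * (1 / 2 : ℝ) ^ k * h * X =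
        (∑ k ∈ range (R + 1), (1 / 2 : ℝ) ^ k) * (ε / (8 * (r + 1)) * h * X) := by
      rw [Finset.sum_mul]
      exact Finset.sum_congr rfl fun j _ => by ring
    rw [h6]
    calc (∑ k ∈ range (R + 1), (1 / 2 : ℝ) ^ k) * (ε / (8 * (r + 1)) * h * X)
        ≤ 2 * (ε / (8 * (r + 1)) * h * X) :=
          mul_le_mul_of_nonneg_right (sum_geometric_two_le (R + 1)) (by positivity)
      _ = ε / (4 * (r + 1)) * h * X := by
          field_simp
          ring
  -- the sum of all parts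
  have hprod : ∀ x m, ∏ i, F x i (m + s x i) =
      (∏ j, U x j (z x j ((m + s x j) / Q j)) (m + s x j)) +
      ∑ i, (V x i (z x i ((m + s x i) / Q i)) (m + s x i) *
        (∏ j with j < i, F x j (m + s x j)) *
        (∏ j with i < j, U x j (z x j ((m + s x j) / Q j)) (m + s x j)) +
        E x i (z x i ((m + s x i) / Q i)) (m + s x i) *
        (∏ j with j < i, F x j (m + s x j)) *
        ∏ j with i < j, U x j (z x j ((m + s x j) / Q j)) (m + s x j)) := by
    intro x m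
    have h2 := Finset.prod_add_ordered (univ : Finset (Fin r))
      (fun j => U x j (z x j ((m + s x j) / Q j)) (m + s x j))
      (fun j => V x j (z x j ((m + s x j) / Q j)) (m + s x j) +
        E x j (z x j ((m + s x j) / Q j)) (m + s x j))
    have h3 : ∀ j, U x j (z x j ((m + s x j) / Q j)) (m + s x j) +
        (V x j (z x j ((m + s x j) / Q j)) (m + s x j) +
        E x j (z x j ((m + s x j) / Q j)) (m + s x j)) = F x j (m + s x j) := by
      intro j
      rw [hF x j (m + s x j)]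
      ring
    simp only [h3] at h2
    rw [h2]
    congr 1
    exact sum_congr rfl fun i _ => by ring
  have hfin : sg h X α (fun x m => ∏ i, F x i (m + s x i)) ≤ ε * h * X := by
    simp only [hprod]
    refine (sg_add _ _ _ _ _).trans ?_
    refine (add_le_add hs1 ((sg_sum h X α univ _).trans
      (sum_le_sum fun i _ => (sg_add _ _ _ _ _).trans (add_le_add (hs3 i) (hs2 i))))).trans ?_
    rw [sum_const, card_univ, Fintype.card_fin, nsmul_eq_mul]
    have h2 : (r : ℝ) * (ε / (4 * (r + 1)) * h * X + ε / (4 * (r + 1)) * h * X) ≤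
        ε / 2 * h * X := by
      have h3 : (r : ℝ) * (ε / (4 * (r + 1)) * h * X + ε / (4 * (r + 1)) * h * X) =
          (r / (r + 1)) * (ε / 2 * h * X) := by
        field_simp
        ring
      rw [h3]
      refine mul_le_of_le_one_left (by positivity) ?_
      rw [div_le_one (by positivity)]
      linarith
    have h4 : 0 ≤ ε * h * X := by positivity
    linarith
  exact hfin

end Pool.Agent.Lib.MP_3e612f_nt.LV
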