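import Pool.Agent.Lib.MP_3e612f_nt.LV.Crt
import Pool.Agent.Lib.MP_3e612f_nt.LV.Avg

/-!
Pair correlations of products of block-periodic functions with coprime periods, one factor being flat.
-/

set_option autoImplicit false

namespace Pool.Agent.Lib.MP_3e612f_nt.LV

open Finset
open Pool.Agent.Lib.MP_3e612f_nt.LORT

private theorem per_mul {f : ℕ → ℝ} {Q : ℕ} (h : ∀ n, f (n + Q) = f n) (k n : ℕ) :
    f (n + k * Q) = f n := by
  induction k with
  | zero => simp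
  | succ k ih =>
    have e : n + (k + 1) * Q = n + k * Q + Q := by ring
    rw [e, h, ih]

private theorem per_dvd {f : ℕ → ℝ} {Q Q' : ℕ} (h : ∀ n, f (n + Q) = f n) (hd : Q ∣ Q') (p n s : ℕ) :
    f (p * (n + Q') + s) = f (p * n + s) := by
  obtain ⟨k, rfl⟩ := hd
  have e : p * (n + Q * k) + s = p * n + s + (p * k) * Q := by ring
  rw [e, per_mul h]

/-- all states fixed. PROOF: `Q₁ = ∏ j ≠ i, Q j` is coprime to `Q₂ = Q i`; `f` = product over `j ≠ i` (period `Q₁`,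
norm at most `A ^ (2 r)` since `1 ≤ A`), `g` = the factor `i` (period `Q i`); `crt_sum` with the phase
`ev (θ (a + d)) = ev (θ a) ev (θ d)`; the summand is periodic modulo `∏ Q j`, `per_sum`. -/
theorem pair_fixed {ι : Type} [Fintype ι] [DecidableEq ι] (Q : ι → ℕ) (hQ : ∀ j, 1 ≤ Q j)
    (hcop : ∀ j j', j ≠ j' → Nat.Coprime (Q j) (Q j')) (i : ι) {J N p r : ℕ} (hJQ : J ≤ Q i)
    {A δ : ℝ} (hA : 1 ≤ A) (hδ : 0 ≤ δ) (w₁ w₂ : ι → ℕ → ℝ)
    (hp₁ : ∀ j n, w₁ j (n + Q j) = w₁ j n) (hp₂ : ∀ j n, w₂ j (n + Q j) = w₂ j n)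
    (hb₁ : ∀ j n, |w₁ j n| ≤ A) (hb₂ : ∀ j n, |w₂ j n| ≤ A)
    (hflat : ∀ (θ : ℝ) (s₁ s₂ : ℕ), ‖∑ v ∈ range (Q i),
      ((w₁ i (p * v + s₁) * w₂ i (r * v + s₂) : ℝ) : ℂ) * ev (θ * v)‖ ≤ δ * Q i)
    (s₁ s₂ : ι → ℕ) (θ : ℝ) :
    ∑ a ∈ range N, ‖∑ d ∈ range J, ((∏ j, (w₁ j (p * (a + d) + s₁ j) *
      w₂ j (r * (a + d) + s₂ j)) : ℝ) : ℂ) * ev (θ * (a + d : ℕ))‖ ≤
      A ^ (2 * Fintype.card ι) * (N + ∏ j, (Q j : ℝ)) * δ * √(Q i * J) := by
  classical
  have hA0 : (0 : ℝ) < A := lt_of_lt_of_le one_pos hA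
  set T : Finset ι := univ.erase i with hT
  set Q₁ : ℕ := ∏ j ∈ T, Q j with hQ₁
  have hQ₁1 : 1 ≤ Q₁ := Nat.succ_le_of_lt (Finset.prod_pos fun j _ => hQ j)
  have hprod : Q₁ * Q i = ∏ j, Q j := Finset.prod_erase_mul _ _ (mem_univ i)
  have hcop' : Nat.Coprime Q₁ (Q i) :=
    Nat.Coprime.prod_left fun j hj => hcop j i (Finset.ne_of_mem_erase hj)
  let f : ℕ → ℂ := fun n => ((∏ j ∈ T, (w₁ j (p * n + s₁ j) * w₂ j (r * n + s₂ j)) : ℝ) : ℂ)
  let g : ℕ → ℂ := fun n => ((w₁ i (p * n + s₁ i) * w₂ i (r * n + s₂ i) : ℝ) : ℂ)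
  have hfp : ∀ n, f (n + Q₁) = f n := by
    intro n
    simp only [f]
    congr 1
    refine Finset.prod_congr rfl fun j hj => ?_
    have hd : Q j ∣ Q₁ := Finset.dvd_prod_of_mem _ hj
    rw [per_dvd (hp₁ j) hd, per_dvd (hp₂ j) hd]
  have hgp : ∀ n, g (n + Q i) = g n := by
    intro n
    simp only [g]
    rw [per_dvd (hp₁ i) dvd_rfl, per_dvd (hp₂ i) dvd_rfl]
  have hcard : T.card ≤ Fintype.card ι := by
    rw [hT, ← Finset.card_univ]
    exact Finset.card_le_card (Finset.erase_subset _ _)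
  have hfA : ∀ n, ‖f n‖ ≤ A ^ (2 * Fintype.card ι) := by
    intro n
    simp only [f]
    rw [Complex.norm_real, Real.norm_eq_abs, Finset.abs_prod]
    calc ∏ j ∈ T, |w₁ j (p * n + s₁ j) * w₂ j (r * n + s₂ j)| ≤ ∏ _j ∈ T, A ^ 2 := by
          refine Finset.prod_le_prod (fun _ _ => abs_nonneg _) fun j _ => ?_
          rw [abs_mul, pow_two]
          exact mul_le_mul (hb₁ j _) (hb₂ j _) (abs_nonneg _) hA0.le
      _ = A ^ (2 * T.card) := by rw [Finset.prod_const, pow_mul]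
      _ ≤ A ^ (2 * Fintype.card ι) := pow_le_pow_right₀ hA (by omega)
  have hfl : ∀ θ : ℝ, ‖∑ v ∈ range (Q i), g v * ev (θ * v)‖ ≤ δ * Q i :=
    fun θ => hflat θ (s₁ i) (s₂ i)
  have key := crt_sum hQ₁1 (hQ i) hcop' hJQ f g hδ (by positivity) hfp hgp hfA hfl θ
  let Φ : ℕ → ℝ := fun a => ‖∑ d ∈ range J, f (a + d) * g (a + d) * ev (θ * d)‖
  have hΦeq : ∀ a, ‖∑ d ∈ range J, ((∏ j, (w₁ j (p * (a + d) + s₁ j) *
      w₂ j (r * (a + d) + s₂ j)) : ℝ) : ℂ) * ev (θ * (a + d : ℕ))‖ = Φ a := by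
    intro a
    have e : ∑ d ∈ range J, ((∏ j, (w₁ j (p * (a + d) + s₁ j) *
        w₂ j (r * (a + d) + s₂ j)) : ℝ) : ℂ) * ev (θ * (a + d : ℕ)) =
        ev (θ * a) * ∑ d ∈ range J, f (a + d) * g (a + d) * ev (θ * d) := by
      rw [Finset.mul_sum]
      refine Finset.sum_congr rfl fun d _ => ?_
      have h1 : (∏ j, (w₁ j (p * (a + d) + s₁ j) * w₂ j (r * (a + d) + s₂ j))) =
          (∏ j ∈ T, (w₁ j (p * (a + d) + s₁ j) * w₂ j (r * (a + d) + s₂ j))) *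
            (w₁ i (p * (a + d) + s₁ i) * w₂ i (r * (a + d) + s₂ i)) :=
        (Finset.prod_erase_mul _ _ (mem_univ i)).symm
      have h2 : θ * ((a + d : ℕ) : ℝ) = θ * a + θ * d := by push_cast; ring
      rw [h1, h2, ev_add, Complex.ofReal_mul]
      simp only [f, g]
      ring
    rw [e, norm_mul, norm_ev, one_mul]
  have hΦ0 : ∀ a, 0 ≤ Φ a := fun a => norm_nonneg _
  have hΦper : ∀ a, Φ (a + Q₁ * Q i) = Φ a := by
    intro a
    simp only [Φ]
    congr 1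
    refine Finset.sum_congr rfl fun d _ => ?_
    have h1 : f (a + Q₁ * Q i + d) = f (a + d) := by
      have e : a + Q₁ * Q i + d = a + d + Q i * Q₁ := by ring
      rw [e]
      have : ∀ k n, f (n + k * Q₁) = f n := by
        intro k n
        induction k with
        | zero => simp
        | succ k ih =>
          have e : n + (k + 1) * Q₁ = n + k * Q₁ + Q₁ := by ring
          rw [e, hfp, ih]
      exact this _ _
    have h2 : g (a + Q₁ * Q i + d) = g (a + d) := by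
      have e : a + Q₁ * Q i + d = a + d + Q₁ * Q i := by ring
      rw [e]
      have : ∀ k n, g (n + k * Q i) = g n := by
        intro k n
        induction k with
        | zero => simp
        | succ k ih =>
          have e : n + (k + 1) * Q i = n + k * Q i + Q i := by ring
          rw [e, hgp, ih]
      exact this _ _
    rw [h1, h2]
  have hQQ : 1 ≤ Q₁ * Q i := Nat.mul_pos hQ₁1 (hQ i)
  have hper := per_sum Φ hΦ0 hQQ hΦper 0 N
  have hcast : ((Q₁ * Q i : ℕ) : ℝ) = ∏ j, (Q j : ℝ) := by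
    rw [hprod]; push_cast; rfl
  have hQpos : (0 : ℝ) < ((Q₁ * Q i : ℕ) : ℝ) := by exact_mod_cast hQQ
  calc ∑ a ∈ range N, ‖∑ d ∈ range J, ((∏ j, (w₁ j (p * (a + d) + s₁ j) *
      w₂ j (r * (a + d) + s₂ j)) : ℝ) : ℂ) * ev (θ * (a + d : ℕ))‖
      = ∑ a ∈ range N, Φ (a + 0) := Finset.sum_congr rfl fun a _ => hΦeq a
    _ ≤ ((N : ℝ) / ((Q₁ * Q i : ℕ) : ℝ) + 1) * ∑ a ∈ range (Q₁ * Q i), Φ a := hper
    _ ≤ ((N : ℝ) / ((Q₁ * Q i : ℕ) : ℝ) + 1) *
        (A ^ (2 * Fintype.card ι) * (Q₁ * Q i) * δ * √(Q i * J)) :=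
        mul_le_mul_of_nonneg_left key (by positivity)
    _ = A ^ (2 * Fintype.card ι) * (N + ((Q₁ * Q i : ℕ) : ℝ)) * δ * √(Q i * J) := by
        have e1 : (0 : ℝ) < Q₁ := by exact_mod_cast hQ₁1
        have e2 : (0 : ℝ) < Q i := by exact_mod_cast hQ i
        push_cast
        field_simp
    _ = _ := by rw [hcast]

/-- PROOF: `avg_le`; an `a < N` is good if for every `j` the two floors `(p (a + d) + s₁ j) / Q j` and
`(r (a + d) + s₂ j) / Q j` do not depend on `d < J`; the number of bad `a` is estimated by `floor_count`, they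
contribute at most `J A ^ (2 r)` each. For a good `a` the states are constant on `[a, a + J)`, so the norm is at
most the sum over all pairs of state vectors `c, c' : ι → Fin C` of the norms with fixed states; `pair_fixed`. -/
theorem pair_multi {ι : Type} [Fintype ι] [DecidableEq ι] (Q : ι → ℕ) (hQ : ∀ j, 1 ≤ Q j)
    (hcop : ∀ j j', j ≠ j' → Nat.Coprime (Q j) (Q j')) (i : ι) {C J N p r : ℕ} (hJ : 1 ≤ J)
    (hJQ : J ≤ Q i) {A δ : ℝ} (hA : 1 ≤ A) (hδ : 0 ≤ δ) (w₁ w₂ : ι → Fin C → ℕ → ℝ)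
    (hp₁ : ∀ j c n, w₁ j c (n + Q j) = w₁ j c n) (hp₂ : ∀ j c n, w₂ j c (n + Q j) = w₂ j c n)
    (hb₁ : ∀ j c n, |w₁ j c n| ≤ A) (hb₂ : ∀ j c n, |w₂ j c n| ≤ A)
    (hflat : ∀ (c c' : Fin C) (θ : ℝ) (s₁ s₂ : ℕ), ‖∑ v ∈ range (Q i),
      ((w₁ i c (p * v + s₁) * w₂ i c' (r * v + s₂) : ℝ) : ℂ) * ev (θ * v)‖ ≤ δ * Q i)
    (z₁ z₂ : ι → ℕ → Fin C) (s₁ s₂ : ι → ℕ) (θ : ℝ) :
    ‖∑ m ∈ Icc 1 N, ((∏ j, (w₁ j (z₁ j ((p * m + s₁ j) / Q j)) (p * m + s₁ j) *
      w₂ j (z₂ j ((r * m + s₂ j) / Q j)) (r * m + s₂ j)) : ℝ) : ℂ) * ev (θ * m)‖ ≤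
      A ^ (2 * Fintype.card ι) * (4 * J + J * ∑ j, (((p : ℝ) + r) * (N + J) / Q j + 2) +
        C ^ (2 * Fintype.card ι) * (N + ∏ j, (Q j : ℝ)) * δ * √(Q i / J)) := by
  classical
  have hA0 : (0 : ℝ) < A := lt_of_lt_of_le one_pos hA
  set B : ℝ := A ^ (2 * Fintype.card ι) with hB
  have hB0 : 0 < B := by positivity
  have hJ0 : (0 : ℝ) < J := by exact_mod_cast hJ
  let G : ℕ → ℂ := fun m => ((∏ j, (w₁ j (z₁ j ((p * m + s₁ j) / Q j)) (p * m + s₁ j) *
      w₂ j (z₂ j ((r * m + s₂ j) / Q j)) (r * m + s₂ j)) : ℝ) : ℂ) * ev (θ * m)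
  have hG : ∀ m, ‖G m‖ ≤ B := by
    intro m
    simp only [G]
    rw [norm_mul, norm_ev, mul_one, Complex.norm_real, Real.norm_eq_abs, Finset.abs_prod]
    calc _ ≤ ∏ _j : ι, A ^ 2 := by
          refine Finset.prod_le_prod (fun _ _ => abs_nonneg _) fun j _ => ?_
          rw [abs_mul, pow_two]
          exact mul_le_mul (hb₁ j _ _) (hb₂ j _ _) (abs_nonneg _) hA0.le
      _ = B := by rw [Finset.prod_const, Finset.card_univ, hB, pow_mul]
  -- the good points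
  let P₁ : ι → ℕ → Prop := fun j a => ∀ d < J, (p * (a + d) + s₁ j) / Q j = (p * a + s₁ j) / Q j
  let P₂ : ι → ℕ → Prop := fun j a => ∀ d < J, (r * (a + d) + s₂ j) / Q j = (r * a + s₂ j) / Q j
  let bad : Finset ℕ := (range N).filter fun a => ¬ ∀ j, P₁ j a ∧ P₂ j a
  -- sums with fixed states
  let Ψ : (ι → Fin C) → (ι → Fin C) → ℕ → ℝ := fun c c' a =>
    ‖∑ d ∈ range J, ((∏ j, (w₁ j (c j) (p * (a + d) + s₁ j) *
      w₂ j (c' j) (r * (a + d) + s₂ j)) : ℝ) : ℂ) * ev (θ * (a + d : ℕ))‖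
  have hΨ0 : ∀ c c' a, 0 ≤ Ψ c c' a := fun _ _ _ => norm_nonneg _
  have hΨ : ∀ c c' : ι → Fin C, ∑ a ∈ range N, Ψ c c' a ≤
      B * (N + ∏ j, (Q j : ℝ)) * δ * √(Q i * J) := by
    intro c c'
    exact pair_fixed Q hQ hcop i hJQ hA hδ (fun j => w₁ j (c j)) (fun j => w₂ j (c' j))
      (fun j => hp₁ j (c j)) (fun j => hp₂ j (c' j)) (fun j => hb₁ j (c j))
      (fun j => hb₂ j (c' j)) (hflat (c i) (c' i)) s₁ s₂ θ
  let S : ℕ → ℝ := fun a => ‖∑ d ∈ range J, G (a + d)‖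
  have hS1 : ∀ a, S a ≤ J * B := by
    intro a
    calc S a ≤ ∑ d ∈ range J, ‖G (a + d)‖ := norm_sum_le _ _
      _ ≤ ∑ _d ∈ range J, B := Finset.sum_le_sum fun d _ => hG _
      _ = J * B := by rw [Finset.sum_const, card_range, nsmul_eq_mul]
  have hS2 : ∀ a, (∀ j, P₁ j a ∧ P₂ j a) → S a ≤ ∑ c, ∑ c', Ψ c c' a := by
    intro a ha
    have e : S a = Ψ (fun j => z₁ j ((p * a + s₁ j) / Q j)) (fun j => z₂ j ((r * a + s₂ j) / Q j)) a := by
      simp only [S, Ψ, G]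
      congr 1
      refine Finset.sum_congr rfl fun d hd => ?_
      rw [mem_range] at hd
      congr 2
      refine Finset.prod_congr rfl fun j _ => ?_
      rw [(ha j).1 d hd, (ha j).2 d hd]
    rw [e]
    calc _ ≤ ∑ c', Ψ (fun j => z₁ j ((p * a + s₁ j) / Q j)) c' a :=
          Finset.single_le_sum (f := fun c' => Ψ (fun j => z₁ j ((p * a + s₁ j) / Q j)) c' a)
            (fun _ _ => hΨ0 _ _ _) (mem_univ _)
      _ ≤ _ := Finset.single_le_sum (f := fun c => ∑ c', Ψ c c' a)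
            (fun _ _ => Finset.sum_nonneg fun _ _ => hΨ0 _ _ _) (mem_univ _)
  have hbad : (bad.card : ℝ) ≤ J * ∑ j, (((p : ℝ) + r) * (N + J) / Q j + 2) := by
    have h1 : bad ⊆ univ.biUnion fun j =>
        ((range N).filter fun a => ¬ P₁ j a) ∪ ((range N).filter fun a => ¬ P₂ j a) := by
      intro a ha
      simp only [bad, mem_filter] at ha
      obtain ⟨ha1, ha2⟩ := ha
      push Not at ha2
      obtain ⟨j, hj⟩ := ha2
      rw [mem_biUnion]
      refine ⟨j, mem_univ _, ?_⟩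
      rw [mem_union, mem_filter, mem_filter]
      by_cases h : P₁ j a
      · exact Or.inr ⟨ha1, hj h⟩
      · exact Or.inl ⟨ha1, h⟩
    have h2 : bad.card ≤ ∑ j, (J * (p * (N + J) / Q j + 1) + J * (r * (N + J) / Q j + 1)) := by
      refine (Finset.card_le_card h1).trans (Finset.card_biUnion_le.trans ?_)
      refine Finset.sum_le_sum fun j _ => (Finset.card_union_le _ _).trans (add_le_add ?_ ?_)
      · exact floor_count p (s₁ j) (hQ j) J N
      · exact floor_count r (s₂ j) (hQ j) J N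
    have h3 : (bad.card : ℝ) ≤
        ∑ j, ((J * (p * (N + J) / Q j + 1) + J * (r * (N + J) / Q j + 1) : ℕ) : ℝ) := by
      exact_mod_cast h2
    refine h3.trans ?_
    rw [Finset.mul_sum]
    refine Finset.sum_le_sum fun j _ => ?_
    have e1 : ((p * (N + J) / Q j : ℕ) : ℝ) ≤ (p : ℝ) * (N + J) / Q j := by
      have := @Nat.cast_div_le ℝ _ _ _ (p * (N + J)) (Q j)
      push_cast at this
      exact this
    have e2 : ((r * (N + J) / Q j : ℕ) : ℝ) ≤ (r : ℝ) * (N + J) / Q j := by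
      have := @Nat.cast_div_le ℝ _ _ _ (r * (N + J)) (Q j)
      push_cast at this
      exact this
    have e3 : ((p : ℝ) + r) * (N + J) / Q j = (p : ℝ) * (N + J) / Q j + (r : ℝ) * (N + J) / Q j := by
      ring
    rw [e3, Nat.cast_add, Nat.cast_mul, Nat.cast_mul, Nat.cast_add, Nat.cast_add, Nat.cast_one,
      ← mul_add]
    refine mul_le_mul_of_nonneg_left ?_ hJ0.le
    linarith
  have hsum : ∑ a ∈ range N, S a ≤ (bad.card : ℝ) * (J * B) +
      C ^ (2 * Fintype.card ι) * (B * (N + ∏ j, (Q j : ℝ)) * δ * √(Q i * J)) := by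
    rw [← Finset.sum_filter_add_sum_filter_not (range N) (fun a => ¬ ∀ j, P₁ j a ∧ P₂ j a)]
    refine add_le_add ?_ ?_
    · calc ∑ a ∈ bad, S a ≤ ∑ _a ∈ bad, (J * B) := Finset.sum_le_sum fun a _ => hS1 a
        _ = _ := by rw [Finset.sum_const, nsmul_eq_mul]
    · calc _ ≤ ∑ a ∈ (range N).filter (fun a => ¬ ¬ ∀ j, P₁ j a ∧ P₂ j a), ∑ c, ∑ c', Ψ c c' a := by
            refine Finset.sum_le_sum fun a ha => hS2 a ?_
            rw [mem_filter, not_not] at ha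
            exact ha.2
        _ ≤ ∑ a ∈ range N, ∑ c, ∑ c', Ψ c c' a :=
            Finset.sum_le_sum_of_subset_of_nonneg (Finset.filter_subset _ _) fun a _ _ =>
              Finset.sum_nonneg fun _ _ => Finset.sum_nonneg fun _ _ => hΨ0 _ _ _
        _ = ∑ c, ∑ c', ∑ a ∈ range N, Ψ c c' a := by
            rw [Finset.sum_comm]
            refine Finset.sum_congr rfl fun c _ => Finset.sum_comm
        _ ≤ ∑ _c : ι → Fin C, ∑ _c' : ι → Fin C, (B * (N + ∏ j, (Q j : ℝ)) * δ * √(Q i * J)) :=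
            Finset.sum_le_sum fun c _ => Finset.sum_le_sum fun c' _ => hΨ c c'
        _ = _ := by
            rw [Finset.sum_const, Finset.sum_const, Finset.card_univ, Fintype.card_fun,
              Fintype.card_fin, nsmul_eq_mul, nsmul_eq_mul]
            push_cast
            ring
  have hsq : √(Q i * J : ℝ) / J = √(Q i / J : ℝ) := by
    have e : (Q i / J : ℝ) = (Q i * J : ℝ) / (J : ℝ) ^ 2 := by field_simp
    rw [e, Real.sqrt_div' _ (by positivity), Real.sqrt_sq hJ0.le]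
  have hav := avg_le G hB0 hG N hJ
  calc _ ≤ (∑ a ∈ range N, S a) / J + 4 * B * J := hav
    _ ≤ ((bad.card : ℝ) * (J * B) +
      C ^ (2 * Fintype.card ι) * (B * (N + ∏ j, (Q j : ℝ)) * δ * √(Q i * J))) / J + 4 * B * J := by
        gcongr
    _ = B * (4 * J + bad.card +
        C ^ (2 * Fintype.card ι) * (N + ∏ j, (Q j : ℝ)) * δ * (√(Q i * J) / J)) := by
        field_simp
        ring
    _ ≤ _ := by
        rw [hsq]
        refine mul_le_mul_of_nonneg_left ?_ hB0.le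
        linarith

end Pool.Agent.Lib.MP_3e612f_nt.LV
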