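import Pool.Agent.Lib.MP_3e612f_nt.LV.PairM
import Pool.Agent.Lib.MP_3e612f_nt.LO.D.Kat

/-!
Katai for products of block-periodic functions, one factor being flat.
-/

set_option autoImplicit false

namespace Pool.Agent.Lib.MP_3e612f_nt.LV

open Finset
open Pool.Agent.Lib.MP_3e612f_nt.LORT
open Pool.Agent.Lib.MP_3e612f_nt.PI (mc)

/-- the scale: `T = log₂ h` tends to infinity and every power of it is small compared to `h` -/
theorem log_small (r : ℕ) {η : ℝ} (hη : 0 < η) (T0 : ℕ) :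
    ∃ h0 : ℕ, ∀ h ≥ h0, T0 ≤ Nat.log 2 h ∧ ((Nat.log 2 h : ℕ) : ℝ) ^ r ≤ η * h ∧
      ((Nat.log 2 h : ℕ) : ℝ) ≤ η * h := by
  have h1 : ∀ k : ℕ, ∃ T1 : ℕ, ∀ T ≥ T1, (T : ℝ) ^ k ≤ η * 2 ^ T := by
    intro k
    have h2 := tendsto_pow_const_div_const_pow_of_one_lt k (one_lt_two (α := ℝ))
    obtain ⟨T1, hT1⟩ := Filter.eventually_atTop.1 (h2.eventually (gt_mem_nhds hη))
    refine ⟨T1, fun T hT => ?_⟩
    have h3 := hT1 T hT
    rw [div_lt_iff₀ (by positivity)] at h3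
    exact h3.le
  obtain ⟨T1, hT1⟩ := h1 r
  obtain ⟨T2, hT2⟩ := h1 1
  refine ⟨2 ^ (T0 + T1 + T2), fun h hh => ?_⟩
  have h0 : h ≠ 0 := by
    have : 0 < 2 ^ (T0 + T1 + T2) := by positivity
    omega
  have h2 : T0 + T1 + T2 ≤ Nat.log 2 h := Nat.le_log_of_pow_le one_lt_two hh
  have h3 : (2 : ℝ) ^ Nat.log 2 h ≤ h := by exact_mod_cast Nat.pow_log_le_self 2 h0
  have h4 : η * (2 : ℝ) ^ Nat.log 2 h ≤ η * h := mul_le_mul_of_nonneg_left h3 hη.le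
  refine ⟨by omega, (hT1 _ (by omega)).trans h4, ?_⟩
  have h5 := hT2 (Nat.log 2 h) (by omega)
  rw [pow_one] at h5
  exact h5.trans h4

/-- the choice of the parameters -/
private theorem vc_bound {r C B : ℕ} {pm δ₀ η δ : ℝ} (hpm1 : 1 ≤ pm) (hδ₀ : 0 < δ₀) (hη0 : 0 < η)
    (hη2 : η * (16 * (r + 1) * (B + 1) * pm) ≤ δ₀)
    (hδ : δ = δ₀ / (8 * ((C : ℝ) + 1) ^ (2 * r) * √(2 / η))) {T h J : ℕ} (hT1 : (1 : ℝ) ≤ T)
    (a2 : (T : ℝ) ^ r ≤ h) (a3 : (T : ℝ) ≤ h) (a6 : (T : ℝ) ≤ δ₀ / (4 * (4 + 2 * r)) * h)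
    (hJ1 : (J : ℝ) ≤ η * T) (hJ2 : η * T / 2 ≤ J) (hJ3 : (1 : ℝ) ≤ J) (hJT : (J : ℝ) ≤ T)
    (Q : Fin r → ℕ) (hQ : ∀ j, 1 ≤ Q j) (hQT : ∀ j, Q j ≤ T ∧ T ≤ B * Q j) (i : Fin r)
    {p p' : ℝ} (hp : p ≤ pm) (hp' : p' ≤ pm) {N : ℕ}
    (hN : N ≤ h) :
    4 * (J : ℝ) + J * ∑ j, ((p + p') * (N + J) / Q j + 2) +
      (C : ℝ) ^ (2 * r) * (N + ∏ j, (Q j : ℝ)) * δ * √(Q i / J) ≤ δ₀ * h := by
  have hsq : 0 < √(2 / η) := Real.sqrt_pos.2 (by positivity)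
  have hδ0 : 0 < δ := by rw [hδ]; positivity
  have hhr : (1 : ℝ) ≤ h := hT1.trans a3
  have hNr : (N : ℝ) ≤ h := by exact_mod_cast hN
  have h1 : ∑ j, ((p + p') * (N + J) / Q j + 2) ≤ r * (4 * pm * B * h / T + 2) := by
    have h2 : ∀ j ∈ (univ : Finset (Fin r)), (p + p') * (N + J) / Q j + 2 ≤
        4 * pm * B * h / T + 2 := by
      intro j _
      have h3 : (T : ℝ) ≤ B * Q j := by exact_mod_cast (hQT j).2
      have hq : (0 : ℝ) < Q j := by exact_mod_cast hQ j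
      have h6 : (1 : ℝ) / Q j ≤ B / T := by
        rw [div_le_div_iff₀ hq (by linarith)]
        linarith
      have h7 : (p + p') * (N + J) / Q j ≤ 4 * pm * B * h / T := by
        calc (p + p') * (N + J) / Q j = (p + p') * (N + J) * (1 / Q j) := by ring
          _ ≤ ((pm : ℝ) + pm) * (h + h) * (B / T) := by
              gcongr
              exact_mod_cast hJT.trans a3
          _ = 4 * pm * B * h / T := by ring
      linarith
    calc _ ≤ ∑ _j : Fin r, (4 * pm * B * h / T + 2 : ℝ) := sum_le_sum h2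
      _ = _ := by rw [sum_const, card_univ, Fintype.card_fin, nsmul_eq_mul]
  have h2 : 4 * (J : ℝ) + J * ∑ j, ((p + p') * (N + J) / Q j + 2) ≤
      (4 + 2 * r) * T + 4 * r * pm * B * η * h := by
    calc 4 * (J : ℝ) + J * ∑ j, ((p + p') * (N + J) / Q j + 2) ≤
          4 * (J : ℝ) + J * (r * (4 * pm * B * h / T + 2)) := by gcongr
      _ = (4 + 2 * r) * J + J * (r * (4 * pm * B * h / T)) := by ring
      _ ≤ (4 + 2 * r) * T + (η * T) * (r * (4 * pm * B * h / T)) := by gcongr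
      _ = _ := by
          field_simp
  have h3 : (4 + 2 * (r : ℝ)) * T ≤ δ₀ * h / 4 := by
    calc (4 + 2 * (r : ℝ)) * T ≤ (4 + 2 * r) * (δ₀ / (4 * (4 + 2 * r)) * h) := by gcongr
      _ = δ₀ * h / 4 := by field_simp
  have h4 : 4 * r * pm * B * η * h ≤ δ₀ * h / 4 := by
    have h5 : 16 * (r * pm * B * η) ≤ δ₀ := by
      refine le_trans ?_ hη2
      have hr0 : (0 : ℝ) ≤ r := Nat.cast_nonneg _
      have hB0 : (0 : ℝ) ≤ B := Nat.cast_nonneg _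
      calc 16 * (r * pm * B * η) = η * (16 * r * B * pm) := by ring
        _ ≤ η * (16 * (r + 1) * (B + 1) * pm) := by
            gcongr
            · linarith
            · linarith
    calc 4 * r * pm * B * η * h = (16 * (r * pm * B * η)) * h / 4 := by ring
      _ ≤ δ₀ * h / 4 := by gcongr
  have h5 : (C : ℝ) ^ (2 * r) * (N + ∏ j, (Q j : ℝ)) * δ * √(Q i / J) ≤ δ₀ * h / 4 := by
    have h6 : ∏ j, (Q j : ℝ) ≤ h := by
      refine le_trans ?_ a2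
      calc ∏ j, (Q j : ℝ) ≤ ∏ _j : Fin r, (T : ℝ) := by
            refine prod_le_prod (fun j _ => Nat.cast_nonneg _) fun j _ => ?_
            exact_mod_cast (hQT j).1
        _ = (T : ℝ) ^ r := by rw [prod_const, card_univ, Fintype.card_fin]
    have h7 : √((Q i : ℝ) / J) ≤ √(2 / η) := by
      apply Real.sqrt_le_sqrt
      have h8 : (Q i : ℝ) ≤ T := by exact_mod_cast (hQT i).1
      rw [div_le_div_iff₀ (by linarith) hη0]
      nlinarith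
    calc (C : ℝ) ^ (2 * r) * (N + ∏ j, (Q j : ℝ)) * δ * √(Q i / J) ≤
          ((C : ℝ) + 1) ^ (2 * r) * (h + h) * δ * √(2 / η) := by
            gcongr
            linarith
      _ = δ₀ * h / 4 := by
            rw [hδ]
            field_simp
            ring
  have h6 : 0 ≤ δ₀ * h := by positivity
  linarith

/-- PROOF: `LOD.lkat P0 (ε / A ^ r)` gives `P`, `δ₀`, `h₀`. Put `F x n = (∏ j, w x j (z x j ((n + s x j) / Q j))
(n + s x j)) / A ^ r * ev (α n)` (as complex numbers, norm at most `1`), shift `0` in `lkat`. The pair sum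
`∑ n ∈ Icc 1 N', F x (p n + s1) * F y (p' n + s2)` is, up to a factor of norm `1`, the sum of `pair_multi` with the
shifts `s₁ j = s1 + s x j`, `s₂ j = s2 + s y j` and `θ = α (p + p')` (with the conjugate: `θ = α (p - p')`; the
products are real). Let `pm = P.sup id + 1`, `T = Nat.log 2 h`, `η = δ₀ / (100 (r + 1) (B + 1) pm)` (also `≤ 1/(B+1)`),
`J = ⌊η T⌋₊` (so `1 ≤ J ≤ Q i` and `η T / 2 ≤ J` for large `h`): `pair_multi` with `N' ≤ h` gives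
`4 J + J (2 pm (h + J) B r / T + 2 r) + C ^ (2 r) (h + T ^ r) δ √(2 / η) ≤ δ₀ h` if
`δ = δ₀ √(η / 2) / (8 (C + 1) ^ (2 r))` and `h` is large (`log_small`). `B` may be `0` only if there are no such `Q`.
For `r = 0` there is no `i`. -/
theorem vclass (P0 r C B : ℕ) {A ε : ℝ} (hA : 1 ≤ A) (hε : 0 < ε) :
    ∃ (P : Finset ℕ) (δ : ℝ), (∀ p ∈ P, p.Prime ∧ P0 < p) ∧ 0 < δ ∧ ∃ h0 : ℕ, ∀ h ≥ h0,
      ∃ X0 : ℕ, ∀ X ≥ X0, ∀ Q : Fin r → ℕ, (∀ j, 1 ≤ Q j) →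
        (∀ j j', j ≠ j' → Nat.Coprime (Q j) (Q j')) →
        (∀ j, Q j ≤ Nat.log 2 h ∧ Nat.log 2 h ≤ B * Q j) →
        ∀ (i : Fin r) (w : ℕ → Fin r → Fin C → ℕ → ℝ), (∀ x j c n, w x j c (n + Q j) = w x j c n) →
        (∀ x j c n, |w x j c n| ≤ A) →
        (∀ p ∈ P, ∀ p' ∈ P, p < p' → ∀ (x y : ℕ) (c c' : Fin C) (θ : ℝ) (s₁ s₂ : ℕ),
          ‖∑ v ∈ range (Q i), ((w x i c (p * v + s₁) * w y i c' (p' * v + s₂) : ℝ) : ℂ) *
            ev (θ * v)‖ ≤ δ * Q i) →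
        ∀ (z : ℕ → Fin r → ℕ → Fin C) (s : ℕ → Fin r → ℕ) (α : ℝ),
          ∑ x ∈ range X, ‖∑ m ∈ range h, mc (x + m) *
            (((∏ j, w x j (z x j ((m + s x j) / Q j)) (m + s x j) : ℝ) : ℂ) * ev (α * m))‖ ≤
            ε * h * X := by
  classical
  have hA0 : 0 < A := by linarith
  have hAr : 0 < A ^ r := by positivity
  obtain ⟨P, δ₀, h₀, hP, hδ₀, hkat⟩ := LOD.lkat P0 (show 0 < ε / A ^ r by positivity)
  obtain ⟨pm, hpm⟩ : ∃ pm : ℕ, pm = P.sup id + 1 := ⟨_, rfl⟩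
  have hpm1 : (1 : ℝ) ≤ pm := by
    have : 1 ≤ pm := by omega
    exact_mod_cast this
  have hpP : ∀ p ∈ P, (p : ℝ) ≤ pm := by
    intro p hp
    have h1 : p ≤ P.sup id := Finset.le_sup (f := id) hp
    have : p ≤ pm := by omega
    exact_mod_cast this
  obtain ⟨η, hη⟩ : ∃ η : ℝ, η = min (1 / ((B : ℝ) + 1))
      (δ₀ / (16 * ((r : ℝ) + 1) * (B + 1) * pm)) := ⟨_, rfl⟩
  have hη0 : 0 < η := by
    rw [hη]
    exact lt_min (by positivity) (by positivity)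
  have hη1 : η * (B + 1) ≤ 1 := by
    have h1 : η ≤ 1 / (B + 1) := by rw [hη]; exact min_le_left _ _
    rwa [le_div_iff₀ (by positivity)] at h1
  have hη2 : η * (16 * (r + 1) * (B + 1) * pm) ≤ δ₀ := by
    have h1 : η ≤ δ₀ / (16 * (r + 1) * (B + 1) * pm) := by rw [hη]; exact min_le_right _ _
    rwa [le_div_iff₀ (by positivity)] at h1
  have hηle : η ≤ 1 := by
    have : (0 : ℝ) ≤ B := Nat.cast_nonneg B
    nlinarith
  obtain ⟨δ, hδ⟩ : ∃ δ : ℝ, δ = δ₀ / (8 * ((C : ℝ) + 1) ^ (2 * r) * √(2 / η)) := ⟨_, rfl⟩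
  have hsq : 0 < √(2 / η) := Real.sqrt_pos.2 (by positivity)
  have hδ0 : 0 < δ := by rw [hδ]; positivity
  obtain ⟨h₁, hh₁⟩ := log_small r (η := 1) one_pos 1
  obtain ⟨h₂, hh₂⟩ := log_small r (η := δ₀ / (4 * (4 + 2 * r))) (by positivity) (⌈2 / η⌉₊ + 1)
  refine ⟨P, δ, hP, hδ0, max h₀ (max h₁ h₂), fun h hh => ?_⟩
  have hh0 : h₀ ≤ h := (le_max_left _ _).trans hh
  obtain ⟨a1, a2, a3⟩ := hh₁ h (((le_max_left _ _).trans (le_max_right _ _)).trans hh)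
  obtain ⟨a4, -, a6⟩ := hh₂ h (((le_max_right _ _).trans (le_max_right _ _)).trans hh)
  obtain ⟨X0, hX0⟩ := hkat h hh0
  refine ⟨X0, fun X hX Q hQ hcop hQT i w hper hbd hflat z s α => ?_⟩
  generalize hT : Nat.log 2 h = T at *
  rw [one_mul] at a2 a3
  have hT1 : (1 : ℝ) ≤ T := by exact_mod_cast a1
  have hT2 : 2 / η ≤ T := by
    have h1 : ((⌈2 / η⌉₊ + 1 : ℕ) : ℝ) ≤ T := by exact_mod_cast a4
    have h2 := Nat.le_ceil (2 / η)
    push_cast at h1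
    linarith
  have hηT : 2 ≤ η * T := by
    rw [div_le_iff₀ hη0] at hT2
    linarith
  have hhr : (1 : ℝ) ≤ h := hT1.trans a3
  obtain ⟨J, hJ⟩ : ∃ J, J = ⌊η * T⌋₊ := ⟨_, rfl⟩
  have hJ1 : (J : ℝ) ≤ η * T := by
    rw [hJ]; exact Nat.floor_le (by positivity)
  have hJ2 : η * T / 2 ≤ J := by
    have := Nat.lt_floor_add_one (η * T)
    rw [← hJ] at this
    linarith
  have hJ3 : (1 : ℝ) ≤ J := by linarith
  have hJ4 : 1 ≤ J := by exact_mod_cast hJ3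
  have hJT : (J : ℝ) ≤ T := by nlinarith
  have hJQ : J ≤ Q i := by
    have h1 : (T : ℝ) ≤ B * Q i := by exact_mod_cast (hQT i).2
    have h2 : (J : ℝ) ≤ Q i := by
      have hq : (0 : ℝ) ≤ Q i := Nat.cast_nonneg _
      calc (J : ℝ) ≤ η * T := hJ1
        _ ≤ η * (B * Q i) := by gcongr
        _ ≤ (η * (B + 1)) * Q i := by nlinarith
        _ ≤ 1 * Q i := by gcongr
        _ = Q i := one_mul _
    exact_mod_cast h2
  -- the bound
  have hbound : ∀ p ∈ P, ∀ p' ∈ P, ∀ N ≤ h, 4 * (J : ℝ) +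
      J * ∑ j, (((p : ℝ) + p') * (N + J) / Q j + 2) +
        (C : ℝ) ^ (2 * r) * (N + ∏ j, (Q j : ℝ)) * δ * √(Q i / J) ≤ δ₀ * h :=
    fun p hp p' hp' N hN => vc_bound hpm1 hδ₀ hη0 hη2 hδ hT1 a2 a3 a6 hJ1 hJ2 hJ3 hJT Q hQ hQT i
      (hpP p hp) (hpP p' hp') hN
  -- the functions
  let Pw : ℕ → ℕ → ℝ := fun x n => ∏ j, w x j (z x j ((n + s x j) / Q j)) (n + s x j)
  have hPw : ∀ x n, |Pw x n| ≤ A ^ r := by
    intro x n
    simp only [Pw]
    rw [Finset.abs_prod]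
    calc _ ≤ ∏ _j : Fin r, A := prod_le_prod (fun j _ => abs_nonneg _) fun j _ => hbd _ _ _ _
      _ = A ^ r := by rw [prod_const, card_univ, Fintype.card_fin]
  have hpair : ∀ p ∈ P, ∀ p' ∈ P, p < p' → ∀ (x y s1 s2 : ℕ) (θ : ℝ), ∀ N ≤ h,
      ‖∑ n ∈ Icc 1 N, ((Pw x (p * n + s1) * Pw y (p' * n + s2) : ℝ) : ℂ) * ev (θ * n)‖ ≤
        A ^ (2 * r) * (δ₀ * h) := by
    intro p hp p' hp' hpp x y s1 s2 θ N hN
    have h1 := pair_multi Q hQ hcop i (C := C) (N := N) (p := p) (r := p') hJ4 hJQ hA hδ0.le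
      (w x) (w y) (hper x) (hper y) (hbd x) (hbd y)
      (fun c c' θ s₁ s₂ => hflat p hp p' hp' hpp x y c c' θ s₁ s₂) (z x) (z y)
      (fun j => s1 + s x j) (fun j => s2 + s y j) θ
    rw [Fintype.card_fin] at h1
    have h2 : ∑ n ∈ Icc 1 N, ((Pw x (p * n + s1) * Pw y (p' * n + s2) : ℝ) : ℂ) * ev (θ * n) =
        ∑ m ∈ Icc 1 N, ((∏ j, (w x j (z x j ((p * m + (s1 + s x j)) / Q j))
          (p * m + (s1 + s x j)) * w y j (z y j ((p' * m + (s2 + s y j)) / Q j))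
          (p' * m + (s2 + s y j))) : ℝ) : ℂ) * ev (θ * m) := by
      refine sum_congr rfl fun m _ => ?_
      simp only [Pw]
      rw [← prod_mul_distrib]
      simp only [add_assoc]
    rw [h2]
    exact h1.trans (mul_le_mul_of_nonneg_left (hbound p hp p' hp' N hN) (by positivity))
  have hkey : ∀ p ∈ P, ∀ p' ∈ P, p < p' → ∀ (x y s1 s2 : ℕ) (σ : ℝ), ∀ N ≤ h,
      ‖∑ n ∈ Icc 1 N, (((Pw x (p * n + s1) / A ^ r : ℝ) : ℂ) * ev (α * (p * n + s1 : ℕ))) *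
        (((Pw y (p' * n + s2) / A ^ r : ℝ) : ℂ) * ev (σ * (p' * n + s2 : ℕ)))‖ ≤ δ₀ * h := by
    intro p hp p' hp' hpp x y s1 s2 σ N hN
    have h1 := hpair p hp p' hp' hpp x y s1 s2 (α * p + σ * p') N hN
    have h2 : ∑ n ∈ Icc 1 N, (((Pw x (p * n + s1) / A ^ r : ℝ) : ℂ) *
          ev (α * (p * n + s1 : ℕ))) *
        (((Pw y (p' * n + s2) / A ^ r : ℝ) : ℂ) * ev (σ * (p' * n + s2 : ℕ))) =
        ((((A ^ r * A ^ r)⁻¹ : ℝ) : ℂ) * ev (α * s1 + σ * s2)) *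
        ∑ n ∈ Icc 1 N, ((Pw x (p * n + s1) * Pw y (p' * n + s2) : ℝ) : ℂ) *
          ev ((α * p + σ * p') * n) := by
      rw [mul_sum]
      refine sum_congr rfl fun n _ => ?_
      have e1 : ev (α * (p * n + s1 : ℕ)) * ev (σ * (p' * n + s2 : ℕ)) =
          ev (α * s1 + σ * s2) * ev ((α * p + σ * p') * n) := by
        rw [← ev_add, ← ev_add]
        congr 1
        push_cast
        ring
      have e2 : ((Pw x (p * n + s1) / A ^ r : ℝ) : ℂ) * ((Pw y (p' * n + s2) / A ^ r : ℝ) : ℂ) =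
          (((A ^ r * A ^ r)⁻¹ : ℝ) : ℂ) *
            ((Pw x (p * n + s1) * Pw y (p' * n + s2) : ℝ) : ℂ) := by
        rw [← Complex.ofReal_mul, ← Complex.ofReal_mul]
        congr 1
        field_simp
      calc _ = (((Pw x (p * n + s1) / A ^ r : ℝ) : ℂ) *
            ((Pw y (p' * n + s2) / A ^ r : ℝ) : ℂ)) *
            (ev (α * (p * n + s1 : ℕ)) * ev (σ * (p' * n + s2 : ℕ))) := by ring
        _ = _ := by rw [e1, e2]; ring
    rw [h2, norm_mul, norm_mul, norm_ev, mul_one, Complex.norm_real, Real.norm_eq_abs,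
      abs_of_pos (by positivity)]
    have e3 : A ^ (2 * r) = A ^ r * A ^ r := by rw [two_mul, pow_add]
    rw [e3] at h1
    calc (A ^ r * A ^ r)⁻¹ * _ ≤ (A ^ r * A ^ r)⁻¹ * (A ^ r * A ^ r * (δ₀ * h)) := by gcongr
      _ = δ₀ * h := by field_simp
  have hmain := hX0 X hX (fun _ => 0)
    (fun x n => ((Pw x n / A ^ r : ℝ) : ℂ) * ev (α * n)) (by
      intro x n
      rw [norm_mul, norm_ev, mul_one, Complex.norm_real, Real.norm_eq_abs, abs_div,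
        abs_of_pos hAr, div_le_one hAr]
      exact hPw x n) (by
      intro p hp p' hp' hpp x y s1 s2 N hN
      refine ⟨hkey p hp p' hp' hpp x y s1 s2 α N hN, ?_⟩
      have h1 := hkey p hp p' hp' hpp x y s1 s2 (-α) N hN
      have h2 : ∀ n : ℕ, (starRingEnd ℂ) (((Pw y (p' * n + s2) / A ^ r : ℝ) : ℂ) *
          ev (α * (p' * n + s2 : ℕ))) =
          ((Pw y (p' * n + s2) / A ^ r : ℝ) : ℂ) * ev (-α * (p' * n + s2 : ℕ)) := by
        intro n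
        rw [map_mul, Complex.conj_ofReal, conj_ev, neg_mul]
      simp only [h2]
      exact h1)
  simp only [add_zero] at hmain
  have e : ∀ x, ‖∑ m ∈ range h, mc (x + m) * ((Pw x m : ℂ) * ev (α * m))‖ =
      A ^ r * ‖∑ m ∈ range h, mc (x + m) * (((Pw x m / A ^ r : ℝ) : ℂ) * ev (α * m))‖ := by
    intro x
    have e1 : ∑ m ∈ range h, mc (x + m) * ((Pw x m : ℂ) * ev (α * m)) = ((A ^ r : ℝ) : ℂ) *
        ∑ m ∈ range h, mc (x + m) * (((Pw x m / A ^ r : ℝ) : ℂ) * ev (α * m)) := by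
      rw [mul_sum]
      refine sum_congr rfl fun m _ => ?_
      have e2 : (Pw x m : ℂ) = ((A ^ r : ℝ) : ℂ) * ((Pw x m / A ^ r : ℝ) : ℂ) := by
        rw [← Complex.ofReal_mul, mul_div_cancel₀ _ hAr.ne']
      rw [e2]
      ring
    rw [e1, norm_mul, Complex.norm_real, Real.norm_eq_abs, abs_of_pos hAr]
  show ∑ x ∈ range X, ‖∑ m ∈ range h, mc (x + m) * ((Pw x m : ℂ) * ev (α * m))‖ ≤ ε * h * X
  rw [sum_congr rfl fun x _ => e x, ← mul_sum]
  calc A ^ r * _ ≤ A ^ r * (ε / A ^ r * h * X) := mul_le_mul_of_nonneg_left hmain hAr.le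
    _ = ε * h * X := by field_simp

end Pool.Agent.Lib.MP_3e612f_nt.LV
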