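import Pool.Agent.Lib.MP_3e612f_nt.LV.Defs
import Pool.Agent.Lib.MP_3e612f_nt.LV.Floor
import Pool.Agent.Lib.MP_3e612f_nt.LV.VClass

/-!
The structured part.
-/

set_option autoImplicit false

namespace Pool.Agent.Lib.MP_3e612f_nt.LV

open Finset
open Pool.Agent.Lib.MP_3e612f_nt.LOD
open Pool.Agent.Lib.MP_3e612f_nt.LORT
open Pool.Agent.Lib.MP_3e612f_nt.PI (mc)

/-- a product of `r` shifted structured functions is a function of at most `r R` floors -/
theorem str_prod {M R r : ℕ} (U : Fin r → ℕ → ℝ) (hU : ∀ j, Str M R (U j)) (s : Fin r → ℕ) :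
    ∃ n ≤ r * R, ∃ D : Fin n → ℕ, (∀ i, 1 ≤ D i) ∧ ∃ (t : Fin n → ℕ) (Ψ : (Fin n → ℕ) → ℂ),
      (∀ e, ‖Ψ e‖ ≤ 1) ∧
      ∀ m, ((∏ j, U j (m + s j) : ℝ) : ℂ) = Ψ (fun i => (m + t i) / D i % M) := by
  classical
  choose n hn D hD Ψ hΨ hUe using hU
  have hs : ∑ j, n j ≤ r * R := by
    refine (Finset.sum_le_sum fun j _ => hn j).trans ?_
    rw [Finset.sum_const, Finset.card_univ, Fintype.card_fin, smul_eq_mul]
  obtain ⟨e⟩ : Nonempty ((Σ j, Fin (n j)) ≃ Fin (∑ j, n j)) := ⟨finSigmaFinEquiv⟩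
  refine ⟨∑ j, n j, hs, fun i => D (e.symm i).1 (e.symm i).2, fun i => hD _ _,
    fun i => s (e.symm i).1, fun v => ((∏ j, Ψ j (fun i => v (e ⟨j, i⟩)) : ℝ) : ℂ), ?_, ?_⟩
  · intro v
    rw [Complex.norm_real, Real.norm_eq_abs, Finset.abs_prod]
    exact Finset.prod_le_one (fun j _ => abs_nonneg _) fun j _ => hΨ j _
  · intro m
    congr 1
    refine Finset.prod_congr rfl fun j _ => ?_
    rw [hUe j]
    congr 1
    funext i
    show (m + s j) / D j i % M = (m + s (e.symm (e ⟨j, i⟩)).1) /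
      D (e.symm (e ⟨j, i⟩)).1 (e.symm (e ⟨j, i⟩)).2 % M
    rw [e.symm_apply_apply]

/-- one window -/
private theorem win {M R r C : ℕ} (U : Fin r → Fin C → ℕ → ℝ) (hU : ∀ j c, Str M R (U j c))
    (Q : Fin r → ℕ) (z : Fin r → ℕ → Fin C) (s : Fin r → ℕ) (α : ℝ) (x m : ℕ) :
    ∃ n ≤ r * R, ∃ D : Fin n → ℕ, (∀ i, 1 ≤ D i) ∧ ∃ (t : Fin n → ℕ) (Ψ : (Fin n → ℕ) → ℂ),
      (∀ e, ‖Ψ e‖ ≤ 1) ∧ ∀ H : ℕ,
      ‖∑ k ∈ range H, mc (x + (m + k)) *
        (((∏ j, U j (z j ((m + k + s j) / Q j)) (m + k + s j) : ℝ) : ℂ) *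
          ev (α * ((m + k : ℕ) : ℝ)))‖ ≤
      ‖∑ k ∈ range H, mc (x + m + k) * (Ψ (fun i => (k + t i) / D i % M) * ev (α * k))‖ +
        ∑ j, (if ∀ d < H, (m + d + s j) / Q j = (m + s j) / Q j then (0 : ℝ) else H) := by
  classical
  obtain ⟨n, hn, D, hD, t, Ψ, hΨ, he⟩ := str_prod (fun j => U j (z j ((m + s j) / Q j)))
    (fun j => hU j _) (fun j => m + s j)
  refine ⟨n, hn, D, hD, t, Ψ, hΨ, fun H => ?_⟩
  have hnn : ∀ j : Fin r,
      (0 : ℝ) ≤ (if ∀ d < H, (m + d + s j) / Q j = (m + s j) / Q j then (0 : ℝ) else H) := by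
    intro j
    split_ifs
    · exact le_rfl
    · exact Nat.cast_nonneg _
  by_cases hg : ∀ j, ∀ d < H, (m + d + s j) / Q j = (m + s j) / Q j
  · refine le_trans (le_of_eq ?_) (le_add_of_nonneg_right (Finset.sum_nonneg fun j _ => hnn j))
    have h1 : ∑ k ∈ range H, mc (x + (m + k)) *
        (((∏ j, U j (z j ((m + k + s j) / Q j)) (m + k + s j) : ℝ) : ℂ) *
          ev (α * ((m + k : ℕ) : ℝ))) = ev (α * m) *
        ∑ k ∈ range H, mc (x + m + k) * (Ψ (fun i => (k + t i) / D i % M) * ev (α * k)) := by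
      rw [Finset.mul_sum]
      refine Finset.sum_congr rfl fun k hk => ?_
      have h2 : ((∏ j, U j (z j ((m + k + s j) / Q j)) (m + k + s j) : ℝ) : ℂ) =
          Ψ (fun i => (k + t i) / D i % M) := by
        rw [← he k]
        congr 1
        refine Finset.prod_congr rfl fun j _ => ?_
        have h3 := hg j k (mem_range.1 hk)
        have h4 : k + (m + s j) = m + k + s j := by omega
        show U j (z j ((m + k + s j) / Q j)) (m + k + s j) =
          U j (z j ((m + s j) / Q j)) (k + (m + s j))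
        rw [h3, h4]
      have h5 : ev (α * ((m + k : ℕ) : ℝ)) = ev (α * m) * ev (α * k) := by
        rw [← ev_add]
        congr 1
        push_cast
        ring
      rw [h2, h5, ← Nat.add_assoc]
      ring
    rw [h1, norm_mul, norm_ev, one_mul]
  · push Not at hg
    obtain ⟨j, hj⟩ := hg
    have h1 : ‖∑ k ∈ range H, mc (x + (m + k)) *
        (((∏ j, U j (z j ((m + k + s j) / Q j)) (m + k + s j) : ℝ) : ℂ) *
          ev (α * ((m + k : ℕ) : ℝ)))‖ ≤ H := by
      refine (norm_sum_le _ _).trans ?_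
      have h2 : ∀ k ∈ range H, ‖mc (x + (m + k)) *
          (((∏ j, U j (z j ((m + k + s j) / Q j)) (m + k + s j) : ℝ) : ℂ) *
          ev (α * ((m + k : ℕ) : ℝ)))‖ ≤ 1 := by
        intro k _
        rw [norm_mul, norm_mul, norm_ev, mul_one, Complex.norm_real, Real.norm_eq_abs,
          Finset.abs_prod]
        refine mul_le_one₀ (base_norm_mc _) (Finset.prod_nonneg fun j _ => abs_nonneg _)
          (Finset.prod_le_one (fun j _ => abs_nonneg _) fun j _ => ?_)
        obtain ⟨n', -, D', -, Ψ', hΨ', he'⟩ := hU j (z j ((m + k + s j) / Q j))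
        rw [he']
        exact hΨ' _
      refine (Finset.sum_le_sum h2).trans ?_
      rw [Finset.sum_const, card_range, nsmul_eq_mul, mul_one]
    have h3 : (H : ℝ) ≤
        ∑ j, (if ∀ d < H, (m + d + s j) / Q j = (m + s j) / Q j then (0 : ℝ) else H) := by
      refine le_trans (le_of_eq ?_) (Finset.single_le_sum (fun j _ => hnn j) (mem_univ j))
      rw [if_neg]
      intro h4
      obtain ⟨d, hd, hd'⟩ := hj
      exact hd' (h4 d hd)
    exact h1.trans (h3.trans (le_add_of_nonneg_left (norm_nonneg _)))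

/-- the bad starting points of the windows -/
private theorem bad_sum {r B : ℕ} (Q s : Fin r → ℕ) (hQ1 : ∀ j, 1 ≤ Q j) {T h H : ℕ} (hT : 1 ≤ T)
    (hQ : ∀ j, T ≤ B * Q j) :
    ∑ m ∈ range h, ∑ j, (if ∀ d < H, (m + d + s j) / Q j = (m + s j) / Q j then (0 : ℝ) else H) ≤
      H * (r * (H * (((h : ℝ) + H) * (B + 1) / T + 1))) := by
  classical
  rw [Finset.sum_comm]
  have h1 : ∀ j, ∑ m ∈ range h,
      (if ∀ d < H, (m + d + s j) / Q j = (m + s j) / Q j then (0 : ℝ) else H) ≤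
      H * (H * (((h : ℝ) + H) * (B + 1) / T + 1)) := by
    intro j
    have h2 := floor_count 1 (s j) (hQ1 j) H h
    simp only [one_mul] at h2
    have h3 : ∑ m ∈ range h,
        (if ∀ d < H, (m + d + s j) / Q j = (m + s j) / Q j then (0 : ℝ) else H) =
        (((range h).filter fun a => ¬ ∀ d < H, (a + d + s j) / Q j = (a + s j) / Q j).card : ℝ) *
          H := by
      rw [Finset.card_filter]
      push_cast
      rw [Finset.sum_mul]
      refine Finset.sum_congr rfl fun m _ => ?_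
      by_cases h4 : ∀ d < H, (m + d + s j) / Q j = (m + s j) / Q j
      · rw [if_pos h4, if_neg (not_not.2 h4), zero_mul]
      · rw [if_neg h4, if_pos h4, one_mul]
    have h5 : ((((range h).filter fun a =>
        ¬ ∀ d < H, (a + d + s j) / Q j = (a + s j) / Q j).card : ℕ) : ℝ) ≤
        H * (((h : ℝ) + H) * (B + 1) / T + 1) := by
      have h6 : ((((range h).filter fun a =>
          ¬ ∀ d < H, (a + d + s j) / Q j = (a + s j) / Q j).card : ℕ) : ℝ) ≤
          ((H * ((h + H) / Q j + 1) : ℕ) : ℝ) := by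
        exact_mod_cast h2
      refine h6.trans ?_
      push_cast
      refine mul_le_mul_of_nonneg_left ?_ (Nat.cast_nonneg _)
      have hQr : (0 : ℝ) < Q j := by exact_mod_cast hQ1 j
      have hTr : (0 : ℝ) < T := by exact_mod_cast hT
      have h7 : (((h + H) / Q j : ℕ) : ℝ) ≤ ((h : ℝ) + H) / Q j := by
        refine (Nat.cast_div_le).trans (le_of_eq ?_)
        push_cast
        rfl
      have h8 : ((h : ℝ) + H) / Q j ≤ ((h : ℝ) + H) * (B + 1) / T := by
        rw [div_le_div_iff₀ hQr hTr]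
        have h9 : (T : ℝ) ≤ B * Q j := by exact_mod_cast hQ j
        have h10 : (T : ℝ) ≤ (B + 1) * Q j := by linarith
        calc ((h : ℝ) + H) * T ≤ ((h : ℝ) + H) * ((B + 1) * Q j) :=
              mul_le_mul_of_nonneg_left h10 (by positivity)
          _ = ((h : ℝ) + H) * (B + 1) * Q j := by ring
      linarith
    rw [h3, mul_comm]
    exact mul_le_mul_of_nonneg_left h5 (Nat.cast_nonneg _)
  refine (Finset.sum_le_sum fun j _ => h1 j).trans (le_of_eq ?_)
  rw [Finset.sum_const, card_univ, Fintype.card_fin, nsmul_eq_mul]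
  ring

/-- PROOF: windows of length `H = ⌊η log₂ h⌋₊`, `η = ε / (16 (r + 1) (B + 1))`: `LOD.base_avg` gives
`‖∑ m < h, G m‖ ≤ (∑ m < h, ‖∑ k < H, G (m + k)‖) / H + 2 H` (up to constants). An `m` is good if the floors
`(m + k + s x j) / Q j` do not depend on `k < H`; at most `H (2 h / Q j + 2)` bad ones for every `j` (`floor_count` with
`p = 1`), together at most `r H (4 h B / log₂ h + 2)` which is at most `ε h / 4`. For a good `m` the inner sum is
that of the function of `lfloorT` (by `str_prod`) for the starting point `x + m`; for every fixed `m < h` the sum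
over `x < X` is at most the sum over `x' < X + h` (`x' = x + m`; the family for `x' < m` is arbitrary, e.g.
constant `Ψ = 0`), at most `ε / 8 * H * (X + h)`, `X` large. The factor `ev (α m)` goes out of the norm. -/
theorem str_part (hMR : MRp) (r R M C B : ℕ) (hM : 1 ≤ M) {ε : ℝ} (hε : 0 < ε) :
    ∃ h0 : ℕ, ∀ h ≥ h0, ∃ X0 : ℕ, ∀ X ≥ X0, ∀ Q : Fin r → ℕ, (∀ j, 1 ≤ Q j) →
      (∀ j, Nat.log 2 h ≤ B * Q j) →
      ∀ U : ℕ → Fin r → Fin C → ℕ → ℝ, (∀ x j c, Str M R (U x j c)) →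
      ∀ (z : ℕ → Fin r → ℕ → Fin C) (s : ℕ → Fin r → ℕ) (α : ℝ),
        ∑ x ∈ range X, ‖∑ m ∈ range h, mc (x + m) *
          (((∏ j, U x j (z x j ((m + s x j) / Q j)) (m + s x j) : ℝ) : ℂ) * ev (α * m))‖ ≤
          ε * h * X := by
  classical
  obtain ⟨H0, hH0⟩ := lfloorT hMR hM (r * R) (ε := ε / 8) (by positivity)
  obtain ⟨η, hηd⟩ : ∃ η : ℝ, η = ε / (16 * (r + 1) * (B + 1)) := ⟨_, rfl⟩
  have hη : 0 < η := by rw [hηd]; positivity
  obtain ⟨η₂, hη₂d⟩ : ∃ η₂ : ℝ, η₂ = min 1 (ε / 8) / ((r + 2) * η) := ⟨_, rfl⟩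
  have hmin : 0 < min 1 (ε / 8) := lt_min one_pos (by positivity)
  have hη₂ : 0 < η₂ := by rw [hη₂d]; positivity
  obtain ⟨h0, hh0⟩ := log_small 1 hη₂ (⌈((H0 : ℝ) + 1) / η⌉₊ + 1)
  refine ⟨h0, fun h hh => ?_⟩
  obtain ⟨hT1, -, hT2⟩ := hh0 h hh
  obtain ⟨T, hTd⟩ : ∃ T, T = Nat.log 2 h := ⟨_, rfl⟩
  rw [← hTd] at hT1 hT2 ⊢
  obtain ⟨H, hHd⟩ : ∃ H, H = ⌊η * T⌋₊ := ⟨_, rfl⟩
  have hTpos : 1 ≤ T := by omega
  have hTr : (0 : ℝ) < T := by exact_mod_cast hTpos
  have hTη : (H0 : ℝ) + 1 ≤ η * T := by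
    have h1 : ((H0 : ℝ) + 1) / η ≤ T := by
      refine (Nat.le_ceil _).trans ?_
      exact_mod_cast (Nat.le_succ _).trans hT1
    rw [div_le_iff₀ hη] at h1
    linarith
  have hHge : H0 + 1 ≤ H := by
    rw [hHd]
    refine Nat.le_floor ?_
    push_cast
    exact hTη
  have hHle : (H : ℝ) ≤ η * T := by
    rw [hHd]
    exact Nat.floor_le (by positivity)
  have hHpos : (0 : ℝ) < H := by
    have : 1 ≤ H := by omega
    exact_mod_cast this
  have hHsmall : ((r : ℝ) + 2) * H ≤ min 1 (ε / 8) * h := by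
    calc ((r : ℝ) + 2) * H ≤ (r + 2) * (η * T) :=
          mul_le_mul_of_nonneg_left hHle (by positivity)
      _ ≤ (r + 2) * (η * (η₂ * h)) := by gcongr
      _ = min 1 (ε / 8) * h := by
          rw [hη₂d]
          have : ((r : ℝ) + 2) * η ≠ 0 := by positivity
          field_simp
  have hHh : (H : ℝ) ≤ h := by
    have h1 : (H : ℝ) ≤ ((r : ℝ) + 2) * H := by
      have h2 : (0 : ℝ) ≤ r := Nat.cast_nonneg _
      nlinarith
    have h2 : min 1 (ε / 8) * (h : ℝ) ≤ 1 * h :=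
      mul_le_mul_of_nonneg_right (min_le_left _ _) (Nat.cast_nonneg _)
    linarith
  have hHε : ((r : ℝ) + 2) * H ≤ ε / 8 * h :=
    hHsmall.trans (mul_le_mul_of_nonneg_right (min_le_right _ _) (Nat.cast_nonneg _))
  obtain ⟨X1, hX1⟩ := hH0 H (by omega)
  refine ⟨max X1 h, fun X hX Q hQ1 hQ2 U hU z s α => ?_⟩
  have hX1' : X1 ≤ X + h := ((le_max_left _ _).trans hX).trans (Nat.le_add_right _ _)
  have hXh : (h : ℝ) ≤ X := by exact_mod_cast (le_max_right _ _).trans hX
  have key := fun x m => win (U x) (hU x) Q (z x) (s x) α x m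
  choose n hn D hD t Ψ hΨ hkey using key
  obtain ⟨A, hA⟩ : ∃ A : ℕ → ℕ → ℝ, A = fun x m => ‖∑ k ∈ range H,
    mc (x + m + k) * (Ψ x m (fun i => (k + t x m i) / D x m i % M) * ev (α * k))‖ := ⟨_, rfl⟩
  obtain ⟨b, hb⟩ : ∃ b : ℕ → ℕ → ℝ, b = fun x m => ∑ j, (if ∀ d < H,
    (m + d + s x j) / Q j = (m + s x j) / Q j then (0 : ℝ) else H) := ⟨_, rfl⟩
  -- the windows with the frozen functions
  have hAsum : ∀ m ∈ range h, ∑ x ∈ range X, A x m ≤ ε / 8 * H * (X + h) := by
    intro m hm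
    have hfam : ∀ x' : ℕ, ∃ n' ≤ r * R, ∃ D' : Fin n' → ℕ, (∀ i, 1 ≤ D' i) ∧
        ∃ (t' : Fin n' → ℕ) (Ψ' : (Fin n' → ℕ) → ℂ), (∀ e, ‖Ψ' e‖ ≤ 1) ∧
        ∀ x, x + m = x' → A x m ≤ ‖∑ k ∈ range H, mc (x' + k) *
          (Ψ' (fun i => (k + t' i) / D' i % M) * ev (α * k))‖ := by
      intro x'
      by_cases hx : m ≤ x'
      · refine ⟨n (x' - m) m, hn _ _, D (x' - m) m, hD _ _, t (x' - m) m, Ψ (x' - m) m, hΨ _ _,
          fun x hxm => ?_⟩
        have e1 : x' - m = x := by omega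
        rw [e1, hA, ← hxm]
      · refine ⟨0, Nat.zero_le _, Fin.elim0, fun i => i.elim0, Fin.elim0, fun _ => 0,
          fun _ => ?_, fun x hxm => ?_⟩
        · rw [norm_zero]; exact zero_le_one
        · omega
    choose n' hn' D' hD' t' Ψ' hΨ' hf using hfam
    have h1 := hX1 (X + h) hX1' α n' hn' D' hD' t' Ψ' hΨ'
    have h2 : ∑ x ∈ range X, A x m ≤ ∑ x ∈ range X, ‖∑ k ∈ range H, mc (x + m + k) *
        (Ψ' (x + m) (fun i => (k + t' (x + m) i) / D' (x + m) i % M) * ev (α * k))‖ :=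
      Finset.sum_le_sum fun x _ => hf (x + m) x rfl
    have h3 := base_shift (fun y => ‖∑ k ∈ range H, mc (y + k) *
        (Ψ' y (fun i => (k + t' y i) / D' y i % M) * ev (α * k))‖)
        (fun y => norm_nonneg _) (X := X) (mem_range.1 hm)
    refine h2.trans (h3.trans (h1.trans (le_of_eq ?_)))
    push_cast
    ring
  have hbsum : ∀ x, ∑ m ∈ range h, b x m ≤
      H * (r * (H * (((h : ℝ) + H) * (B + 1) / T + 1))) := by
    intro x
    rw [hb]
    exact bad_sum Q (s x) hQ1 hTpos hQ2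
  -- one `x`
  have hx : ∀ x, ‖∑ m ∈ range h, mc (x + m) *
      (((∏ j, U x j (z x j ((m + s x j) / Q j)) (m + s x j) : ℝ) : ℂ) * ev (α * m))‖ ≤
      (∑ m ∈ range h, (A x m + b x m)) / H + 2 * H := by
    intro x
    have h1 := base_avg (fun m => mc (x + m) *
      (((∏ j, U x j (z x j ((m + s x j) / Q j)) (m + s x j) : ℝ) : ℂ) * ev (α * m)))
      (fun m => ?_) h (H := H) (by omega)
    · refine h1.trans (add_le_add_left (div_le_div_of_nonneg_right
        (Finset.sum_le_sum fun m _ => ?_) hHpos.le) _)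
      rw [hA, hb]
      exact hkey x m H
    · rw [norm_mul, norm_mul, norm_ev, mul_one, Complex.norm_real, Real.norm_eq_abs,
          Finset.abs_prod]
      refine mul_le_one₀ (base_norm_mc _) (Finset.prod_nonneg fun j _ => abs_nonneg _)
          (Finset.prod_le_one (fun j _ => abs_nonneg _) fun j _ => ?_)
      obtain ⟨n', -, D', -, Ψ', hΨ', he'⟩ := hU x j (z x j ((m + s x j) / Q j))
      rw [he']
      exact hΨ' _
  -- the sum
  have hsum : ∑ x ∈ range X, ‖∑ m ∈ range h, mc (x + m) *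
      (((∏ j, U x j (z x j ((m + s x j) / Q j)) (m + s x j) : ℝ) : ℂ) * ev (α * m))‖ ≤
      h * (ε / 8 * (X + h)) + X * (r * (H * (((h : ℝ) + H) * (B + 1) / T + 1))) + X * (2 * H) := by
    have h1 : ∑ x ∈ range X, ((∑ m ∈ range h, (A x m + b x m)) / H + 2 * H) =
        (∑ m ∈ range h, ∑ x ∈ range X, A x m) / H + (∑ x ∈ range X, ∑ m ∈ range h, b x m) / H +
        X * (2 * H) := by
      rw [Finset.sum_add_distrib, Finset.sum_const, card_range, nsmul_eq_mul, ← Finset.sum_div,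
        Finset.sum_comm (s := range h)]
      simp only [Finset.sum_add_distrib]
      rw [add_div]
    refine (Finset.sum_le_sum fun x _ => hx x).trans ?_
    rw [h1]
    refine add_le_add_left (add_le_add ?_ ?_) _
    · rw [div_le_iff₀ hHpos]
      refine (Finset.sum_le_sum hAsum).trans (le_of_eq ?_)
      rw [Finset.sum_const, card_range, nsmul_eq_mul]
      ring
    · rw [div_le_iff₀ hHpos]
      refine (Finset.sum_le_sum fun x _ => hbsum x).trans (le_of_eq ?_)
      rw [Finset.sum_const, card_range, nsmul_eq_mul]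
      ring
  refine hsum.trans ?_
  have hXr : (0 : ℝ) ≤ X := Nat.cast_nonneg _
  have hhr : (0 : ℝ) ≤ h := Nat.cast_nonneg _
  have e1 : (h : ℝ) * (ε / 8 * (X + h)) ≤ ε / 4 * h * X := by
    have : (h : ℝ) * (ε / 8 * (X + h)) ≤ h * (ε / 8 * (X + X)) := by gcongr
    linarith
  have e2 : (r : ℝ) * (H * (((h : ℝ) + H) * (B + 1) / T + 1)) ≤ ε / 8 * h + r * H := by
    have h1 : (H : ℝ) * (((h : ℝ) + H) * (B + 1) / T) ≤ η * (((h : ℝ) + h) * (B + 1)) := by
      calc (H : ℝ) * (((h : ℝ) + H) * (B + 1) / T) ≤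
            (η * T) * (((h : ℝ) + h) * (B + 1) / T) := by gcongr
        _ = η * (((h : ℝ) + h) * (B + 1)) := by
          field_simp
    have h2 : (r : ℝ) * (η * (((h : ℝ) + h) * (B + 1))) ≤ ε / 8 * h := by
      have h3 : (r : ℝ) * (η * (((h : ℝ) + h) * (B + 1))) ≤
          (r + 1) * (η * (((h : ℝ) + h) * (B + 1))) := by
        gcongr
        linarith
      refine h3.trans (le_of_eq ?_)
      rw [hηd]
      field_simp
      ring
    calc (r : ℝ) * (H * (((h : ℝ) + H) * (B + 1) / T + 1)) =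
          r * (H * (((h : ℝ) + H) * (B + 1) / T)) + r * H := by ring
      _ ≤ r * (η * (((h : ℝ) + h) * (B + 1))) + r * H := by gcongr
      _ ≤ ε / 8 * h + r * H := by linarith
  have e3 : (X : ℝ) * (r * (H * (((h : ℝ) + H) * (B + 1) / T + 1))) + X * (2 * H) ≤
      ε / 4 * h * X := by
    calc (X : ℝ) * (r * (H * (((h : ℝ) + H) * (B + 1) / T + 1))) + X * (2 * H) ≤
          X * (ε / 8 * h + r * H) + X * (2 * H) := by gcongr
      _ = X * (ε / 8 * h + (r + 2) * H) := by ring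
      _ ≤ X * (ε / 8 * h + ε / 8 * h) := by gcongr
      _ = ε / 4 * h * X := by ring
  have e4 : 0 ≤ ε * h * X := by positivity
  linarith

end Pool.Agent.Lib.MP_3e612f_nt.LV
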