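import Pool.Agent.Lib.MP_3e612f_nt.LV.SubM
import Pool.Agent.Lib.MP_3e612f_nt.LV.GoodG
import Pool.Agent.Lib.MP_3e612f_nt.LU.Sub

/-!
The universal subshifts of digit products with values in a finite group have good block functions.
-/

set_option autoImplicit false

namespace Pool.Agent.Lib.MP_3e612f_nt.LV

open Finset
open Pool.Agent.Lib.MP_3e612f_nt.PB

/-- PROOF (compare `LU.sub_coreL` in LU/Sub.lean). If `B < 2` there is no `q` with `Rad B q` (choose any good class,
e.g. `FG G`). Let `k` with `4 m / η < 2 ^ k`, `𝓕 = FG (G × (Fin k → Multiplicative (ZMod B)))` (`good_group`; a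
`Fintype` instance from `Finite`), `h1 ≥ 8 m / η`. For `x ∈ XQ G q` and `h` take `g, L, s` with
`x i = hw q g 0 L (i + s)` for `i < h + m + 1`; `PS.record` gives `g', L'`; put
`F z = f (block at n')` if there is `n' < h` with `hw q g' 0 L' (n' + s) = z` (choose one), else `0`. For `n < h` with
`(n + s) % Qr q 0 k + m ≤ Qr q 0 k` the blocks at `n` and at the chosen `n'` agree, so
`f (block at n) = F (hw q g' 0 L' (n + s))`; the other `n` are at most `m (h / Qr q 0 k + 2)` many (`LOD.base_count`). -/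
theorem sub_group (G : Type) [Group G] [Finite G] (B : ℕ) : SubGood B (LU.XQ G) := by
  classical
  intro m η hη
  by_cases hB : 2 ≤ B
  swap
  · haveI := Fintype.ofFinite G
    refine ⟨FG G, good_group G B, ?_, 0, fun q hq => ?_⟩
    · rintro q F ⟨g, L, f, hf, hF⟩ n
      rw [hF]
      exact hf _
    · have h1 := hq 0
      omega
  have : NeZero B := ⟨by omega⟩
  obtain ⟨k, hk⟩ : ∃ k : ℕ, 4 * (m : ℝ) / η < 2 ^ k := pow_unbounded_of_one_lt _ one_lt_two
  have := Fintype.ofFinite (G × (Fin k → Multiplicative (ZMod B)))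
  obtain ⟨h2, hh2⟩ := exists_nat_gt (8 * (m : ℝ) / η)
  refine ⟨FG (G × (Fin k → Multiplicative (ZMod B))), good_group _ B, ?_, h2, ?_⟩
  · rintro q F ⟨g, L, f, hf, hF⟩ n
    rw [hF]
    exact hf _
  intro q hq x hx h hh f hf
  obtain ⟨g, L, s, hxs⟩ := hx (h + m + 1)
  obtain ⟨g', L', hrec⟩ := PS.record B k hq g L
  obtain ⟨F, hF⟩ : ∃ F : G × (Fin k → Multiplicative (ZMod B)) → ℝ, F = fun z =>
    if hx : ∃ n, n < h ∧ hw q g' 0 L' (n + s) = z then f (fun j => x (hx.choose + j)) else 0 :=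
    ⟨_, rfl⟩
  have hF1 : ∀ z, |F z| ≤ 1 := by
    intro z
    rw [hF]
    dsimp only
    split_ifs with hx
    · exact hf _
    · rw [abs_zero]
      exact zero_le_one
  have hgood : ∀ n, n < h → ((n + s) % Qr q 0 k + m ≤ Qr q 0 k) →
      f (fun j => x (n + j)) = F (hw q g' 0 L' (n + s)) := by
    intro n hn hnm
    have hx : ∃ n', n' < h ∧ hw q g' 0 L' (n' + s) = hw q g' 0 L' (n + s) := ⟨n, hn, rfl⟩
    have e : F (hw q g' 0 L' (n + s)) = f (fun j => x (hx.choose + j)) := by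
      rw [hF]
      exact dif_pos hx
    rw [e]
    obtain ⟨e1, e2⟩ := hx.choose_spec
    obtain ⟨e3, e4⟩ := hrec (n + s) (hx.choose + s) e2.symm
    congr 1
    funext j
    have hj := j.2
    rw [hxs (n + j) (by omega), hxs (hx.choose + j) (by omega)]
    have h5 := e4 j (by omega)
    rw [show n + (j : ℕ) + s = n + s + j by omega,
      show hx.choose + (j : ℕ) + s = hx.choose + s + j by omega]
    exact h5
  refine ⟨fun n => F (hw q g' 0 L' n), ⟨g', L', F, hF1, fun n => rfl⟩, s, ?_⟩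
  have hQ1 : 0 < Qr q 0 k := Qr_pos hq 0 k
  have hsub : (range h).filter (fun n => f (fun j => x (n + j)) ≠ F (hw q g' 0 L' (n + s))) ⊆
      (range h).filter fun n => ¬ ((n + s) % Qr q 0 k + m ≤ Qr q 0 k) := by
    intro n hn
    rw [mem_filter] at hn ⊢
    exact ⟨hn.1, fun hnm => hn.2 (hgood n (mem_range.1 hn.1) hnm)⟩
  have hcount := (card_le_card hsub).trans (LOD.base_count hQ1 h s m)
  have hcount' : (((range h).filter (fun n => f (fun j => x (n + j)) ≠
      F (hw q g' 0 L' (n + s)))).card : ℝ) ≤ ((m * (h / Qr q 0 k + 2) : ℕ) : ℝ) := by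
    exact_mod_cast hcount
  refine hcount'.trans ?_
  have hN0 : (0 : ℝ) ≤ h := Nat.cast_nonneg h
  have hm0 : (0 : ℝ) ≤ m := Nat.cast_nonneg m
  have hQ : (2 : ℝ) ^ k ≤ Qr q 0 k := by exact_mod_cast two_pow_le_Qr hq 0 k
  have hQ0 : (0 : ℝ) < Qr q 0 k := by exact_mod_cast hQ1
  have h4 : 4 * (m : ℝ) ≤ η * Qr q 0 k := by
    rw [div_lt_iff₀ hη] at hk
    nlinarith
  have h5 : 8 * (m : ℝ) ≤ η * h := by
    rw [div_lt_iff₀ hη] at hh2
    have h6 : (h2 : ℝ) ≤ h := by exact_mod_cast hh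
    nlinarith
  have h6 : (m : ℝ) * ((h / Qr q 0 k : ℕ) : ℝ) ≤ η * h / 4 := by
    have h7 : ((h / Qr q 0 k : ℕ) : ℝ) ≤ (h : ℝ) / Qr q 0 k := Nat.cast_div_le
    refine (mul_le_mul_of_nonneg_left h7 hm0).trans ?_
    rw [← mul_div_assoc, div_le_iff₀ hQ0]
    nlinarith
  push_cast at h6 ⊢
  nlinarith

end Pool.Agent.Lib.MP_3e612f_nt.LV
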