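import Pool.Agent.Lib.MP_3e612f_nt.LV.TwOp

/-!
The length function of a function on `G × G` on the group of twisted translations; prefixes with small defect.
-/

set_option autoImplicit false

namespace Pool.Agent.Lib.MP_3e612f_nt.LV

open Finset
open Pool.Agent.Lib.MP_3e612f_nt.PB
open Pool.Agent.Lib.MP_3e612f_nt.PS (cu wu)
open Pool.Agent.Lib.MP_3e612f_nt.LORT (ev)

/-- the group of twisted translations: phases (written multiplicatively) and `G × G` -/
abbrev KG (G : Type) : Type := (Multiplicative ℝ × G) × G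

section
variable {G : Type} [Group G]

/-- the element with phase `t` and translation `w` -/
def kg (t : ℝ) (w : G × G) : KG G := ((Multiplicative.ofAdd t, w.1), w.2)

theorem kg_mul (t t' : ℝ) (w w' : G × G) : kg t w * kg t' w' = kg (t + t') (w * w') :=
  rfl

theorem kg_inv (t : ℝ) (w : G × G) : (kg t w)⁻¹ = kg (-t) w⁻¹ :=
  rfl

omit [Group G] in
private theorem tm_kg (x : KG G) : ∃ (t : ℝ) (w : G × G), x = kg t w :=
  ⟨Multiplicative.toAdd x.1.1, (x.1.2, x.2), rfl⟩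

variable [Fintype G]

/-- the distance between `Θ` and its twisted translate -/
noncomputable def Lt (Θ : G × G → ℂ) (x : KG G) : ℝ :=
  √(nrc fun z => ev (Multiplicative.toAdd x.1.1) * Θ (z * (x.1.2, x.2)) - Θ z)

private theorem tm_Lt (Θ : G × G → ℂ) (t : ℝ) (w : G × G) :
    Lt Θ (kg t w) = √(nrc fun z => ev t * Θ (z * w) - Θ z) :=
  rfl

theorem Lt_one (Θ : G × G → ℂ) : Lt Θ 1 = 0 := by
  have h : (1 : KG G) = kg 0 1 := rfl
  have e : (fun z => ev 0 * Θ (z * 1) - Θ z) = fun _ : G × G => (0 : ℂ) := by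
    funext z
    rw [LORT.ev_zero, one_mul, mul_one, sub_self]
  rw [h, tm_Lt, e]
  unfold nrc
  simp

/-- PROOF: `ev (t + t') Θ (z x y) - Θ z = ev t (ev t' Θ ((z x) y) - Θ (z x)) + (ev t Θ (z x) - Θ z)`,
`nrc_tri`, `nrc_tr`. -/
theorem Lt_mul (Θ : G × G → ℂ) (x y : KG G) : Lt Θ (x * y) ≤ Lt Θ x + Lt Θ y := by
  obtain ⟨t, w, rfl⟩ := tm_kg x
  obtain ⟨t', w', rfl⟩ := tm_kg y
  rw [kg_mul, tm_Lt, tm_Lt, tm_Lt]
  have e : (fun z => ev (t + t') * Θ (z * (w * w')) - Θ z) = fun z => (ev t * Θ (z * w) - Θ z) +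
      ev t * (ev t' * Θ (z * w * w') - Θ (z * w)) := by
    funext z
    rw [LORT.ev_add, ← mul_assoc z]
    ring
  rw [e]
  refine (nrc_tri _ _).trans (add_le_add le_rfl (le_of_eq (congrArg Real.sqrt ?_)))
  exact nrc_tr (LORT.norm_ev t) w fun z => ev t' * Θ (z * w') - Θ z

theorem Lt_inv (Θ : G × G → ℂ) (x : KG G) : Lt Θ x⁻¹ = Lt Θ x := by
  obtain ⟨t, w, rfl⟩ := tm_kg x
  rw [kg_inv, tm_Lt, tm_Lt]
  congr 1
  have h0 : ev (-t) * ev t = 1 := by rw [← LORT.ev_add, neg_add_cancel, LORT.ev_zero]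
  have e : (fun z => ev (-t) * Θ (z * w⁻¹) - Θ z) = fun z =>
      (-ev (-t)) * (ev t * Θ (z * w⁻¹ * w) - Θ (z * w⁻¹)) := by
    funext z
    rw [inv_mul_cancel_right]
    linear_combination (Θ z) * h0
  rw [e]
  exact nrc_tr (by rw [norm_neg, LORT.norm_ev]) w⁻¹ fun z => ev t * Θ (z * w) - Θ z

/-- two approximations by twisted translates of the same function. PROOF: `ev t * A (z w) ≈ Θ z` and
`ev t' * A (z w') ≈ Θ z`; replace `z` by `z w w'⁻¹` in the second: `ev t' * A (z w) ≈ Θ (z w w'⁻¹)`. Hence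
`ev (t - t') Θ (z w w'⁻¹) ≈ ev t * A (z w) ≈ Θ z`. -/
theorem two_approxc {A Θ : G × G → ℂ} {w w' : G × G} {t t' e : ℝ}
    (h : nrc (fun z => ev t * A (z * w) - Θ z) ≤ e)
    (h' : nrc (fun z => ev t' * A (z * w') - Θ z) ≤ e) :
    Lt Θ (kg t w * (kg t' w')⁻¹) ≤ 2 * √e := by
  rw [kg_inv, kg_mul, tm_Lt]
  have h0 : ev (t + -t') * ev t' = ev t := by
    rw [← LORT.ev_add]
    congr 1
    ring
  have e1 : (fun z => ev (t + -t') * Θ (z * (w * w'⁻¹)) - Θ z) = fun z =>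
      (ev t * A (z * w) - Θ z) +
        (-ev (t + -t')) * (ev t' * A (z * (w * w'⁻¹) * w') - Θ (z * (w * w'⁻¹))) := by
    funext z
    have h1 : z * (w * w'⁻¹) * w' = z * w := by group
    rw [h1]
    linear_combination (A (z * w)) * h0
  rw [e1]
  refine (nrc_tri _ _).trans ?_
  have h2 : nrc (fun z => (-ev (t + -t')) * (ev t' * A (z * (w * w'⁻¹) * w') -
      Θ (z * (w * w'⁻¹)))) = nrc (fun z => ev t' * A (z * w') - Θ z) :=
    nrc_tr (by rw [norm_neg, LORT.norm_ev]) (w * w'⁻¹) fun z => ev t' * A (z * w') - Θ z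
  rw [h2]
  have h3 := Real.sqrt_le_sqrt h
  have h4 := Real.sqrt_le_sqrt h'
  linarith

end

variable {G : Type} [Group G] [Fintype G] {q : ℕ → ℕ} {g : ℕ → ℕ → G} {B : ℕ} {p r : ℕ}

private theorem tm_sum_mulR (Q Q' : ℕ) (F : ℕ → ℝ) :
    ∑ u ∈ range (Q * Q'), F u = ∑ u₀ ∈ range Q, ∑ u₁ ∈ range Q', F (u₀ + Q * u₁) :=
  TransA_sum_mul Q Q' F

/-- the bound at the level `W` gives the bound at the smaller levels -/
private theorem tm_level (hq : Rad B q) {A : ℕ × ℕ → G × G → ℂ} {Θ : G × G → ℂ}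
    (l R W : ℕ) (hW : W ≤ R) (a ϑ : ℝ) (c₀ : ℕ × ℕ) (w₀ : G × G) {E : ℝ}
    (h : ∀ v < Qr q l W, nrc (fun z => ev (a + ϑ * v) *
      TTw q g p r (l + W) (R - W) (ϑ * Qr q l W) A (cu q p r l W c₀ v)
      (z * (w₀ * wu q g p r l W c₀ v)) - Θ z) ≤ E) :
    ∀ W' ≤ W, ∀ v < Qr q l W', nrc (fun z => ev (a + ϑ * v) *
      TTw q g p r (l + W') (R - W') (ϑ * Qr q l W') A
      (cu q p r l W' c₀ v) (z * (w₀ * wu q g p r l W' c₀ v)) - Θ z) ≤ E := by
  intro W' hW' v hv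
  have hE : 0 ≤ E := (nrc_nonneg _).trans (h 0 (Qr_pos hq l W))
  obtain ⟨d, rfl⟩ := Nat.exists_eq_add_of_le hW'
  have hQ : (Qr q (l + W') d : ℂ) ≠ 0 := by
    have := Qr_pos hq (l + W') d
    exact_mod_cast this.ne'
  have e0 : R - W' = d + (R - (W' + d)) := by omega
  have e1 : (fun z => ev (a + ϑ * v) * TTw q g p r (l + W') (R - W') (ϑ * Qr q l W') A
      (cu q p r l W' c₀ v) (z * (w₀ * wu q g p r l W' c₀ v)) - Θ z) =
      fun z => (∑ v' ∈ range (Qr q (l + W') d), (ev (a + ϑ * ((v + Qr q l W' * v' : ℕ) : ℝ)) *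
        TTw q g p r (l + (W' + d)) (R - (W' + d)) (ϑ * Qr q l (W' + d)) A
          (cu q p r l (W' + d) c₀ (v + Qr q l W' * v'))
          (z * (w₀ * wu q g p r l (W' + d) c₀ (v + Qr q l W' * v'))) - Θ z)) /
        ((range (Qr q (l + W') d)).card : ℂ) := by
    funext z
    have e2 : TTw q g p r (l + W') (R - W') (ϑ * Qr q l W') A
        (cu q p r l W' c₀ v) (z * (w₀ * wu q g p r l W' c₀ v)) =
        (∑ u ∈ range (Qr q (l + W') d), ev (ϑ * Qr q l W' * u) *
          TTw q g p r (l + W' + d) (R - (W' + d)) (ϑ * Qr q l W' * Qr q (l + W') d) A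
          (cu q p r (l + W') d (cu q p r l W' c₀ v) u)
          (z * (w₀ * wu q g p r l W' c₀ v) * wu q g p r (l + W') d (cu q p r l W' c₀ v) u)) /
          (Qr q (l + W') d : ℂ) := by
      rw [e0, TTw_add hq]
      rfl
    rw [e2, sum_sub_distrib, sum_const, card_range, nsmul_eq_mul, sub_div,
      mul_div_cancel_left₀ _ hQ, ← mul_div_assoc, mul_sum]
    congr 2
    refine sum_congr rfl fun u _ => ?_
    have eA : ev (a + ϑ * ((v + Qr q l W' * u : ℕ) : ℝ)) =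
        ev (a + ϑ * v) * ev (ϑ * Qr q l W' * u) := by
      rw [← LORT.ev_add]
      congr 1
      push_cast
      ring
    have eT : ϑ * (Qr q l (W' + d) : ℝ) = ϑ * Qr q l W' * Qr q (l + W') d := by
      rw [Qr_add]
      push_cast
      ring
    have eZ : ∀ x y : G × G, z * (w₀ * (x * y)) = z * (w₀ * x) * y := by
      intro x y
      group
    rw [PS.cu_add hq, PS.wu_add hq, Nat.add_assoc, eA, eT, eZ, ← mul_assoc (ev (a + ϑ * v))]
  rw [e1]
  refine nrc_avg _ _ (fun v' hv' => h _ ?_) hE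
  rw [mem_range] at hv'
  rw [Qr_add]
  calc v + Qr q l W' * v' < Qr q l W' + Qr q l W' * v' := by omega
    _ = Qr q l W' * (v' + 1) := by ring
    _ ≤ Qr q l W' * Qr q (l + W') d := Nat.mul_le_mul_left _ hv'

/-- a prefix of `m` digits after which all continuations by at most `W` digits have small defect; adapt
`PS.good_prefix` (file PS/Mart.lean) -/
theorem good_prefixc (hq : Rad B q) {S : ℝ} {A : ℕ × ℕ → G × G → ℂ} (hA : ∀ c, nrc (A c) ≤ S)
    (i m W M : ℕ) (hM : m + W ≤ M) (ϑ : ℝ) (c : ℕ × ℕ) :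
    ∃ u₀, u₀ < Qr q i m ∧ ∀ W' ≤ W, ∀ v < Qr q (i + m) W',
      nrc (fun z => ev (ϑ * u₀ + ϑ * Qr q i m * v) *
          TTw q g p r (i + m + W') (M - m - W') (ϑ * Qr q i (m + W')) A
          (cu q p r (i + m) W' (cu q p r i m c u₀) v)
          (z * (wu q g p r i m c u₀ * wu q g p r (i + m) W' (cu q p r i m c u₀) v)) -
        TTw q g p r i M ϑ A c z) ≤ (B : ℝ) ^ W * (S - nrc (TTw q g p r i M ϑ A c)) := by
  set Θ : G × G → ℂ := TTw q g p r i M ϑ A c with hΘ
  set V : ℕ → G × G → ℂ := fun u z => ev (ϑ * u) * TTw q g p r (i + (m + W)) (M - (m + W))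
    (ϑ * Qr q i (m + W)) A (cu q p r i (m + W) c u) (z * wu q g p r i (m + W) c u) with hV
  have hnV : ∀ u, nrc (V u) ≤ S := by
    intro u
    have h0 : nrc (V u) = nrc (TTw q g p r (i + (m + W)) (M - (m + W)) (ϑ * Qr q i (m + W)) A
        (cu q p r i (m + W) c u)) :=
      nrc_tr (LORT.norm_ev _) _ _
    rw [h0]
    exact TTw_nrc_le hq _ _ _ hA _
  have hnΘ : nrc Θ ≤ S := TTw_nrc_le hq _ _ _ hA _
  have hΘeq : ∀ z, Θ z = (∑ u ∈ range (Qr q i (m + W)), V u z) /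
      ((range (Qr q i (m + W))).card : ℂ) := by
    intro z
    rw [hΘ, card_range]
    conv_lhs => rw [show M = (m + W) + (M - (m + W)) by omega]
    rw [TTw_add hq]
    rfl
  have hne : (range (Qr q i (m + W))).Nonempty := ⟨0, by rw [mem_range]; exact Qr_pos hq _ _⟩
  have hd := avg_defectc (range (Qr q i (m + W))) hne V (fun u _ => hnV u)
  have e1 : (fun z => (∑ u ∈ range (Qr q i (m + W)), V u z) /
      ((range (Qr q i (m + W))).card : ℂ)) = Θ := by
    funext z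
    rw [hΘeq]
  rw [e1] at hd
  have e2 : ∀ u, (fun z => V u z - (∑ u' ∈ range (Qr q i (m + W)), V u' z) /
      ((range (Qr q i (m + W))).card : ℂ)) = fun z => V u z - Θ z := by
    intro u
    funext z
    rw [hΘeq]
  simp only [e2] at hd
  rw [card_range, Qr_add, tm_sum_mulR] at hd
  push_cast at hd
  obtain ⟨u₀, hu₀, hsum⟩ : ∃ u₀ ∈ range (Qr q i m), ∑ v ∈ range (Qr q (i + m) W),
      nrc (fun z => V (u₀ + Qr q i m * v) z - Θ z) ≤ (Qr q (i + m) W : ℝ) * (S - nrc Θ) := by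
    by_contra hcon
    push Not at hcon
    have hne' : (range (Qr q i m)).Nonempty := ⟨0, by rw [mem_range]; exact Qr_pos hq _ _⟩
    have := sum_lt_sum_of_nonempty hne' hcon
    rw [sum_const, card_range, nsmul_eq_mul] at this
    linarith
  rw [mem_range] at hu₀
  refine ⟨u₀, hu₀, ?_⟩
  have hWM : W ≤ M - m := by omega
  have hbound : ∀ v < Qr q (i + m) W, nrc (fun z => ev (ϑ * u₀ + ϑ * Qr q i m * v) *
      TTw q g p r (i + m + W) (M - m - W) (ϑ * Qr q i m * Qr q (i + m) W) A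
      (cu q p r (i + m) W (cu q p r i m c u₀) v)
      (z * (wu q g p r i m c u₀ * wu q g p r (i + m) W (cu q p r i m c u₀) v)) - Θ z) ≤
      (B : ℝ) ^ W * (S - nrc Θ) := by
    intro v hv
    have h1 : nrc (fun z => V (u₀ + Qr q i m * v) z - Θ z) ≤
        (Qr q (i + m) W : ℝ) * (S - nrc Θ) :=
      (single_le_sum (f := fun v => nrc (fun z => V (u₀ + Qr q i m * v) z - Θ z))
        (fun v _ => nrc_nonneg _) (mem_range.2 hv)).trans hsum
    have h2 : (Qr q (i + m) W : ℝ) ≤ (B : ℝ) ^ W := by exact_mod_cast Qr_le_pow hq (i + m) W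
    have h3 : (Qr q (i + m) W : ℝ) * (S - nrc Θ) ≤ (B : ℝ) ^ W * (S - nrc Θ) :=
      mul_le_mul_of_nonneg_right h2 (by linarith)
    have h4 : (fun z => ev (ϑ * u₀ + ϑ * Qr q i m * v) *
        TTw q g p r (i + m + W) (M - m - W) (ϑ * Qr q i m * Qr q (i + m) W) A
        (cu q p r (i + m) W (cu q p r i m c u₀) v)
        (z * (wu q g p r i m c u₀ * wu q g p r (i + m) W (cu q p r i m c u₀) v)) - Θ z) =
        fun z => V (u₀ + Qr q i m * v) z - Θ z := by
      funext z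
      rw [hV]
      simp only
      have eA : ev (ϑ * ((u₀ + Qr q i m * v : ℕ) : ℝ)) = ev (ϑ * u₀ + ϑ * Qr q i m * v) := by
        congr 1
        push_cast
        ring
      have eT : ϑ * (Qr q i (m + W) : ℝ) = ϑ * Qr q i m * Qr q (i + m) W := by
        rw [Qr_add]
        push_cast
        ring
      rw [PS.cu_add hq, PS.wu_add hq, Nat.add_assoc, Nat.sub_sub, eA, eT]
    rw [h4]
    exact h1.trans h3
  have h5 := tm_level hq (i + m) (M - m) W hWM (ϑ * u₀) (ϑ * Qr q i m) (cu q p r i m c u₀)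
    (wu q g p r i m c u₀) hbound
  intro W' hW' v hv
  have h6 := h5 W' hW' v hv
  have e3 : ϑ * (Qr q i (m + W') : ℝ) = ϑ * Qr q i m * Qr q (i + m) W' := by
    rw [Qr_add]
    push_cast
    ring
  rw [e3]
  exact h6

end Pool.Agent.Lib.MP_3e612f_nt.LV
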