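import Pool.Agent.Lib.MP_3e612f_nt.LV.TwLoc
import Pool.Agent.Lib.MP_3e612f_nt.LV.TwMart
import Pool.Agent.Lib.MP_3e612f_nt.PS.Chain

/-!
The chain argument with a length function instead of a subgroup: all elements of `1 × Nlin` are short.
-/

set_option autoImplicit false

namespace Pool.Agent.Lib.MP_3e612f_nt.LV

open Finset
open Pool.Agent.Lib.MP_3e612f_nt.PB
open Pool.Agent.Lib.MP_3e612f_nt.PS

/-- short lifts. PROOF (compare `PB.word_bound` in PB/OperD.lean): `A n = {y | ∃ x, L (x, y) ≤ n τ}` increases, contains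
`1` for `n = 0`, and `A n * A 1 ⊆ A (n + 1)`, `A 1` is closed under inverses; if `A n = A (n + 1)` then `A n`
contains the projection of the closure; so `card G` steps suffice. -/
theorem lift_len {G₁ G : Type} [Group G₁] [Group G] [Fintype G] (L : G₁ × G → ℝ) (hL1 : L 1 = 0)
    (hLm : ∀ x y, L (x * y) ≤ L x + L y) (hLi : ∀ x, L x⁻¹ = L x) {τ : ℝ} (hτ : 0 ≤ τ) {y : G}
    (hy : y ∈ (Subgroup.closure {x : G₁ × G | L x ≤ τ}).map (MonoidHom.snd G₁ G)) :
    ∃ x : G₁, L (x, y) ≤ Fintype.card G * τ := by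
  classical
  set S : Set (G₁ × G) := {x : G₁ × G | L x ≤ τ} with hS
  set A : ℕ → Finset G := fun n => Finset.univ.filter (fun y => ∃ x, L (x, y) ≤ n * τ) with hA
  have hmemA : ∀ n y, y ∈ A n ↔ ∃ x, L (x, y) ≤ n * τ := by
    intro n y
    simp [hA]
  have hmono : ∀ n, A n ⊆ A (n + 1) := by
    intro n z hz
    rw [hmemA] at hz ⊢
    obtain ⟨x, hx⟩ := hz
    refine ⟨x, hx.trans ?_⟩
    push_cast
    nlinarith
  have h1A : ∀ n, (1 : G) ∈ A n := by
    intro n
    rw [hmemA]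
    refine ⟨1, ?_⟩
    show L (1 : G₁ × G) ≤ _
    rw [hL1]
    positivity
  have claim : ∀ n : ℕ, (∀ z ∈ Subgroup.closure S, z.2 ∈ A n) ∨ n + 1 ≤ (A n).card := by
    intro n
    induction n with
    | zero => exact Or.inr (Finset.card_pos.mpr ⟨1, h1A 0⟩)
    | succ n ih =>
      by_cases hc : n + 1 + 1 ≤ (A (n + 1)).card
      · exact Or.inr hc
      left
      rcases ih with ih | ih
      · exact fun z hz => hmono n (ih z hz)
      have heq : A n = A (n + 1) := Finset.eq_of_subset_of_card_le (hmono n) (by omega)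
      have step : ∀ z : G₁ × G, z.2 ∈ A (n + 1) → ∀ b : G₁ × G, L b ≤ τ →
          (z * b).2 ∈ A (n + 1) := by
        intro z hz b hb
        rw [← heq, hmemA] at hz
        obtain ⟨x, hx⟩ := hz
        rw [hmemA]
        refine ⟨x * b.1, ?_⟩
        have h := hLm (x, z.2) b
        have e : (x * b.1, (z * b).2) = (x, z.2) * b := rfl
        rw [e]
        refine h.trans ?_
        push_cast
        linarith
      intro z hz
      induction hz using Subgroup.closure_induction_right with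
      | one => exact h1A (n + 1)
      | mul_right a _ b hb iha => exact step a iha b hb
      | mul_inv_cancel a _ b hb iha =>
        exact step a iha b⁻¹ (by rw [hLi]; exact hb)
  obtain ⟨z, hz, rfl⟩ := Subgroup.mem_map.1 hy
  have hfin : z.2 ∈ A (Fintype.card G) := by
    rcases claim (Fintype.card G) with h | h
    · exact h z hz
    · have := Finset.card_le_univ (A (Fintype.card G))
      omega
  exact (hmemA _ _).1 hfin

variable {G : Type} [Group G] [Fintype G] {q : ℕ → ℕ} {g : ℕ → ℕ → G} {B : ℕ} {p r k : ℕ}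

/-- the qualitative part, for a subgroup `P` of `G`. PROOF: as in `PS.chain` (the statements `hA`, `hb`, `hgd`, `hGam`
there), with `PS.loc_all` (first part) and: if `(y, z) ∈ Loc q g p r l (3 k + 1) (cl l)` then `α l * z * (α l)⁻¹ ∈ P`
(closure induction, `h1`). -/
theorem chain_P (hq : Rad B q) (hg : Neu g) (hp : 2 ≤ p) (hpr : p + 2 ≤ r) (hr : r.Prime)
    (hrq : ∀ j, ¬ r ∣ q j) (hk : p * r < 2 ^ k) (hG : Fintype.card G < r)
    (P : Subgroup G) (α : ℕ → G) (cl : ℕ → ℕ × ℕ) {i s t : ℕ} (his : i + k ≤ s)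
    (h0 : α i = 1)
    (h1 : ∀ l, i ≤ l → l < t → ∀ v v', v < Qr q l (3 * k + 1) → v' < Qr q l (3 * k + 1) →
      cu q p r l (3 * k + 1) (cl l) v = cu q p r l (3 * k + 1) (cl l) v' →
      α l * (hw q g l (3 * k + 1) (r * v + (cl l).2) *
        (hw q g l (3 * k + 1) (r * v' + (cl l).2))⁻¹) * (α l)⁻¹ ∈ P)
    (h2 : ∀ l, i ≤ l → l + 1 < t → ∃ x₁ x₂ : ℕ, x₁ < Qr q l (k + 1) ∧ x₂ < Qr q (l + 1) k ∧
      α l * hw q g l (k + 1) x₁ * (α (l + 1) * hw q g (l + 1) k x₂)⁻¹ ∈ P) :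
    (∀ l, i ≤ l → l < t → α l ∈ P ∧ ∀ x, x < Qr q l (k + 1) → hw q g l (k + 1) x ∈ P) ∧
      Gam q g s t ≤ P := by
  have hLoc : ∀ l, i ≤ l → l < t → ∀ z ∈ Loc q g p r l (3 * k + 1) (cl l),
      α l * z.2 * (α l)⁻¹ ∈ P := by
    intro l hl hlt z hz
    unfold Loc at hz
    induction hz using Subgroup.closure_induction with
    | mem x hx =>
      obtain ⟨v, v', hv, hv', hcu, rfl⟩ := hx
      exact h1 l hl hlt v v' hv hv' hcu
    | one =>
      show α l * 1 * (α l)⁻¹ ∈ P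
      rw [mul_one, mul_inv_cancel]
      exact P.one_mem
    | mul x y _ _ hx hy =>
      have h := P.mul_mem hx hy
      have e : α l * x.2 * (α l)⁻¹ * (α l * y.2 * (α l)⁻¹) = α l * (x * y).2 * (α l)⁻¹ := by
        show _ = α l * (x.2 * y.2) * (α l)⁻¹
        group
      rwa [e] at h
    | inv x _ hx =>
      have h := P.inv_mem hx
      have e : (α l * x.2 * (α l)⁻¹)⁻¹ = α l * (x⁻¹).2 * (α l)⁻¹ := by
        show _ = α l * (x.2)⁻¹ * (α l)⁻¹
        group
      rwa [e] at h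
  have hA : ∀ l, i ≤ l → l < t → ∀ x, x < Qr q l (k + 1) →
      α l * hw q g l (k + 1) x * (α l)⁻¹ ∈ P := by
    intro l hl hlt x hx
    obtain ⟨y', hy'⟩ := (loc_all hq hg hp hpr hr hrq hk hG l (cl l)).1 x hx
    exact hLoc l hl hlt _ hy'
  have hun : ∀ {b x : G}, b ∈ P → b * x * b⁻¹ ∈ P → x ∈ P := by
    intro b x hb hx
    have h := P.mul_mem (P.mul_mem (P.inv_mem hb) hx) hb
    have e : b⁻¹ * (b * x * b⁻¹) * b = x := by group
    rwa [e] at h
  -- the transports lie in `P`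
  have hb : ∀ m, i + m < t → α (i + m) ∈ P := by
    intro m
    induction m with
    | zero =>
      intro _
      rw [Nat.add_zero, h0]
      exact P.one_mem
    | succ m ih =>
      intro hm
      have hPl := ih (by omega)
      obtain ⟨x₁, x₂, hx₁, hx₂, f2⟩ := h2 (i + m) (by omega) (by omega)
      have e0 : i + (m + 1) = i + m + 1 := by omega
      rw [e0]
      have f1 : hw q g (i + m) (k + 1) x₁ ∈ P :=
        hun hPl (hA (i + m) (by omega) (by omega) x₁ hx₁)
      have f3 : α (i + m + 1) * hw q g (i + m + 1) k x₂ ∈ P := by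
        have h := P.mul_mem (P.inv_mem f2) (P.mul_mem hPl f1)
        have e : (α (i + m) * hw q g (i + m) (k + 1) x₁ *
            (α (i + m + 1) * hw q g (i + m + 1) k x₂)⁻¹)⁻¹ *
            (α (i + m) * hw q g (i + m) (k + 1) x₁) =
            α (i + m + 1) * hw q g (i + m + 1) k x₂ := by group
        rwa [e] at h
      have hx₂' : x₂ < Qr q (i + m + 1) (k + 1) := by
        rw [Qr_succ]
        exact lt_of_lt_of_le hx₂ (Nat.le_mul_of_pos_right _
          (lt_of_lt_of_le (by norm_num) (hq _).1))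
      have f4 := hA (i + m + 1) (by omega) (by omega) x₂ hx₂'
      rw [hw_extend hq hg (i + m + 1) k 1 hx₂] at f4
      have h := P.mul_mem (P.inv_mem f4) f3
      have e : (α (i + m + 1) * hw q g (i + m + 1) k x₂ * (α (i + m + 1))⁻¹)⁻¹ *
          (α (i + m + 1) * hw q g (i + m + 1) k x₂) = α (i + m + 1) := by group
      rwa [e] at h
  have hb' : ∀ l, i ≤ l → l < t → α l ∈ P := by
    intro l hl hlt
    have e : l = i + (l - i) := by omega
    rw [e]
    exact hb (l - i) (by omega)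
  refine ⟨fun l hl hlt => ⟨hb' l hl hlt, fun x hx => hun (hb' l hl hlt) (hA l hl hlt x hx)⟩, ?_⟩
  -- the digit values lie in `P`
  unfold Gam
  rw [Subgroup.closure_le]
  rintro _ ⟨j, d, hj, hjt, hd, rfl⟩
  have hd1 : d < Qr q j 1 := by
    rw [Qr_succ, Qr_zero, Nat.one_mul]
    exact hd
  have hd2 : d < Qr q j (k + 1) := by
    have e : k + 1 = 1 + k := by omega
    rw [e, Qr_add]
    exact lt_of_lt_of_le hd1 (Nat.le_mul_of_pos_right _ (Qr_pos hq _ _))
  have f := hun (hb' j (by omega) hjt) (hA j (by omega) hjt d hd2)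
  have e : k + 1 = 1 + k := by omega
  rw [e, hw_extend hq hg j 1 k hd1, hw_one_len, Nat.mod_eq_of_lt hd] at f
  exact f

/-- **the quantitative chain**. PROOF: let `P` be the projection of the closure of the elements of length `≤ τ`;
`chain_P` applies (second components of `h1`, `h2`; `kg_mul`, `kg_inv`). For `y ∈ Yj q g j`, `s ≤ j < t`, put `l = j - k`;
`loc_defectT` with `W = 3 k + 1` gives `x, v, v'`; the product of the two elements of `h1` for `(v, v + 1)` and
`(v', v' + 1)` (the second inverted) is `a l * (1, (hw x) y (hw x)⁻¹) * (a l)⁻¹ = (1, b y b⁻¹)` with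
`b = (a l).2 * hw q g l k x` (the phases `ϑ l (v - (v + 1))` and `ϑ l (v' - (v' + 1))` cancel), so its length is at most
`2 τ`, and `b ∈ P` (by `PB.hw_extend`, `x < Qr q l k ≤ Qr q l (k + 1)`). For `γ ∈ Gam q g s t ≤ P` the element
`γ b⁻¹ ∈ P` has a lift `(e, γ b⁻¹)` of length `≤ card G * τ` (`lift_len`), so the length of `(1, γ y γ⁻¹)` is at most
`2 τ + 2 card G τ`. Every `y ∈ Xs q g s t` is in some `Yj` (as in `PS.chain`). Finally `Nlin q g s t` is generated
by these elements: `lift_len` for `G₁ = Unit`, `L' (_, y) = L (1, y)`: length at most `card G * (2 card G + 2) τ`. -/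
theorem chainT (hq : Rad B q) (hg : Neu g) (hp : 2 ≤ p) (hpr : p + 2 ≤ r) (hr : r.Prime)
    (hrq : ∀ j, ¬ r ∣ q j) (hk : p * r < 2 ^ k) (hG : Fintype.card G < r)
    (L : KG G → ℝ) (hL1 : L 1 = 0) (hLm : ∀ x y, L (x * y) ≤ L x + L y) (hLi : ∀ x, L x⁻¹ = L x)
    {τ : ℝ} (hτ : 0 ≤ τ) (a : ℕ → KG G) (ϑ : ℕ → ℝ) (cl : ℕ → ℕ × ℕ) {i s t : ℕ}
    (his : i + k ≤ s) (h0 : (a i).2 = 1)
    (h1 : ∀ l, i ≤ l → l < t → ∀ v v', v < Qr q l (3 * k + 1) → v' < Qr q l (3 * k + 1) →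
      cu q p r l (3 * k + 1) (cl l) v = cu q p r l (3 * k + 1) (cl l) v' →
      L (a l * (kg (ϑ l * v) (wu q g p r l (3 * k + 1) (cl l) v) *
        (kg (ϑ l * v') (wu q g p r l (3 * k + 1) (cl l) v'))⁻¹) * (a l)⁻¹) ≤ τ)
    (h2 : ∀ l, i ≤ l → l + 1 < t → ∃ (w₁ w₂ : KG G) (x₁ x₂ : ℕ), x₁ < Qr q l (k + 1) ∧
      x₂ < Qr q (l + 1) k ∧ w₁.2 = hw q g l (k + 1) x₁ ∧ w₂.2 = hw q g (l + 1) k x₂ ∧
      L (a l * w₁ * (a (l + 1) * w₂)⁻¹) ≤ τ)
    {y : G} (hy : y ∈ Nlin q g s t) :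
    L (kg 0 ((1 : G), y)) ≤ 2 * Fintype.card G * (Fintype.card G + 1) * τ := by
  have hk1 : 1 ≤ k := by
    rcases Nat.eq_zero_or_pos k with h | h
    · rw [h, pow_zero] at hk
      have : 0 < p * r := Nat.mul_pos (by omega) hr.pos
      omega
    · exact h
  obtain ⟨P, hP⟩ : ∃ P : Subgroup G, P = (Subgroup.closure {x : KG G | L x ≤ τ}).map
      (MonoidHom.snd (Multiplicative ℝ × G) G) := ⟨_, rfl⟩
  have hLP : ∀ x : KG G, L x ≤ τ → x.2 ∈ P := by
    intro x hx
    rw [hP]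
    exact Subgroup.mem_map.2 ⟨x, Subgroup.subset_closure hx, rfl⟩
  obtain ⟨hα, hGam⟩ := chain_P hq hg hp hpr hr hrq hk hG P (fun l => (a l).2) cl his h0
    (fun l hl hlt v v' hv hv' hcu => hLP _ (h1 l hl hlt v v' hv hv' hcu))
    (fun l hl hlt => by
      obtain ⟨w₁, w₂, x₁, x₂, hx₁, hx₂, hw1, hw2, hLe⟩ := h2 l hl hlt
      refine ⟨x₁, x₂, hx₁, hx₂, ?_⟩
      have h := hLP _ hLe
      rw [← hw1, ← hw2]
      exact h)
  -- one defect
  have hY : ∀ j, s ≤ j → j < t → ∀ y ∈ Yj q g j, ∃ b ∈ P,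
      L (kg 0 ((1 : G), b * y * b⁻¹)) ≤ 2 * τ := by
    intro j hj hjt y' hy'
    obtain ⟨l, hl⟩ : ∃ l, l = j - k := ⟨_, rfl⟩
    have hlk : l + k = j := by omega
    have hil : i ≤ l := by omega
    have hlt : l < t := by omega
    rw [← hlk] at hy'
    obtain ⟨x, v, v', hx, hv, hv', hcu, hcu', he⟩ := loc_defectT hq hg hp hpr hr hrq hk
      (W := 3 * k + 1) (by omega) (cl l) hy'
    have f1 := h1 l hil hlt v (v + 1) (by omega) hv hcu
    have f2 := h1 l hil hlt v' (v' + 1) (by omega) hv' hcu'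
    have f3 := (hLm _ _).trans (add_le_add f1 ((hLi _).trans_le f2))
    refine ⟨(a l).2 * hw q g l k x, P.mul_mem (hα l hil hlt).1 ?_, ?_⟩
    · have hx' : x < Qr q l (k + 1) := lt_of_lt_of_le hx (Qr_mono hq l (by omega))
      have h := (hα l hil hlt).2 x hx'
      rwa [hw_extend hq hg l k 1 hx] at h
    · have e : a l * (kg (ϑ l * v) (wu q g p r l (3 * k + 1) (cl l) v) *
          (kg (ϑ l * ((v + 1 : ℕ) : ℝ)) (wu q g p r l (3 * k + 1) (cl l) (v + 1)))⁻¹) * (a l)⁻¹ *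
          (a l * (kg (ϑ l * v') (wu q g p r l (3 * k + 1) (cl l) v') *
          (kg (ϑ l * ((v' + 1 : ℕ) : ℝ)) (wu q g p r l (3 * k + 1) (cl l) (v' + 1)))⁻¹) *
            (a l)⁻¹)⁻¹ =
          kg 0 ((1 : G), (a l).2 * hw q g l k x * y' * ((a l).2 * hw q g l k x)⁻¹) := by
        have e1 : ∀ v : ℕ, kg (ϑ l * v) (wu q g p r l (3 * k + 1) (cl l) v) *
            (kg (ϑ l * ((v + 1 : ℕ) : ℝ)) (wu q g p r l (3 * k + 1) (cl l) (v + 1)))⁻¹ =
            kg (- ϑ l) (wu q g p r l (3 * k + 1) (cl l) v *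
              (wu q g p r l (3 * k + 1) (cl l) (v + 1))⁻¹) := by
          intro v
          rw [kg_inv, kg_mul]
          congr 1
          push_cast
          ring
        rw [e1, e1]
        have e2 : a l * kg (- ϑ l) (wu q g p r l (3 * k + 1) (cl l) v *
              (wu q g p r l (3 * k + 1) (cl l) (v + 1))⁻¹) * (a l)⁻¹ *
            (a l * kg (- ϑ l) (wu q g p r l (3 * k + 1) (cl l) v' *
              (wu q g p r l (3 * k + 1) (cl l) (v' + 1))⁻¹) * (a l)⁻¹)⁻¹ =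
            a l * (kg (- ϑ l) (wu q g p r l (3 * k + 1) (cl l) v *
              (wu q g p r l (3 * k + 1) (cl l) (v + 1))⁻¹) *
              (kg (- ϑ l) (wu q g p r l (3 * k + 1) (cl l) v' *
              (wu q g p r l (3 * k + 1) (cl l) (v' + 1))⁻¹))⁻¹) * (a l)⁻¹ := by
          group
        rw [e2, kg_inv, kg_mul, ← he, neg_neg, neg_add_cancel]
        apply Prod.ext
        · show (a l).1 * (Multiplicative.ofAdd (0 : ℝ), (1 : G)) * ((a l).1)⁻¹ =
            (Multiplicative.ofAdd (0 : ℝ), (1 : G))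
          have e3 : (Multiplicative.ofAdd (0 : ℝ), (1 : G)) = 1 := rfl
          rw [e3, mul_one, mul_inv_cancel]
        · show (a l).2 * (hw q g l k x * y' * (hw q g l k x)⁻¹) * ((a l).2)⁻¹ =
            (a l).2 * hw q g l k x * y' * ((a l).2 * hw q g l k x)⁻¹
          group
      rw [e] at f3
      linarith
  -- conjugates by elements of `Gam`
  have hconj : ∀ γ ∈ Gam q g s t, ∀ z ∈ Xs q g s t,
      L (kg 0 ((1 : G), γ * z * γ⁻¹)) ≤ (2 * Fintype.card G + 2) * τ := by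
    intro γ hγ z hz
    obtain ⟨b, hbP, hb⟩ : ∃ b ∈ P, L (kg 0 ((1 : G), b * z * b⁻¹)) ≤ 2 * τ := by
      rcases hz with ⟨j, d, h3, h4, h5, h6⟩ | ⟨j, h3, h4, h5⟩
      · exact hY j h3 h4 z (Or.inl ⟨d, h5, h6⟩)
      · exact hY j h3 (by omega) z (Or.inr h5)
    have h3 : γ * b⁻¹ ∈ (Subgroup.closure {x : KG G | L x ≤ τ}).map
        (MonoidHom.snd (Multiplicative ℝ × G) G) := by
      rw [← hP]
      exact P.mul_mem (hGam hγ) (P.inv_mem hbP)
    obtain ⟨e, he⟩ := lift_len L hL1 hLm hLi hτ h3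
    have h4 : kg 0 ((1 : G), γ * z * γ⁻¹) =
        ((e, γ * b⁻¹) : KG G) * kg 0 ((1 : G), b * z * b⁻¹) * ((e, γ * b⁻¹) : KG G)⁻¹ := by
      apply Prod.ext
      · show (Multiplicative.ofAdd (0 : ℝ), (1 : G)) =
          e * (Multiplicative.ofAdd (0 : ℝ), (1 : G)) * e⁻¹
        have e3 : (Multiplicative.ofAdd (0 : ℝ), (1 : G)) = 1 := rfl
        rw [e3, mul_one, mul_inv_cancel]
      · show γ * z * γ⁻¹ = γ * b⁻¹ * (b * z * b⁻¹) * (γ * b⁻¹)⁻¹
        group
    rw [h4]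
    refine (hLm _ _).trans ?_
    rw [hLi]
    have h5 := hLm ((e, γ * b⁻¹) : KG G) (kg 0 ((1 : G), b * z * b⁻¹))
    linarith
  -- the group generated by them
  have hmem : y ∈ (Subgroup.closure {x : Unit × G | L (kg 0 ((1 : G), x.2)) ≤
      (2 * Fintype.card G + 2) * τ}).map (MonoidHom.snd Unit G) := by
    revert hy
    unfold Nlin
    intro hy
    refine (Subgroup.closure_le _).2 ?_ hy
    rintro _ ⟨γ, hγ, z, hz, rfl⟩
    exact Subgroup.mem_map.2 ⟨((), γ * z * γ⁻¹), Subgroup.subset_closure (hconj γ hγ z hz), rfl⟩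
  obtain ⟨x, hx⟩ := lift_len (G₁ := Unit) (fun x : Unit × G => L (kg 0 ((1 : G), x.2)))
    (by
      show L (kg 0 ((1 : G), (1 : G))) = 0
      exact hL1)
    (fun x y => by
      have h := hLm (kg 0 ((1 : G), x.2)) (kg 0 ((1 : G), y.2))
      rw [kg_mul, add_zero, Prod.mk_mul_mk, one_mul] at h
      exact h)
    (fun x => by
      have h := hLi (kg 0 ((1 : G), x.2))
      rw [kg_inv, neg_zero, Prod.inv_mk, inv_one] at h
      exact h)
    (τ := (2 * Fintype.card G + 2) * τ) (by positivity) hmem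
  refine hx.trans (le_of_eq ?_)
  ring

end Pool.Agent.Lib.MP_3e612f_nt.LV
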