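import Pool.Agent.Lib.MP_3e612f_nt.LV.TwChain

/-!
The gain of the twisted operator at one spaced segment.
-/

set_option autoImplicit false

namespace Pool.Agent.Lib.MP_3e612f_nt.LV

open Finset
open Pool.Agent.Lib.MP_3e612f_nt.PB
open Pool.Agent.Lib.MP_3e612f_nt.PS (cu wu)
open Pool.Agent.Lib.MP_3e612f_nt.LORT (ev)

/-- the contraction factor; it does not depend on the frequency -/
noncomputable def rhoT (G : Type) [Fintype G] (B k : ℕ) : ℝ :=
  1 - 2 / (4 * (2 * (Fintype.card G : ℝ) * (Fintype.card G + 1)) ^ 2 * (B : ℝ) ^ (3 * k + 1) + 2)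

theorem rhoT_nonneg (G : Type) [Fintype G] (B k : ℕ) : 0 ≤ rhoT G B k := by
  unfold rhoT
  have h : (0 : ℝ) ≤ 4 * (2 * (Fintype.card G : ℝ) * (Fintype.card G + 1)) ^ 2 *
      (B : ℝ) ^ (3 * k + 1) := by positivity
  rw [sub_nonneg, div_le_one (by linarith)]
  linarith

theorem rhoT_lt_one (G : Type) [Fintype G] (B k : ℕ) : rhoT G B k < 1 := by
  unfold rhoT
  have h : (0 : ℝ) ≤ 4 * (2 * (Fintype.card G : ℝ) * (Fintype.card G + 1)) ^ 2 *
      (B : ℝ) ^ (3 * k + 1) := by positivity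
  have h2 : 0 < 2 / (4 * (2 * (Fintype.card G : ℝ) * (Fintype.card G + 1)) ^ 2 *
      (B : ℝ) ^ (3 * k + 1) + 2) := by
    positivity
  linarith

variable {G : Type} [Group G] [Fintype G] {q : ℕ → ℕ} {g : ℕ → ℕ → G} {B : ℕ} {p r k : ℕ}

private theorem kg_snd {G : Type} [Group G] (t : ℝ) (w : G × G) : (kg t w).2 = w.2 := rfl

/-- adapt `PS.near_inv` (file PS/Gain.lean): `a l = kg (ϑ * u l) (wu q g p r i (l - i) c (u l))`,
`ϑ l = ϑ * Qr q i (l - i)`, `cl l = cu q p r i (l - i) c (u l)`, `L = Lt Θ`, `τ = 2 √e` with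
`e = B ^ (3 k + 1) (S - nrc Θ)`, `two_approxc`, `chainT`; the two approximations for `v, v'` (resp. for the
transition `l → l + 1`) are of the same function `TTw …` since the carries agree. -/
theorem near_invT (hq : Rad B q) (hg : Neu g) (hp : 2 ≤ p) (hpr : p + 2 ≤ r) (hr : r.Prime)
    (hrq : ∀ j, ¬ r ∣ q j) (hk : p * r < 2 ^ k) (hG : Fintype.card G < r) {s t : ℕ}
    (hs : 2 * k ≤ s) (hst : s ≤ t) {S : ℝ} {A : ℕ × ℕ → G × G → ℂ} (hA : ∀ c, nrc (A c) ≤ S)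
    (ϑ : ℝ) (c : ℕ × ℕ) {y : G} (hy : y ∈ Nlin q g s t) :
    nrc (fun z => TTw q g p r (s - 2 * k) (t - s + 5 * k) ϑ A c (z * ((1 : G), y)) -
        TTw q g p r (s - 2 * k) (t - s + 5 * k) ϑ A c z) ≤
      (2 * (Fintype.card G : ℝ) * (Fintype.card G + 1)) ^ 2 * (4 * ((B : ℝ) ^ (3 * k + 1) *
        (S - nrc (TTw q g p r (s - 2 * k) (t - s + 5 * k) ϑ A c)))) := by
  obtain ⟨i, hi⟩ : ∃ i, i = s - 2 * k := ⟨_, rfl⟩
  obtain ⟨M, hM⟩ : ∃ M, M = t - s + 5 * k := ⟨_, rfl⟩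
  rw [← hi, ← hM]
  have hsi : s = i + 2 * k := by omega
  have hti : i + M = t + 3 * k := by omega
  obtain ⟨Θ, hΘ⟩ : ∃ Θ, Θ = TTw q g p r i M ϑ A c := ⟨_, rfl⟩
  rw [← hΘ]
  have hnΘ : nrc Θ ≤ S := by rw [hΘ]; exact TTw_nrc_le hq _ _ _ hA _
  set e : ℝ := (B : ℝ) ^ (3 * k + 1) * (S - nrc Θ) with he
  have he0 : 0 ≤ e := by
    have : 0 ≤ S - nrc Θ := by linarith
    positivity
  -- the prefixes
  have hgp : ∀ l, ∃ u₀, i ≤ l → l < t → u₀ < Qr q i (l - i) ∧ ∀ W' ≤ 3 * k + 1,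
      ∀ v < Qr q l W', nrc (fun z => ev (ϑ * u₀ + ϑ * Qr q i (l - i) * v) *
          TTw q g p r (l + W') (M - (l - i) - W') (ϑ * Qr q i (l - i + W')) A
          (cu q p r l W' (cu q p r i (l - i) c u₀) v)
          (z * (wu q g p r i (l - i) c u₀ * wu q g p r l W' (cu q p r i (l - i) c u₀) v)) -
        Θ z) ≤ e := by
    intro l
    by_cases h : i ≤ l ∧ l < t
    · obtain ⟨u₀, h1, h2⟩ := good_prefixc (q := q) (g := g) (p := p) (r := r) hq hA i (l - i)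
        (3 * k + 1) M (by omega) ϑ c
      refine ⟨u₀, fun _ _ => ⟨h1, ?_⟩⟩
      have e1 : i + (l - i) = l := by omega
      rw [e1, ← hΘ] at h2
      exact h2
    · exact ⟨0, fun h1 h2 => absurd ⟨h1, h2⟩ h⟩
  choose u hu using hgp
  have hchain := chainT hq hg hp hpr hr hrq hk hG (Lt Θ) (Lt_one Θ) (Lt_mul Θ) (Lt_inv Θ)
    (τ := 2 * √e) (by positivity)
    (fun l => kg (ϑ * u l) (wu q g p r i (l - i) c (u l))) (fun l => ϑ * Qr q i (l - i))
    (fun l => cu q p r i (l - i) c (u l))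
    (i := i) (s := s) (t := t) (by omega) ?_ ?_ ?_ hy
  · have h1 : Lt Θ (kg 0 ((1 : G), y)) = √(nrc (fun z => Θ (z * ((1 : G), y)) - Θ z)) := by
      unfold Lt kg
      simp only [toAdd_ofAdd]
      have h0 : ev 0 = 1 := by simp [ev]
      rw [h0]
      simp only [one_mul]
    rw [h1] at hchain
    have h2 : nrc (fun z => Θ (z * ((1 : G), y)) - Θ z) =
        √(nrc (fun z => Θ (z * ((1 : G), y)) - Θ z)) ^ 2 := by
      rw [Real.sq_sqrt (nrc_nonneg _)]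
    rw [h2]
    have h3 : (2 * (Fintype.card G : ℝ) * (Fintype.card G + 1)) ^ 2 * (4 * e) =
        (2 * (Fintype.card G : ℝ) * (Fintype.card G + 1) * (2 * √e)) ^ 2 := by
      have : √e ^ 2 = e := Real.sq_sqrt he0
      calc (2 * (Fintype.card G : ℝ) * (Fintype.card G + 1)) ^ 2 * (4 * e)
          = (2 * (Fintype.card G : ℝ) * (Fintype.card G + 1)) ^ 2 * (4 * √e ^ 2) := by rw [this]
        _ = _ := by ring
    rw [h3]
    exact pow_le_pow_left₀ (Real.sqrt_nonneg _) hchain 2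
  · show (wu q g p r i (i - i) c (u i)).2 = 1
    rw [Nat.sub_self, PS.wu_zero]
    rfl
  · intro l hil hlt v v' hv hv' hcu
    obtain ⟨_, h2⟩ := hu l hil hlt
    have h3 := h2 (3 * k + 1) le_rfl
    have h5 := h3 v hv
    have h6 := h3 v' hv'
    rw [← hcu] at h6
    have h7 := two_approxc h5 h6
    refine le_trans (le_of_eq ?_) h7
    congr 1
    rw [← kg_mul, ← kg_mul]
    group
  · intro l hil hlt
    obtain ⟨hu1, h2⟩ := hu l hil (by omega)
    obtain ⟨hu1', h2'⟩ := hu (l + 1) (by omega) hlt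
    obtain ⟨m, hm⟩ : ∃ m, m = l - i := ⟨_, rfl⟩
    have hm1 : l + 1 - i = m + 1 := by omega
    have hl : l = i + m := by omega
    have hpr2 : p + r ≤ p * r := by nlinarith
    have hQ : p + r < Qr q (l + 1) k :=
      lt_of_le_of_lt hpr2 (lt_of_lt_of_le hk (two_pow_le_Qr hq (l + 1) k))
    obtain ⟨ω, hω, hω1, hω2⟩ := PS.exists_merge (c.1 / Qr q i (m + 1)) (c.2 / Qr q i (m + 1)) hQ
    have hQ1 : Qr q l (1 + k) = Qr q l 1 * Qr q (l + 1) k := Qr_add q l 1 k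
    have hv1 : 0 + Qr q l 1 * ω < Qr q l (1 + k) := by
      rw [hQ1, Nat.zero_add]
      exact Nat.mul_lt_mul_of_pos_left hω (Qr_pos hq l 1)
    -- the upper parts after the digit `0`
    have hcl : cu q p r l 1 (cu q p r i m c (u l)) 0 = cu q p r i (m + 1) c (u l) := by
      have h := PS.cu_add hq p r i m 1 c (u l) 0
      rw [Nat.mul_zero, Nat.add_zero, ← hl] at h
      exact h.symm
    have hr1 := PS.cu_range hq p r i (m + 1) c
      (lt_of_lt_of_le (hm ▸ hu1) (Qr_mono hq i (Nat.le_succ m)))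
    have hr2 := PS.cu_range hq p r i (m + 1) c (hm1 ▸ hu1')
    have hcu1 : cu q p r l (1 + k) (cu q p r i m c (u l)) (0 + Qr q l 1 * ω) =
        cu q p r (l + 1) k (cu q p r i (m + 1) c (u (l + 1))) ω := by
      rw [PS.cu_add hq, hcl]
      unfold cu at hr1 hr2 ⊢
      simp only at hr1 hr2 ⊢
      rw [Prod.mk.injEq]
      constructor
      · rw [hω1 _ hr1.1.1 hr1.1.2, hω1 _ hr2.1.1 hr2.1.2]
      · rw [hω2 _ hr1.2.1 hr1.2.2, hω2 _ hr2.2.1 hr2.2.2]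
    have h5 := h2 (1 + k) (by omega) (0 + Qr q l 1 * ω) hv1
    have h6 := h2' k (by omega) ω hω
    rw [← hm] at h5
    rw [hm1] at h6
    rw [hcu1] at h5
    have e1 : l + (1 + k) = l + 1 + k := by omega
    have e2 : M - m - (1 + k) = M - (m + 1) - k := by omega
    have e4 : m + (1 + k) = m + 1 + k := by omega
    rw [e1, e2, e4] at h5
    have h7 := two_approxc h5 h6
    have e3 : k + 1 = 1 + k := by omega
    refine ⟨kg (ϑ * Qr q i m * ((0 + Qr q l 1 * ω : ℕ) : ℝ))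
        (wu q g p r l (1 + k) (cu q p r i m c (u l)) (0 + Qr q l 1 * ω)),
      kg (ϑ * Qr q i (m + 1) * (ω : ℝ))
        (wu q g p r (l + 1) k (cu q p r i (m + 1) c (u (l + 1))) ω),
      (r * (0 + Qr q l 1 * ω) + (cu q p r i m c (u l)).2) % Qr q l (k + 1),
      (r * ω + (cu q p r i (m + 1) c (u (l + 1))).2) % Qr q (l + 1) k,
      Nat.mod_lt _ (Qr_pos hq _ _), Nat.mod_lt _ (Qr_pos hq _ _), ?_, ?_, ?_⟩
    · rw [kg_snd, hw_mod hq, e3]
      rfl
    · rw [kg_snd, hw_mod hq]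
      rfl
    · refine le_trans (le_of_eq ?_) h7
      congr 1
      rw [← kg_mul, ← kg_mul, ← hm, hm1]

/-- as `PS.TT_gainA`, with `Balc_exists` and `near_invT` -/
theorem TTw_gain (hq : Rad B q) (hg : Neu g) (hp : 2 ≤ p) (hpr : p + 2 ≤ r) (hr : r.Prime)
    (hrq : ∀ j, ¬ r ∣ q j) (hk : p * r < 2 ^ k) (hG : Fintype.card G < r)
    {N : Subgroup G} {s t : ℕ} (hs : 2 * k ≤ s) (hst : s ≤ t)
    (hN : ∀ γ ∈ Gam q g (s - 2 * k) (t + 3 * k), ∀ y, y ∈ N ↔ γ * y * γ⁻¹ ∈ N)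
    (hNs : N ≤ Nlin q g s t) (ϑ : ℝ) {S : ℝ} {A : ℕ × ℕ → G × G → ℂ} (hA : GoodC N S A) :
    GoodC N (rhoT G B k * S) (TTw q g p r (s - 2 * k) (t - s + 5 * k) ϑ A) := by
  have e1 : s - 2 * k + (t - s + 5 * k) = t + 3 * k := by omega
  have hgood : GoodC N S (TTw q g p r (s - 2 * k) (t - s + 5 * k) ϑ A) :=
    TTw_good hq (by rw [e1]; exact hN) ϑ hA
  intro c
  refine ⟨?_, (hgood c).2⟩
  obtain ⟨x, hx, h1⟩ := Balc_exists (hgood c).2
  have hnS := (hgood c).1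
  have hx1 : x.1 = 1 := Subgroup.mem_bot.1 (Subgroup.mem_prod.1 hx).1
  have hx2 : x.2 ∈ Nlin q g s t := hNs (Subgroup.mem_prod.1 hx).2
  have hni := near_invT hq hg hp hpr hr hrq hk hG hs hst (fun c => (hA c).1) ϑ c hx2
  have hxe : ((1 : G), x.2) = x := by rw [← hx1]
  rw [hxe] at hni
  set Θ := TTw q g p r (s - 2 * k) (t - s + 5 * k) ϑ A c with hΘ
  have h3 : 2 * nrc Θ ≤ (2 * (Fintype.card G : ℝ) * (Fintype.card G + 1)) ^ 2 *
      (4 * ((B : ℝ) ^ (3 * k + 1) * (S - nrc Θ))) := le_trans h1 hni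
  unfold rhoT
  have hC : (0 : ℝ) ≤ 4 * (2 * (Fintype.card G : ℝ) * (Fintype.card G + 1)) ^ 2 *
      (B : ℝ) ^ (3 * k + 1) := by positivity
  set C : ℝ := 4 * (2 * (Fintype.card G : ℝ) * (Fintype.card G + 1)) ^ 2 *
      (B : ℝ) ^ (3 * k + 1) with hCdef
  have h4 : (2 * (Fintype.card G : ℝ) * (Fintype.card G + 1)) ^ 2 *
      (4 * ((B : ℝ) ^ (3 * k + 1) * (S - nrc Θ))) = C * (S - nrc Θ) := by rw [hCdef]; ring
  rw [h4] at h3
  have h5 : (1 - 2 / (C + 2)) * S = C * S / (C + 2) := by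
    field_simp
    ring
  rw [h5, le_div_iff₀ (by linarith)]
  nlinarith

end Pool.Agent.Lib.MP_3e612f_nt.LV
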