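import Pool.Agent.Lib.MP_3e612f_nt.LV.TwGain

/-!
The gain of the twisted operator in an interval with many spaced segments.
-/

set_option autoImplicit false

namespace Pool.Agent.Lib.MP_3e612f_nt.LV

open Finset
open Pool.Agent.Lib.MP_3e612f_nt.PB

variable {G : Type} [Group G] [Fintype G] {q : ℕ → ℕ} {g : ℕ → ℕ → G} {B : ℕ} {p r k : ℕ}

private theorem twg_freq {a x y : ℕ} (hax : a ≤ x) (hxy : x ≤ y) (ϑ : ℝ) :
    ϑ * Qr q a (x - a) * Qr q x (y - x) = ϑ * Qr q a (y - a) := by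
  have e : y - a = (x - a) + (y - x) := by omega
  have e2 : a + (x - a) = x := by omega
  rw [e, Qr_add, e2]
  push_cast
  ring

private theorem twg_glue (hq : Rad B q) {a b x y : ℕ} (hax : a ≤ x)
    (hxy : x ≤ y) (hyb : y ≤ b) {S : ℝ} {A : ℕ × ℕ → G × G → ℂ} {ϑ : ℝ}
    (hA : GoodC (Nlin q g a b) S (TTw q g p r y (b - y) (ϑ * Qr q a (y - a)) A)) :
    GoodC (Nlin q g a b) S (TTw q g p r x (b - x) (ϑ * Qr q a (x - a)) A) := by
  have e : b - x = (y - x) + (b - y) := by omega
  have e2 : x + (y - x) = y := by omega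
  rw [e, TTw_add hq, e2, twg_freq hax hxy]
  apply TTw_good hq _ _ hA
  rw [e2]
  intro γ hγ z
  exact Nlin_conj (Gam_mono hax hyb hγ) z

/-- adapt `PS.TT_gainsA` (file PS/Gains.lean); the induction is for all frequencies at once: the operator on the
interval `[x, b)` is used with the frequency `ϑ * Qr q a (x - a)`. -/
theorem TTw_gains (hq : Rad B q) (hg : Neu g) (hp : 2 ≤ p) (hpr : p + 2 ≤ r) (hr : r.Prime)
    (hrq : ∀ j, ¬ r ∣ q j) (hk : p * r < 2 ^ k) (hG : Fintype.card G < r)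
    {a b κ : ℕ} (hab : a ≤ b) (hS : Spaced (Nlin q g) k a b κ) {S : ℝ}
    {A : ℕ × ℕ → G × G → ℂ} (hA : GoodC (Nlin q g a b) S A) (ϑ : ℝ) :
    GoodC (Nlin q g a b) (rhoT G B k ^ κ * S) (TTw q g p r a (b - a) ϑ A) := by
  obtain ⟨s, t, h1, h2⟩ := hS
  obtain ⟨pos, hpos⟩ : ∃ pos : ℕ → ℕ, pos = fun n => if n < κ then s n - 2 * k else b := ⟨_, rfl⟩
  have hpos1 : ∀ n, n < κ → pos n = s n - 2 * k := by
    intro n hn; rw [hpos]; simp [hn]
  have hpos2 : ∀ n, ¬ n < κ → pos n = b := by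
    intro n hn; rw [hpos]; simp [hn]
  have key : ∀ j, j ≤ κ → GoodC (Nlin q g a b) (rhoT G B k ^ j * S)
      (TTw q g p r (pos (κ - j)) (b - pos (κ - j)) (ϑ * Qr q a (pos (κ - j) - a)) A) := by
    intro j
    induction j with
    | zero =>
      intro _
      rw [hpos2 (κ - 0) (by omega), Nat.sub_self, TTw_zero, pow_zero, one_mul]
      exact hA
    | succ j ih =>
      intro hj
      obtain ⟨n, hn⟩ : ∃ n, n = κ - (j + 1) := ⟨_, rfl⟩
      have hnκ : n < κ := by omega
      have hn1 : κ - j = n + 1 := by omega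
      have ih' := ih (by omega)
      rw [hn1] at ih'
      rw [← hn, hpos1 n hnκ]
      obtain ⟨a1, a2, a3, a4⟩ := h1 n hnκ
      -- the next position
      have hP : t n + 3 * k ≤ pos (n + 1) ∧ pos (n + 1) ≤ b := by
        by_cases hc : n + 1 < κ
        · rw [hpos1 _ hc]
          have b1 := h2 n hc
          obtain ⟨c1, c2, c3, _⟩ := h1 (n + 1) hc
          omega
        · rw [hpos2 _ hc]
          omega
      have hmid : GoodC (Nlin q g a b) (rhoT G B k ^ j * S)
          (TTw q g p r (t n + 3 * k) (b - (t n + 3 * k)) (ϑ * Qr q a (t n + 3 * k - a)) A) :=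
        twg_glue hq (by omega) hP.1 hP.2 ih'
      have e : b - (s n - 2 * k) = (t n - s n + 5 * k) + (b - (t n + 3 * k)) := by omega
      have e2 : s n - 2 * k + (t n - s n + 5 * k) = t n + 3 * k := by omega
      have e3 : t n - s n + 5 * k = t n + 3 * k - (s n - 2 * k) := by omega
      have e4 : ϑ * Qr q a (s n - 2 * k - a) * Qr q (s n - 2 * k) (t n - s n + 5 * k) =
          ϑ * Qr q a (t n + 3 * k - a) := by
        rw [e3]
        exact twg_freq (by omega) (by omega) ϑ
      rw [e, TTw_add hq, e2, e4, pow_succ, mul_comm (_ ^ j) (rhoT G B k), mul_assoc]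
      apply TTw_gain hq hg hp hpr hr hrq hk hG (by omega) a2.le _ _ _ hmid
      · intro γ hγ y
        exact Nlin_conj (Gam_mono (by omega) a3 hγ) y
      · rw [a4]
  have hfin := key κ le_rfl
  rw [Nat.sub_self] at hfin
  have hgl : GoodC (Nlin q g a b) (rhoT G B k ^ κ * S)
      (TTw q g p r a (b - a) (ϑ * Qr q a (a - a)) A) := by
    apply twg_glue hq le_rfl _ _ hfin
    · by_cases hc : 0 < κ
      · rw [hpos1 _ hc]
        obtain ⟨c1, _⟩ := h1 0 hc
        omega
      · rw [hpos2 _ hc]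
        exact hab
    · by_cases hc : 0 < κ
      · rw [hpos1 _ hc]
        obtain ⟨c1, c2, c3, _⟩ := h1 0 hc
        omega
      · rw [hpos2 _ hc]
  rw [Nat.sub_self, Qr_zero, Nat.cast_one, mul_one] at hgl
  exact hgl

end Pool.Agent.Lib.MP_3e612f_nt.LV
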