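import Pool.Agent.Lib.MP_3e612f_nt.PS.LocI

/-!
Explicit form of `PS.loc_defect`: the conjugate of a defect is the quotient of two basic elements of the form
`wu v * (wu (v + 1))⁻¹` (so a linear phase cancels).
-/

set_option autoImplicit false

namespace Pool.Agent.Lib.MP_3e612f_nt.LV

open Finset
open Pool.Agent.Lib.MP_3e612f_nt.PB
open Pool.Agent.Lib.MP_3e612f_nt.PS

variable {G : Type} [Group G] {q : ℕ → ℕ} {g : ℕ → ℕ → G} {B : ℕ} {p r k : ℕ}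

/-- adapt `PS.LocI_elt`: the element there is the one of `v = v₀ + Qr q l k * v₁` and `v + 1` -/
theorem loc_eltT (hq : Rad B q) (hr : r.Prime) (hrq : ∀ j, ¬ r ∣ q j) {l W : ℕ}
    (hW : k + 2 ≤ W) (c : ℕ × ℕ) {v₀ : ℕ} (hv₀ : v₀ + 1 < Qr q l k)
    (h1 : (p * (v₀ + 1) + c.1) / Qr q l k = (p * v₀ + c.1) / Qr q l k)
    (h2 : (r * (v₀ + 1) + c.2) / Qr q l k = (r * v₀ + c.2) / Qr q l k + 1)
    {a : ℕ} (ha : a + 1 < Qr q (l + k) 2) :
    ∃ v, v + 1 < Qr q l W ∧ cu q p r l W c v = cu q p r l W c (v + 1) ∧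
      wu q g p r l W c v * (wu q g p r l W c (v + 1))⁻¹ =
        (hw q g l k (p * v₀ + c.1) * (hw q g l k (p * (v₀ + 1) + c.1))⁻¹,
        hw q g l k (r * v₀ + c.2) * (hw q g (l + k) 2 a * (hw q g (l + k) 2 (a + 1))⁻¹) *
          (hw q g l k (r * (v₀ + 1) + c.2))⁻¹) := by
  obtain ⟨cp, hcp⟩ : ∃ cp, cp = (p * v₀ + c.1) / Qr q l k := ⟨_, rfl⟩
  obtain ⟨cr, hcr⟩ : ∃ cr, cr = (r * v₀ + c.2) / Qr q l k := ⟨_, rfl⟩
  obtain ⟨n, rfl⟩ : ∃ n, W = k + (2 + n) := ⟨W - k - 2, by omega⟩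
  have hQ2 := Qr_pos hq (l + k) 2
  have hQn := Qr_pos hq (l + k + 2) n
  have hQk := Qr_pos hq l k
  obtain ⟨v₁, hv₁, hm⟩ := exists_residue (r := r) hQ2 (Qr_coprime hr hrq _ _) cr
    (a := a) (by omega)
  obtain ⟨m, hmd⟩ : ∃ m, m = r * v₁ + cr := ⟨_, rfl⟩
  rw [← hmd] at hm
  have hQ' : Qr q (l + k) (2 + n) = Qr q (l + k) 2 * Qr q (l + k + 2) n := Qr_add _ _ _ _
  have hdiv2 : (m + 1) / Qr q (l + k) 2 = m / Qr q (l + k) 2 := LocI_div_succ (by omega)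
  have hmod2 : (m + 1) % Qr q (l + k) 2 = a + 1 := by
    rw [LocI_mod_succ (by omega), hm]
  have hdiv' : (m + 1) / Qr q (l + k) (2 + n) = m / Qr q (l + k) (2 + n) := by
    rw [hQ', ← Nat.div_div_eq_div_mul, ← Nat.div_div_eq_div_mul, hdiv2]
  have hv₁' : v₁ < Qr q (l + k) (2 + n) := by
    rw [hQ']
    exact lt_of_lt_of_le hv₁ (Nat.le_mul_of_pos_right _ hQn)
  have hlt : ∀ w, w < Qr q l k → w + Qr q l k * v₁ < Qr q l (k + (2 + n)) := by
    intro w hw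
    rw [Qr_add]
    calc w + Qr q l k * v₁ < Qr q l k + Qr q l k * v₁ := by omega
      _ = Qr q l k * (v₁ + 1) := by ring
      _ ≤ _ := Nat.mul_le_mul_left _ hv₁'
  have hcu0 : cu q p r l k c v₀ = (cp, cr) := by
    unfold cu
    rw [hcp, hcr]
  have hcu1 : cu q p r l k c (v₀ + 1) = (cp, cr + 1) := by
    unfold cu
    rw [h1, h2, hcp, hcr]
  have hcu : cu q p r l (k + (2 + n)) c (v₀ + Qr q l k * v₁) =
      cu q p r l (k + (2 + n)) c (v₀ + 1 + Qr q l k * v₁) := by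
    rw [cu_add hq, cu_add hq, hcu0, hcu1]
    unfold cu
    simp only
    have e : r * v₁ + (cr + 1) = m + 1 := by omega
    rw [e, ← hmd, hdiv']
  have hsplit : ∀ x, hw q g (l + k) (2 + n) x =
      hw q g (l + k) 2 x * hw q g (l + k + 2) n (x / Qr q (l + k) 2) := fun x =>
    hw_add q g (l + k) 2 n x
  have hm2 : hw q g (l + k) 2 m = hw q g (l + k) 2 a := by
    rw [← hw_mod hq (l + k) 2 m, hm]
  have hm3 : hw q g (l + k) 2 (m + 1) = hw q g (l + k) 2 (a + 1) := by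
    rw [← hw_mod hq (l + k) 2 (m + 1), hmod2]
  have hv1 : v₀ + Qr q l k * v₁ + 1 = v₀ + 1 + Qr q l k * v₁ := by omega
  refine ⟨v₀ + Qr q l k * v₁, ?_, ?_, ?_⟩
  · rw [hv1]
    exact hlt _ hv₀
  · rw [hv1]
    exact hcu
  · rw [hv1, wu_add hq, wu_add hq, hcu0, hcu1]
    unfold wu
    simp only
    have e : r * v₁ + (cr + 1) = m + 1 := by omega
    rw [e, ← hmd, hsplit m, hsplit (m + 1), hdiv2, hm2, hm3]
    ext
    · show (hw q g l k (p * v₀ + c.1) * hw q g (l + k) (2 + n) (p * v₁ + cp)) *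
        (hw q g l k (p * (v₀ + 1) + c.1) * hw q g (l + k) (2 + n) (p * v₁ + cp))⁻¹ = _
      simp only
      group
    · show (hw q g l k (r * v₀ + c.2) * (hw q g (l + k) 2 a *
        hw q g (l + k + 2) n (m / Qr q (l + k) 2))) *
        (hw q g l k (r * (v₀ + 1) + c.2) * (hw q g (l + k) 2 (a + 1) *
        hw q g (l + k + 2) n (m / Qr q (l + k) 2)))⁻¹ = _
      simp only
      group

/-- adapt `PS.loc_defect` -/
theorem loc_defectT (hq : Rad B q) (hg : Neu g) (hp : 2 ≤ p) (hpr : p + 2 ≤ r) (hr : r.Prime)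
    (hrq : ∀ j, ¬ r ∣ q j) (hk : p * r < 2 ^ k) {l W : ℕ} (hW : k + 2 ≤ W) (c : ℕ × ℕ) {y : G}
    (hy : y ∈ Yj q g (l + k)) :
    ∃ x v v' : ℕ, x < Qr q l k ∧ v + 1 < Qr q l W ∧ v' + 1 < Qr q l W ∧
      cu q p r l W c v = cu q p r l W c (v + 1) ∧ cu q p r l W c v' = cu q p r l W c (v' + 1) ∧
      ((1 : G), hw q g l k x * y * (hw q g l k x)⁻¹) =
        wu q g p r l W c v * (wu q g p r l W c (v + 1))⁻¹ *
          (wu q g p r l W c v' * (wu q g p r l W c (v' + 1))⁻¹)⁻¹ := by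
  have hX : r < Qr q l k := by
    have h1 : r ≤ p * r := Nat.le_mul_of_pos_left _ (by omega)
    exact lt_of_lt_of_le (lt_of_le_of_lt h1 hk) (two_pow_le_Qr hq l k)
  obtain ⟨v₀, hv₀, h1, h2⟩ := exists_jump c.1 c.2 hpr hX
  have hqj := (hq (l + k)).1
  have hqj1 := (hq (l + k + 1)).1
  have hQ2 : Qr q (l + k) 2 = q (l + k) * q (l + k + 1) := LocI_Qr_two q (l + k)
  have hQ2' : 2 * q (l + k) ≤ Qr q (l + k) 2 := by
    rw [hQ2, mul_comm 2]
    exact Nat.mul_le_mul_left _ hqj1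
  obtain ⟨v, hv, hcv, e0⟩ := loc_eltT (g := g) hq hr hrq hW c hv₀ h1 h2 (a := 0) (by omega)
  have g0 : hw q g (l + k) 2 0 = 1 := hw_zero hg _ _
  have g1 : hw q g (l + k) 2 (0 + 1) = g (l + k) 1 := by
    rw [LocI_hw_two, zero_add, Nat.mod_eq_of_lt (by omega : 1 < q (l + k)),
      Nat.div_eq_of_lt (by omega : 1 < q (l + k)), Nat.zero_mod, hg, mul_one]
  rw [g0, g1, one_mul] at e0
  have key : ∀ a : ℕ, a + 1 < Qr q (l + k) 2 → ∀ u w : G, hw q g (l + k) 2 a = u →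
      hw q g (l + k) 2 (a + 1) = w → ∃ v' : ℕ, v' + 1 < Qr q l W ∧
        cu q p r l W c v' = cu q p r l W c (v' + 1) ∧
        ((1 : G), hw q g l k (r * v₀ + c.2) *
        ((g (l + k) 1)⁻¹ * w * u⁻¹) * (hw q g l k (r * v₀ + c.2))⁻¹) =
        wu q g p r l W c v * (wu q g p r l W c (v + 1))⁻¹ *
          (wu q g p r l W c v' * (wu q g p r l W c (v' + 1))⁻¹)⁻¹ := by
    intro a ha u w hu hw'
    obtain ⟨v', hv', hcv', e1⟩ := loc_eltT (g := g) hq hr hrq hW c hv₀ h1 h2 ha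
    rw [hu, hw'] at e1
    refine ⟨v', hv', hcv', ?_⟩
    rw [e0, e1]
    ext
    · show (1 : G) = (hw q g l k (p * v₀ + c.1) * (hw q g l k (p * (v₀ + 1) + c.1))⁻¹) *
        (hw q g l k (p * v₀ + c.1) * (hw q g l k (p * (v₀ + 1) + c.1))⁻¹)⁻¹
      rw [mul_inv_cancel]
    · show hw q g l k (r * v₀ + c.2) * ((g (l + k) 1)⁻¹ * w * u⁻¹) *
        (hw q g l k (r * v₀ + c.2))⁻¹ =
        (hw q g l k (r * v₀ + c.2) * (g (l + k) 1)⁻¹ * (hw q g l k (r * (v₀ + 1) + c.2))⁻¹) *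
        (hw q g l k (r * v₀ + c.2) * (u * w⁻¹) * (hw q g l k (r * (v₀ + 1) + c.2))⁻¹)⁻¹
      group
  have fin : ∀ z : G, (∃ v' : ℕ, v' + 1 < Qr q l W ∧
      cu q p r l W c v' = cu q p r l W c (v' + 1) ∧
        ((1 : G), hw q g l k (r * v₀ + c.2) * z * (hw q g l k (r * v₀ + c.2))⁻¹) =
        wu q g p r l W c v * (wu q g p r l W c (v + 1))⁻¹ *
          (wu q g p r l W c v' * (wu q g p r l W c (v' + 1))⁻¹)⁻¹) →
      ∃ x v v' : ℕ, x < Qr q l k ∧ v + 1 < Qr q l W ∧ v' + 1 < Qr q l W ∧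
      cu q p r l W c v = cu q p r l W c (v + 1) ∧ cu q p r l W c v' = cu q p r l W c (v' + 1) ∧
      ((1 : G), hw q g l k x * z * (hw q g l k x)⁻¹) =
        wu q g p r l W c v * (wu q g p r l W c (v + 1))⁻¹ *
          (wu q g p r l W c v' * (wu q g p r l W c (v' + 1))⁻¹)⁻¹ := by
    rintro z ⟨v', hv', hcv', e⟩
    refine ⟨(r * v₀ + c.2) % Qr q l k, v, v', Nat.mod_lt _ (Qr_pos hq l k), hv, hv', hcv, hcv', ?_⟩
    rw [hw_mod hq]
    exact e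
  rcases hy with ⟨d, hd, rfl⟩ | rfl
  · refine fin _ (key d (by omega) _ _ ?_ ?_)
    · rw [LocI_hw_two, Nat.mod_eq_of_lt (by omega : d < q (l + k)),
        Nat.div_eq_of_lt (by omega : d < q (l + k)), Nat.zero_mod, hg, mul_one]
    · rw [LocI_hw_two, Nat.mod_eq_of_lt hd, Nat.div_eq_of_lt hd, Nat.zero_mod, hg, mul_one]
  · refine fin _ (key (q (l + k) - 1) (by omega) _ _ ?_ ?_)
    · rw [LocI_hw_two, Nat.mod_eq_of_lt (by omega : q (l + k) - 1 < q (l + k)),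
        Nat.div_eq_of_lt (by omega : q (l + k) - 1 < q (l + k)), Nat.zero_mod, hg, mul_one]
    · have e : q (l + k) - 1 + 1 = q (l + k) := by omega
      rw [e, LocI_hw_two, Nat.mod_self, Nat.div_self (by omega),
        Nat.mod_eq_of_lt (by omega : 1 < q (l + k + 1)), hg, one_mul]

end Pool.Agent.Lib.MP_3e612f_nt.LV
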