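import Pool.Agent.Lib.MP_3e612f_nt.LV.TwGains
import Pool.Agent.Lib.MP_3e612f_nt.PS.Mix

/-!
Twisted correlations over a block of numbers.
-/

set_option autoImplicit false

namespace Pool.Agent.Lib.MP_3e612f_nt.LV

open Finset
open Pool.Agent.Lib.MP_3e612f_nt.PB
open Pool.Agent.Lib.MP_3e612f_nt.LORT (ev)

private theorem tx_sum (X Y : ℕ) (f : ℕ → ℂ) :
    ∑ v ∈ range (X * Y), f v = ∑ v0 ∈ range X, ∑ v1 ∈ range Y, f (v0 + X * v1) := by
  induction Y with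
  | zero => simp
  | succ Y ih =>
    have h1 : ∑ v0 ∈ range X, ∑ v1 ∈ range (Y + 1), f (v0 + X * v1) =
        ∑ v0 ∈ range X, ∑ v1 ∈ range Y, f (v0 + X * v1) + ∑ v0 ∈ range X, f (v0 + X * Y) := by
      rw [← Finset.sum_add_distrib]
      exact Finset.sum_congr rfl fun v0 _ => Finset.sum_range_succ _ _
    rw [h1, Nat.mul_succ, Finset.sum_range_add, ih]
    congr 1
    exact Finset.sum_congr rfl fun v0 _ => by rw [add_comm]

section
variable {G : Type} [Group G]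

/-- the family of the top digits, twisted -/
private noncomputable def tx_A (Φ Ψ : ℕ → G → ℕ → ℝ) (p r l l' Z : ℕ) (η : ℝ) (c : ℕ × ℕ)
    (z : G × G) : ℂ :=
  (∑ v2 ∈ range Z, ev (η * v2) *
    ((Φ l z.1 (p * v2 + c.1) * Ψ l' z.2 (r * v2 + c.2) : ℝ) : ℂ)) / (Z : ℂ)

omit [Group G] in
private theorem tx_norm {Φ Ψ : ℕ → G → ℕ → ℝ} (hΦ : ∀ l γ u, |Φ l γ u| ≤ 2)
    (hΨ : ∀ l γ u, |Ψ l γ u| ≤ 2) (p r l l' : ℕ) {Z : ℕ} (hZ : 0 < Z) (η : ℝ) (c : ℕ × ℕ)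
    (z : G × G) : ‖tx_A Φ Ψ p r l l' Z η c z‖ ≤ 4 := by
  have hZ' : (0 : ℝ) < Z := by exact_mod_cast hZ
  unfold tx_A
  rw [norm_div, Complex.norm_natCast, div_le_iff₀ hZ']
  refine (norm_sum_le _ _).trans ?_
  have h1 : ∀ v2 ∈ range Z, ‖ev (η * v2) *
      ((Φ l z.1 (p * v2 + c.1) * Ψ l' z.2 (r * v2 + c.2) : ℝ) : ℂ)‖ ≤ 4 := by
    intro v2 _
    rw [norm_mul, LORT.norm_ev, one_mul, Complex.norm_real, Real.norm_eq_abs, abs_mul]
    have := mul_le_mul (hΦ l z.1 (p * v2 + c.1)) (hΨ l' z.2 (r * v2 + c.2)) (abs_nonneg _)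
      (by norm_num)
    linarith
  refine (Finset.sum_le_sum h1).trans (le_of_eq ?_)
  rw [Finset.sum_const, card_range, nsmul_eq_mul]
  ring

variable [Fintype G]

open Classical in
private theorem tx_good {Φ Ψ : ℕ → G → ℕ → ℝ} (hΦ : ∀ l γ u, |Φ l γ u| ≤ 2)
    (hΨ : ∀ l γ u, |Ψ l γ u| ≤ 2) (N : Subgroup G)
    (hbal : ∀ l γ u, ∑ ν : G, (if ν ∈ N then Ψ l (γ * ν) u else 0) = 0)
    (p r l l' : ℕ) {Z : ℕ} (hZ : 0 < Z) (η : ℝ) :
    GoodC N (16 * (Fintype.card G : ℝ) ^ 2) (tx_A Φ Ψ p r l l' Z η) := by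
  intro c
  constructor
  · unfold nrc
    have h1 : ∀ z ∈ (Finset.univ : Finset (G × G)), ‖tx_A Φ Ψ p r l l' Z η c z‖ ^ 2 ≤ 16 := by
      intro z _
      have h := tx_norm hΦ hΨ p r l l' hZ η c z
      have h0 := norm_nonneg (tx_A Φ Ψ p r l l' Z η c z)
      nlinarith
    refine (Finset.sum_le_sum h1).trans (le_of_eq ?_)
    rw [Finset.sum_const, Finset.card_univ, Fintype.card_prod, nsmul_eq_mul]
    push_cast
    ring
  · intro z
    have h1 : ∀ x2 : G, (if ((1 : G), x2) ∈ (⊥ : Subgroup G).prod N then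
        tx_A Φ Ψ p r l l' Z η c (z * (1, x2)) else 0) =
        (∑ v2 ∈ range Z, ev (η * v2) * ((Φ l z.1 (p * v2 + c.1) *
          (if x2 ∈ N then Ψ l' (z.2 * x2) (r * v2 + c.2) else 0) : ℝ) : ℂ)) / (Z : ℂ) := by
      intro x2
      by_cases hx : x2 ∈ N
      · have hx' : ((1 : G), x2) ∈ (⊥ : Subgroup G).prod N := by
          rw [Subgroup.mem_prod]
          exact ⟨Subgroup.mem_bot.2 rfl, hx⟩
        rw [if_pos hx']
        simp only [if_pos hx]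
        unfold tx_A
        simp
      · have hx' : ¬ ((1 : G), x2) ∈ (⊥ : Subgroup G).prod N := by
          rw [Subgroup.mem_prod]
          exact fun h => hx h.2
        rw [if_neg hx']
        simp [hx]
    have h2 : ∑ x2 : G, (if ((1 : G), x2) ∈ (⊥ : Subgroup G).prod N then
        tx_A Φ Ψ p r l l' Z η c (z * (1, x2)) else 0) = 0 := by
      rw [Finset.sum_congr rfl fun x2 _ => h1 x2, ← Finset.sum_div, Finset.sum_comm]
      have h3 : ∑ v2 ∈ range Z, ∑ x2 : G, ev (η * v2) * ((Φ l z.1 (p * v2 + c.1) *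
          (if x2 ∈ N then Ψ l' (z.2 * x2) (r * v2 + c.2) else 0) : ℝ) : ℂ) = 0 := by
        refine Finset.sum_eq_zero fun v2 _ => ?_
        rw [← Finset.mul_sum, ← Complex.ofReal_sum, ← Finset.mul_sum, hbal, mul_zero,
          Complex.ofReal_zero, mul_zero]
      rw [h3, zero_div]
    have h3 : ∑ x : G × G, (if x ∈ (⊥ : Subgroup G).prod N then
        tx_A Φ Ψ p r l l' Z η c (z * x) else 0) =
        ∑ x1 : G, ∑ x2 : G, (if (x1, x2) ∈ (⊥ : Subgroup G).prod N then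
        tx_A Φ Ψ p r l l' Z η c (z * (x1, x2)) else 0) := Fintype.sum_prod_type _
    rw [h3, Finset.sum_eq_single (1 : G)]
    · exact h2
    · intro x1 _ hx1
      refine Finset.sum_eq_zero fun x2 _ => ?_
      rw [if_neg]
      rw [Subgroup.mem_prod]
      exact fun h => hx1 (Subgroup.mem_bot.1 h.1)
    · intro h
      exact absurd (Finset.mem_univ _) h

end

variable {G : Type} [Group G] [Fintype G] {q : ℕ → ℕ} {g : ℕ → ℕ → G} {B : ℕ} {p r k : ℕ}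

open Classical in
/-- adapt `PS.mixA` (file PS/Mix.lean) with `y = 0`: `v = v0 + Qr q 0 a * (v1 + Qr q a (b - a) * v2)`, the phase
`ev (θ v)` is the product of `ev (θ v0)`, `ev (θ (Qr q 0 a) v1)` and `ev (θ (Qr q 0 b) v2)`; the family of the top
digits is `A c z = (∑ v2 < Z, ev (θ (Qr q 0 b) v2) * Φ l z.1 (p v2 + c.1) * Ψ l' z.2 (r v2 + c.2)) / Z`, which is
`GoodC (Nlin q g a b) (16 card G ^ 2)`; `TTw_gains` with the frequency `θ * Qr q 0 a`. -/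
theorem mixT (hq : Rad B q) (hg : Neu g) (hp : 2 ≤ p) (hpr : p + 2 ≤ r) (hr : r.Prime)
    (hrq : ∀ j, ¬ r ∣ q j) (hk : p * r < 2 ^ k) (hG : Fintype.card G < r)
    {a b K κ : ℕ} (hab : a ≤ b) (hbK : b ≤ K) (hS : Spaced (Nlin q g) k a b κ)
    (Φ Ψ : ℕ → G → ℕ → ℝ) (hΦ : ∀ l γ u, |Φ l γ u| ≤ 2) (hΨ : ∀ l γ u, |Ψ l γ u| ≤ 2)
    (hbal : ∀ l γ u, ∑ ν : G, (if ν ∈ Nlin q g a b then Ψ l (γ * ν) u else 0) = 0)
    (φ ψ : ℕ → ℝ)
    (hφ : ∀ x, φ x = Φ (x % Qr q 0 a) (hw q g a (b - a) (x / Qr q 0 a)) (x / Qr q 0 b))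
    (hψ : ∀ x, ψ x = Ψ (x % Qr q 0 a) (hw q g a (b - a) (x / Qr q 0 a)) (x / Qr q 0 b))
    (θ : ℝ) (s₁ s₂ : ℕ) :
    ‖∑ v ∈ range (Qr q 0 K), ((φ (p * v + s₁) * ψ (r * v + s₂) : ℝ) : ℂ) * ev (θ * v)‖ ≤
      4 * Fintype.card G * √(rhoT G B k ^ κ) * Qr q 0 K := by
  have hρ0 : 0 ≤ rhoT G B k := rhoT_nonneg G B k
  have hX := Qr_pos hq 0 a
  have hY := Qr_pos hq a (b - a)
  have hZ := Qr_pos hq b (K - b)
  have hb : Qr q 0 b = Qr q 0 a * Qr q a (b - a) := by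
    have := Qr_add q 0 a (b - a)
    rwa [Nat.add_sub_cancel' hab, Nat.zero_add] at this
  have hK : Qr q 0 K = Qr q 0 a * (Qr q a (b - a) * Qr q b (K - b)) := by
    have := Qr_add q 0 b (K - b)
    rw [Nat.add_sub_cancel' hbK, Nat.zero_add, hb] at this
    rw [this, mul_assoc]
  -- the inner sums
  have hinner : ∀ v0 ∈ range (Qr q 0 a),
      ‖∑ v1 ∈ range (Qr q a (b - a) * Qr q b (K - b)),
        ((φ (p * (v0 + Qr q 0 a * v1) + s₁) * ψ (r * (v0 + Qr q 0 a * v1) + s₂) : ℝ) : ℂ) *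
          ev (θ * ((v0 + Qr q 0 a * v1 : ℕ) : ℝ))‖
      ≤ 4 * Fintype.card G * √(rhoT G B k ^ κ) *
        ((Qr q a (b - a) : ℝ) * Qr q b (K - b)) := by
    intro v0 _
    set A := tx_A Φ Ψ p r ((p * v0 + s₁) % Qr q 0 a) ((r * v0 + s₂) % Qr q 0 a)
      (Qr q b (K - b)) (θ * Qr q 0 b) with hA
    have hgood := tx_good hΦ hΨ (Nlin q g a b) hbal p r ((p * v0 + s₁) % Qr q 0 a)
      ((r * v0 + s₂) % Qr q 0 a) hZ (θ * Qr q 0 b)
    rw [← hA] at hgood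
    have hgain := TTw_gains hq hg hp hpr hr hrq hk hG hab hS hgood (θ * Qr q 0 a)
      ((p * v0 + s₁) / Qr q 0 a, (r * v0 + s₂) / Qr q 0 a)
    have habs := (norm_le_nrc (TTw q g p r a (b - a) (θ * Qr q 0 a) A
      ((p * v0 + s₁) / Qr q 0 a, (r * v0 + s₂) / Qr q 0 a)) 1).trans
        (Real.sqrt_le_sqrt hgain.1)
    have hsq : √(rhoT G B k ^ κ * (16 * (Fintype.card G : ℝ) ^ 2)) =
        4 * Fintype.card G * √(rhoT G B k ^ κ) := by
      rw [Real.sqrt_mul (pow_nonneg hρ0 κ)]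
      have e : (16 : ℝ) * (Fintype.card G : ℝ) ^ 2 = (4 * (Fintype.card G : ℝ)) ^ 2 := by ring
      rw [e, Real.sqrt_sq (by positivity)]
      ring
    rw [hsq] at habs
    have heq : ∑ v1 ∈ range (Qr q a (b - a) * Qr q b (K - b)),
        ((φ (p * (v0 + Qr q 0 a * v1) + s₁) * ψ (r * (v0 + Qr q 0 a * v1) + s₂) : ℝ) : ℂ) *
          ev (θ * ((v0 + Qr q 0 a * v1 : ℕ) : ℝ)) =
        ev (θ * v0) * (((Qr q a (b - a) : ℂ) * Qr q b (K - b)) *
          TTw q g p r a (b - a) (θ * Qr q 0 a) A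
          ((p * v0 + s₁) / Qr q 0 a, (r * v0 + s₂) / Qr q 0 a) 1) := by
      rw [tx_sum]
      have hY' : (Qr q a (b - a) : ℂ) ≠ 0 := by exact_mod_cast hY.ne'
      have hZ' : (Qr q b (K - b) : ℂ) ≠ 0 := by exact_mod_cast hZ.ne'
      unfold TTw
      rw [mul_comm (Qr q a (b - a) : ℂ), mul_assoc, mul_div_cancel₀ _ hY', Finset.mul_sum,
        Finset.mul_sum]
      refine Finset.sum_congr rfl fun v1 _ => ?_
      rw [hA]
      unfold tx_A
      rw [mul_left_comm (Qr q b (K - b) : ℂ), mul_div_cancel₀ _ hZ', Finset.mul_sum,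
        Finset.mul_sum]
      refine Finset.sum_congr rfl fun v2 _ => ?_
      have e1 : ev (θ * ((v0 + Qr q 0 a * (v1 + Qr q a (b - a) * v2) : ℕ) : ℝ)) =
          ev (θ * v0) * (ev (θ * Qr q 0 a * v1) * ev (θ * Qr q 0 b * v2)) := by
        rw [← LORT.ev_add, ← LORT.ev_add, hb]
        congr 1
        push_cast
        ring
      rw [e1, hφ, hψ, hb, PS.Mix_xs hq Φ, PS.Mix_xs hq Ψ]
      unfold PS.wu PS.cu
      simp only [one_mul]
      ring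
    rw [heq, norm_mul, LORT.norm_ev, one_mul, norm_mul, norm_mul, Complex.norm_natCast,
      Complex.norm_natCast, mul_comm]
    exact mul_le_mul_of_nonneg_right habs (by positivity)
  have hsum : ∑ v ∈ range (Qr q 0 K),
      ((φ (p * v + s₁) * ψ (r * v + s₂) : ℝ) : ℂ) * ev (θ * v) =
      ∑ v0 ∈ range (Qr q 0 a), ∑ v1 ∈ range (Qr q a (b - a) * Qr q b (K - b)),
        ((φ (p * (v0 + Qr q 0 a * v1) + s₁) * ψ (r * (v0 + Qr q 0 a * v1) + s₂) : ℝ) : ℂ) *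
          ev (θ * ((v0 + Qr q 0 a * v1 : ℕ) : ℝ)) := by
    rw [← tx_sum (Qr q 0 a) (Qr q a (b - a) * Qr q b (K - b))
      (fun v => ((φ (p * v + s₁) * ψ (r * v + s₂) : ℝ) : ℂ) * ev (θ * v)), ← hK]
  rw [hsum]
  refine (norm_sum_le _ _).trans ((Finset.sum_le_sum hinner).trans (le_of_eq ?_))
  rw [Finset.sum_const, card_range, nsmul_eq_mul]
  have hK' : (Qr q 0 K : ℝ) = (Qr q 0 a : ℝ) * ((Qr q a (b - a) : ℝ) * Qr q b (K - b)) := by
    rw [hK]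
    push_cast
    ring
  rw [hK']
  ring

end Pool.Agent.Lib.MP_3e612f_nt.LV
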