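import Pool.Agent.Lib.MP_3e612f_nt.PS.Cu
import Pool.Agent.Lib.MP_3e612f_nt.PB.Oper
import Pool.Agent.Lib.MP_3e612f_nt.LO.R.Ev

/-!
Complex functions on a finite group; the transfer operator twisted by a linear phase.
-/

set_option autoImplicit false

namespace Pool.Agent.Lib.MP_3e612f_nt.LV

open Finset
open Pool.Agent.Lib.MP_3e612f_nt.PB
open Pool.Agent.Lib.MP_3e612f_nt.PS (cu wu)
open Pool.Agent.Lib.MP_3e612f_nt.LORT (ev)

section
variable {K : Type} [Fintype K]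

/-- squared norm of a complex function -/
noncomputable def nrc (Θ : K → ℂ) : ℝ := ∑ z, ‖Θ z‖ ^ 2

theorem nrc_nonneg (Θ : K → ℂ) : 0 ≤ nrc Θ := by
  unfold nrc
  exact Finset.sum_nonneg fun z _ => sq_nonneg _

/-- PROOF: `‖Θ z‖ ^ 2` is one of the nonnegative summands. -/
theorem norm_le_nrc (Θ : K → ℂ) (z : K) : ‖Θ z‖ ≤ √(nrc Θ) := by
  refine Real.le_sqrt_of_sq_le ?_
  unfold nrc
  exact Finset.single_le_sum (f := fun z => ‖Θ z‖ ^ 2) (fun z _ => sq_nonneg _)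
    (Finset.mem_univ z)

/-- triangle inequality (PROOF: `nrc Θ = ‖WithLp.toLp 2 Θ‖ ^ 2` in `EuclideanSpace ℂ K`, or Minkowski) -/
theorem nrc_tri (Θ Θ' : K → ℂ) : √(nrc (fun z => Θ z + Θ' z)) ≤ √(nrc Θ) + √(nrc Θ') := by
  have h : ∀ F : K → ℂ, √(nrc F) = ‖(WithLp.toLp 2 F : EuclideanSpace ℂ K)‖ := by
    intro F
    rw [EuclideanSpace.norm_eq]
    rfl
  rw [h, h, h]
  have e : (WithLp.toLp 2 (fun z => Θ z + Θ' z) : EuclideanSpace ℂ K) =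
      WithLp.toLp 2 Θ + WithLp.toLp 2 Θ' := rfl
  rw [e]
  exact norm_add_le _ _

private theorem TwOp_defect {ι : Type} (s : Finset ι) (hs : s.Nonempty) (V : ι → K → ℂ) {S : ℝ}
    (hV : ∀ u ∈ s, nrc (V u) ≤ S) :
    ∑ u ∈ s, nrc (fun z => V u z - (∑ u' ∈ s, V u' z) / (s.card : ℂ)) ≤
      s.card * (S - nrc (fun z => (∑ u ∈ s, V u z) / (s.card : ℂ))) := by
  have hc : (0 : ℝ) < s.card := by exact_mod_cast hs.card_pos
  have hc' : (s.card : ℂ) ≠ 0 := by exact_mod_cast hc.ne'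
  have e1 : ∑ u ∈ s, nrc (fun z => V u z - (∑ u' ∈ s, V u' z) / (s.card : ℂ)) =
      ∑ u ∈ s, nrc (V u) - s.card * nrc (fun z => (∑ u ∈ s, V u z) / (s.card : ℂ)) := by
    unfold nrc
    rw [sum_comm, sum_comm (s := s), mul_sum, ← sum_sub_distrib]
    refine sum_congr rfl fun z _ => ?_
    obtain ⟨m, hm⟩ : ∃ m : ℂ, m = (∑ u' ∈ s, V u' z) / (s.card : ℂ) := ⟨_, rfl⟩
    have hsum : ∑ u ∈ s, V u z = (s.card : ℝ) • m := by
      rw [hm, Complex.real_smul]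
      push_cast
      field_simp
    beta_reduce
    rw [← hm]
    calc ∑ u ∈ s, ‖V u z - m‖ ^ 2 = ∑ u ∈ s, (‖V u z‖ ^ 2 - 2 * inner ℝ (V u z) m + ‖m‖ ^ 2) :=
          sum_congr rfl fun u _ => norm_sub_sq_real _ _
      _ = ∑ u ∈ s, ‖V u z‖ ^ 2 - 2 * inner ℝ (∑ u ∈ s, V u z) m + s.card * ‖m‖ ^ 2 := by
          rw [sum_add_distrib, sum_sub_distrib, ← mul_sum, sum_const, nsmul_eq_mul, sum_inner]
      _ = _ := by
          rw [hsum, real_inner_smul_left, real_inner_self_eq_norm_sq]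
          ring
  rw [e1]
  have e2 : ∑ u ∈ s, nrc (V u) ≤ s.card * S := by
    calc ∑ u ∈ s, nrc (V u) ≤ ∑ _u ∈ s, S := sum_le_sum hV
      _ = _ := by rw [sum_const, nsmul_eq_mul]
  linarith

/-- convexity -/
theorem nrc_avg {ι : Type} (s : Finset ι) (V : ι → K → ℂ) {S : ℝ}
    (hV : ∀ u ∈ s, nrc (V u) ≤ S) (hS : 0 ≤ S) :
    nrc (fun z => (∑ u ∈ s, V u z) / (s.card : ℂ)) ≤ S := by
  rcases s.eq_empty_or_nonempty with rfl | hs
  · unfold nrc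
    simp [hS]
  · have hc : (0 : ℝ) < s.card := by exact_mod_cast hs.card_pos
    have h1 := TwOp_defect s hs V hV
    have h2 : 0 ≤ ∑ u ∈ s, nrc (fun z => V u z - (∑ u' ∈ s, V u' z) / (s.card : ℂ)) :=
      sum_nonneg fun u _ => nrc_nonneg _
    have h3 := nonneg_of_mul_nonneg_right (h2.trans h1) hc
    linarith

/-- compare `PS.avg_defect` -/
theorem avg_defectc {ι : Type} (s : Finset ι) (hs : s.Nonempty) (V : ι → K → ℂ) {S : ℝ}
    (hV : ∀ u ∈ s, nrc (V u) ≤ S) :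
    ∑ u ∈ s, nrc (fun z => V u z - (∑ u' ∈ s, V u' z) / (s.card : ℂ)) ≤
      s.card * (S - nrc (fun z => (∑ u ∈ s, V u z) / (s.card : ℂ))) := by
  exact TwOp_defect s hs V hV

variable [Group K]

theorem nrc_tr {ζ : ℂ} (hζ : ‖ζ‖ = 1) (x : K) (Θ : K → ℂ) :
    nrc (fun z => ζ * Θ (z * x)) = nrc Θ := by
  unfold nrc
  have h : ∀ z : K, ‖ζ * Θ (z * x)‖ ^ 2 = ‖Θ (z * x)‖ ^ 2 := by
    intro z
    rw [norm_mul, hζ, one_mul]
  rw [sum_congr rfl fun z _ => h z]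
  exact Equiv.sum_comp (Equiv.mulRight x) (fun z => ‖Θ z‖ ^ 2)

open Classical in
/-- zero sum over all cosets `z Λ` -/
def Balc (Λ : Subgroup K) (Θ : K → ℂ) : Prop :=
  ∀ z, ∑ x : K, (if x ∈ Λ then Θ (z * x) else 0) = 0

/-- compare `PB.Bal_tr` -/
theorem Balc_tr {Λ : Subgroup K} {x : K} (hx : ∀ y, y ∈ Λ ↔ x * y * x⁻¹ ∈ Λ) {Θ : K → ℂ}
    (hb : Balc Λ Θ) (ζ : ℂ) : Balc Λ (fun z => ζ * Θ (z * x)) := by
  classical
  intro z
  have h := hb (z * x)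
  have h2 : ζ * ∑ y : K, (if y ∈ Λ then Θ (z * x * y) else 0) = 0 := by
    have h3 : ∑ y : K, (if y ∈ Λ then Θ (z * x * y) else 0) = 0 := by
      refine Eq.trans (Finset.sum_congr rfl fun y _ => ?_) h
      congr 1
    rw [h3, mul_zero]
  rw [mul_sum] at h2
  rw [← Equiv.sum_comp (MulAut.conj x).toEquiv]
  refine Eq.trans (Finset.sum_congr rfl fun y _ => ?_) h2
  have e1 : (MulAut.conj x).toEquiv y = x * y * x⁻¹ := rfl
  rw [e1]
  have e2 : z * (x * y * x⁻¹) * x = z * x * y := by group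
  beta_reduce
  rw [e2]
  by_cases hy : y ∈ Λ
  · rw [if_pos hy, if_pos ((hx y).1 hy)]
  · rw [if_neg hy, if_neg (fun h1 => hy ((hx y).2 h1)), mul_zero]

/-- compare `PB.Bal_sum` -/
theorem Balc_sum {Λ : Subgroup K} {ι : Type} (s : Finset ι) (Θ : ι → K → ℂ)
    (hb : ∀ i ∈ s, Balc Λ (Θ i)) (a : ℂ) : Balc Λ (fun z => (∑ i ∈ s, Θ i z) / a) := by
  classical
  intro z
  have e1 : ∀ x : K, (if x ∈ Λ then (∑ i ∈ s, Θ i (z * x)) / a else 0) =
      (∑ i ∈ s, (if x ∈ Λ then Θ i (z * x) else 0)) / a := by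
    intro x
    split_ifs with hx
    · rfl
    · simp
  have e2 : ∑ x : K, (if x ∈ Λ then (∑ i ∈ s, Θ i (z * x)) / a else 0) = 0 := by
    rw [Finset.sum_congr rfl fun x _ => e1 x, ← Finset.sum_div, Finset.sum_comm]
    rw [Finset.sum_eq_zero, zero_div]
    intro i hi
    have h := hb i hi z
    refine Eq.trans (Finset.sum_congr rfl fun x _ => ?_) h
    congr 1
  refine Eq.trans (Finset.sum_congr rfl fun x _ => ?_) e2
  congr 1

/-- compare `PB.Bal_exists` (expand the square, `2 re (conj (Θ z) * Θ (z * x))`) -/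
theorem Balc_exists {Λ : Subgroup K} {Θ : K → ℂ} (hb : Balc Λ Θ) :
    ∃ x ∈ Λ, 2 * nrc Θ ≤ nrc (fun z => Θ (z * x) - Θ z) := by
  classical
  by_contra hcon
  push Not at hcon
  have e0 : ∀ x : K, nrc (fun z => Θ (z * x) - Θ z) =
      2 * nrc Θ - 2 * ∑ z, inner ℝ (Θ (z * x)) (Θ z) := by
    intro x
    have h1 : ∑ z, ‖Θ (z * x)‖ ^ 2 = nrc Θ := Equiv.sum_comp (Equiv.mulRight x) fun z => ‖Θ z‖ ^ 2
    unfold nrc at h1 ⊢
    rw [Finset.sum_congr rfl fun z _ => norm_sub_sq_real _ _, Finset.sum_add_distrib,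
      Finset.sum_sub_distrib, h1, ← Finset.mul_sum]
    ring
  have e1 : ∑ x ∈ Finset.univ.filter (fun x : K => x ∈ Λ), ∑ z, inner ℝ (Θ (z * x)) (Θ z) =
      0 := by
    rw [Finset.sum_comm]
    refine Finset.sum_eq_zero fun z _ => ?_
    rw [← sum_inner, Finset.sum_filter]
    have h := hb z
    have h' : ∑ x : K, (if x ∈ Λ then Θ (z * x) else 0) = 0 := by
      refine Eq.trans (Finset.sum_congr rfl fun x _ => ?_) h
      congr 1
    rw [h', inner_zero_left]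
  have e2 : ∑ x ∈ Finset.univ.filter (fun x : K => x ∈ Λ), nrc (fun z => Θ (z * x) - Θ z) <
      ∑ _x ∈ Finset.univ.filter (fun x : K => x ∈ Λ), 2 * nrc Θ := by
    refine Finset.sum_lt_sum_of_nonempty ⟨1, by simp [Λ.one_mem]⟩ fun x hx => ?_
    exact hcon x (by simpa using hx)
  have e3 : ∑ x ∈ Finset.univ.filter (fun x : K => x ∈ Λ),
      2 * ∑ z, inner ℝ (Θ (z * x)) (Θ z) = 0 := by
    rw [← Finset.mul_sum, e1, mul_zero]
  rw [Finset.sum_congr rfl fun x _ => e0 x, Finset.sum_sub_distrib, e3, sub_zero] at e2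
  exact lt_irrefl _ e2

end

variable {G : Type} [Group G] {q : ℕ → ℕ} {g : ℕ → ℕ → G} {B : ℕ} {p r : ℕ}

/-- the transfer operator twisted by the phase `u ↦ ev (ϑ u)` -/
noncomputable def TTw (q : ℕ → ℕ) (g : ℕ → ℕ → G) (p r i m : ℕ) (ϑ : ℝ)
    (A : ℕ × ℕ → G × G → ℂ) (c : ℕ × ℕ) (z : G × G) : ℂ :=
  (∑ u ∈ range (Qr q i m), ev (ϑ * u) * A (cu q p r i m c u) (z * wu q g p r i m c u)) /
    (Qr q i m : ℂ)

theorem TTw_zero (q : ℕ → ℕ) (g : ℕ → ℕ → G) (p r i : ℕ) (ϑ : ℝ) (A : ℕ × ℕ → G × G → ℂ) :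
    TTw q g p r i 0 ϑ A = A := by
  funext c z
  unfold TTw
  rw [Qr_zero, sum_range_one, Nat.cast_zero, mul_zero, Pool.Agent.Lib.MP_3e612f_nt.LORT.ev_zero,
    Pool.Agent.Lib.MP_3e612f_nt.PS.cu_zero, Pool.Agent.Lib.MP_3e612f_nt.PS.wu_zero, mul_one,
    one_mul, Nat.cast_one, div_one]

private theorem TwOp_sum_mul (Q Q' : ℕ) (F : ℕ → ℂ) :
    ∑ u ∈ range (Q * Q'), F u = ∑ u₀ ∈ range Q, ∑ u₁ ∈ range Q', F (u₀ + Q * u₁) := by
  rw [sum_comm]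
  induction Q' with
  | zero => simp
  | succ n ih =>
    rw [Nat.mul_succ, sum_range_add, ih, sum_range_succ]
    congr 1
    apply sum_congr rfl
    intro x _
    rw [add_comm]

/-- PROOF: `u = u₀ + Qr q i m * u₁` (as `PB.TransA_sum_mul`), `PS.cu_add`, `PS.wu_add`,
`ev (ϑ (u₀ + Q u₁)) = ev (ϑ u₀) * ev (ϑ Q u₁)`. -/
theorem TTw_add (hq : Rad B q) (i m m' : ℕ) (ϑ : ℝ) (A : ℕ × ℕ → G × G → ℂ) :
    TTw q g p r i (m + m') ϑ A =
      TTw q g p r i m ϑ (TTw q g p r (i + m) m' (ϑ * Qr q i m) A) := by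
  funext c z
  have hQ := Qr_pos hq i m
  have hQ' := Qr_pos hq (i + m) m'
  unfold TTw
  rw [Qr_add, TwOp_sum_mul, Nat.cast_mul, mul_comm (Qr q i m : ℂ), ← div_div]
  congr 1
  rw [sum_div]
  apply sum_congr rfl
  intro u₀ _
  rw [mul_div_assoc', mul_sum]
  congr 1
  apply sum_congr rfl
  intro u₁ _
  rw [Pool.Agent.Lib.MP_3e612f_nt.PS.cu_add hq, Pool.Agent.Lib.MP_3e612f_nt.PS.wu_add hq,
    ← mul_assoc z, ← mul_assoc (ev (ϑ * u₀)), ← Pool.Agent.Lib.MP_3e612f_nt.LORT.ev_add]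
  congr 2
  push_cast
  ring

variable [Fintype G]

/-- bounded and balanced families -/
def GoodC (N : Subgroup G) (S : ℝ) (A : ℕ × ℕ → G × G → ℂ) : Prop :=
  ∀ c : ℕ × ℕ, nrc (A c) ≤ S ∧ Balc ((⊥ : Subgroup G).prod N) (A c)

theorem TTw_nrc_le (hq : Rad B q) (i m : ℕ) (ϑ : ℝ) {S : ℝ} {A : ℕ × ℕ → G × G → ℂ}
    (hA : ∀ c, nrc (A c) ≤ S) (c : ℕ × ℕ) : nrc (TTw q g p r i m ϑ A c) ≤ S := by
  have h := nrc_avg (range (Qr q i m)) (fun u z => ev (ϑ * u) * A (cu q p r i m c u)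
    (z * wu q g p r i m c u)) (S := S) (fun u _ => by
      rw [nrc_tr (Pool.Agent.Lib.MP_3e612f_nt.LORT.norm_ev _)]
      exact hA _) ((nrc_nonneg _).trans (hA c))
  rw [card_range] at h
  exact h

/-- compare `PS.TT_goodA` -/
theorem TTw_good (hq : Rad B q) {N : Subgroup G} {i m : ℕ}
    (hN : ∀ γ ∈ Gam q g i (i + m), ∀ y, y ∈ N ↔ γ * y * γ⁻¹ ∈ N) (ϑ : ℝ) {S : ℝ}
    {A : ℕ × ℕ → G × G → ℂ} (hA : GoodC N S A) : GoodC N S (TTw q g p r i m ϑ A) := by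
  intro c
  refine ⟨TTw_nrc_le hq i m ϑ (fun c => (hA c).1) c, ?_⟩
  refine Balc_sum (range (Qr q i m)) (fun u z => ev (ϑ * u) * A (cu q p r i m c u)
    (z * wu q g p r i m c u)) (fun u _ => ?_) (Qr q i m : ℂ)
  refine Balc_tr ?_ (hA _).2 _
  apply TransA_prod_norm
  exact hN _ (hw_mem_Gam hq le_rfl le_rfl _)

end Pool.Agent.Lib.MP_3e612f_nt.LV
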