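import Pool.Agent.Lib.MP_3e612f_nt.LV.TwMix
import Pool.Agent.Lib.MP_3e612f_nt.LV.Defs
import Pool.Agent.Lib.MP_3e612f_nt.LU.Uns

/-!
Structured and unstructured parts of digit products on the digits below `K`; twisted pair correlations of the
unstructured parts.
-/

set_option autoImplicit false

namespace Pool.Agent.Lib.MP_3e612f_nt.LV

open Finset
open Pool.Agent.Lib.MP_3e612f_nt.PB
open Pool.Agent.Lib.MP_3e612f_nt.LORT (ev)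

variable {G : Type} [Group G] [Fintype G]

/-- unstructured functions: `n` pieces on the positions below `K`, richness `κt` (as `LU.Uns` with `n₁ = n`) -/
def UnsP (q : ℕ → ℕ) (g : ℕ → ℕ → G) (K n κt : ℕ) (V : ℕ → ℝ) : Prop :=
  ∃ (c : ℕ → ℕ) (S : Finset ℕ) (W : (Fin n → G) → ℝ) (Δ : Fin n → (Fin n → G) → ℝ),
    c 0 = 0 ∧ Monotone c ∧ c n = K ∧ S ⊆ range n ∧
    (∀ i ∈ S, Rich (Nlin q g) (c i) (c (i + 1)) κt) ∧ (∀ ω, |W ω| ≤ 2) ∧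
    (∀ i ω, |Δ i ω| ≤ 2) ∧ (∀ ω, W ω = ∑ i, Δ i ω) ∧
    (∀ i : Fin n, (i : ℕ) ∈ S → BalAt i (Nlin q g (c i) (c (i + 1))) (Δ i)) ∧
    (∀ i : Fin n, (i : ℕ) ∉ S → ∀ ω, Δ i ω = 0) ∧ ∀ m, V m = W (fun j => zz q g c j m)

omit [Fintype G] in
/-- the pieces below `K` are periodic modulo `Qr q 0 K` -/
private theorem tu_zz {q : ℕ → ℕ} (g : ℕ → ℕ → G) {B K n : ℕ} (hq : Rad B q) {c : ℕ → ℕ}
    (hc : Monotone c) (hcn : c n = K) (j : Fin n) (m : ℕ) :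
    zz q g c j (m + Qr q 0 K) = zz q g c j m := by
  have h1 : c (j + 1) ≤ K := by
    rw [← hcn]
    exact hc j.2
  have h2 : c j ≤ c (j + 1) := hc (Nat.le_succ _)
  have h3 : Qr q 0 K = Qr q 0 (c j) * Qr q (c j) (K - c j) := by
    have h3 := Qr_add q 0 (c j) (K - c j)
    rw [zero_add] at h3
    rw [← h3]
    congr 1
    omega
  have h4 : ∀ x, hw q g (c j) (c (j + 1) - c j) (x % Qr q 0 K / Qr q 0 (c j)) =
      hw q g (c j) (c (j + 1) - c j) (x / Qr q 0 (c j)) := by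
    intro x
    rw [h3, Nat.mod_mul_right_div_self, PieceA_hw_mod_big hq (c j) (by omega)]
  unfold zz
  rw [← h4 (m + Qr q 0 K), ← h4 m, Nat.add_mod_right]

/-- PROOF: `zz q g c j` with `c (j + 1) ≤ K` depends on `m % Qr q 0 K` only. -/
theorem UnsP_per {q : ℕ → ℕ} {g : ℕ → ℕ → G} {B K n κt : ℕ} (hq : Rad B q) {V : ℕ → ℝ}
    (h : UnsP q g K n κt V) : (∀ m, |V m| ≤ 2) ∧ ∀ m, V (m + Qr q 0 K) = V m := by
  obtain ⟨c, S, W, Δ, -, hc, hcn, -, -, hW, -, -, -, -, hV⟩ := h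
  refine ⟨fun m => by rw [hV]; exact hW _, fun m => ?_⟩
  rw [hV, hV]
  congr 1
  funext j
  exact tu_zz g hq hc hcn j m

/-- adapt `LU.pair_one` (file LU/Pair.lean) with `mixT` in place of `PS.mixA` -/
theorem pair_oneT {q : ℕ → ℕ} {g₁ g₂ : ℕ → ℕ → G} {B p r k : ℕ} (hq : Rad B q) (hg₁ : Neu g₁)
    (hg₂ : Neu g₂) (hp : 2 ≤ p) (hpr : p + 2 ≤ r)
    (hr : r.Prime) (hrq : ∀ j, ¬ r ∣ q j) (hk : p * r < 2 ^ k)
    (hG : Fintype.card (G × G) < r) {c₁ c₂ : ℕ → ℕ} (hc₁0 : c₁ 0 = 0) (hc₁ : Monotone c₁)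
    (hc₂0 : c₂ 0 = 0) (hc₂ : Monotone c₂) {n n₂ K κ : ℕ} (hKc : K ≤ c₁ n)
    (i : Fin n₂) (hiK : c₂ (i + 1) ≤ K)
    (hR : Rich (Nlin q g₂) (c₂ i) (c₂ (i + 1))
      ((n + 2) * ((5 * k + 1) * (κ + 1)) ^ Fintype.card (G × G)))
    (V : (Fin n → G) → ℝ) (hV : ∀ ω, |V ω| ≤ 2) (Δ : (Fin n₂ → G) → ℝ) (hΔ : ∀ ω, |Δ ω| ≤ 2)
    (hbal : BalAt i (Nlin q g₂ (c₂ i) (c₂ (i + 1))) Δ) (θ : ℝ) (s₁ s₂ : ℕ) :
    ‖∑ v ∈ range (Qr q 0 K), ((V (fun j => zz q g₁ c₁ j (p * v + s₁)) *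
        Δ (fun j => zz q g₂ c₂ j (r * v + s₂)) : ℝ) : ℂ) * ev (θ * v)‖ ≤
      4 * (Fintype.card (G × G) : ℝ) * √(rhoT (G × G) B k ^ κ) * Qr q 0 K := by
  classical
  obtain ⟨i₁, hi₁, a', b', h1, h2, h3, h4, h5, h6, h7⟩ := LU.rich_two
    (Nf := Nlin q g₂) (Nf' := Nlin q (LU.gg g₁ g₂)) (fun a b a' b' e1 e2 => Nlin_mono e1 e2)
    (fun a b a' b' e1 e2 => Nlin_mono e1 e2)
    (M := (5 * k + 1) * (κ + 1)) (Nat.mul_pos (by omega) (by omega)) hR hc₁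
    (by rw [hc₁0]; exact Nat.zero_le _) (hiK.trans hKc)
  have hsp : Spaced (Nlin q (LU.gg g₁ g₂)) k a' b' κ := spaced_of_rich h7 le_rfl
  obtain ⟨Φ, hΦ1, hΦ2, -⟩ := LU.rep_sub (g := g₁) hq hc₁0 hc₁ (⟨i₁, by omega⟩ : Fin n)
    (a' := a') (b' := b') h4 h2 h5 V
  obtain ⟨Ψ, hΨ1, hΨ2, hΨ3⟩ := LU.rep_sub (g := g₂) hq hc₂0 hc₂ i (a' := a') (b' := b') h1 h2 h3 Δ
  have hb : ∀ l (γ : G × G) u, ∑ ν : G × G,
      (if ν ∈ Nlin q (LU.gg g₁ g₂) a' b' then Ψ l (γ * ν).2 u else 0) = 0 := by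
    intro l γ u
    refine LU.bal_snd (N := Nlin q g₂ (c₂ i) (c₂ (i + 1))) (by rw [LU.Nlin_gg, h6])
      (fun ν => Ψ l (γ.2 * ν) u) (hΨ3 hbal l γ.2 u)
  have h := mixT (g := LU.gg g₁ g₂) hq (LU.Neu_gg hg₁ hg₂) hp hpr hr hrq hk hG h2
    (h3.trans hiK) hsp
    (fun l γ u => Φ l γ.1 u) (fun l γ u => Ψ l γ.2 u) (fun l γ u => hΦ2 2 hV l γ.1 u)
    (fun l γ u => hΨ2 2 hΔ l γ.2 u) hb
    (fun x => V (fun j => zz q g₁ c₁ j x)) (fun x => Δ (fun j => zz q g₂ c₂ j x))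
    (fun x => by rw [LU.hw_gg]; exact hΦ1 x) (fun x => by rw [LU.hw_gg]; exact hΨ1 x) θ s₁ s₂
  exact h

/-- adapt `LU.uns_pair` (file LU/Uns.lean) -/
theorem uns_pairT {q : ℕ → ℕ} {g₁ g₂ : ℕ → ℕ → G} {B p r k : ℕ} (hq : Rad B q) (hg₁ : Neu g₁)
    (hg₂ : Neu g₂) (hp : 2 ≤ p) (hpr : p + 2 ≤ r) (hr : r.Prime) (hrq : ∀ j, ¬ r ∣ q j)
    (hk : p * r < 2 ^ k) (hG : Fintype.card (G × G) < r) {K n κ : ℕ} {V₁ V₂ : ℕ → ℝ}
    (h₁ : UnsP q g₁ K n ((n + 2) * ((5 * k + 1) * (κ + 1)) ^ Fintype.card (G × G)) V₁)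
    (h₂ : UnsP q g₂ K n ((n + 2) * ((5 * k + 1) * (κ + 1)) ^ Fintype.card (G × G)) V₂)
    (θ : ℝ) (s₁ s₂ : ℕ) :
    ‖∑ v ∈ range (Qr q 0 K), ((V₁ (p * v + s₁) * V₂ (r * v + s₂) : ℝ) : ℂ) * ev (θ * v)‖ ≤
      (n * (4 * (Fintype.card (G × G) : ℝ) * √(rhoT (G × G) B k ^ κ))) * Qr q 0 K := by
  obtain ⟨c₁, S₁, W₁, Δ₁, a2, a3, a4, a5, a6, a7, a8, a9, a10, a11, a12⟩ := h₁
  obtain ⟨c₂, S₂, W₂, Δ₂, b2, b3, b4, b5, b6, b7, b8, b9, b10, b11, b12⟩ := h₂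
  have hC : 0 ≤ 4 * (Fintype.card (G × G) : ℝ) * √(rhoT (G × G) B k ^ κ) * Qr q 0 K := by
    positivity
  have hterm : ∀ i : Fin n,
      ‖∑ v ∈ range (Qr q 0 K), ((W₁ (fun j => zz q g₁ c₁ j (p * v + s₁)) *
        Δ₂ i (fun j => zz q g₂ c₂ j (r * v + s₂)) : ℝ) : ℂ) * ev (θ * v)‖ ≤
      4 * (Fintype.card (G × G) : ℝ) * √(rhoT (G × G) B k ^ κ) * Qr q 0 K := by
    intro i
    by_cases hi : (i : ℕ) ∈ S₂
    · exact pair_oneT hq hg₁ hg₂ hp hpr hr hrq hk hG a2 a3 b2 b3 (le_of_eq a4.symm) i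
        (by rw [← b4]; exact b3 i.2) (b6 i hi) W₁ a7 (Δ₂ i) (b8 i) (b10 i hi) θ s₁ s₂
    · have h0 : ∀ v ∈ range (Qr q 0 K),
          ((W₁ (fun j => zz q g₁ c₁ j (p * v + s₁)) *
            Δ₂ i (fun j => zz q g₂ c₂ j (r * v + s₂)) : ℝ) : ℂ) * ev (θ * v) = 0 := by
        intro v _
        rw [b11 i hi, mul_zero, Complex.ofReal_zero, zero_mul]
      rw [Finset.sum_eq_zero h0, norm_zero]
      exact hC
  have hexp : ∑ v ∈ range (Qr q 0 K), ((V₁ (p * v + s₁) * V₂ (r * v + s₂) : ℝ) : ℂ) * ev (θ * v) =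
      ∑ i : Fin n, ∑ v ∈ range (Qr q 0 K),
        ((W₁ (fun j => zz q g₁ c₁ j (p * v + s₁)) *
          Δ₂ i (fun j => zz q g₂ c₂ j (r * v + s₂)) : ℝ) : ℂ) * ev (θ * v) := by
    rw [Finset.sum_comm]
    refine Finset.sum_congr rfl fun v _ => ?_
    rw [← Finset.sum_mul, ← Complex.ofReal_sum, ← Finset.mul_sum, a12, b12, ← b9]
  rw [hexp]
  calc _ ≤ ∑ i : Fin n, ‖∑ v ∈ range (Qr q 0 K),
        ((W₁ (fun j => zz q g₁ c₁ j (p * v + s₁)) *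
          Δ₂ i (fun j => zz q g₂ c₂ j (r * v + s₂)) : ℝ) : ℂ) * ev (θ * v)‖ := norm_sum_le _ _
    _ ≤ ∑ _i : Fin n, 4 * (Fintype.card (G × G) : ℝ) * √(rhoT (G × G) B k ^ κ) * Qr q 0 K :=
        Finset.sum_le_sum fun i _ => hterm i
    _ = _ := by
        rw [Finset.sum_const, Finset.card_univ, Fintype.card_fin, nsmul_eq_mul]
        ring

/-- the decomposition of one digit product; the number of pieces is chosen before the function `F`. Adapt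
`LU.exists_parts` (file LU/Uns.lean) with `L = K` (no `extend_dec` needed: `c' = c`). `R` here is one more than the
number of pieces of `LU.dec_growth`. -/
theorem parts_first (G : Type) [Group G] [Fintype G] (B : ℕ) (f : ℕ → ℕ) :
    ∃ R : ℕ, ∀ q : ℕ → ℕ, Rad B q → ∀ g : ℕ → ℕ → G, Neu g → ∀ K : ℕ, ∃ n ≤ R,
      ∀ F : G → ℝ, (∀ x, |F x| ≤ 1) → ∃ U V : ℕ → ℝ, (∀ m, F (hw q g 0 K m) = U m + V m) ∧
        Str (Fintype.card G * B.factorial) R U ∧ (∀ m, U (m + Qr q 0 K) = U m) ∧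
        UnsP q g K n (f n) V := by
  classical
  obtain ⟨R, hR⟩ := LU.dec_growth G f
  refine ⟨R + 1, fun q hq g hg K => ?_⟩
  obtain ⟨n, hnR, c, hc0, hcn, hc, S, hSn, hSs, hSr⟩ :=
    hR (Nlin q g) (fun a b a' b' h1 h2 => Nlin_mono h1 h2) K
  refine ⟨n, by omega, fun F hF => ?_⟩
  obtain ⟨We, Δ, hWe, hinv, hsum, hΔ, hbal, hzero⟩ := exists_split (n := n)
    (fun i => if (i : ℕ) ∈ S then Nlin q g (c i) (c (i + 1)) else ⊥)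
    (fun ω => F (List.ofFn ω).prod) (fun ω => hF _)
  obtain ⟨Ψ, hΨ, hΨe⟩ := str_rep hq hg hc0 hc (n := n) S hSs We hWe (by
    intro i hi
    have := hinv i
    rwa [if_pos hi] at this)
  have hV2 : ∀ ω, |∑ i, Δ i ω| ≤ 2 := by
    intro ω
    have h1 := hsum ω
    have h2 : ∑ i, Δ i ω = F (List.ofFn ω).prod - We ω := by linarith
    rw [h2]
    have h3 := hF (List.ofFn ω).prod
    have h4 := hWe ω
    exact (abs_sub _ _).trans (by linarith)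
  refine ⟨fun m => We (fun j => zz q g c j m),
    fun m => ∑ i, Δ i (fun j => zz q g c j m), ?_, ?_, ?_, ?_⟩
  · intro m
    show F (hw q g 0 K m) = We (fun j => zz q g c j m) + ∑ i, Δ i (fun j => zz q g c j m)
    rw [← hsum (fun j => zz q g c j m), ← hcn, ← zz_prod q g hc0 hc n m]
  · exact ⟨n + 1, by omega, fun j => Qr q 0 (c j), fun j => Qr_pos hq _ _, Ψ, hΨ, hΨe⟩
  · intro m
    show We (fun j => zz q g c j (m + Qr q 0 K)) = We (fun j => zz q g c j m)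
    congr 1
    funext j
    exact tu_zz g hq hc hcn j m
  · refine ⟨c, S, fun ω => ∑ i, Δ i ω, Δ, hc0, hc, hcn, hSn, hSr, hV2,
      hΔ, fun _ => rfl, ?_, ?_, fun m => rfl⟩
    · intro i hi
      have := hbal i
      rwa [if_pos hi] at this
    · intro i hi ω
      exact hzero i (if_neg hi) ω

end Pool.Agent.Lib.MP_3e612f_nt.LV
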